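import Pool.Agent.LibQuart.BT

open scoped Classical
open Polynomial
open scoped Polynomial.Bivariate

namespace Pool.Agent.LibQuart

open Pool.Agent.LibBH2

/-! ## Block A: Lemma A -/

section A
variable {k κ : Type} [Field k] [IsAlgClosed k] [Field κ] [IsAlgClosed κ] {R : Red k κ}
  {f : R.O[X][Y]} {K K' : Type} [Field K] [Algebra k K] [Field K'] [Algebra κ K'] {x y : K} {x' y' : K'}

/-- number of points of the (multi)set `{(a, b)}` at which `v` is centred -/
noncomputable def ind {k K : Type} [Field k] [Field K] [Algebra k K] (v : Place k K) (x y : K)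
    (P : k × k) : ℤ := if Cen v x y P.1 P.2 then 1 else 0

/-- the data of Lemma A: three pairs of close points on the curve -/
structure Pairs (R : Red k κ) (f : R.O[X][Y]) (P P' : Fin 3 → R.O × R.O) : Prop where
  on : ∀ i, f.evalEval (P i).1 (P i).2 = 0
  on' : ∀ i, f.evalEval (P' i).1 (P' i).2 = 0
  close : ∀ i, R.N (((P' i).1 : k) - (P i).1) ≤ 1 / 4
  red1 : ∀ i, R.red (P' i).1 = R.red (P i).1
  red2 : ∀ i, R.red (P' i).2 = R.red (P i).2
  dy : ∀ i, dY (R.dn f) (R.red (P i).1) (R.red (P i).2) ≠ 0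
  nc : (R.red (P 1).1 - R.red (P 0).1) * (R.red (P 2).2 - R.red (P 0).2) -
    (R.red (P 1).2 - R.red (P 0).2) * (R.red (P 2).1 - R.red (P 0).1) ≠ 0

/-! ### A1 -/
/-- In the disc of `P i`: `x - x(P i)` has order `ind v (P i)` (`ord_x`, `disc_inj`, `cen_ord_zero`). -/
theorem ord_in_disc (h : GR R f x y x' y') {a b c d : R.O} (h1 : f.evalEval a b = 0)
    (h2 : f.evalEval c d = 0) (e1 : R.red c = R.red a) (e2 : R.red d = R.red b)
    (hd : dY (R.dn f) (R.red a) (R.red b) ≠ 0) {v : Place k K} (hv : Cen v x y (c : k) (d : k)) :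
    v.ord (x - algebraMap k K (a : k)) = ind v x y ((a : k), (b : k)) := by
  by_cases hac : (a : k) = (c : k)
  · have hac' : a = c := Subtype.ext hac
    subst hac'
    have hbd : b = d := disc_inj R h1 h2 e2.symm hd
    subst hbd
    have hup : (R.up f).evalEval (a : k) (b : k) = 0 := by
      rw [up_evalEval, h1]; rfl
    have hdY : dY (R.up f) (a : k) (b : k) ≠ 0 := by
      rw [dY_up]
      intro h0
      apply hd
      rw [dY_dn]
      have : dY f a b = 0 := Subtype.ext h0
      rw [this, map_zero]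
    rw [ord_x (qt_map _ h.qt) h.ff hup hdY hv]
    unfold ind
    rw [if_pos hv]
  · have h0 : ¬ Cen v x y (a : k) (b : k) := by
      intro hc
      exact hac (Place.val_unique hc.1 hv.1)
    have hz : v.Zer ((x - algebraMap k K (a : k)) - algebraMap k K ((c : k) - (a : k))) := by
      have : (x - algebraMap k K (a : k)) - algebraMap k K ((c : k) - (a : k))
          = x - algebraMap k K (c : k) := by
        rw [map_sub]; ring
      rw [this]
      exact hv.1
    rw [Place.ord_eq_zero_of_val hz (sub_ne_zero.2 (Ne.symm hac))]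
    unfold ind
    rw [if_neg h0]

/-! ### A2 -/
theorem a2_x_ne {g : k[X][Y]} (hf : Qt g) (h : FF g x y) (c : k) :
    x - algebraMap k K c ≠ 0 := by
  intro h0
  apply ff_transcendental hf h
  exact ⟨X - C c, X_sub_C_ne_zero c, by simpa using h0⟩

theorem a2_red_ne {P P' : Fin 3 → R.O × R.O} (hP : Pairs R f P P') {i j : Fin 3} (hij : i ≠ j) :
    ¬ (R.red (P i).1 = R.red (P j).1 ∧ R.red (P i).2 = R.red (P j).2) := by
  rintro ⟨h1, h2⟩
  apply hP.nc
  fin_cases i <;> fin_cases j <;> simp only [Fin.zero_eta, Fin.mk_one, Fin.reduceFinMk] at h1 h2 hij <;>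
    first
      | exact absurd rfl hij
      | (rw [h1, h2]; ring)

/-- at a place centred at an integral point of the curve, the indicator of a point of the curve with
another reduction vanishes -/
theorem a2_ind_zero {a b c d : R.O} {v : Place k K} (hv : Cen v x y (a : k) (b : k))
    (hne : ¬ (R.red a = R.red c ∧ R.red b = R.red d)) :
    ind v x y ((c : k), (d : k)) = 0 := by
  unfold ind
  rw [if_neg]
  intro hc
  have e1 : a = c := Subtype.ext (Place.val_unique hv.1 hc.1)
  have e2 : b = d := Subtype.ext (Place.val_unique hv.2 hc.2)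
  exact hne ⟨by rw [e1], by rw [e2]⟩

theorem a2_up {a b : R.O} (hab : f.evalEval a b = 0) : (R.up f).evalEval (a : k) (b : k) = 0 := by
  rw [up_evalEval, hab]; rfl

/-- `h / w_i`, `w_i = ((x - x(P' i))/(x - x(P i))) ^ (m i)`, has order 0 at every place centred in the
disc of `P i` (A1; the points of the other pairs are in other discs because the reductions of the
three points are different by `nc`), so it is regular at all points of the disc; the same for its inverse. -/
theorem unit_in_disc (h : GR R f x y x' y') {P P' : Fin 3 → R.O × R.O} (hP : Pairs R f P P')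
    {m : Fin 3 → ℕ} {φ : K} (hφ : φ ≠ 0)
    (hdiv : ∀ v : Place k K, v.ord φ = ∑ i, (m i : ℤ) *
      (ind v x y (((P' i).1 : k), ((P' i).2 : k)) - ind v x y (((P i).1 : k), ((P i).2 : k))))
    (i : Fin 3) {a b : R.O} (hab : f.evalEval a b = 0) (e1 : R.red a = R.red (P i).1)
    (e2 : R.red b = R.red (P i).2) :
    Rg x y (a : k) (b : k)
      (φ / ((x - algebraMap k K ((P' i).1 : k)) / (x - algebraMap k K ((P i).1 : k))) ^ (m i)) := by
  have hQ : Qt (R.up f) := qt_map _ h.qt
  have hup : (R.up f).evalEval (a : k) (b : k) = 0 := a2_up hab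
  have hsm := h.sm _ _ hup
  obtain ⟨v, hv⟩ := place_exists hQ h.ff hup hsm
  have hx1 : x - algebraMap k K ((P' i).1 : k) ≠ 0 := a2_x_ne hQ h.ff _
  have hx2 : x - algebraMap k K ((P i).1 : k) ≠ 0 := a2_x_ne hQ h.ff _
  have hw : (x - algebraMap k K ((P' i).1 : k)) / (x - algebraMap k K ((P i).1 : k)) ≠ 0 :=
    div_ne_zero hx1 hx2
  rw [rg_iff hQ h.ff hup hsm hv (div_ne_zero hφ (pow_ne_zero _ hw))]
  have hd' : dY (R.dn f) (R.red (P' i).1) (R.red (P' i).2) ≠ 0 := by
    rw [hP.red1 i, hP.red2 i]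
    exact hP.dy i
  have o1 : v.ord (x - algebraMap k K ((P' i).1 : k)) = ind v x y (((P' i).1 : k), ((P' i).2 : k)) :=
    ord_in_disc h (hP.on' i) hab (by rw [e1, hP.red1 i]) (by rw [e2, hP.red2 i]) hd' hv
  have o2 : v.ord (x - algebraMap k K ((P i).1 : k)) = ind v x y (((P i).1 : k), ((P i).2 : k)) :=
    ord_in_disc h (hP.on i) hab e1 e2 (hP.dy i) hv
  have hsum : v.ord φ = (m i : ℤ) *
      (ind v x y (((P' i).1 : k), ((P' i).2 : k)) - ind v x y (((P i).1 : k), ((P i).2 : k))) := by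
    rw [hdiv v]
    apply Finset.sum_eq_single i
    · intro j _ hji
      have hne : ¬ (R.red a = R.red (P j).1 ∧ R.red b = R.red (P j).2) := by
        rintro ⟨h1, h2⟩
        exact a2_red_ne hP (Ne.symm hji) ⟨by rw [← e1, h1], by rw [← e2, h2]⟩
      rw [a2_ind_zero hv hne, a2_ind_zero hv (by rw [hP.red1 j, hP.red2 j]; exact hne)]
      ring
    · intro hi
      exact absurd (Finset.mem_univ i) hi
  rw [v.ord_div _ _ hφ (pow_ne_zero _ hw), v.ord_pow, v.ord_div _ _ hx1 hx2, o1, o2, hsum, sub_self]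

/-! ### A3 -/
theorem a3_cen_unique {v : Place k K} {a b c d : k} (h1 : Cen v x y a b) (h2 : Cen v x y c d) :
    a = c ∧ b = d := ⟨v.val_unique h1.1 h2.1, v.val_unique h1.2 h2.2⟩

theorem a3_ind {v : Place k K} {a b : k} (h : ¬ Cen v x y a b) : ind v x y (a, b) = 0 := by
  unfold ind
  exact if_neg h

/-- outside the three discs `φ` is regular: affine integral points -/
theorem reg_outside (h : GR R f x y x' y') {P P' : Fin 3 → R.O × R.O} (hP : Pairs R f P P')
    {m : Fin 3 → ℕ} {φ : K} (hφ : φ ≠ 0)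
    (hdiv : ∀ v : Place k K, v.ord φ = ∑ i, (m i : ℤ) *
      (ind v x y (((P' i).1 : k), ((P' i).2 : k)) - ind v x y (((P i).1 : k), ((P i).2 : k))))
    {a b : R.O} (hab : f.evalEval a b = 0)
    (hne : ∀ i, ¬ (R.red a = R.red (P i).1 ∧ R.red b = R.red (P i).2)) :
    Rg x y (a : k) (b : k) φ := by
  have hq : Qt (R.up f) := qt_map R.O.subtype h.qt
  have hab' : (R.up f).evalEval (a : k) (b : k) = 0 := by
    rw [up_evalEval, hab]
    rfl
  obtain ⟨v, hv⟩ := place_exists hq h.ff hab' (h.sm _ _ hab')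
  rw [rg_iff hq h.ff hab' (h.sm _ _ hab') hv hφ, hdiv v]
  apply Finset.sum_nonneg
  intro i _
  have h1 : ind v x y (((P i).1 : k), ((P i).2 : k)) = 0 := by
    apply a3_ind
    intro hc
    obtain ⟨e1, e2⟩ := a3_cen_unique hv hc
    refine hne i ⟨?_, ?_⟩
    · rw [Subtype.ext e1]
    · rw [Subtype.ext e2]
  have h2 : ind v x y (((P' i).1 : k), ((P' i).2 : k)) = 0 := by
    apply a3_ind
    intro hc
    obtain ⟨e1, e2⟩ := a3_cen_unique hv hc
    refine hne i ⟨?_, ?_⟩
    · rw [Subtype.ext e1, hP.red1]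
    · rw [Subtype.ext e2, hP.red2]
  rw [h1, h2]
  simp

theorem a3_inv {v : Place k K} {a b c d : k} (hx : x ≠ 0) (h1 : Cen v x⁻¹ (y * x⁻¹) a b)
    (h2 : Cen v x y c d) : c * a = 1 := by
  have h3 := v.val_mul h2.1 h1.1
  rw [mul_inv_cancel₀ hx] at h3
  have h4 : v.Zer ((1 : K) - algebraMap k K 1) := by
    rw [map_one, sub_self]
    exact v.zer_zero
  exact v.val_unique h3 h4

/-- points reducing to infinity: a point `(a, b)` of the chart at infinity with `red a = 0`; if `a ≠ 0`
it is the affine point `(a⁻¹, b a⁻¹)`, `N a⁻¹ > 1`, so it is none of the `P i, P' i`. -/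
theorem reg_infinity (h : GR R f x y x' y') {P P' : Fin 3 → R.O × R.O} (hP : Pairs R f P P')
    {m : Fin 3 → ℕ} {φ : K} (hφ : φ ≠ 0)
    (hdiv : ∀ v : Place k K, v.ord φ = ∑ i, (m i : ℤ) *
      (ind v x y (((P' i).1 : k), ((P' i).2 : k)) - ind v x y (((P i).1 : k), ((P i).2 : k))))
    {a b : R.O} (hab : (flip 4 f).evalEval a b = 0) (ha : R.red a = 0) :
    Rg x⁻¹ (y * x⁻¹) (a : k) (b : k) φ := by
  have hx : x ≠ 0 := ff_ne_zero (qt_map R.O.subtype h.qt : Qt (R.up f)) h.ff
  have h' := gr_flip h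
  have hq : Qt (R.up (flip 4 f)) := qt_map R.O.subtype h'.qt
  have hab' : (R.up (flip 4 f)).evalEval (a : k) (b : k) = 0 := by
    rw [up_evalEval, hab]
    rfl
  obtain ⟨v, hv⟩ := place_exists hq h'.ff hab' (h'.sm _ _ hab')
  rw [rg_iff hq h'.ff hab' (h'.sm _ _ hab') hv hφ, hdiv v]
  have key : ∀ Q : R.O × R.O, ind v x y ((Q.1 : k), (Q.2 : k)) = 0 := by
    intro Q
    apply a3_ind
    intro hc
    have h1 : (Q.1 : k) * (a : k) = 1 := a3_inv hx hv hc
    have h2 : Q.1 * a = 1 := Subtype.ext h1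
    have h3 : R.red Q.1 * R.red a = 1 := by rw [← map_mul, h2, map_one]
    rw [ha, mul_zero] at h3
    exact zero_ne_one h3
  apply Finset.sum_nonneg
  intro i _
  rw [key, key]
  simp

/-! ### A4 -/
/-- General regularity of a reduction: let `θ = α φ + β` (`α, β : k`) be Gauss-integral with reduction
`θ'`, and for each `i` let `θ = α u_i w_i + β` ... ; here only the part outside the three discs:
`θ'` is regular at every point of the reduced curve other than the reductions of the `P i`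
(`lemma_R` with `reg_outside`; at infinity `lemma_R` in the flipped chart, `gr_flip`, `rd_flip`,
`reg_infinity`). -/
theorem reduction_regular (h : GR R f x y x' y') {P P' : Fin 3 → R.O × R.O} (hP : Pairs R f P P')
    {m : Fin 3 → ℕ} {φ : K} (hφ : φ ≠ 0)
    (hdiv : ∀ v : Place k K, v.ord φ = ∑ i, (m i : ℤ) *
      (ind v x y (((P' i).1 : k), ((P' i).2 : k)) - ind v x y (((P i).1 : k), ((P i).2 : k))))
    (α β : k) {θ' : K'} (hθ : R.Rd x y x' y' (algebraMap k K α * φ + algebraMap k K β) θ') :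
    (∀ u w, (R.dn f).evalEval u w = 0 → (∀ i, (u, w) ≠ (R.red (P i).1, R.red (P i).2)) →
      Rg x' y' u w θ') ∧
    ∀ w, (flip 4 (R.dn f)).evalEval 0 w = 0 → Rg x'⁻¹ (y' * x'⁻¹) 0 w θ' := by
  refine ⟨fun u w _ hne => lemma_R h hθ fun a b hab hau hbw => ?_, fun w _ =>
    lemma_R (gr_flip h) ((rd_flip h _ _).mpr hθ) fun a b hab hau _ => ?_⟩
  · refine rg_add (rg_mul (rg_const _ _ α) (reg_outside h hP hφ hdiv hab fun i hi => ?_))
      (rg_const _ _ β)
    apply hne i
    rw [← hau, ← hbw, hi.1, hi.2]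
  · exact rg_add (rg_mul (rg_const _ _ α) (reg_infinity h hP hφ hdiv hab hau)) (rg_const _ _ β)

/-! ### A5 -/
/-- At the reduction of `P i`. Let `θ = α φ + β` be Gauss-integral with reduction `θ'`, `w_i` as in
`unit_in_disc`, `u = φ / w_i`. Suppose `α u (w_i - 1)` has reduction `ρ`. Then `θ - α u (w_i - 1) = α u + β`
has reduction `θ' - ρ` and is regular on the disc, so `θ' - ρ` is regular at the reduction of `P i`. -/
theorem reduction_at (h : GR R f x y x' y') {P P' : Fin 3 → R.O × R.O} (hP : Pairs R f P P')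
    {m : Fin 3 → ℕ} {φ : K} (hφ : φ ≠ 0)
    (hdiv : ∀ v : Place k K, v.ord φ = ∑ i, (m i : ℤ) *
      (ind v x y (((P' i).1 : k), ((P' i).2 : k)) - ind v x y (((P i).1 : k), ((P i).2 : k))))
    (α β : k) {θ' ρ : K'} (hθ : R.Rd x y x' y' (algebraMap k K α * φ + algebraMap k K β) θ') (i : Fin 3)
    {w : K} (hw : w = ((x - algebraMap k K ((P' i).1 : k)) / (x - algebraMap k K ((P i).1 : k))) ^ (m i))
    (hρ : R.Rd x y x' y' (algebraMap k K α * (φ / w) * (w - 1)) ρ) :
    Rg x' y' (R.red (P i).1) (R.red (P i).2) (θ' - ρ) := by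
  have hq : Qt (R.up f) := qt_map _ h.qt
  have ht := ff_transcendental hq h.ff
  have hne : ∀ c : k, x - algebraMap k K c ≠ 0 := fun c hc => by
    apply ht
    rw [sub_eq_zero.mp hc]
    exact isAlgebraic_algebraMap c
  have hw0 : w ≠ 0 := by
    rw [hw]
    exact pow_ne_zero _ (div_ne_zero (hne _) (hne _))
  refine lemma_R h (rd_sub h hθ hρ) fun a b hab hau hbw => ?_
  have e : algebraMap k K α * φ + algebraMap k K β - algebraMap k K α * (φ / w) * (w - 1) =
      algebraMap k K α * (φ / w) + algebraMap k K β := by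
    field_simp
    ring
  rw [e, hw]
  exact rg_add (rg_mul (rg_const _ _ α) (unit_in_disc h hP hφ hdiv i hab hau hbw)) (rg_const _ _ β)

/-! ### A6 -/
/-- After scaling `φ` has constant nonzero reduction: `rd_scale`, `reduction_regular`, `reduction_at`
with `ρ = 0` (`ratio_one`), `const_of_regular`. -/
theorem reduction_const (h : GR R f x y x' y') {P P' : Fin 3 → R.O × R.O} (hP : Pairs R f P P')
    {m : Fin 3 → ℕ} {φ : K} (hφ : φ ≠ 0)
    (hdiv : ∀ v : Place k K, v.ord φ = ∑ i, (m i : ℤ) *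
      (ind v x y (((P' i).1 : k), ((P' i).2 : k)) - ind v x y (((P i).1 : k), ((P i).2 : k)))) :
    ∃ (c : k) (γ : κ), c ≠ 0 ∧ γ ≠ 0 ∧
      R.Rd x y x' y' (algebraMap k K c * φ) (algebraMap κ K' γ) := by
  obtain ⟨c, ψ, hc, hψ, hrd⟩ := rd_scale h hφ
  have hrd' : R.Rd x y x' y' (algebraMap k K c * φ + algebraMap k K 0) ψ := by
    rw [map_zero, add_zero]
    exact hrd
  obtain ⟨h1, h2⟩ := reduction_regular h hP hφ hdiv c 0 hrd'
  have hq : Qt (R.dn f) := qt_map _ h.qt
  have hall : ∀ u w, (R.dn f).evalEval u w = 0 → Rg x' y' u w ψ := by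
    intro u w huw
    by_cases hex : ∃ i, (u, w) = (R.red (P i).1, R.red (P i).2)
    · obtain ⟨i, hi⟩ := hex
      have hw := ratio_one h (hP.red1 i) (m i)
      have hwi := rd_inv h hw one_ne_zero
      have h3 := rd_mul h (rd_mul h hrd hwi) (rd_sub h hw (rd_const (x := x) (y := y) (x' := x')
        (y' := y') R 1))
      have h4 : R.Rd x y x' y' (algebraMap k K c * (φ / (((x - algebraMap k K ((P' i).1 : k)) /
          (x - algebraMap k K ((P i).1 : k))) ^ (m i))) * ((((x - algebraMap k K ((P' i).1 : k)) /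
          (x - algebraMap k K ((P i).1 : k))) ^ (m i)) - 1)) 0 := by
        simpa [div_eq_mul_inv, mul_assoc] using h3
      have h5 := reduction_at h hP hφ hdiv c 0 hrd' i rfl h4
      rw [sub_zero] at h5
      have e1 : u = R.red (P i).1 := congrArg Prod.fst hi
      have e2 : w = R.red (P i).2 := congrArg Prod.snd hi
      rw [e1, e2]
      exact h5
    · exact h1 u w huw fun i hi => hex ⟨i, hi⟩
  obtain ⟨γ, hγ⟩ := const_of_regular hq h.ffr hall h2
  refine ⟨c, γ, hc, ?_, hγ ▸ hrd⟩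
  rintro rfl
  exact hψ (by rw [hγ, map_zero])

/-! ### A7 -/
/-- Reductions of `(φ - c) / t`. -/
theorem a7_key (h : GR R f x y x' y') {P P' : Fin 3 → R.O × R.O} (hP : Pairs R f P P')
    {m : Fin 3 → ℕ} {φ : K} (hφ : φ ≠ 0)
    (hdiv : ∀ v : Place k K, v.ord φ = ∑ i, (m i : ℤ) *
      (ind v x y (((P' i).1 : k), ((P' i).2 : k)) - ind v x y (((P i).1 : k), ((P i).2 : k))))
    {γ : κ} (hγ : R.Rd x y x' y' φ (algebraMap κ K' γ)) {c t : k} (ht : t ≠ 0)
    (hle : ∀ i, R.N ((m i : k) * (((P' i).1 : k) - (P i).1)) ≤ R.N t) {θ : K'}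
    (hθ : R.Rd x y x' y' ((φ - algebraMap k K c) / algebraMap k K t) θ) :
    (∀ u w, (R.dn f).evalEval u w = 0 → (∀ i, (u, w) ≠ (R.red (P i).1, R.red (P i).2)) →
      Rg x' y' u w θ) ∧
    (∀ w, (flip 4 (R.dn f)).evalEval 0 w = 0 → Rg x'⁻¹ (y' * x'⁻¹) 0 w θ) ∧
    ∀ i, ∃ r : R.O, (r : k) * t = -((m i : k) * (((P' i).1 : k) - (P i).1)) ∧
      Rg x' y' (R.red (P i).1) (R.red (P i).2) (θ - algebraMap κ K' γ *
        (algebraMap κ K' (R.red r) / (x' - algebraMap κ K' (R.red (P i).1)))) := by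
  have ht' : algebraMap k K t ≠ 0 := by
    rw [Ne, map_eq_zero]; exact ht
  have e : (φ - algebraMap k K c) / algebraMap k K t =
      algebraMap k K t⁻¹ * φ + algebraMap k K (-c * t⁻¹) := by
    rw [map_mul, map_neg, map_inv₀]
    field_simp
    ring
  rw [e] at hθ
  obtain ⟨h1, h2⟩ := reduction_regular h hP hφ hdiv t⁻¹ (-c * t⁻¹) hθ
  refine ⟨h1, h2, fun i => ?_⟩
  obtain ⟨r, hr, hrd⟩ := power_ratio h (hP.close i) (m i) ht (hle i)
  refine ⟨r, hr, reduction_at h hP hφ hdiv t⁻¹ (-c * t⁻¹) hθ i rfl ?_⟩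
  have hw := ratio_one h (hP.red1 i) (m i)
  have h3 := rd_mul h (rd_mul h hγ (rd_inv h hw one_ne_zero)) hrd
  rw [inv_one, mul_one] at h3
  have e2 : algebraMap k K t⁻¹ * (φ / ((x - algebraMap k K ((P' i).1 : k)) /
      (x - algebraMap k K ((P i).1 : k))) ^ (m i)) * (((x - algebraMap k K ((P' i).1 : k)) /
      (x - algebraMap k K ((P i).1 : k))) ^ (m i) - 1) =
      φ * (((x - algebraMap k K ((P' i).1 : k)) / (x - algebraMap k K ((P i).1 : k))) ^ (m i))⁻¹ *
      ((((x - algebraMap k K ((P' i).1 : k)) / (x - algebraMap k K ((P i).1 : k))) ^ (m i) - 1) /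
        algebraMap k K t) := by
    rw [map_inv₀]
    ring
  rw [e2]
  exact h3

omit [IsAlgClosed k] [IsAlgClosed κ] in
theorem a7_zero (R : Red k κ) : R.Rd x y x' y' (0 : K) (0 : K') := by
  have := rd_const (x := x) (y := y) (x' := x') (y' := y') R (0 : R.O)
  simpa using this

omit [IsAlgClosed κ] in
/-- The inverse of `x - a` is not regular at a point `(a, b)` of the curve. -/
theorem a7_pole {g : κ[X][Y]} (h : FF g x' y') {a b : κ} (hab : g.evalEval a b = 0)
    (hx : x' - algebraMap κ K' a ≠ 0) (hr : Rg x' y' a b (x' - algebraMap κ K' a)⁻¹) : False := by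
  obtain ⟨p, q, hq, e⟩ := hr
  have hv : aevalAeval x' y' (C (X - C a) : κ[X][Y]) = x' - algebraMap κ K' a := by
    simp [aevalAeval]
  have h1 : aevalAeval x' y' (q - C (X - C a) * p) = 0 := by
    rw [map_sub, map_mul, hv, ← e, ← mul_assoc, mul_inv_cancel₀ hx, one_mul, sub_self]
  obtain ⟨r, hr⟩ := h.inj _ h1
  have h2 := congrArg (fun s => evalEval a b s) hr
  simp only [evalEval_mul, hab, zero_mul, evalEval_sub] at h2
  rw [show (C (X - C a) : κ[X][Y]).evalEval a b = 0 by simp [evalEval]] at h2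
  apply hq
  simpa using h2

/-- LEMMA A for natural exponents. -/
theorem lemma_A_nat (h : GR R f x y x' y') {P P' : Fin 3 → R.O × R.O} (hP : Pairs R f P P')
    {m : Fin 3 → ℕ} {φ : K} (hφ : φ ≠ 0)
    (hdiv : ∀ v : Place k K, v.ord φ = ∑ i, (m i : ℤ) *
      (ind v x y (((P' i).1 : k), ((P' i).2 : k)) - ind v x y (((P i).1 : k), ((P i).2 : k)))) :
    ∀ i, m i = 0 ∨ P' i = P i := by
  obtain ⟨i₀, -, hmax⟩ := Finset.exists_max_image (Finset.univ : Finset (Fin 3))
    (fun i => R.N ((m i : k) * (((P' i).1 : k) - (P i).1))) ⟨0, Finset.mem_univ _⟩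
  set s : k := (m i₀ : k) * (((P' i₀).1 : k) - (P i₀).1) with hs
  have hle : ∀ i, R.N ((m i : k) * (((P' i).1 : k) - (P i).1)) ≤ R.N s := fun i =>
    hmax i (Finset.mem_univ i)
  by_cases hs0 : s = 0
  · -- all differences are zero
    intro i
    have h1 := hle i
    rw [hs0, map_zero] at h1
    have h2 : (m i : k) * (((P' i).1 : k) - (P i).1) = 0 := by
      by_contra hne
      exact absurd h1 (not_le.2 (R.N.pos hne))
    rcases mul_eq_zero.1 h2 with h3 | h3
    · left
      by_contra hm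
      have h4 := R.nat (m i) hm
      rw [h3, map_zero] at h4
      have h5 : (0 : ℝ) < 1 / (m i : ℝ) := by
        have : (0 : ℝ) < m i := by exact_mod_cast Nat.pos_of_ne_zero hm
        positivity
      linarith
    · right
      have h4 : (P' i).1 = (P i).1 := Subtype.ext (sub_eq_zero.1 h3)
      have h5 : (P i).2 = (P' i).2 := disc_inj R (hP.on i) (by rw [← h4]; exact hP.on' i)
        (hP.red2 i).symm (hP.dy i)
      exact Prod.ext h4 h5.symm
  exfalso
  obtain ⟨c₀, γ, hc₀, hγ0, hγ⟩ := reduction_const h hP hφ hdiv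
  set φ₁ : K := algebraMap k K c₀ * φ with hφ₁
  have hc₀' : algebraMap k K c₀ ≠ 0 := by rw [Ne, map_eq_zero]; exact hc₀
  have hφ₁0 : φ₁ ≠ 0 := mul_ne_zero hc₀' hφ
  have hdiv₁ : ∀ v : Place k K, v.ord φ₁ = ∑ i, (m i : ℤ) *
      (ind v x y (((P' i).1 : k), ((P' i).2 : k)) - ind v x y (((P i).1 : k), ((P i).2 : k))) := by
    intro v
    rw [hφ₁, v.ord_mul _ _ hc₀' hφ, v.ord_const c₀ hc₀, zero_add]
    exact hdiv v
  have hqt : Qt (R.dn f) := qt_map R.red h.qt
  have hx' : ∀ a : κ, x' - algebraMap κ K' a ≠ 0 := by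
    intro a h0
    have h1 := ff_transcendental hqt h.ffr
    apply h1
    rw [sub_eq_zero.1 h0]
    exact isAlgebraic_algebraMap a
  have hon : ∀ i, (R.dn f).evalEval (R.red (P i).1) (R.red (P i).2) = 0 := by
    intro i
    rw [red_evalEval, hP.on i, map_zero]
  obtain ⟨c, hc⟩ := best_const h φ₁
  -- the main case
  have main : ∀ θ : K', R.Rd x y x' y' ((φ₁ - algebraMap k K c) / algebraMap k K s) θ → False := by
    intro θ hθ
    obtain ⟨h1, h2, h3⟩ := a7_key h hP hφ₁0 hdiv₁ hγ hs0 hle hθ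
    have hp : ∀ i, Rg x' y' (R.red (P i).1) (R.red (P i).2)
        ((x' - algebraMap κ K' (R.red (P i).1)) * θ) := by
      intro i
      obtain ⟨r, -, hr⟩ := h3 i
      have h4 : (x' - algebraMap κ K' (R.red (P i).1)) * θ =
          (x' - algebraMap κ K' (R.red (P i).1)) * (θ - algebraMap κ K' γ *
            (algebraMap κ K' (R.red r) / (x' - algebraMap κ K' (R.red (P i).1)))) +
          algebraMap κ K' (γ * R.red r) := by
        rw [map_mul]
        have := hx' (R.red (P i).1)
        field_simp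
        ring
      rw [h4]
      refine rg_add (rg_mul ?_ hr) (rg_const _ _ _)
      have hv : aevalAeval x' y' (C (X - C (R.red (P i).1)) : κ[X][Y]) =
          x' - algebraMap κ K' (R.red (P i).1) := by simp [aevalAeval]
      rw [← hv]
      exact rg_poly _ _ _
    obtain ⟨δ, hδ⟩ := three_points hqt h.smr h.ffr (fun i => (R.red (P i).1, R.red (P i).2)) hon
      hP.dy hP.nc h1 h2 hp
    obtain ⟨r, hr, hreg⟩ := h3 i₀
    have hr1 : r = -1 := by
      apply Subtype.ext
      have h4 : (r : k) * s = (-1) * s := by rw [hr, hs]; ring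
      have h5 := mul_right_cancel₀ hs0 h4
      rw [h5]; simp
    rw [hr1, map_neg, map_one, hδ] at hreg
    have h4 : (x' - algebraMap κ K' (R.red (P i₀).1))⁻¹ = algebraMap κ K' γ⁻¹ *
        ((algebraMap κ K' δ - algebraMap κ K' γ * (algebraMap κ K' (-1) /
          (x' - algebraMap κ K' (R.red (P i₀).1)))) - algebraMap κ K' δ) := by
      have hg : algebraMap κ K' γ ≠ 0 := by rw [Ne, map_eq_zero]; exact hγ0
      rw [map_inv₀, map_neg, map_one]
      have := hx' (R.red (P i₀).1)
      field_simp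
      ring
    refine a7_pole h.ffr (hon i₀) (hx' _) ?_
    rw [h4]
    exact rg_mul (rg_const _ _ _) (rg_sub hreg (rg_const _ _ _))
  rcases hc with hc | ⟨e, θ, he, hθ, hnc⟩
  · refine main 0 ?_
    rw [hc, sub_self, zero_div]
    exact a7_zero R
  rcases lt_or_ge (R.N s) (R.N e) with hlt | hge
  · -- `N s < N e`
    obtain ⟨h1, h2, h3⟩ := a7_key h hP hφ₁0 hdiv₁ hγ he (fun i => (hle i).trans hlt.le) hθ
    have h4 : ∀ i, Rg x' y' (R.red (P i).1) (R.red (P i).2) θ := by
      intro i
      obtain ⟨r, hr, hreg⟩ := h3 i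
      have h5 : R.red r = 0 := by
        rw [R.ker]
        have h6 := congrArg R.N hr
        rw [map_mul, map_neg_eq_map] at h6
        have h7 : R.N (r : k) * R.N e < R.N e := by
          rw [h6]; exact lt_of_le_of_lt (hle i) hlt
        have h8 : 0 < R.N e := R.N.pos he
        by_contra h9
        push Not at h9
        nlinarith
      rw [h5, map_zero, zero_div, mul_zero, sub_zero] at hreg
      exact hreg
    obtain ⟨δ, hδ⟩ := const_of_regular hqt h.ffr (φ := θ) (fun u w huw => by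
      by_cases h5 : ∀ i, (u, w) ≠ (R.red (P i).1, R.red (P i).2)
      · exact h1 u w huw h5
      · push Not at h5
        obtain ⟨i, hi⟩ := h5
        have e1 : u = R.red (P i).1 := congrArg Prod.fst hi
        have e2 : w = R.red (P i).2 := congrArg Prod.snd hi
        rw [e1, e2]
        exact h4 i) h2
    exact hnc δ hδ
  · -- `N e ≤ N s`
    have h1 : e / s ∈ R.O := by
      rw [R.mem_O, map_div₀]
      exact div_le_one_of_le₀ hge (R.N.nonneg _)
    have h2 := rd_mul h (rd_const R ⟨e / s, h1⟩) hθ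
    refine main (algebraMap κ K' (R.red ⟨e / s, h1⟩) * θ) ?_
    have h3 : (φ₁ - algebraMap k K c) / algebraMap k K s = algebraMap k K (e / s) *
        ((φ₁ - algebraMap k K c) / algebraMap k K e) := by
      have hs' : algebraMap k K s ≠ 0 := by rw [Ne, map_eq_zero]; exact hs0
      have he' : algebraMap k K e ≠ 0 := by rw [Ne, map_eq_zero]; exact he
      rw [map_div₀]
      field_simp
    rw [h3]
    exact h2

/-! ### A8 -/
/-- LEMMA A: exchange `P i` and `P' i` when `m i < 0`. -/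
theorem lemma_A (h : GR R f x y x' y') {P P' : Fin 3 → R.O × R.O} (hP : Pairs R f P P')
    {m : Fin 3 → ℤ} {φ : K} (hφ : φ ≠ 0)
    (hdiv : ∀ v : Place k K, v.ord φ = ∑ i, m i *
      (ind v x y (((P' i).1 : k), ((P' i).2 : k)) - ind v x y (((P i).1 : k), ((P i).2 : k)))) :
    ∀ i, m i = 0 ∨ P' i = P i := by
  obtain ⟨Q, hQ⟩ : ∃ Q : Fin 3 → R.O × R.O, ∀ i, Q i = if 0 ≤ m i then P i else P' i := ⟨_, fun _ => rfl⟩
  obtain ⟨Q', hQ'⟩ : ∃ Q' : Fin 3 → R.O × R.O, ∀ i, Q' i = if 0 ≤ m i then P' i else P i := ⟨_, fun _ => rfl⟩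
  have r1 : ∀ i, R.red (Q i).1 = R.red (P i).1 := by
    intro i
    rw [hQ]
    split_ifs
    · rfl
    · exact hP.red1 i
  have r2 : ∀ i, R.red (Q i).2 = R.red (P i).2 := by
    intro i
    rw [hQ]
    split_ifs
    · rfl
    · exact hP.red2 i
  have r1' : ∀ i, R.red (Q' i).1 = R.red (P i).1 := by
    intro i
    rw [hQ']
    split_ifs
    · exact hP.red1 i
    · rfl
  have r2' : ∀ i, R.red (Q' i).2 = R.red (P i).2 := by
    intro i
    rw [hQ']
    split_ifs
    · exact hP.red2 i
    · rfl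
  have hPQ : Pairs R f Q Q' := by
    refine ⟨?_, ?_, ?_, ?_, ?_, ?_, ?_⟩
    · intro i
      rw [hQ]
      split_ifs
      · exact hP.on i
      · exact hP.on' i
    · intro i
      rw [hQ']
      split_ifs
      · exact hP.on' i
      · exact hP.on i
    · intro i
      rw [hQ, hQ']
      split_ifs
      · exact hP.close i
      · rw [AbsoluteValue.map_sub]
        exact hP.close i
    · intro i
      rw [r1, r1']
    · intro i
      rw [r2, r2']
    · intro i
      rw [r1, r2]
      exact hP.dy i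
    · rw [r1, r1, r1, r2, r2, r2]
      exact hP.nc
  have key := lemma_A_nat h hPQ (m := fun i => (m i).natAbs) hφ (by
    intro v
    rw [hdiv v]
    refine Finset.sum_congr rfl fun i _ => ?_
    rw [hQ, hQ']
    split_ifs with h0
    · rw [Int.natCast_natAbs, abs_of_nonneg h0]
    · rw [Int.natCast_natAbs, abs_of_neg (not_le.1 h0)]
      ring)
  intro i
  rcases key i with h1 | h1
  · exact Or.inl (Int.natAbs_eq_zero.1 h1)
  · right
    rw [hQ, hQ'] at h1
    split_ifs at h1
    · exact h1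
    · exact h1.symm

end A

end Pool.Agent.LibQuart
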