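import Pool.Agent.LibQuart.BL

open scoped Classical
open Polynomial
open scoped Polynomial.Bivariate

namespace Pool.Agent.LibQuart

open Pool.Agent.LibBH2

/-! ## Block G: the Gauss valuation and reduction -/

section G
variable {k κ : Type} [Field k] [Field κ] {R : Red k κ} {f : R.O[X][Y]}
  {K K' : Type} [Field K] [Algebra k K] [Field K'] [Algebra κ K'] {x y : K} {x' y' : K'}

/-! ### G1 -/
theorem g1_exists_up (R : Red k κ) {p : k[X][Y]} (h : ∀ i j, R.N ((p.coeff i).coeff j) ≤ 1) :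
    ∃ q : R.O[X][Y], R.up q = p := by
  have h1 : p ∈ Polynomial.lifts (mapRingHom R.O.subtype) := by
    rw [Polynomial.lifts_iff_coeff_lifts]
    intro n
    have h2 : p.coeff n ∈ Polynomial.lifts R.O.subtype := by
      rw [Polynomial.lifts_iff_coeff_lifts]
      intro m
      exact ⟨⟨(p.coeff n).coeff m, (R.mem_O _).mpr (h n m)⟩, rfl⟩
    obtain ⟨q, hq⟩ := (Polynomial.mem_lifts _).mp h2
    exact ⟨q, hq⟩
  obtain ⟨q, hq⟩ := (Polynomial.mem_lifts _).mp h1
  exact ⟨q, hq⟩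

theorem g1_up_coeff (R : Red k κ) (q : R.O[X][Y]) (i j : ℕ) :
    ((R.up q).coeff i).coeff j = (((q.coeff i).coeff j : R.O) : k) := by
  unfold Red.up
  rw [Polynomial.coeff_map, Polynomial.coe_mapRingHom, Polynomial.coeff_map]
  rfl

theorem g1_dn_coeff (R : Red k κ) (q : R.O[X][Y]) (i j : ℕ) :
    ((R.dn q).coeff i).coeff j = R.red ((q.coeff i).coeff j) := by
  unfold Red.dn
  rw [Polynomial.coeff_map, Polynomial.coe_mapRingHom, Polynomial.coeff_map]

/-- Scaling: a nonzero polynomial over `k` is `c` times a polynomial over `O` with nonzero reduction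
(`c` a coefficient of maximal absolute value); `natDegree` is not increased. -/
theorem poly_scale (R : Red k κ) {p : k[X][Y]} (hp : p ≠ 0) :
    ∃ (c : k) (q : R.O[X][Y]), c ≠ 0 ∧ p = C (C c) * R.up q ∧ R.dn q ≠ 0 ∧
      (∀ j, p.coeff j = 0 → q.coeff j = 0) := by
  have hS : (p.support.sigma fun j => (p.coeff j).support).Nonempty := by
    obtain ⟨j, hj⟩ := Polynomial.support_nonempty.mpr hp
    have h1 : p.coeff j ≠ 0 := Polynomial.mem_support_iff.mp hj
    obtain ⟨i, hi⟩ := Polynomial.support_nonempty.mpr h1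
    exact ⟨⟨j, i⟩, Finset.mem_sigma.mpr ⟨hj, hi⟩⟩
  obtain ⟨⟨j₀, i₀⟩, hm, hmax⟩ := Finset.exists_max_image _
    (fun x : (_ : ℕ) × ℕ => R.N ((p.coeff x.1).coeff x.2)) hS
  set c := (p.coeff j₀).coeff i₀ with hc
  have hc0 : c ≠ 0 := Polynomial.mem_support_iff.mp (Finset.mem_sigma.mp hm).2
  have hNc : 0 < R.N c := R.N.pos hc0
  have hle : ∀ i j, R.N ((p.coeff i).coeff j) ≤ R.N c := by
    intro i j
    by_cases h1 : (p.coeff i).coeff j = 0
    · rw [h1, R.N.map_zero]
      exact hNc.le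
    · have h2 : p.coeff i ≠ 0 := by
        intro h2
        rw [h2, Polynomial.coeff_zero] at h1
        exact h1 rfl
      exact hmax ⟨i, j⟩ (Finset.mem_sigma.mpr
        ⟨Polynomial.mem_support_iff.mpr h2, Polynomial.mem_support_iff.mpr h1⟩)
  have hco : ∀ i j, ((C (C c⁻¹) * p).coeff i).coeff j = c⁻¹ * (p.coeff i).coeff j := by
    intro i j
    rw [Polynomial.coeff_C_mul, Polynomial.coeff_C_mul]
  obtain ⟨q, hq⟩ := g1_exists_up R (p := C (C c⁻¹) * p) (by
    intro i j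
    rw [hco, R.N.map_mul, map_inv₀, inv_mul_le_one₀ hNc]
    exact hle i j)
  refine ⟨c, q, hc0, ?_, ?_, ?_⟩
  · rw [hq, ← mul_assoc, ← Polynomial.C_mul, ← Polynomial.C_mul, mul_inv_cancel₀ hc0,
      Polynomial.C_1, Polynomial.C_1, one_mul]
  · intro h0
    have h1 := g1_dn_coeff R q j₀ i₀
    rw [h0, Polynomial.coeff_zero, Polynomial.coeff_zero] at h1
    have h2 := g1_up_coeff R q j₀ i₀
    rw [hq, hco, ← hc, inv_mul_cancel₀ hc0] at h2
    have h3 : (q.coeff j₀).coeff i₀ = 1 := Subtype.ext h2.symm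
    rw [h3, map_one] at h1
    exact zero_ne_one h1
  · intro j hj
    ext i
    have h2 := g1_up_coeff R q j i
    rw [hq, hco, hj, Polynomial.coeff_zero, mul_zero] at h2
    rw [← h2, Polynomial.coeff_zero]
    rfl

theorem up_inj (R : Red k κ) {p q : R.O[X][Y]} (h : R.up p = R.up q) : p = q := by
  ext i j
  rw [← g1_up_coeff, ← g1_up_coeff, h]

theorem dn_surj (R : Red k κ) (p : κ[X][Y]) : ∃ q : R.O[X][Y], R.dn q = p :=
  Polynomial.map_surjective _ (Polynomial.map_surjective _ R.surj) p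

/-- `p` has all coefficients in `O` -/
theorem exists_up (R : Red k κ) {p : k[X][Y]} (h : ∀ i j, R.N ((p.coeff i).coeff j) ≤ 1) :
    ∃ q : R.O[X][Y], R.up q = p := g1_exists_up R h

/-! ### G2 -/
theorem g2_up_add (R : Red k κ) (p q : R.O[X][Y]) : R.up (p + q) = R.up p + R.up q := by
  unfold Red.up
  rw [Polynomial.map_add]

theorem g2_up_sub (R : Red k κ) (p q : R.O[X][Y]) : R.up (p - q) = R.up p - R.up q := by
  unfold Red.up
  rw [Polynomial.map_sub]

theorem g2_up_mul (R : Red k κ) (p q : R.O[X][Y]) : R.up (p * q) = R.up p * R.up q := by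
  unfold Red.up
  rw [Polynomial.map_mul]

theorem g2_up_one (R : Red k κ) : R.up (1 : R.O[X][Y]) = 1 := by
  unfold Red.up
  rw [Polynomial.map_one]

theorem g2_dn_add (R : Red k κ) (p q : R.O[X][Y]) : R.dn (p + q) = R.dn p + R.dn q := by
  unfold Red.dn
  rw [Polynomial.map_add]

theorem g2_dn_sub (R : Red k κ) (p q : R.O[X][Y]) : R.dn (p - q) = R.dn p - R.dn q := by
  unfold Red.dn
  rw [Polynomial.map_sub]

theorem g2_dn_mul (R : Red k κ) (p q : R.O[X][Y]) : R.dn (p * q) = R.dn p * R.dn q := by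
  unfold Red.dn
  rw [Polynomial.map_mul]

theorem g2_dn_one (R : Red k κ) : R.dn (1 : R.O[X][Y]) = 1 := by
  unfold Red.dn
  rw [Polynomial.map_one]

/-- `f ∣` over `k` and nonzero mod: if `up q` vanishes at the generic point then so does `dn q`
(divide with remainder by the monic `f` over `O`: `up (q %ₘ f) = up q %ₘ up f = 0`). -/
theorem dn_zero (h : GR R f x y x' y') {q : R.O[X][Y]} (hq : aevalAeval x y (R.up q) = 0) :
    aevalAeval x' y' (R.dn q) = 0 := by
  have e := Polynomial.modByMonic_add_div q f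
  have h1 : aevalAeval x y (R.up (q %ₘ f)) = 0 := by
    rw [← e, g2_up_add, g2_up_mul, map_add, map_mul, h.ff.root, zero_mul, add_zero] at hq
    exact hq
  have h2 : (R.up (q %ₘ f)).natDegree < 4 := by
    have hf1 : f ≠ 1 := by
      intro h3
      have h4 := h.qt.deg
      rw [h3, Polynomial.natDegree_one] at h4
      exact absurd h4 (by norm_num)
    have h5 := Polynomial.natDegree_modByMonic_lt q h.qt.monic hf1
    rw [h.qt.deg] at h5
    exact lt_of_le_of_lt Polynomial.natDegree_map_le h5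
  have h3 : R.up (q %ₘ f) = 0 :=
    eq_zero_of_aeval (qt_map R.O.subtype h.qt) h.ff h2 h1
  have h4 : q %ₘ f = 0 := by
    refine up_inj R ?_
    rw [h3]
    unfold Red.up
    rw [Polynomial.map_zero]
  rw [h4, zero_add] at e
  rw [← e, g2_dn_mul, map_mul, h.ffr.root, zero_mul]

/-- conversely a denominator with nonzero reduction is nonzero -/
theorem up_ne_zero (h : GR R f x y x' y') {q : R.O[X][Y]} (hq : aevalAeval x' y' (R.dn q) ≠ 0) :
    aevalAeval x y (R.up q) ≠ 0 := fun h0 => hq (dn_zero h h0)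

theorem rd_unique (h : GR R f x y x' y') {φ : K} {ψ ψ' : K'} (h1 : R.Rd x y x' y' φ ψ)
    (h2 : R.Rd x y x' y' φ ψ') : ψ = ψ' := by
  obtain ⟨p, q, hq, e1, e2⟩ := h1
  obtain ⟨p', q', hq', e1', e2'⟩ := h2
  have h3 : aevalAeval x y (R.up (p * q' - p' * q)) = 0 := by
    rw [g2_up_sub, g2_up_mul, g2_up_mul, map_sub, map_mul, map_mul, ← e1, ← e1']
    ring
  have h4 := dn_zero h h3
  rw [g2_dn_sub, g2_dn_mul, g2_dn_mul, map_sub, map_mul, map_mul, ← e2, ← e2'] at h4
  have h5 : (ψ - ψ') * (aevalAeval x' y' (R.dn q) * aevalAeval x' y' (R.dn q')) = 0 := by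
    rw [← h4]
    ring
  rcases mul_eq_zero.1 h5 with h6 | h6
  · exact sub_eq_zero.1 h6
  · exact absurd h6 (mul_ne_zero hq hq')

theorem rd_add (h : GR R f x y x' y') {φ φ' : K} {ψ ψ' : K'} (h1 : R.Rd x y x' y' φ ψ)
    (h2 : R.Rd x y x' y' φ' ψ') : R.Rd x y x' y' (φ + φ') (ψ + ψ') := by
  obtain ⟨p, q, hq, e1, e2⟩ := h1
  obtain ⟨p', q', hq', e1', e2'⟩ := h2
  refine ⟨p * q' + p' * q, q * q', ?_, ?_, ?_⟩
  · rw [g2_dn_mul, map_mul]
    exact mul_ne_zero hq hq'
  · rw [g2_up_add, g2_up_mul, g2_up_mul, g2_up_mul, map_add, map_mul, map_mul, map_mul, ← e1, ← e1']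
    ring
  · rw [g2_dn_add, g2_dn_mul, g2_dn_mul, g2_dn_mul, map_add, map_mul, map_mul, map_mul, ← e2, ← e2']
    ring

theorem rd_sub (h : GR R f x y x' y') {φ φ' : K} {ψ ψ' : K'} (h1 : R.Rd x y x' y' φ ψ)
    (h2 : R.Rd x y x' y' φ' ψ') : R.Rd x y x' y' (φ - φ') (ψ - ψ') := by
  obtain ⟨p, q, hq, e1, e2⟩ := h1
  obtain ⟨p', q', hq', e1', e2'⟩ := h2
  refine ⟨p * q' - p' * q, q * q', ?_, ?_, ?_⟩
  · rw [g2_dn_mul, map_mul]
    exact mul_ne_zero hq hq'
  · rw [g2_up_sub, g2_up_mul, g2_up_mul, g2_up_mul, map_sub, map_mul, map_mul, map_mul, ← e1, ← e1']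
    ring
  · rw [g2_dn_sub, g2_dn_mul, g2_dn_mul, g2_dn_mul, map_sub, map_mul, map_mul, map_mul, ← e2, ← e2']
    ring

theorem rd_mul (h : GR R f x y x' y') {φ φ' : K} {ψ ψ' : K'} (h1 : R.Rd x y x' y' φ ψ)
    (h2 : R.Rd x y x' y' φ' ψ') : R.Rd x y x' y' (φ * φ') (ψ * ψ') := by
  obtain ⟨p, q, hq, e1, e2⟩ := h1
  obtain ⟨p', q', hq', e1', e2'⟩ := h2
  refine ⟨p * p', q * q', ?_, ?_, ?_⟩
  · rw [g2_dn_mul, map_mul]
    exact mul_ne_zero hq hq'
  · rw [g2_up_mul, g2_up_mul, map_mul, map_mul, ← e1, ← e1']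
    ring
  · rw [g2_dn_mul, g2_dn_mul, map_mul, map_mul, ← e2, ← e2']
    ring

theorem g2_rd_one (R : Red k κ) : R.Rd x y x' y' (1 : K) (1 : K') := by
  refine ⟨1, 1, ?_, ?_, ?_⟩
  · rw [g2_dn_one, map_one]
    exact one_ne_zero
  · rw [one_mul]
  · rw [one_mul]

theorem rd_pow (h : GR R f x y x' y') {φ : K} {ψ : K'} (h1 : R.Rd x y x' y' φ ψ) (n : ℕ) :
    R.Rd x y x' y' (φ ^ n) (ψ ^ n) := by
  induction n with
  | zero =>
    rw [pow_zero, pow_zero]
    exact g2_rd_one R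
  | succ n ih =>
    rw [pow_succ, pow_succ]
    exact rd_mul h ih h1

theorem rd_inv (h : GR R f x y x' y') {φ : K} {ψ : K'} (h1 : R.Rd x y x' y' φ ψ) (h0 : ψ ≠ 0) :
    R.Rd x y x' y' φ⁻¹ ψ⁻¹ := by
  obtain ⟨p, q, hq, e1, e2⟩ := h1
  have hp : aevalAeval x' y' (R.dn p) ≠ 0 := by
    rw [← e2]
    exact mul_ne_zero h0 hq
  have hφ : φ ≠ 0 := by
    intro h2
    have h3 := up_ne_zero h hp
    rw [← e1, h2, zero_mul] at h3
    exact h3 rfl
  refine ⟨q, p, hp, ?_, ?_⟩
  · rw [← e1, ← mul_assoc, inv_mul_cancel₀ hφ, one_mul]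
  · rw [← e2, ← mul_assoc, inv_mul_cancel₀ h0, one_mul]

theorem rd_poly (R : Red k κ) (p : R.O[X][Y]) :
    R.Rd x y x' y' (aevalAeval x y (R.up p)) (aevalAeval x' y' (R.dn p)) := by
  refine ⟨p, 1, ?_, ?_, ?_⟩
  · rw [g2_dn_one, map_one]
    exact one_ne_zero
  · rw [g2_up_one, map_one, mul_one]
  · rw [g2_dn_one, map_one, mul_one]

theorem rd_const (R : Red k κ) (c : R.O) :
    R.Rd x y x' y' (algebraMap k K (c : k)) (algebraMap κ K' (R.red c)) := by
  have h := rd_poly (x := x) (y := y) (x' := x') (y' := y') R (C (C c))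
  have e1 : aevalAeval x y (R.up (C (C c))) = algebraMap k K (c : k) := by
    unfold Red.up
    simp
  have e2 : aevalAeval x' y' (R.dn (C (C c))) = algebraMap κ K' (R.red c) := by
    unfold Red.dn
    simp
  rw [e1, e2] at h
  exact h

theorem rd_sub_x (R : Red k κ) (c : R.O) :
    R.Rd x y x' y' (x - algebraMap k K (c : k)) (x' - algebraMap κ K' (R.red c)) := by
  have h := rd_poly (x := x) (y := y) (x' := x') (y' := y') R (C X - C (C c))
  have e1 : aevalAeval x y (R.up (C X - C (C c))) = x - algebraMap k K (c : k) := by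
    unfold Red.up
    simp
  have e2 : aevalAeval x' y' (R.dn (C X - C (C c))) = x' - algebraMap κ K' (R.red c) := by
    unfold Red.dn
    simp
  rw [e1, e2] at h
  exact h

/-! ### G3 -/
theorem g3_norm (h : GR R f x y x' y') {p : k[X][Y]} (hp : aevalAeval x y p ≠ 0) :
    ∃ (c : k) (q : R.O[X][Y]), c ≠ 0 ∧ aevalAeval x y p = algebraMap k K c * aevalAeval x y (R.up q) ∧
      aevalAeval x' y' (R.dn q) ≠ 0 := by
  have hm : (R.up f).Monic := (qt_map R.O.subtype h.qt).monic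
  have hd : (R.up f).natDegree = 4 := (qt_map R.O.subtype h.qt).deg
  have e0 := aeval_mod (p := p) hm h.ff.root
  have hp1 : p %ₘ R.up f ≠ 0 := by
    intro h0
    rw [h0, map_zero] at e0
    exact hp e0.symm
  have hlt : (p %ₘ R.up f).natDegree < 4 := by
    have hf1 : R.up f ≠ 1 := by
      intro h3
      rw [h3, Polynomial.natDegree_one] at hd
      exact absurd hd (by norm_num)
    have h5 := Polynomial.natDegree_modByMonic_lt p hm hf1
    rw [hd] at h5
    exact h5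
  obtain ⟨c, q, hc, e1, hq, hco⟩ := poly_scale R hp1
  refine ⟨c, q, hc, ?_, ?_⟩
  · rw [← e0, e1, map_mul]
    congr 1
    simp
  · intro h1
    have h2 : (R.dn q).natDegree < 4 := by
      have h3 : q.natDegree ≤ (p %ₘ R.up f).natDegree := by
        rw [Polynomial.natDegree_le_iff_coeff_eq_zero]
        intro N hN
        exact hco N (Polynomial.coeff_eq_zero_of_natDegree_lt hN)
      exact lt_of_le_of_lt (Polynomial.natDegree_map_le.trans h3) hlt
    exact hq (eq_zero_of_aeval (qt_map R.red h.qt) h.ffr h2 h1)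

/-- numerator and denominator in normal form (`%ₘ up f`, degree `< 4`), `poly_scale`; the reduction of
a normal form is a nonzero polynomial of degree `< 4`, so its value is `≠ 0` (`eq_zero_of_aeval`). -/
theorem rd_scale (h : GR R f x y x' y') {φ : K} (hφ : φ ≠ 0) :
    ∃ (c : k) (ψ : K'), c ≠ 0 ∧ ψ ≠ 0 ∧ R.Rd x y x' y' (algebraMap k K c * φ) ψ := by
  obtain ⟨p, q, hq, e⟩ := h.ff.gen φ
  have hp : aevalAeval x y p ≠ 0 := by
    rw [← e]
    exact mul_ne_zero hφ hq
  obtain ⟨c1, p2, hc1, ep, hp2⟩ := g3_norm h hp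
  obtain ⟨c2, q2, hc2, eq, hq2⟩ := g3_norm h hq
  have hk1 : algebraMap k K c1 ≠ 0 := by
    rw [Ne, map_eq_zero]
    exact hc1
  refine ⟨c2 / c1, aevalAeval x' y' (R.dn p2) / aevalAeval x' y' (R.dn q2), div_ne_zero hc2 hc1,
    div_ne_zero hp2 hq2, p2, q2, hq2, ?_, ?_⟩
  · rw [ep, eq] at e
    rw [map_div₀]
    field_simp
    calc algebraMap k K c2 * φ * aevalAeval x y (R.up q2)
        = φ * (algebraMap k K c2 * aevalAeval x y (R.up q2)) := by ring
      _ = _ := e
  · rw [div_mul_cancel₀ _ hq2]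

/-! ### G4 -/
theorem g4_mul_zero (h : GR R f x y x' y') {φ : K} {ψ : K'} (h1 : R.Rd x y x' y' φ ψ) {e : k}
    (he : R.N e < 1) : R.Rd x y x' y' (algebraMap k K e * φ) 0 := by
  have hO : e ∈ R.O := (R.mem_O e).2 he.le
  have h2 := rd_mul h (rd_const R ⟨e, hO⟩) h1
  rw [(R.ker ⟨e, hO⟩).2 he, map_zero, zero_mul] at h2
  exact h2

theorem g4_mul_int (h : GR R f x y x' y') {φ : K} {ψ : K'} (h1 : R.Rd x y x' y' φ ψ) {e : k}
    (he : R.N e ≤ 1) : ∃ ψ', R.Rd x y x' y' (algebraMap k K e * φ) ψ' := by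
  have hO : e ∈ R.O := (R.mem_O e).2 he
  exact ⟨_, rd_mul h (rd_const R ⟨e, hO⟩) h1⟩

theorem g4_not_lt (h : GR R f x y x' y') {φ : K} {c c' : k} {ψ ψ' : K'} (hc' : c' ≠ 0)
    (hψ : ψ ≠ 0) (h1 : R.Rd x y x' y' (algebraMap k K c * φ) ψ)
    (h2 : R.Rd x y x' y' (algebraMap k K c' * φ) ψ') : R.N c' ≤ R.N c := by
  by_contra hlt
  push Not at hlt
  have hN' : 0 < R.N c' := R.N.pos hc'
  have he : R.N (c / c') < 1 := by
    rw [map_div₀, div_lt_one hN']
    exact hlt
  have h3 := g4_mul_zero h h2 he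
  have h4 : algebraMap k K (c / c') * (algebraMap k K c' * φ) = algebraMap k K c * φ := by
    rw [← mul_assoc, ← map_mul, div_mul_cancel₀ _ hc']
  rw [h4] at h3
  exact hψ (rd_unique h h1 h3)

/-- the Gauss norm -/
noncomputable def g4G (h : GR R f x y x' y') (φ : K) : ℝ :=
  if h0 : φ = 0 then 0 else (R.N (Classical.choose (rd_scale h h0)))⁻¹

theorem g4G_eq (h : GR R f x y x' y') {φ : K} {c : k} {ψ : K'} (hc : c ≠ 0) (hψ : ψ ≠ 0)
    (h1 : R.Rd x y x' y' (algebraMap k K c * φ) ψ) : g4G h φ = (R.N c)⁻¹ := by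
  have h0 : φ ≠ 0 := by
    rintro rfl
    rw [mul_zero] at h1
    have h2 := rd_const (x := x) (y := y) (x' := x') (y' := y') R (0 : R.O)
    rw [map_zero, ZeroMemClass.coe_zero, map_zero, map_zero] at h2
    exact hψ (rd_unique h h1 h2)
  obtain ⟨ψ', hc', hψ', h2⟩ := Classical.choose_spec (rd_scale h h0)
  unfold g4G
  rw [dif_neg h0]
  have e1 := g4_not_lt h hc' hψ h1 h2
  have e2 := g4_not_lt h hc hψ' h2 h1
  rw [le_antisymm e1 e2]

theorem g4G_zero (h : GR R f x y x' y') : g4G h (0 : K) = 0 := by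
  unfold g4G
  rw [dif_pos rfl]

theorem g4G_pos (h : GR R f x y x' y') {φ : K} (h0 : φ ≠ 0) : 0 < g4G h φ := by
  obtain ⟨c, ψ, hc, hψ, h1⟩ := rd_scale h h0
  rw [g4G_eq h hc hψ h1]
  exact inv_pos.2 (R.N.pos hc)

theorem g4G_mul (h : GR R f x y x' y') (φ φ' : K) : g4G h (φ * φ') = g4G h φ * g4G h φ' := by
  by_cases h0 : φ = 0
  · rw [h0, zero_mul, g4G_zero, zero_mul]
  by_cases h0' : φ' = 0
  · rw [h0', mul_zero, g4G_zero, mul_zero]
  obtain ⟨c, ψ, hc, hψ, h1⟩ := rd_scale h h0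
  obtain ⟨c', ψ', hc', hψ', h1'⟩ := rd_scale h h0'
  have h2 := rd_mul h h1 h1'
  have h3 : algebraMap k K c * φ * (algebraMap k K c' * φ') = algebraMap k K (c * c') * (φ * φ') := by
    rw [map_mul]; ring
  rw [h3] at h2
  rw [g4G_eq h (mul_ne_zero hc hc') (mul_ne_zero hψ hψ') h2, g4G_eq h hc hψ h1,
    g4G_eq h hc' hψ' h1', map_mul, mul_inv]

theorem g4_one (_ : GR R f x y x' y') : R.Rd x y x' y' (1 : K) (1 : K') := by
  have h2 := rd_const (x := x) (y := y) (x' := x') (y' := y') R (1 : R.O)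
  rw [map_one, OneMemClass.coe_one, map_one, map_one] at h2
  exact h2

theorem g4G_const (h : GR R f x y x' y') (c : k) : g4G h (algebraMap k K c) = R.N c := by
  by_cases h0 : c = 0
  · rw [h0, map_zero, g4G_zero, map_zero]
  have h1 : R.Rd x y x' y' (algebraMap k K c⁻¹ * algebraMap k K c) 1 := by
    rw [← map_mul, inv_mul_cancel₀ h0, map_one]
    exact g4_one h
  rw [g4G_eq h (inv_ne_zero h0) one_ne_zero h1, map_inv₀, inv_inv]

theorem g4G_le (h : GR R f x y x' y') (φ : K) : g4G h φ ≤ 1 ↔ ∃ ψ, R.Rd x y x' y' φ ψ := by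
  by_cases h0 : φ = 0
  · subst h0
    rw [g4G_zero]
    refine ⟨fun _ => ⟨0, ?_⟩, fun _ => zero_le_one⟩
    have h2 := rd_const (x := x) (y := y) (x' := x') (y' := y') R (0 : R.O)
    rw [map_zero, ZeroMemClass.coe_zero, map_zero, map_zero] at h2
    exact h2
  obtain ⟨c, ψ, hc, hψ, h1⟩ := rd_scale h h0
  have hN : 0 < R.N c := R.N.pos hc
  have hcK : algebraMap k K c ≠ 0 := by simpa using hc
  rw [g4G_eq h hc hψ h1]
  constructor
  · intro hle
    have h2 : R.N c⁻¹ ≤ 1 := by rw [map_inv₀]; exact hle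
    obtain ⟨ψ', h3⟩ := g4_mul_int h h1 h2
    refine ⟨ψ', ?_⟩
    rw [map_inv₀, inv_mul_cancel_left₀ hcK] at h3
    exact h3
  · rintro ⟨ψ', h2⟩
    by_contra hlt
    push Not at hlt
    have h3 : R.N c < 1 := by
      rw [← inv_inv (R.N c)]
      exact inv_lt_one_of_one_lt₀ hlt
    exact hψ (rd_unique h h1 (g4_mul_zero h h2 h3))

theorem g4G_lt (h : GR R f x y x' y') (φ : K) : g4G h φ < 1 ↔ R.Rd x y x' y' φ 0 := by
  by_cases h0 : φ = 0
  · subst h0
    rw [g4G_zero]
    refine ⟨fun _ => ?_, fun _ => zero_lt_one⟩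
    have h2 := rd_const (x := x) (y := y) (x' := x') (y' := y') R (0 : R.O)
    rw [map_zero, ZeroMemClass.coe_zero, map_zero, map_zero] at h2
    exact h2
  obtain ⟨c, ψ, hc, hψ, h1⟩ := rd_scale h h0
  have hN : 0 < R.N c := R.N.pos hc
  have hcK : algebraMap k K c ≠ 0 := by simpa using hc
  constructor
  · intro hlt
    rw [g4G_eq h hc hψ h1] at hlt
    have h2 : R.N c⁻¹ < 1 := by rw [map_inv₀]; exact hlt
    have h3 := g4_mul_zero h h1 h2
    rw [map_inv₀, inv_mul_cancel_left₀ hcK] at h3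
    exact h3
  · intro h2
    have hle := (g4G_le h φ).2 ⟨0, h2⟩
    refine lt_of_le_of_ne hle ?_
    intro h3
    rw [g4G_eq h hc hψ h1] at h3
    replace h3 : R.N c = 1 := by rw [← inv_inv (R.N c), h3, inv_one]
    have hO : c ∈ R.O := (R.mem_O c).2 h3.le
    have h4 := rd_mul h (rd_const R ⟨c, hO⟩) h2
    rw [mul_zero] at h4
    exact hψ (rd_unique h h1 h4)

theorem g4G_na_aux (h : GR R f x y x' y') {φ φ' : K} (h0 : φ ≠ 0) (h0' : φ' ≠ 0)
    (hle : g4G h φ' ≤ g4G h φ) : g4G h (φ + φ') ≤ g4G h φ := by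
  obtain ⟨c, ψ, hc, hψ, h1⟩ := rd_scale h h0
  obtain ⟨c', ψ', hc', hψ', h1'⟩ := rd_scale h h0'
  have hN : 0 < R.N c := R.N.pos hc
  have hN' : 0 < R.N c' := R.N.pos hc'
  rw [g4G_eq h hc hψ h1, g4G_eq h hc' hψ' h1', inv_le_inv₀ hN' hN] at hle
  have h2 : R.N (c / c') ≤ 1 := by
    rw [map_div₀, div_le_one hN']
    exact hle
  obtain ⟨ψ'', h3⟩ := g4_mul_int h h1' h2
  have h4 : algebraMap k K (c / c') * (algebraMap k K c' * φ') = algebraMap k K c * φ' := by
    rw [← mul_assoc, ← map_mul, div_mul_cancel₀ _ hc']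
  rw [h4] at h3
  have h5 := rd_add h h1 h3
  rw [← mul_add] at h5
  have h6 := (g4G_le h _).2 ⟨_, h5⟩
  rw [g4G_mul, g4G_const] at h6
  rw [g4G_eq h hc hψ h1]
  rw [← one_div, le_div_iff₀ hN, mul_comm]
  exact h6

theorem g4G_na (h : GR R f x y x' y') (φ φ' : K) :
    g4G h (φ + φ') ≤ max (g4G h φ) (g4G h φ') := by
  by_cases h0 : φ = 0
  · rw [h0, zero_add]; exact le_max_right _ _
  by_cases h0' : φ' = 0
  · rw [h0', add_zero]; exact le_max_left _ _
  rcases le_total (g4G h φ') (g4G h φ) with hle | hle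
  · exact le_trans (g4G_na_aux h h0 h0' hle) (le_max_left _ _)
  · rw [add_comm]
    exact le_trans (g4G_na_aux h h0' h0 hle) (le_max_right _ _)

/-- the Gauss absolute value: `G φ = (N c)⁻¹` for `c` as in G3 (well defined: two choices differ by
`c` with `Rd (c/c') (ψ/ψ')` nonzero, `N (c/c') = 1`), `G 0 = 0`. -/
theorem gauss (h : GR R f x y x' y') : ∃ G : AbsoluteValue K ℝ,
    (∀ a b, G (a + b) ≤ max (G a) (G b)) ∧ (∀ c : k, G (algebraMap k K c) = R.N c) ∧
    (∀ φ, G φ ≤ 1 ↔ ∃ ψ, R.Rd x y x' y' φ ψ) ∧ (∀ φ, G φ < 1 ↔ R.Rd x y x' y' φ 0) := by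
  have hnn : ∀ φ : K, 0 ≤ g4G h φ := by
    intro φ
    by_cases h0 : φ = 0
    · rw [h0, g4G_zero]
    · exact (g4G_pos h h0).le
  refine ⟨⟨⟨g4G h, g4G_mul h⟩, hnn, ?_, ?_⟩, g4G_na h, g4G_const h, g4G_le h, g4G_lt h⟩
  · intro φ
    constructor
    · intro h1
      by_contra h0
      exact (g4G_pos h h0).ne' h1
    · rintro rfl
      exact g4G_zero h
  · intro φ φ'
    refine le_trans (g4G_na h φ φ') (max_le ?_ ?_)
    · exact le_add_of_nonneg_right (hnn φ')
    · exact le_add_of_nonneg_left (hnn φ)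

/-! ### G5 -/
theorem g5_up_flip (R : Red k κ) (d : ℕ) (p : R.O[X][Y]) : R.up (flip d p) = flip d (R.up p) :=
  flip_map _ d p

theorem g5_dn_flip (R : Red k κ) (d : ℕ) (p : R.O[X][Y]) : R.dn (flip d p) = flip d (R.dn p) :=
  flip_map _ d p

theorem g5_aux (R : Red k κ) {x y : K} {x' y' : K'} (hx : x ≠ 0) (hx' : x' ≠ 0) {φ : K} {ψ : K'}
    (h : R.Rd x y x' y' φ ψ) : R.Rd x⁻¹ (y * x⁻¹) x'⁻¹ (y' * x'⁻¹) φ ψ := by
  obtain ⟨p, q, h1, h2, h3⟩ := h
  obtain ⟨d1, hd1⟩ := exists_td p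
  obtain ⟨d2, hd2⟩ := exists_td q
  have hp : TD (max d1 d2) p := td_mono (le_max_left _ _) hd1
  have hq : TD (max d1 d2) q := td_mono (le_max_right _ _) hd2
  generalize max d1 d2 = d at hp hq
  have hup : TD d (R.up p) := td_map _ hp
  have huq : TD d (R.up q) := td_map _ hq
  have hdp : TD d (R.dn p) := td_map _ hp
  have hdq : TD d (R.dn q) := td_map _ hq
  have e1 := flip_eval hup x y hx
  have e2 := flip_eval huq x y hx
  have e3 := flip_eval hdp x' y' hx'
  have e4 := flip_eval hdq x' y' hx'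
  refine ⟨flip d p, flip d q, ?_, ?_, ?_⟩
  · rw [g5_dn_flip]
    intro h0
    apply h1
    rw [← e4, h0, zero_mul]
  · rw [g5_up_flip, g5_up_flip]
    apply mul_right_cancel₀ (pow_ne_zero d hx)
    rw [mul_assoc, e2, e1, h2]
  · rw [g5_dn_flip, g5_dn_flip]
    apply mul_right_cancel₀ (pow_ne_zero d hx')
    rw [mul_assoc, e4, e3, h3]

/-- `Rd` does not depend on the chart: `p, q` of total degree `≤ d`, `flip_eval` over `k` and `κ`,
`flip_map`, `flip_flip`. -/
theorem rd_flip (h : GR R f x y x' y') (φ : K) (ψ : K') :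
    R.Rd x⁻¹ (y * x⁻¹) x'⁻¹ (y' * x'⁻¹) φ ψ ↔ R.Rd x y x' y' φ ψ := by
  have hx : x ≠ 0 := ff_ne_zero (qt_map _ h.qt) h.ff
  have hx' : x' ≠ 0 := ff_ne_zero (qt_map _ h.qt) h.ffr
  constructor
  · intro h1
    have h2 := g5_aux R (inv_ne_zero hx) (inv_ne_zero hx') h1
    have e1 : y * x⁻¹ * x⁻¹⁻¹ = y := by field_simp
    have e2 : y' * x'⁻¹ * x'⁻¹⁻¹ = y' := by field_simp
    rw [e1, e2, inv_inv, inv_inv] at h2
    exact h2
  · exact fun h1 => g5_aux R hx hx' h1

theorem gr_flip (h : GR R f x y x' y') :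
    GR R (flip 4 f) x⁻¹ (y * x⁻¹) x'⁻¹ (y' * x'⁻¹) where
  qt := qt_flip h.qt
  sm := h.sm2
  sm2 := by rw [flip_flip h.qt.td]; exact h.sm
  smr := h.smr2
  smr2 := by rw [flip_flip h.qt.td]; exact h.smr
  ff := by rw [g5_up_flip]; exact ff_flip (qt_map _ h.qt) h.ff
  ffr := by rw [g5_dn_flip]; exact ff_flip (qt_map _ h.qt) h.ffr

/-! ### G6 -/
theorem g6_natDegree {A B : Type} [CommRing A] [CommRing B] {p : A[X][Y]} {q : B[X][Y]}
    (hp : p.natDegree < 4) (h : ∀ j, p.coeff j = 0 → q.coeff j = 0) : q.natDegree < 4 := by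
  have h1 : q.natDegree ≤ 3 := by
    rw [natDegree_le_iff_coeff_eq_zero]
    intro n hn
    exact h n (coeff_eq_zero_of_natDegree_lt (by omega))
  omega

/-- The best constant. `h = ev p / ev q` with normal forms, `q = up q₀` (scaled), `dn q₀` of degree
`< 4`, nonzero: some coefficient `(i, j)` of `q₀` is a unit. `c := (coefficient of p) / (coefficient of
q₀)`. `p - c q₀` has `(i, j)`-coefficient 0; if it is 0 then `h = c`; otherwise scale:
`p - c q₀ = e * up w`, `dn w ≠ 0`, and the `(i,j)`-coefficient of `w` is 0. `θ = dn w / dn q₀`. If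
`θ = γ` then `dn w = γ dn q₀` (`eq_zero_of_aeval`), coefficient `(i, j)`: `γ = 0`, so `dn w = 0`. -/
theorem best_const (h : GR R f x y x' y') (φ : K) : ∃ c : k, φ = algebraMap k K c ∨
    ∃ (e : k) (θ : K'), e ≠ 0 ∧ R.Rd x y x' y' ((φ - algebraMap k K c) / algebraMap k K e) θ ∧
      ∀ γ : κ, θ ≠ algebraMap κ K' γ := by
  have hqu : Qt (R.up f) := qt_map R.O.subtype h.qt
  have hqd : Qt (R.dn f) := qt_map R.red h.qt
  obtain ⟨p0, q1, hq1, he0⟩ := h.ff.gen φ
  -- reduce modulo `f`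
  have hmp := aeval_mod (p := p0) hqu.monic h.ff.root
  have hmq := aeval_mod (p := q1) hqu.monic h.ff.root
  have hdeg : ∀ r : k[X][Y], (r %ₘ R.up f).natDegree < 4 := by
    intro r
    have h1 := natDegree_modByMonic_lt r hqu.monic (by
      intro h1
      have h2 := hqu.deg
      rw [h1] at h2
      simp at h2)
    rwa [hqu.deg] at h1
  obtain ⟨p, hp⟩ : ∃ p, p = p0 %ₘ R.up f := ⟨_, rfl⟩
  obtain ⟨q, hq⟩ : ∃ q, q = q1 %ₘ R.up f := ⟨_, rfl⟩
  rw [← hp] at hmp
  rw [← hq] at hmq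
  have hpd : p.natDegree < 4 := hp ▸ hdeg p0
  have hqd' : q.natDegree < 4 := hq ▸ hdeg q1
  rw [← hmp, ← hmq] at he0
  rw [← hmq] at hq1
  have hqne : q ≠ 0 := by
    rintro rfl
    exact hq1 (map_zero _)
  obtain ⟨c0, q0, hc0, hqq, hdq, hcq⟩ := poly_scale R hqne
  have hq0d : (R.dn q0).natDegree < 4 :=
    lt_of_le_of_lt natDegree_map_le (g6_natDegree hqd' hcq)
  have hevd : aevalAeval x' y' (R.dn q0) ≠ 0 := by
    intro h0
    exact hdq (eq_zero_of_aeval hqd h.ffr hq0d h0)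
  have hevu : aevalAeval x y (R.up q0) ≠ 0 := by
    intro h0
    apply hq1
    rw [hqq, map_mul, h0, mul_zero]
  -- a unit coefficient
  obtain ⟨i, hi⟩ : ∃ i, (R.dn q0).coeff i ≠ 0 := by
    by_contra hcon
    push Not at hcon
    exact hdq (Polynomial.ext (by simpa using hcon))
  obtain ⟨j, hj⟩ : ∃ j, ((R.dn q0).coeff i).coeff j ≠ 0 := by
    by_contra hcon
    push Not at hcon
    exact hi (Polynomial.ext (by simpa using hcon))
  have hcd : ∀ (r : R.O[X][Y]) (i j : ℕ),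
      ((R.dn r).coeff i).coeff j = R.red ((r.coeff i).coeff j) := by
    intro r i j
    unfold Red.dn
    rw [coeff_map, coe_mapRingHom, coeff_map]
  have hcu : ∀ (r : R.O[X][Y]) (i j : ℕ),
      ((R.up r).coeff i).coeff j = (((r.coeff i).coeff j : R.O) : k) := by
    intro r i j
    unfold Red.up
    rw [coeff_map, coe_mapRingHom, coeff_map]
    rfl
  have hu0 : (((q0.coeff i).coeff j : R.O) : k) ≠ 0 := by
    intro h0
    apply hj
    rw [hcd]
    have : (q0.coeff i).coeff j = 0 := Subtype.ext h0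
    rw [this, map_zero]
  -- the equation
  have hP : φ * aevalAeval x y (R.up q0) = aevalAeval x y (C (C c0⁻¹) * p) := by
    have hc0' : algebraMap k K c0 ≠ 0 := by simpa using hc0
    rw [map_mul, ← he0, hqq, map_mul]
    have e1 : ∀ c : k, aevalAeval x y (C (C c) : k[X][Y]) = algebraMap k K c := by
      intro c
      rw [aevalAeval_C, aeval_C]
    rw [e1, e1, map_inv₀]
    field_simp
  have e1 : ∀ c : k, aevalAeval x y (C (C c) : k[X][Y]) = algebraMap k K c := by
    intro c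
    rw [aevalAeval_C, aeval_C]
  have e2 : ∀ c : κ, aevalAeval x' y' (C (C c) : κ[X][Y]) = algebraMap κ K' c := by
    intro c
    rw [aevalAeval_C, aeval_C]
  obtain ⟨P, hPdef⟩ : ∃ P : k[X][Y], P = C (C c0⁻¹) * p := ⟨_, rfl⟩
  rw [← hPdef] at hP
  have hPd : P.natDegree < 4 := by
    refine g6_natDegree hpd fun j hj => ?_
    rw [hPdef, coeff_C_mul, hj, mul_zero]
  obtain ⟨c, hc⟩ : ∃ c : k, c = (P.coeff i).coeff j / (((q0.coeff i).coeff j : R.O) : k) :=
    ⟨_, rfl⟩
  refine ⟨c, ?_⟩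
  obtain ⟨W, hW⟩ : ∃ W : k[X][Y], W = P - C (C c) * R.up q0 := ⟨_, rfl⟩
  have hWe : (φ - algebraMap k K c) * aevalAeval x y (R.up q0) = aevalAeval x y W := by
    rw [hW, map_sub, map_mul, e1, ← hP]
    ring
  have hWc : (W.coeff i).coeff j = 0 := by
    rw [hW, coeff_sub, coeff_sub, coeff_C_mul, coeff_C_mul, hcu, hc,
      div_mul_cancel₀ _ hu0, sub_self]
  have hWd : W.natDegree < 4 := by
    rw [hW]
    refine lt_of_le_of_lt (natDegree_sub_le _ _) (max_lt hPd ?_)
    refine lt_of_le_of_lt (natDegree_C_mul_le _ _) ?_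
    exact lt_of_le_of_lt natDegree_map_le (g6_natDegree hqd' hcq)
  by_cases hW0 : W = 0
  · left
    rw [hW0, map_zero] at hWe
    have h1 := (mul_eq_zero.1 hWe).resolve_right hevu
    exact sub_eq_zero.1 h1
  · right
    obtain ⟨e, w, he, hWw, hdw, hcw⟩ := poly_scale R hW0
    have he' : algebraMap k K e ≠ 0 := by simpa using he
    refine ⟨e, aevalAeval x' y' (R.dn w) / aevalAeval x' y' (R.dn q0), he,
      ⟨w, q0, hevd, ?_, ?_⟩, ?_⟩
    · rw [div_mul_eq_mul_div, hWe, hWw, map_mul, e1]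
      field_simp
    · rw [div_mul_cancel₀ _ hevd]
    · intro γ hγ
      rw [div_eq_iff hevd] at hγ
      have hwd : (R.dn w).natDegree < 4 :=
        lt_of_le_of_lt natDegree_map_le (g6_natDegree hWd hcw)
      have h1 : R.dn w - C (C γ) * R.dn q0 = 0 := by
        refine eq_zero_of_aeval hqd h.ffr ?_ ?_
        · refine lt_of_le_of_lt (natDegree_sub_le _ _) (max_lt hwd ?_)
          exact lt_of_le_of_lt (natDegree_C_mul_le _ _) hq0d
        · rw [map_sub, map_mul, e2, hγ, sub_self]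
      have h2 := congrArg (fun r : κ[X][Y] => (r.coeff i).coeff j) h1
      simp only [coeff_sub, coeff_C_mul, coeff_zero] at h2
      have h3 : ((R.dn w).coeff i).coeff j = 0 := by
        rw [hcd]
        have h4 := hWc
        rw [hWw, coeff_C_mul, coeff_C_mul, hcu] at h4
        have h5 := (mul_eq_zero.1 h4).resolve_left he
        have : (w.coeff i).coeff j = 0 := Subtype.ext h5
        rw [this, map_zero]
      rw [h3, zero_sub, neg_eq_zero] at h2
      have h6 := (mul_eq_zero.1 h2).resolve_right hj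
      rw [h6, C_0, C_0, zero_mul, sub_zero] at h1
      exact hdw h1

/-! ### G7 -/
omit [Field K] [Algebra k K] [Field K'] [Algebra κ K'] in
/-- A root of a monic polynomial over the valuation ring is integral. -/
theorem g7_root (R : Red k κ) {p : R.O[X]} (hp : p.Monic) {z : k}
    (hz : p.eval₂ R.O.subtype z = 0) : R.N z ≤ 1 := by
  by_contra hcon
  push Not at hcon
  have hz0 : z ≠ 0 := by
    rintro rfl
    rw [map_zero] at hcon
    linarith
  have hN : R.N z⁻¹ < 1 := by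
    rw [map_inv₀]
    exact inv_lt_one_of_one_lt₀ hcon
  have hmem : z⁻¹ ∈ R.O := (R.mem_O _).2 hN.le
  set t : R.O := ⟨z⁻¹, hmem⟩ with ht
  have hred : R.red t = 0 := (R.ker t).2 hN
  letI : Invertible z := invertibleOfNonzero hz0
  have h1 : eval₂ R.O.subtype (⅟z) p.reverse = 0 := (eval₂_reverse_eq_zero_iff _ _ _).2 hz
  have h2 : eval t p.reverse = 0 := by
    have h3 : R.O.subtype (eval t p.reverse) = 0 := by
      rw [← eval₂_at_apply]
      have : R.O.subtype t = ⅟z := by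
        rw [invOf_eq_inv]
        rfl
      rw [this]
      exact h1
    exact Subtype.ext h3
  have h4 : R.red (eval t p.reverse) = R.red (p.reverse.coeff 0) := by
    rw [← eval₂_at_apply, hred, eval₂_at_zero]
  rw [h2, map_zero, coeff_zero_reverse, hp.leadingCoeff, map_one] at h4
  exact zero_ne_one h4

omit [Field K] [Algebra k K] [Field K'] [Algebra κ K'] in
theorem g7_eval (R : Red k κ) (f : R.O[X][Y]) (a : R.O) (z : k) :
    (R.up f).evalEval (a : k) z = (f.map (evalRingHom a)).eval₂ R.O.subtype z := by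
  rw [← map_evalRingHom_eval, ← eval_map]
  unfold Red.up
  rw [Polynomial.map_map, Polynomial.map_map]
  congr 2
  apply Polynomial.ringHom_ext
  · intro c
    simp
  · simp

/-- Lines through a bad point: `Q = (q₁, q₂)` on the curve not reducing to `(u, w)`. `N q₁ > 1`:
`L = q₁⁻¹ X - 1`; else `q₁ ∈ O`, and `q₂ ∈ O` (root of a monic polynomial over `O`): `L = X - q₁` if
`red q₁ ≠ u`, `L = Y - q₂` otherwise. -/
theorem line_through (R : Red k κ) {f : R.O[X][Y]} (hf : Qt f) {q₁ q₂ : k}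
    (hq : (R.up f).evalEval q₁ q₂ = 0) {u w : κ}
    (hn : ∀ a b : R.O, (a : k) = q₁ → (b : k) = q₂ → ¬ (R.red a = u ∧ R.red b = w)) :
    ∃ L : R.O[X][Y], (R.up L).evalEval q₁ q₂ = 0 ∧ (R.dn L).evalEval u w ≠ 0 := by
  by_cases h1 : R.N q₁ ≤ 1
  · set a : R.O := ⟨q₁, (R.mem_O _).2 h1⟩ with ha
    have haq : (a : k) = q₁ := rfl
    by_cases h2 : R.red a = u
    · have h3 : R.N q₂ ≤ 1 := by
        apply g7_root R (hf.monic.map (evalRingHom a))
        rw [← g7_eval]
        exact hq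
      set b : R.O := ⟨q₂, (R.mem_O _).2 h3⟩ with hb
      have h4 : R.red b ≠ w := fun h => hn a b rfl rfl ⟨h2, h⟩
      refine ⟨X - C (C b), ?_, ?_⟩
      · unfold Red.up
        rw [Polynomial.map_sub, map_X, map_C, evalEval_sub, evalEval_X, evalEval_C,
          coe_mapRingHom, map_C, eval_C]
        exact sub_self _
      · unfold Red.dn
        rw [Polynomial.map_sub, map_X, map_C, evalEval_sub, evalEval_X, evalEval_C,
          coe_mapRingHom, map_C, eval_C]
        exact sub_ne_zero.2 (Ne.symm h4)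
    · refine ⟨C X - C (C a), ?_, ?_⟩
      · unfold Red.up
        rw [Polynomial.map_sub, map_C, map_C, evalEval_sub, evalEval_C, evalEval_C,
          coe_mapRingHom, map_C, map_X, eval_C, eval_X]
        exact sub_self _
      · unfold Red.dn
        rw [Polynomial.map_sub, map_C, map_C, evalEval_sub, evalEval_C, evalEval_C,
          coe_mapRingHom, map_C, map_X, eval_C, eval_X]
        exact sub_ne_zero.2 (Ne.symm h2)
  · push Not at h1
    have hq0 : q₁ ≠ 0 := by
      rintro rfl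
      rw [map_zero] at h1
      linarith
    have hN : R.N q₁⁻¹ < 1 := by
      rw [map_inv₀]
      exact inv_lt_one_of_one_lt₀ h1
    set t : R.O := ⟨q₁⁻¹, (R.mem_O _).2 hN.le⟩ with ht
    have hred : R.red t = 0 := (R.ker t).2 hN
    refine ⟨C (C t * X) - 1, ?_, ?_⟩
    · unfold Red.up
      rw [Polynomial.map_sub, map_C, Polynomial.map_one, evalEval_sub, evalEval_C, evalEval_one,
        coe_mapRingHom, Polynomial.map_mul, map_C, map_X, eval_mul, eval_C, eval_X]
      change q₁⁻¹ * q₁ - 1 = 0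
      rw [inv_mul_cancel₀ hq0, sub_self]
    · unfold Red.dn
      rw [Polynomial.map_sub, map_C, Polynomial.map_one, evalEval_sub, evalEval_C, evalEval_one,
        coe_mapRingHom, Polynomial.map_mul, map_C, map_X, eval_mul, eval_C, eval_X, hred,
        zero_mul, zero_sub]
      exact neg_ne_zero.2 one_ne_zero

/-! ### G8 -/
/-- `(q₁, q₂)` does not reduce to `(u, w)` -/
def g8_Bad (R : Red k κ) (u w : κ) (P : k × k) : Prop :=
  ∀ a b : R.O, (a : k) = P.1 → (b : k) = P.2 → ¬ (R.red a = u ∧ R.red b = w)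

theorem g8_up_one (R : Red k κ) : R.up 1 = 1 := by
  unfold Red.up
  rw [Polynomial.map_one]

theorem g8_up_mul (R : Red k κ) (p q : R.O[X][Y]) : R.up (p * q) = R.up p * R.up q := by
  unfold Red.up
  rw [Polynomial.map_mul]

theorem g8_up_pow (R : Red k κ) (p : R.O[X][Y]) (n : ℕ) : R.up (p ^ n) = R.up p ^ n := by
  unfold Red.up
  rw [Polynomial.map_pow]

theorem g8_dn_one (R : Red k κ) : R.dn 1 = 1 := by
  unfold Red.dn
  rw [Polynomial.map_one]

theorem g8_dn_mul (R : Red k κ) (p q : R.O[X][Y]) : R.dn (p * q) = R.dn p * R.dn q := by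
  unfold Red.dn
  rw [Polynomial.map_mul]

theorem g8_dn_pow (R : Red k κ) (p : R.O[X][Y]) (n : ℕ) : R.dn (p ^ n) = R.dn p ^ n := by
  unfold Red.dn
  rw [Polynomial.map_pow]

/-- clearing one pole -/
theorem g8_one [IsAlgClosed k] (h : GR R f x y x' y') {φ : K} {u w : κ} (P : k × k)
    (hP : (R.up f).evalEval P.1 P.2 = 0) (hb : g8_Bad R u w P) :
    ∃ L : R.O[X][Y], (R.dn L).evalEval u w ≠ 0 ∧
      Rg x y P.1 P.2 (aevalAeval x y (R.up L) * φ) := by
  have hq : Qt (R.up f) := qt_map R.O.subtype h.qt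
  obtain ⟨L, hL1, hL2⟩ := line_through R h.qt hP hb
  by_cases hφ : φ = 0
  · refine ⟨L, hL2, ?_⟩
    have h0 := rg_poly (x := x) (y := y) P.1 P.2 (0 : k[X][Y])
    rwa [map_zero, ← mul_zero (aevalAeval x y (R.up L)), ← hφ] at h0
  by_cases hL0 : aevalAeval x y (R.up L) = 0
  · refine ⟨L, hL2, ?_⟩
    have h0 := rg_poly (x := x) (y := y) P.1 P.2 (0 : k[X][Y])
    rwa [map_zero, ← zero_mul φ, ← hL0] at h0
  · obtain ⟨v, hv⟩ := place_exists hq h.ff hP (h.sm P.1 P.2 hP)
    refine ⟨L ^ (-v.ord φ).toNat, ?_, ?_⟩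
    · rw [g8_dn_pow, evalEval_pow]
      exact pow_ne_zero _ hL2
    · rw [g8_up_pow, map_pow, rg_iff hq h.ff hP (h.sm P.1 P.2 hP) hv
        (mul_ne_zero (pow_ne_zero _ hL0) hφ), v.ord_mul _ _ (pow_ne_zero _ hL0) hφ, v.ord_pow]
      have h1 : 0 < v.ord (aevalAeval x y (R.up L)) := by
        have h2 := cen_zer hv (R.up L)
        rw [hL1, map_zero, sub_zero] at h2
        exact h2.resolve_left hL0
      have h3 : -v.ord φ ≤ ((-v.ord φ).toNat : ℤ) := Int.self_le_toNat _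
      have h4 : ((-v.ord φ).toNat : ℤ) ≤ ((-v.ord φ).toNat : ℤ) *
          v.ord (aevalAeval x y (R.up L)) := by
        have h5 : (0 : ℤ) ≤ ((-v.ord φ).toNat : ℤ) := Int.natCast_nonneg _
        nlinarith
      omega

/-- clearing finitely many poles -/
theorem g8_many [IsAlgClosed k] (h : GR R f x y x' y') {φ : K} {u w : κ} (T : Finset (k × k))
    (hT : ∀ P ∈ T, (R.up f).evalEval P.1 P.2 = 0 ∧ g8_Bad R u w P) :
    ∃ A : R.O[X][Y], (R.dn A).evalEval u w ≠ 0 ∧
      ∀ P ∈ T, Rg x y P.1 P.2 (aevalAeval x y (R.up A) * φ) := by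
  induction T using Finset.induction_on with
  | empty =>
    refine ⟨1, ?_, fun P hP => absurd hP (Finset.notMem_empty P)⟩
    rw [g8_dn_one, evalEval_one]
    exact one_ne_zero
  | insert P T _ ih =>
    obtain ⟨A, hA1, hA2⟩ := ih fun Q hQ => hT Q (Finset.mem_insert_of_mem hQ)
    obtain ⟨L, hL1, hL2⟩ := g8_one h (φ := φ) P (hT P (Finset.mem_insert_self P T)).1
      (hT P (Finset.mem_insert_self P T)).2
    refine ⟨L * A, ?_, ?_⟩
    · rw [g8_dn_mul, evalEval_mul]
      exact mul_ne_zero hL1 hA1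
    · intro Q hQ
      rw [g8_up_mul, map_mul]
      rcases Finset.mem_insert.1 hQ with rfl | hQ
      · have h1 := rg_mul (rg_poly (x := x) (y := y) Q.1 Q.2 (R.up A)) hL2
        have e1 : aevalAeval x y (R.up A) * (aevalAeval x y (R.up L) * φ) =
            aevalAeval x y (R.up L) * aevalAeval x y (R.up A) * φ := by ring
        rwa [e1] at h1
      · have h1 := rg_mul (rg_poly (x := x) (y := y) Q.1 Q.2 (R.up L)) (hA2 Q hQ)
        rwa [← mul_assoc] at h1

/-- LEMMA R, first half. `φ = ev p / ev q`. Affine zeros of `q` on the curve: finite (K6). For each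
zero `Q` not reducing to `(u, w)` take `L_Q` of G7 and `n ≥ ord_Q (ev q)`; `A = ∏ L_Q ^ n`. Then
`ev (up A) * φ` is regular at every affine point (`rg_iff`, L5; at the points reducing to `(u,w)` by
hypothesis), so by N1 it is `ev g`. -/
theorem clear_poles [IsAlgClosed k] (h : GR R f x y x' y') {φ : K} {u w : κ}
    (hr : ∀ a b : R.O, f.evalEval a b = 0 → R.red a = u → R.red b = w →
      Rg x y (a : k) (b : k) φ) :
    ∃ (A : R.O[X][Y]) (g : k[X][Y]), (R.dn A).evalEval u w ≠ 0 ∧ g.natDegree < 4 ∧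
      aevalAeval x y (R.up A) * φ = aevalAeval x y g := by
  have hq : Qt (R.up f) := qt_map R.O.subtype h.qt
  obtain ⟨p, q, hq0, hpq⟩ := h.ff.gen φ
  set Z := (zeros_finite hq h.ff hq0).toFinset with hZ
  obtain ⟨A, hA1, hA2⟩ := g8_many h (φ := φ) (u := u) (w := w)
    (Z.filter fun P => g8_Bad R u w P) (by
      intro P hP
      rw [Finset.mem_filter, hZ, Set.Finite.mem_toFinset] at hP
      exact ⟨hP.1.1, hP.2⟩)
  obtain ⟨g, hg1, hg2⟩ := poly_of_regular hq h.ff (φ := aevalAeval x y (R.up A) * φ) (by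
    intro a b hab
    by_cases hqa : q.evalEval a b = 0
    · by_cases hbad : g8_Bad R u w (a, b)
      · refine hA2 (a, b) ?_
        rw [Finset.mem_filter, hZ, Set.Finite.mem_toFinset]
        exact ⟨⟨hab, hqa⟩, hbad⟩
      · unfold g8_Bad at hbad
        push Not at hbad
        obtain ⟨a', b', rfl, rfl, hu, hw⟩ := hbad
        refine rg_mul (rg_poly _ _ _) (hr a' b' ?_ hu hw)
        have h1 := map_mapRingHom_evalEval R.O.subtype f a' b'
        have h2 : R.O.subtype (f.evalEval a' b') = 0 := by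
          rw [← h1]
          exact hab
        exact Subtype.ext h2
    · have e1 : aevalAeval x y (R.up A) * φ =
          aevalAeval x y (R.up A * p) * (aevalAeval x y q)⁻¹ := by
        rw [map_mul, ← hpq]
        field_simp
      rw [e1]
      exact rg_mul (rg_poly _ _ _) (rg_inv_poly hqa))
  exact ⟨A, g, hA1, hg1, hg2⟩

/-! ### G9 -/
theorem g9_up_mul (p q : R.O[X][Y]) : R.up (p * q) = R.up p * R.up q := Polynomial.map_mul _

theorem g9_dn_mul (p q : R.O[X][Y]) : R.dn (p * q) = R.dn p * R.dn q := Polynomial.map_mul _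

theorem g9_up_sub (p q : R.O[X][Y]) : R.up (p - q) = R.up p - R.up q := Polynomial.map_sub _

theorem g9_dn_sub (p q : R.O[X][Y]) : R.dn (p - q) = R.dn p - R.dn q := Polynomial.map_sub _

theorem g9_up_C (c : R.O) : R.up (C (C c)) = C (C (c : k)) := by simp [Red.up]

theorem g9_dn_C (c : R.O) : R.dn (C (C c)) = C (C (R.red c)) := by simp [Red.dn]

/-- LEMMA R. From G8 `ev (up A) φ = ev g`; `Rd φ ψ` via `p, q`: `ev(up (A p)) = ev (g * up q)`. `g` has
coefficients in `O`: else `g = e up g₁`, `N e > 1`, `dn g₁ ≠ 0`; dividing by `e` and reducing,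
`0 = ev' (dn g₁) ev' (dn q)`, contradiction (degree `< 4`). So `g = up g₀` and
`ψ ev'(dn A) = ev' (dn g₀)`. -/
theorem lemma_R [IsAlgClosed k] (h : GR R f x y x' y') {φ : K} {ψ : K'}
    (hφ : R.Rd x y x' y' φ ψ) {u w : κ}
    (hr : ∀ a b : R.O, f.evalEval a b = 0 → R.red a = u → R.red b = w →
      Rg x y (a : k) (b : k) φ) : Rg x' y' u w ψ := by
  obtain ⟨A, g, hA, hg4, hAg⟩ := clear_poles h hr
  obtain ⟨p, q, hq, hφq, hψq⟩ := hφ
  have hqt : Qt (R.dn f) := qt_map R.red h.qt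
  have hprod : aevalAeval x y (R.up (A * p)) = aevalAeval x y g * aevalAeval x y (R.up q) := by
    rw [g9_up_mul, map_mul, ← hφq, ← hAg]; ring
  -- `g` has integral coefficients
  obtain ⟨g₀, hg₀⟩ : ∃ g₀ : R.O[X][Y], R.up g₀ = g := by
    by_cases hg0 : g = 0
    · exact ⟨0, by rw [hg0]; simp [Red.up]⟩
    · obtain ⟨c, q₁, hc, hgq, hdn, hco⟩ := poly_scale R hg0
      by_cases hN : R.N c ≤ 1
      · refine ⟨C (C ⟨c, (R.mem_O c).mpr hN⟩) * q₁, ?_⟩
        rw [g9_up_mul, g9_up_C, hgq]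
      · exfalso
        have hNc : R.N c⁻¹ < 1 := by
          rw [map_inv₀]
          exact inv_lt_one_of_one_lt₀ (lt_of_not_ge hN)
        have hmem : c⁻¹ ∈ R.O := (R.mem_O _).mpr hNc.le
        have hred : R.red ⟨c⁻¹, hmem⟩ = 0 := (R.ker _).mpr hNc
        have h0 : aevalAeval x y (R.up (C (C ⟨c⁻¹, hmem⟩) * (A * p) - q₁ * q)) = 0 := by
          rw [g9_up_sub, g9_up_mul, g9_up_mul q₁ q, map_sub, map_mul, map_mul, hprod, hgq, g9_up_C,
            map_mul, aevalAeval_C, aeval_C, aevalAeval_C, aeval_C]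
          have : algebraMap k K c⁻¹ * algebraMap k K c = 1 := by
            rw [← map_mul, inv_mul_cancel₀ hc, map_one]
          linear_combination (aevalAeval x y (R.up q₁) * aevalAeval x y (R.up q)) * this
        have h1 := dn_zero h h0
        rw [g9_dn_sub, g9_dn_mul, g9_dn_mul q₁ q, g9_dn_C, hred, map_zero, map_zero, zero_mul, zero_sub,
          map_neg, neg_eq_zero, map_mul] at h1
        have h2 := (mul_eq_zero.mp h1).resolve_right hq
        apply hdn
        refine eq_zero_of_aeval hqt h.ffr ?_ h2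
        have hq1 : q₁.natDegree < 4 := by
          rw [Nat.lt_iff_add_one_le, Nat.succ_le_iff]
          by_contra hge
          have hne : q₁ ≠ 0 := by
            intro hh
            apply hdn
            rw [hh]; simp [Red.dn]
          have hlead : q₁.coeff q₁.natDegree ≠ 0 := by
            rw [coeff_natDegree]; exact leadingCoeff_ne_zero.mpr hne
          apply hlead
          apply hco
          exact coeff_eq_zero_of_natDegree_lt (by omega)
        exact lt_of_le_of_lt natDegree_map_le hq1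
  refine ⟨R.dn g₀, R.dn A, hA, ?_⟩
  have h0 : aevalAeval x y (R.up (A * p - g₀ * q)) = 0 := by
    rw [g9_up_sub, map_sub, hprod, g9_up_mul, map_mul, hg₀, sub_self]
  have h1 := dn_zero h h0
  rw [g9_dn_sub, g9_dn_mul, g9_dn_mul, map_sub, map_mul, map_mul, ← hψq] at h1
  apply mul_right_cancel₀ hq
  linear_combination h1

/-! ### G10 -/
theorem g10_red_evalEval (R : Red k κ) (p : R.O[X][Y]) (a b : R.O) :
    (R.dn p).evalEval (R.red a) (R.red b) = R.red (p.evalEval a b) := by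
  unfold Red.dn
  exact map_mapRingHom_evalEval R.red p a b

theorem g10_dY_dn (R : Red k κ) (p : R.O[X][Y]) (a b : R.O) :
    dY (R.dn p) (R.red a) (R.red b) = R.red (dY p a b) := by
  unfold dY
  rw [← g10_red_evalEval]
  unfold Red.dn
  rw [derivative_map]

/-- Two points of the curve with the same `x`-coordinate and the same reduction, where `dY ≠ 0`, are
equal: `0 = f(a,b) - f(a,b') = (b - b') * E`, `red E = dY (dn f) ≠ 0`. -/
theorem disc_inj (R : Red k κ) {f : R.O[X][Y]} {a b b' : R.O} (h1 : f.evalEval a b = 0)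
    (h2 : f.evalEval a b' = 0) (hr : R.red b = R.red b')
    (hd : dY (R.dn f) (R.red a) (R.red b) ≠ 0) : b = b' := by
  by_contra hne
  apply hd
  rw [hr, g10_dY_dn]
  set g : R.O[X] := f.map (evalRingHom a) with hg
  have hev : ∀ c : R.O, g.eval c = f.evalEval a c := by
    intro c
    rw [hg, eval_map, eval₂_evalRingHom]
  have hev' : ∀ c : R.O, (derivative g).eval c = dY f a c := by
    intro c
    unfold dY
    rw [hg, derivative_map, eval_map, eval₂_evalRingHom]
  have hroot : IsRoot g b' := by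
    rw [IsRoot, hev, h2]
  obtain ⟨h, hh⟩ := dvd_iff_isRoot.2 hroot
  have e1 : h.eval b = 0 := by
    have e2 : g.eval b = 0 := by rw [hev, h1]
    rw [hh, eval_mul, eval_sub, eval_X, eval_C] at e2
    exact (mul_eq_zero.1 e2).resolve_left (sub_ne_zero.2 hne)
  have e3 : dY f a b' = h.eval b' := by
    rw [← hev', hh, derivative_mul, eval_add, eval_mul, eval_mul, derivative_sub, derivative_X,
      derivative_C, sub_zero, eval_one, one_mul, eval_sub, eval_X, eval_C, sub_self, zero_mul,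
      add_zero]
  have e4 : ∀ c : R.O, R.red (h.eval c) = (h.map R.red).eval (R.red c) := by
    intro c
    rw [eval_map, eval₂_hom]
  rw [e3, e4, ← hr, ← e4, e1, map_zero]

/-- reduction of values -/
theorem red_evalEval (R : Red k κ) (p : R.O[X][Y]) (a b : R.O) :
    (R.dn p).evalEval (R.red a) (R.red b) = R.red (p.evalEval a b) :=
  g10_red_evalEval R p a b

theorem up_evalEval (R : Red k κ) (p : R.O[X][Y]) (a b : R.O) :
    (R.up p).evalEval (a : k) (b : k) = ((p.evalEval a b : R.O) : k) := by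
  unfold Red.up
  exact map_mapRingHom_evalEval R.O.subtype p a b

theorem dY_dn (R : Red k κ) (p : R.O[X][Y]) (a b : R.O) :
    dY (R.dn p) (R.red a) (R.red b) = R.red (dY p a b) := g10_dY_dn R p a b

theorem dY_up (R : Red k κ) (p : R.O[X][Y]) (a b : R.O) :
    dY (R.up p) (a : k) (b : k) = ((dY p a b : R.O) : k) := by
  unfold dY
  rw [← up_evalEval]
  unfold Red.up
  rw [derivative_map]

/-! ### G11 -/
theorem g11_nat_le {L : Type} [Field L] (G : AbsoluteValue L ℝ)
    (hna : ∀ a b, G (a + b) ≤ max (G a) (G b)) (n : ℕ) : G (n : L) ≤ 1 := by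
  induction n with
  | zero => simp
  | succ n ih =>
    push_cast
    refine le_trans (hna _ _) (max_le ih ?_)
    simp

theorem g11_sum_le {L : Type} [Field L] (G : AbsoluteValue L ℝ)
    (hna : ∀ a b, G (a + b) ≤ max (G a) (G b)) {c : ℝ} (hc : 0 ≤ c) (s : Finset ℕ) (f : ℕ → L)
    (hf : ∀ i ∈ s, G (f i) ≤ c) : G (∑ i ∈ s, f i) ≤ c := by
  induction s using Finset.induction_on with
  | empty => simpa using hc
  | insert a s ha ih =>
    rw [Finset.sum_insert ha]
    refine le_trans (hna _ _) (max_le (hf a (Finset.mem_insert_self a s)) (ih ?_))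
    intro i hi
    exact hf i (Finset.mem_insert_of_mem hi)

theorem g11_real (j : ℕ) : ((j + 2 : ℕ) : ℝ) * (1 / 4) ^ (j + 1) ≤ 1 / 2 := by
  induction j with
  | zero => norm_num
  | succ n ih =>
    have h0 : (0 : ℝ) ≤ (1 / 4) ^ (n + 1) := by positivity
    have h1 : (1 / 4 : ℝ) ^ (n + 1 + 1) = (1 / 4) ^ (n + 1) * (1 / 4) := pow_succ _ _
    rw [h1]
    push_cast at ih ⊢
    have hn : (0 : ℝ) ≤ (n : ℝ) := Nat.cast_nonneg n
    nlinarith [mul_nonneg hn h0]

theorem g11_term {L : Type} [Field L] (G : AbsoluteValue L ℝ)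
    (hna : ∀ a b, G (a + b) ≤ max (G a) (G b)) (hnat : ∀ j : ℕ, j ≠ 0 → (1 : ℝ) / j ≤ G (j : L))
    (ω : L) (hω : G ω ≤ 1 / 4) (M j : ℕ) :
    G (ω ^ (j + 2) * ((M + 2).choose (j + 2) : ℕ)) ≤ 1 / 2 * (G ((M + 2 : ℕ) : L) * G ω) := by
  have hch : ((j + 2 : ℕ) : L) * (((M + 2).choose (j + 2) : ℕ) : L) =
      ((M + 2 : ℕ) : L) * (((M + 1).choose (j + 1) : ℕ) : L) := by
    have := Nat.add_one_mul_choose_eq (M + 1) (j + 1)
    have h2 : ((M + 1 + 1 : ℕ) : L) * (((M + 1).choose (j + 1) : ℕ) : L) =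
        (((M + 1 + 1).choose (j + 1 + 1) : ℕ) : L) * ((j + 1 + 1 : ℕ) : L) := by
      exact_mod_cast congrArg (Nat.cast (R := L)) this
    rw [mul_comm]
    exact h2.symm
  have h1 : G ((j + 2 : ℕ) : L) * G (((M + 2).choose (j + 2) : ℕ) : L) =
      G ((M + 2 : ℕ) : L) * G (((M + 1).choose (j + 1) : ℕ) : L) := by
    rw [← map_mul, ← map_mul, hch]
  have h2 := g11_nat_le G hna ((M + 1).choose (j + 1))
  have h3 := hnat (j + 2) (by omega)
  have hj : (0 : ℝ) < ((j + 2 : ℕ) : ℝ) := by positivity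
  have h4 : G (((M + 2).choose (j + 2) : ℕ) : L) ≤ ((j + 2 : ℕ) : ℝ) * G ((M + 2 : ℕ) : L) := by
    have hC : 0 ≤ G (((M + 2).choose (j + 2) : ℕ) : L) := G.nonneg _
    have hM : 0 ≤ G ((M + 2 : ℕ) : L) := G.nonneg _
    have h5 : 1 / ((j + 2 : ℕ) : ℝ) * G (((M + 2).choose (j + 2) : ℕ) : L) ≤ G ((M + 2 : ℕ) : L) := by
      calc 1 / ((j + 2 : ℕ) : ℝ) * G (((M + 2).choose (j + 2) : ℕ) : L)
          ≤ G ((j + 2 : ℕ) : L) * G (((M + 2).choose (j + 2) : ℕ) : L) :=
            mul_le_mul_of_nonneg_right h3 hC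
        _ = G ((M + 2 : ℕ) : L) * G (((M + 1).choose (j + 1) : ℕ) : L) := h1
        _ ≤ G ((M + 2 : ℕ) : L) * 1 := mul_le_mul_of_nonneg_left h2 hM
        _ = G ((M + 2 : ℕ) : L) := mul_one _
    rw [one_div, inv_mul_le_iff₀ hj] at h5
    exact h5
  rw [map_mul, map_pow, pow_succ]
  have h6 : G ω ^ (j + 1) ≤ (1 / 4) ^ (j + 1) := pow_le_pow_left₀ (G.nonneg _) hω _
  have hM : 0 ≤ G ((M + 2 : ℕ) : L) := G.nonneg _
  have hω0 : 0 ≤ G ω := G.nonneg _
  calc G ω ^ (j + 1) * G ω * G (((M + 2).choose (j + 2) : ℕ) : L)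
      ≤ (1 / 4) ^ (j + 1) * G ω * (((j + 2 : ℕ) : ℝ) * G ((M + 2 : ℕ) : L)) := by
        refine mul_le_mul (mul_le_mul_of_nonneg_right h6 hω0) h4 (G.nonneg _) ?_
        positivity
    _ = (((j + 2 : ℕ) : ℝ) * (1 / 4) ^ (j + 1)) * (G ((M + 2 : ℕ) : L) * G ω) := by ring
    _ ≤ 1 / 2 * (G ((M + 2 : ℕ) : L) * G ω) :=
        mul_le_mul_of_nonneg_right (g11_real j) (mul_nonneg hM hω0)

/-- binomial estimate: for `j ≥ 2`, `(M choose j) = (M / j) (M-1 choose j-1)`, so
`G ((M choose j) ω^j) ≤ G M * G ω * (j * (1/4)^(j-1)) ≤ (1/2) G M G ω`, using `1/j ≤ G j` and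
`G (integer) ≤ 1`. -/
theorem binom_est {L : Type} [Field L] (G : AbsoluteValue L ℝ)
    (hna : ∀ a b, G (a + b) ≤ max (G a) (G b)) (hnat : ∀ j : ℕ, j ≠ 0 → (1 : ℝ) / j ≤ G (j : L))
    (ω : L) (hω : G ω ≤ 1 / 4) (M : ℕ) :
    G ((1 + ω) ^ M - 1 - M * ω) ≤ 1 / 2 * (G (M : L) * G ω) := by
  match M with
  | 0 => simp
  | 1 =>
    have : (1 + ω) ^ 1 - 1 - ((1 : ℕ) : L) * ω = 0 := by push_cast; ring
    rw [this, map_zero]
    have := G.nonneg ω
    have := G.nonneg ((1 : ℕ) : L)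
    positivity
  | M + 2 =>
    have h1 : (1 + ω) ^ (M + 2) - 1 - ((M + 2 : ℕ) : L) * ω =
        ∑ j ∈ Finset.range (M + 1), ω ^ (j + 2) * ((M + 2).choose (j + 2) : ℕ) := by
      rw [add_comm 1 ω, add_pow, Finset.sum_range_succ', Finset.sum_range_succ']
      simp only [one_pow, mul_one, zero_add, Nat.choose_one_right, Nat.choose_zero_right, pow_zero,
        pow_one, Nat.cast_one]
      ring
    rw [h1]
    refine g11_sum_le G hna ?_ _ _ fun j _ => g11_term G hna hnat ω hω M j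
    have := G.nonneg ω
    have := G.nonneg ((M + 2 : ℕ) : L)
    positivity

/-! ### G12 -/
theorem g12_sub_ne (h : GR R f x y x' y') (c : κ) : x' - algebraMap κ K' c ≠ 0 := by
  intro h0
  have hq : Qt (R.dn f) := qt_map R.red h.qt
  have ht := ff_transcendental hq h.ffr
  apply ht
  rw [sub_eq_zero] at h0
  rw [h0]
  exact isAlgebraic_algebraMap c

/-- `(x - a₁)/(x - a₀) = 1 + ω`, `ω = (a₀ - a₁)/(x - a₀)`, `G ω = N (a₁ - a₀)` (`rd_sub_x`: `G (x - a₀) = 1`).
`G11` and `gauss`: `(w - 1 - M ω)/s` reduces to 0 because its Gauss norm is `≤ 1/2`. -/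
theorem power_ratio (h : GR R f x y x' y') {a₀ a₁ : R.O} (hc : R.N ((a₁ : k) - a₀) ≤ 1 / 4)
    (M : ℕ) {s : k} (hs : s ≠ 0) (hle : R.N ((M : k) * ((a₁ : k) - a₀)) ≤ R.N s) :
    ∃ r : R.O, (r : k) * s = -((M : k) * ((a₁ : k) - a₀)) ∧
      R.Rd x y x' y' ((((x - algebraMap k K a₁) / (x - algebraMap k K a₀)) ^ M - 1) / algebraMap k K s)
        (algebraMap κ K' (R.red r) / (x' - algebraMap κ K' (R.red a₀))) := by
  obtain ⟨G, hna, hGc, hG1, hG0⟩ := gauss h
  set A₀ : K := x - algebraMap k K a₀ with hA₀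
  set A₁ : K := x - algebraMap k K a₁ with hA₁
  have hrd0 : R.Rd x y x' y' A₀ (x' - algebraMap κ K' (R.red a₀)) := rd_sub_x R a₀
  have hne' := g12_sub_ne h (R.red a₀)
  have hGA : G A₀ = 1 := by
    refine le_antisymm ((hG1 _).2 ⟨_, hrd0⟩) ?_
    by_contra hlt
    push Not at hlt
    exact hne' (rd_unique h hrd0 ((hG0 _).1 hlt))
  have hA0 : A₀ ≠ 0 := by
    intro h0
    rw [h0, map_zero] at hGA
    exact zero_ne_one hGA
  have hNs : R.N s ≠ 0 := by
    rw [Ne, AbsoluteValue.eq_zero]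
    exact hs
  have hNs' : 0 < R.N s := lt_of_le_of_ne (R.N.nonneg s) (Ne.symm hNs)
  -- the element r
  have hr : -((M : k) * ((a₁ : k) - a₀)) / s ∈ R.O := by
    rw [R.mem_O, map_div₀, AbsoluteValue.map_neg, div_le_one hNs']
    exact hle
  refine ⟨⟨_, hr⟩, ?_, ?_⟩
  · exact div_mul_cancel₀ _ hs
  set r : R.O := ⟨_, hr⟩ with hrdef
  set ω : K := (algebraMap k K a₀ - algebraMap k K a₁) / A₀ with hω
  have h1 : A₁ / A₀ = 1 + ω := by
    rw [hω, div_eq_iff hA0, add_mul, div_mul_cancel₀ _ hA0, hA₁, hA₀]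
    ring
  have hGω : G ω = R.N ((a₁ : k) - a₀) := by
    rw [hω, map_div₀, hGA, div_one, ← map_sub, hGc, ← AbsoluteValue.map_neg, neg_sub]
  have hest := binom_est G hna (fun j hj => by
    have := R.nat j hj
    rw [← map_natCast (algebraMap k K) j, hGc]
    exact this) ω (by rw [hGω]; exact hc) M
  have hGs : G (algebraMap k K s) = R.N s := hGc s
  have hlt : G (((1 + ω) ^ M - 1 - M * ω) / algebraMap k K s) < 1 := by
    rw [map_div₀, hGs, div_lt_one hNs']
    refine lt_of_le_of_lt hest ?_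
    have h2 : G (M : K) * G ω = R.N ((M : k) * ((a₁ : k) - a₀)) := by
      rw [hGω, map_mul, ← hGc (M : k), map_natCast (algebraMap k K) M]
    rw [h2]
    have h3 := R.N.nonneg ((M : k) * ((a₁ : k) - a₀))
    linarith
  have hz := (hG0 _).1 hlt
  have hr2 : R.Rd x y x' y' (algebraMap k K (r : k) * A₀⁻¹)
      (algebraMap κ K' (R.red r) * (x' - algebraMap κ K' (R.red a₀))⁻¹) :=
    rd_mul h (rd_const R r) (rd_inv h hrd0 hne')
  have hsum := rd_add h hz hr2
  rw [zero_add] at hsum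
  have hsK : algebraMap k K s ≠ 0 := by simpa using hs
  have heq : ((1 + ω) ^ M - 1 - M * ω) / algebraMap k K s + algebraMap k K (r : k) * A₀⁻¹ =
      ((A₁ / A₀) ^ M - 1) / algebraMap k K s := by
    have hrr : algebraMap k K (r : k) = M * (algebraMap k K a₀ - algebraMap k K a₁) /
        algebraMap k K s := by
      rw [hrdef]
      simp only [map_div₀, map_neg, map_mul, map_sub, map_natCast]
      ring
    rw [h1, hrr, hω]
    field_simp
    try ring
  rw [heq, ← div_eq_mul_inv] at hsum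
  exact hsum

theorem ratio_one (h : GR R f x y x' y') {a₀ a₁ : R.O} (hc : R.red a₁ = R.red a₀) (M : ℕ) :
    R.Rd x y x' y' (((x - algebraMap k K a₁) / (x - algebraMap k K a₀)) ^ M) 1 := by
  have hne' := g12_sub_ne h (R.red a₀)
  have h0 : R.Rd x y x' y' (x - algebraMap k K a₀) (x' - algebraMap κ K' (R.red a₀)) := rd_sub_x R a₀
  have h1 : R.Rd x y x' y' (x - algebraMap k K a₁) (x' - algebraMap κ K' (R.red a₁)) := rd_sub_x R a₁
  have h2 := rd_mul h h1 (rd_inv h h0 hne')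
  rw [hc, mul_inv_cancel₀ hne'] at h2
  have h3 := rd_pow h h2 M
  rw [one_pow, ← div_eq_mul_inv] at h3
  exact h3

end G

end Pool.Agent.LibQuart
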