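import Pool.Agent.LibQuart.BZ

open scoped Classical
open Polynomial
open scoped Polynomial.Bivariate

namespace Pool.Agent.LibQuart

open Pool.Agent.LibBH2

/-! ## Block H: orthogonality -/

section H
variable {k : Type} [Field k]

/-! ### H1 -/
theorem h1_add_left {F : MvPolynomial (Fin 3) k} (D D' E : Pt F →₀ ℤ) :
    prodCycle (D + D') E = prodCycle D E + prodCycle D' E := by
  unfold prodCycle
  refine Finsupp.sum_add_index' ?_ ?_
  · intro P
    simp
  · intro P m n
    rw [← Finsupp.sum_add]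
    refine Finsupp.sum_congr fun Q _ => ?_
    rw [add_mul, Finsupp.single_add]

theorem h1_add_right {F : MvPolynomial (Fin 3) k} (D E E' : Pt F →₀ ℤ) :
    prodCycle D (E + E') = prodCycle D E + prodCycle D E' := by
  unfold prodCycle
  rw [← Finsupp.sum_add]
  refine Finsupp.sum_congr fun P _ => ?_
  refine Finsupp.sum_add_index' ?_ ?_
  · intro Q
    simp
  · intro Q m n
    rw [mul_add, Finsupp.single_add]

/-- the product of cycles as a biadditive map -/
noncomputable def h1_P (F : MvPolynomial (Fin 3) k) :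
    (Pt F →₀ ℤ) →+ (Pt F →₀ ℤ) →+ (Pt F × Pt F →₀ ℤ) :=
  AddMonoidHom.mk' (fun D => AddMonoidHom.mk' (fun E => prodCycle D E) (h1_add_right D))
    (fun D D' => AddMonoidHom.ext fun E => h1_add_left D D' E)

theorem h1_P_apply {F : MvPolynomial (Fin 3) k} (D E : Pt F →₀ ℤ) :
    h1_P F D E = prodCycle D E := rfl

theorem h1_P_single {F : MvPolynomial (Fin 3) k} (p q : Pt F) :
    h1_P F (Finsupp.single p 1) (Finsupp.single q 1) = Finsupp.single (p, q) 1 := by
  rw [h1_P_apply]
  unfold prodCycle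
  rw [Finsupp.sum_single_index (by simp), Finsupp.sum_single_index (by simp), mul_one]

theorem h1_map {F : MvPolynomial (Fin 3) k} (g : Pt F → Pt F × Pt F) (a b a' b' : Pt F)
    (r : Pt F →₀ ℤ) (hr : r = 2 • Finsupp.single a (1 : ℤ) + Finsupp.single b 1
      - 2 • Finsupp.single a' 1 - Finsupp.single b' 1) :
    r.mapDomain g = 2 • Finsupp.single (g a) (1 : ℤ) + Finsupp.single (g b) 1
      - 2 • Finsupp.single (g a') 1 - Finsupp.single (g b') 1 := by
  have h := congrArg (Finsupp.mapDomain.addMonoidHom g) hr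
  rw [map_sub, map_sub, map_add, map_nsmul, map_nsmul] at h
  have e : ∀ p : Pt F, Finsupp.mapDomain.addMonoidHom g (Finsupp.single p (1 : ℤ)) =
      Finsupp.single (g p) 1 := fun p => Finsupp.mapDomain_single
  rw [e, e, e, e] at h
  exact h

/-- Algebra. With `r = 2a + b - 2a' - b'`, `v = 2a + b - 2a'`:
`D × E + E × D = - diag(r) + r × v + b' × r` for `D = a - a'`, `E = a + 2b - 3a'`. -/
theorem orth_identity {F : MvPolynomial (Fin 3) k} (a b a' b' : Pt F) (r : Pt F →₀ ℤ)
    (hr : r = 2 • Finsupp.single a (1 : ℤ) + Finsupp.single b 1 - 2 • Finsupp.single a' 1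
      - Finsupp.single b' 1)
    (hd : RatEqZero F (r.mapDomain fun p => (p, p)))
    (hl : ∀ Q, RatEqZero F (r.mapDomain fun p => (p, Q)))
    (hr' : ∀ Q, RatEqZero F (r.mapDomain fun p => (Q, p))) :
    RatEqZero F
      (prodCycle (Finsupp.single a 1 - Finsupp.single a' 1)
          (Finsupp.single a 1 + 2 • Finsupp.single b 1 - 3 • Finsupp.single a' 1) +
        prodCycle (Finsupp.single a 1 + 2 • Finsupp.single b 1 - 3 • Finsupp.single a' 1)
          (Finsupp.single a 1 - Finsupp.single a' 1)) := by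
  have h1 := hl a
  have h2 := hl b
  have h3 := hl a'
  have h4 := hr' b'
  rw [h1_map (fun p => (p, p)) a b a' b' r hr] at hd
  rw [h1_map (fun p => (p, a)) a b a' b' r hr] at h1
  rw [h1_map (fun p => (p, b)) a b a' b' r hr] at h2
  rw [h1_map (fun p => (p, a')) a b a' b' r hr] at h3
  rw [h1_map (fun p => (b', p)) a b a' b' r hr] at h4
  have key := AddSubgroup.add_mem _ (AddSubgroup.add_mem _ (AddSubgroup.neg_mem _ hd)
    (AddSubgroup.sub_mem _ (AddSubgroup.add_mem _ (AddSubgroup.nsmul_mem _ h1 2) h2)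
      (AddSubgroup.nsmul_mem _ h3 2))) h4
  have e : prodCycle (Finsupp.single a 1 - Finsupp.single a' 1)
          (Finsupp.single a 1 + 2 • Finsupp.single b 1 - 3 • Finsupp.single a' 1) +
        prodCycle (Finsupp.single a 1 + 2 • Finsupp.single b 1 - 3 • Finsupp.single a' 1)
          (Finsupp.single a 1 - Finsupp.single a' 1) =
      2 • Finsupp.single (a, a) (1 : ℤ) + 2 • Finsupp.single (a, b) 1
        + 2 • Finsupp.single (b, a) 1 - 4 • Finsupp.single (a, a') 1
        - 4 • Finsupp.single (a', a) 1 - 2 • Finsupp.single (a', b) 1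
        - 2 • Finsupp.single (b, a') 1 + 6 • Finsupp.single (a', a') 1 := by
    rw [← h1_P_apply, ← h1_P_apply]
    simp only [map_sub, map_add, map_nsmul, AddMonoidHom.sub_apply, AddMonoidHom.add_apply,
      AddMonoidHom.nsmul_apply, h1_P_single]
    abel
  rw [e]
  unfold RatEqZero
  refine (congrArg (· ∈ AddSubgroup.closure {c' | IsPush F c'}) ?_).mp key
  abel

variable {f : k[X][Y]} {K : Type} [Field K] [Algebra k K] {x y : K}

/-- the function `y - b - m (x - a)` -/
noncomputable def lineFn (x y : K) (a b m : k) : K :=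
  (y - algebraMap k K b) - algebraMap k K m * (x - algebraMap k K a)

/-! ### H2 -/
theorem h2_eval (f : k[X][Y]) (l : k[X]) : aevalAeval (A := k[X]) X l f = f.eval l := by
  induction f using Polynomial.induction_on' with
  | add p q hp hq => rw [map_add, hp, hq, eval_add]
  | monomial n p =>
    rw [← C_mul_X_pow_eq_monomial, map_mul, map_pow, aevalAeval_C, aevalAeval_Y, eval_mul, eval_C,
      eval_pow, eval_X, aeval_X_left_apply]

theorem h2_comp (f : k[X][Y]) (a b m : k) :
    (Ln f a b m).comp (X - C a) = f.eval (C b + C m * (X - C a)) := by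
  rw [← h2_eval]
  have h : ((aeval (X - C a : k[X])).comp
      (aevalAeval (R := k) (C a + X : k[X]) (C b + C m * X : k[X]))) =
      aevalAeval (R := k) (X : k[X]) (C b + C m * (X - C a) : k[X]) := by
    apply algHom_ext'
    · ext
      simp
    · simp
  have h2 := DFunLike.congr_fun h f
  rw [← h2]
  rfl

/-- Points of the curve on the line: `f(a', b') = 0`, `b' - b = m (a' - a)` imply `a' - a ∈ {0, s, t}`
(`ln_eval`). -/
theorem on_line {a b m s t : k} (hh : Half f a b m s t) {a' b' : k} (h0 : f.evalEval a' b' = 0)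
    (hl : b' - b = m * (a' - a)) : a' = a ∨ a' = a + s ∨ a' = a + t := by
  obtain ⟨_, _, _, h4, h5, _, _⟩ := hh
  have h1 : (Ln f a b m).eval (a' - a) = 0 := by
    rw [ln_eval, ← h0]
    congr 1
    · ring
    · rw [← hl]
      ring
  rw [h5] at h1
  simp only [eval_mul, eval_C, eval_X, eval_pow, eval_sub, mul_eq_zero, pow_eq_zero_iff,
    ne_eq, OfNat.ofNat_ne_zero, not_false_eq_true, sub_eq_zero] at h1
  rcases h1 with ((h1 | h1) | h1) | h1
  · exact absurd h1 h4
  · exact Or.inl h1
  · right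
    left
    rw [← h1]
    ring
  · right
    right
    rw [← h1]
    ring

/-- Taylor expansion in `y` along the line: `f(x, y) = f(x, b + m (x - a)) + ℓ G(x, y)` with
`G = dY f` at points of the line; so on the curve `ℓ G = - c₄ (x-a)(x-a-s)^2(x-a-t)`. -/
theorem line_taylor (h : FF f x y) {a b m s t : k} (hh : Half f a b m s t) :
    ∃ G : k[X][Y], (∀ a' b', b' - b = m * (a' - a) → G.evalEval a' b' = dY f a' b') ∧
      lineFn x y a b m * aevalAeval x y G =
        -(algebraMap k K ((flip 4 f).evalEval 0 m) * (x - algebraMap k K a) *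
          (x - algebraMap k K (a + s)) ^ 2 * (x - algebraMap k K (a + t))) := by
  obtain ⟨_, _, _, h4, h5, _, _⟩ := hh
  set l : k[X] := C b + C m * (X - C a) with hl
  have hdvd : (X - C l : k[X][Y]) ∣ f - C (f.eval l) := by
    rw [dvd_iff_isRoot, IsRoot.def, eval_sub, eval_C, sub_self]
  obtain ⟨G, hG⟩ := hdvd
  refine ⟨G, fun a' b' hab => ?_, ?_⟩
  · have h1 := congrArg derivative hG
    rw [derivative_sub, derivative_C, sub_zero, derivative_mul, derivative_sub, derivative_X,
      derivative_C, sub_zero, one_mul] at h1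
    unfold dY
    rw [h1, evalEval_add, evalEval_mul]
    have h2 : (X - C l : k[X][Y]).evalEval a' b' = 0 := by
      rw [evalEval_sub, evalEval_X, evalEval_C, hl]
      simp only [eval_add, eval_C, eval_mul, eval_sub, eval_X]
      rw [← hab]
      ring
    rw [h2, zero_mul, add_zero]
  · have h1 := congrArg (aevalAeval x y) hG
    rw [map_sub, map_mul, map_sub, h.root, aevalAeval_C, aevalAeval_C, aevalAeval_Y, zero_sub,
      ← h2_comp, h5] at h1
    have h2 : y - aeval x l = lineFn x y a b m := by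
      rw [hl]
      unfold lineFn
      simp only [map_add, map_mul, map_sub, aeval_C, aeval_X]
      ring
    rw [h2] at h1
    rw [← h1]
    simp only [mul_comp, C_comp, X_comp, pow_comp, sub_comp, map_mul, map_pow, map_sub, aeval_C,
      aeval_X, map_add]
    ring

/-! ### H3 -/
theorem h3_cen_iff {v : Place k K} {a' b' : k} (hv : Cen v x y a' b') (c d : k) :
    Cen v x y c d ↔ c = a' ∧ d = b' := by
  constructor
  · intro h
    exact ⟨Place.val_unique h.1 hv.1, Place.val_unique h.2 hv.2⟩
  · rintro ⟨rfl, rfl⟩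
    exact hv

theorem h3_ordx (hf : Qt f) (h : FF f x y) {v : Place k K} {a' b' : k}
    (h0 : f.evalEval a' b' = 0) (hd : dY f a' b' ≠ 0) (hv : Cen v x y a' b') (c : k) :
    x - algebraMap k K c ≠ 0 ∧ v.ord (x - algebraMap k K c) = if c = a' then 1 else 0 := by
  by_cases hc : c = a'
  · subst hc
    have h1 := ord_x hf h h0 hd hv
    refine ⟨?_, by rw [if_pos rfl, h1]⟩
    intro h2
    rw [h2, v.ord_zero] at h1
    exact zero_ne_one h1
  · have h1 : v.Zer (x - algebraMap k K c - algebraMap k K (a' - c)) :=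
      Place.val_sub hv.1 (Place.val_const c)
    have h2 : a' - c ≠ 0 := sub_ne_zero.2 (Ne.symm hc)
    exact ⟨Place.ne_zero_of_val h1 h2, by rw [if_neg hc, Place.ord_eq_zero_of_val h1 h2]⟩

/-- At affine places: `ord ℓ = ind c + 2 ind a + ind b`: off the line `ℓ` is a unit; on the line
`line_taylor` with `G` a unit (`dY ≠ 0` at the three points) and `ord_x`. -/
theorem ord_line_aff (hf : Qt f) (h : FF f x y) {a b m s t : k} (hab : f.evalEval a b = 0)
    (hdy : dY f a b ≠ 0) (hh : Half f a b m s t) {v : Place k K} {a' b' : k}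
    (h0 : f.evalEval a' b' = 0) (hv : Cen v x y a' b') :
    v.ord (lineFn x y a b m) = ind v x y (a, b) + 2 * ind v x y (a + s, b + m * s) +
      ind v x y (a + t, b + m * t) := by
  have hz : v.Zer (lineFn x y a b m - algebraMap k K (b' - b - m * (a' - a))) := by
    unfold lineFn
    exact Place.val_sub (Place.val_sub hv.2 (Place.val_const b))
      (Place.val_mul (Place.val_const m) (Place.val_sub hv.1 (Place.val_const a)))
  by_cases hl : b' - b - m * (a' - a) = 0
  · have hl' : b' - b = m * (a' - a) := sub_eq_zero.1 hl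
    have hb' : b' = b + m * (a' - a) := by rw [← hl']; ring
    obtain ⟨G, hG, hG2⟩ := line_taylor h hh
    have hdY : dY f a' b' ≠ 0 := by
      rcases on_line hh h0 hl' with e | e | e
      · have : b' = b := by rw [hb', e]; ring
        rw [e, this]; exact hdy
      · have : b' = b + m * s := by rw [hb', e]; ring
        rw [e, this]; exact hh.2.2.2.2.2.1
      · have : b' = b + m * t := by rw [hb', e]; ring
        rw [e, this]; exact hh.2.2.2.2.2.2
    have hG0 : G.evalEval a' b' ≠ 0 := by rw [hG a' b' hl']; exact hdY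
    have oG : v.ord (aevalAeval x y G) = 0 := cen_ord_zero hv hG0
    have nG : aevalAeval x y G ≠ 0 := Place.ne_zero_of_val (cen_zer hv G) hG0
    have hc4 : (flip 4 f).evalEval 0 m ≠ 0 := hh.2.2.2.1
    have nc : algebraMap k K ((flip 4 f).evalEval 0 m) ≠ 0 := by
      rw [Ne, map_eq_zero_iff _ (algebraMap k K).injective]; exact hc4
    obtain ⟨n1, o1⟩ := h3_ordx hf h h0 hdY hv a
    obtain ⟨n2, o2⟩ := h3_ordx hf h h0 hdY hv (a + s)
    obtain ⟨n3, o3⟩ := h3_ordx hf h h0 hdY hv (a + t)
    have nl : lineFn x y a b m ≠ 0 := by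
      intro h1
      rw [h1, zero_mul] at hG2
      have h2 := neg_eq_zero.1 hG2.symm
      exact mul_ne_zero (mul_ne_zero (mul_ne_zero nc n1) (pow_ne_zero 2 n2)) n3 h2
    have h5 := congrArg v.ord hG2
    rw [v.ord_mul _ _ nl nG, oG, add_zero, Place.ord_neg,
      v.ord_mul _ _ (mul_ne_zero (mul_ne_zero nc n1) (pow_ne_zero 2 n2)) n3,
      v.ord_mul _ _ (mul_ne_zero nc n1) (pow_ne_zero 2 n2), v.ord_mul _ _ nc n1,
      v.ord_const _ hc4, Place.ord_pow, o1, o2, o3] at h5
    rw [h5]
    have i1 : ind v x y (a, b) = if a = a' then 1 else 0 := by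
      unfold ind
      refine if_congr ?_ rfl rfl
      rw [h3_cen_iff hv]
      constructor
      · exact fun h => h.1
      · intro e
        refine ⟨e, ?_⟩
        change b = b'
        rw [hb', e]; ring
    have i2 : ind v x y (a + s, b + m * s) = if a + s = a' then 1 else 0 := by
      unfold ind
      refine if_congr ?_ rfl rfl
      rw [h3_cen_iff hv]
      constructor
      · exact fun h => h.1
      · intro e
        refine ⟨e, ?_⟩
        change b + m * s = b'
        rw [hb', ← e]; ring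
    have i3 : ind v x y (a + t, b + m * t) = if a + t = a' then 1 else 0 := by
      unfold ind
      refine if_congr ?_ rfl rfl
      rw [h3_cen_iff hv]
      constructor
      · exact fun h => h.1
      · intro e
        refine ⟨e, ?_⟩
        change b + m * t = b'
        rw [hb', ← e]; ring
    rw [i1, i2, i3]
    push_cast
    ring
  · rw [Place.ord_eq_zero_of_val hz hl]
    have i1 : ind v x y (a, b) = 0 := by
      unfold ind
      rw [if_neg]
      rw [h3_cen_iff hv]
      rintro ⟨e1, e2⟩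
      change a = a' at e1
      change b = b' at e2
      apply hl
      rw [← e1, ← e2]; ring
    have i2 : ind v x y (a + s, b + m * s) = 0 := by
      unfold ind
      rw [if_neg]
      rw [h3_cen_iff hv]
      rintro ⟨e1, e2⟩
      change a + s = a' at e1
      change b + m * s = b' at e2
      apply hl
      rw [← e1, ← e2]; ring
    have i3 : ind v x y (a + t, b + m * t) = 0 := by
      unfold ind
      rw [if_neg]
      rw [h3_cen_iff hv]
      rintro ⟨e1, e2⟩
      change a + t = a' at e1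
      change b + m * t = b' at e2
      apply hl
      rw [← e1, ← e2]; ring
    rw [i1, i2, i3]
    norm_num

/-- At infinity `ℓ x⁻¹` has the value `μ - m ≠ 0`. -/
theorem ord_line_inf (hf : Qt f) (h : FF f x y) {a b m s t : k} (hh : Half f a b m s t)
    {v : Place k K} {μ : k} (h0 : (flip 4 f).evalEval 0 μ = 0) (hv : Cen v x⁻¹ (y * x⁻¹) 0 μ) :
    v.ord (lineFn x y a b m) = v.ord x := by
  have hx : x ≠ 0 := ff_ne_zero hf h
  have hμ : μ - m ≠ 0 := by
    intro h1
    have h2 : μ = m := sub_eq_zero.1 h1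
    rw [h2] at h0
    exact hh.2.2.2.1 h0
  have hz : v.Zer (lineFn x y a b m * x⁻¹ - algebraMap k K (μ - m)) := by
    have h1 := Place.val_sub (Place.val_sub hv.2 (Place.val_const m))
      (Place.val_mul (Place.val_const (b - m * a)) hv.1)
    have h2 : y * x⁻¹ - algebraMap k K m - algebraMap k K (b - m * a) * x⁻¹ -
        algebraMap k K (μ - m - (b - m * a) * 0) =
        lineFn x y a b m * x⁻¹ - algebraMap k K (μ - m) := by
      unfold lineFn
      have h3 : x * x⁻¹ = 1 := mul_inv_cancel₀ hx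
      have h4 : μ - m - (b - m * a) * 0 = μ - m := by ring
      rw [h4, map_sub, map_mul]
      linear_combination (algebraMap k K m) * h3
    rwa [h2] at h1
  have h1 := Place.ord_eq_zero_of_val hz hμ
  have h2 := Place.ne_zero_of_val hz hμ
  have h3 : lineFn x y a b m ≠ 0 := left_ne_zero_of_mul h2
  rw [v.ord_mul _ _ h3 (inv_ne_zero hx), Place.ord_inv] at h1
  omega

/-! ### H4 -/
theorem h4_line_ne (hf : Qt f) (h : FF f x y) {a b m s t : k} (hh : Half f a b m s t) :
    lineFn x y a b m ≠ 0 := by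
  obtain ⟨G, _, hG2⟩ := line_taylor h hh
  have ht := ff_transcendental hf h
  have hx : ∀ c : k, x - algebraMap k K c ≠ 0 := by
    intro c hc
    apply ht
    rw [sub_eq_zero.1 hc]
    exact isAlgebraic_algebraMap c
  have nc : algebraMap k K ((flip 4 f).evalEval 0 m) ≠ 0 := by
    rw [Ne, map_eq_zero_iff _ (algebraMap k K).injective]; exact hh.2.2.2.1
  intro h1
  rw [h1, zero_mul] at hG2
  have h2 := neg_eq_zero.1 hG2.symm
  exact mul_ne_zero (mul_ne_zero (mul_ne_zero nc (hx _)) (pow_ne_zero 2 (hx _))) (hx _) h2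

theorem h4_ind_inf (hf : Qt f) (h : FF f x y) {v : Place k K} {μ : k}
    (hv : Cen v x⁻¹ (y * x⁻¹) 0 μ) (P : k × k) : ind v x y P = 0 := by
  unfold ind
  rw [if_neg]
  intro h1
  exact cen_excl (ff_ne_zero hf h) h1 hv

theorem ord_ratio [IsAlgClosed k] (hf : Qt f) (h1 : Sm f) (h2 : Sm (flip 4 f)) (h : FF f x y)
    {c : Cf k} (hc : IsCfg f c) (v : Place k K) :
    v.ord (lineFn x y c.x c.y c.m / lineFn x y c.x c.y c.m') =
      2 * ind v x y (c.x + c.s, c.y + c.m * c.s) + ind v x y (c.x + c.t, c.y + c.m * c.t) -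
      2 * ind v x y (c.x + c.s', c.y + c.m' * c.s') - ind v x y (c.x + c.t', c.y + c.m' * c.t') := by
  rw [Place.ord_div _ _ _ (h4_line_ne hf h hc.h1) (h4_line_ne hf h hc.h2)]
  rcases center hf h v with ⟨a, b, h0, hv⟩ | ⟨μ, h0, hv⟩
  · rw [ord_line_aff hf h hc.pt hc.dy hc.h1 h0 hv, ord_line_aff hf h hc.pt hc.dy hc.h2 h0 hv]
    ring
  · rw [ord_line_inf hf h hc.h1 h0 hv, ord_line_inf hf h hc.h2 h0 hv]
    simp only [h4_ind_inf hf h hv]
    ring

/-! ### H5 -/
/-- the four points of a configuration -/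
theorem cfg_pt {F : MvPolynomial (Fin 3) k} {c : Cf k} (hc : IsCfg (chart F) c) :
    MvPolynomial.eval ![c.x + c.s, c.y + c.m * c.s, 1] F = 0 ∧
    MvPolynomial.eval ![c.x + c.t, c.y + c.m * c.t, 1] F = 0 ∧
    MvPolynomial.eval ![c.x + c.s', c.y + c.m' * c.s', 1] F = 0 ∧
    MvPolynomial.eval ![c.x + c.t', c.y + c.m' * c.t', 1] F = 0 := by
  have k1 : ∀ u : k, (Ln (chart F) c.x c.y c.m).eval u = 0 →
      MvPolynomial.eval ![c.x + u, c.y + c.m * u, 1] F = 0 := fun u hu => by
    rw [← chart_eval, ← ln_eval]; exact hu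
  have k2 : ∀ u : k, (Ln (chart F) c.x c.y c.m').eval u = 0 →
      MvPolynomial.eval ![c.x + u, c.y + c.m' * u, 1] F = 0 := fun u hu => by
    rw [← chart_eval, ← ln_eval]; exact hu
  refine ⟨k1 _ ?_, k1 _ ?_, k2 _ ?_, k2 _ ?_⟩
  · rw [hc.h1.2.2.2.2.1]; simp
  · rw [hc.h1.2.2.2.2.1]; simp
  · rw [hc.h2.2.2.2.2.1]; simp
  · rw [hc.h2.2.2.2.2.1]; simp

/-- the point `a` (tangency of the first line) -/
noncomputable def ptA {F : MvPolynomial (Fin 3) k} {c : Cf k} (hc : IsCfg (chart F) c) : Pt F :=
  .aff _ _ (cfg_pt hc).1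
/-- the point `b` (residual point of the first line) -/
noncomputable def ptB {F : MvPolynomial (Fin 3) k} {c : Cf k} (hc : IsCfg (chart F) c) : Pt F :=
  .aff _ _ (cfg_pt hc).2.1
/-- the point `a'` (tangency of the second line) -/
noncomputable def ptA' {F : MvPolynomial (Fin 3) k} {c : Cf k} (hc : IsCfg (chart F) c) : Pt F :=
  .aff _ _ (cfg_pt hc).2.2.1

/-- `D = a - a'` -/
noncomputable def DD {F : MvPolynomial (Fin 3) k} {c : Cf k} (hc : IsCfg (chart F) c) : Pt F →₀ ℤ :=
  Finsupp.single (ptA hc) 1 - Finsupp.single (ptA' hc) 1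
/-- `E = a + 2 b - 3 a'` -/
noncomputable def EE {F : MvPolynomial (Fin 3) k} {c : Cf k} (hc : IsCfg (chart F) c) : Pt F →₀ ℤ :=
  Finsupp.single (ptA hc) 1 + 2 • Finsupp.single (ptB hc) 1 - 3 • Finsupp.single (ptA' hc) 1

theorem h5_deg_add {F : MvPolynomial (Fin 3) k} (D E : Pt F →₀ ℤ) : deg (D + E) = deg D + deg E :=
  Finsupp.sum_add_index' (fun _ => rfl) (fun _ _ _ => rfl)

theorem h5_deg_sub {F : MvPolynomial (Fin 3) k} (D E : Pt F →₀ ℤ) : deg (D - E) = deg D - deg E := by
  have h1 := h5_deg_add (D - E) E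
  rw [sub_add_cancel] at h1
  omega

theorem h5_deg_single {F : MvPolynomial (Fin 3) k} (a : Pt F) (n : ℤ) :
    deg (Finsupp.single a n) = n := Finsupp.sum_single_index rfl

theorem deg_DD {F : MvPolynomial (Fin 3) k} {c : Cf k} (hc : IsCfg (chart F) c) : deg (DD hc) = 0 := by
  unfold DD
  rw [h5_deg_sub, h5_deg_single, h5_deg_single, sub_self]

theorem deg_EE {F : MvPolynomial (Fin 3) k} {c : Cf k} (hc : IsCfg (chart F) c) : deg (EE hc) = 0 := by
  unfold EE
  rw [h5_deg_sub, h5_deg_add, Finsupp.smul_single, Finsupp.smul_single, h5_deg_single,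
    h5_deg_single, h5_deg_single]
  norm_num

/-- the indicator of a place centred at an affine point -/
theorem h5_ind {F : MvPolynomial (Fin 3) k} (hF : Quartic F) {K : Type} [Field K] [Algebra k K]
    {x y : K} (h : FF (chart F) x y) {v : Place k K} {p : Pt F} (hp : SpG h v p) (a b : k)
    (hab : MvPolynomial.eval ![a, b, 1] F = 0) :
    (Finsupp.single (Pt.aff a b hab : Pt F) (1 : ℤ)) p = ind v x y (a, b) := by
  unfold ind
  by_cases hc : Cen v x y a b
  · have h1 : SpG h v (.aff a b hab) := (spG_aff h v a b hab).2 hc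
    have h2 : (Pt.aff a b hab : Pt F) = p := spG_unique hF h h1 hp
    rw [if_pos hc, ← h2, Finsupp.single_eq_same]
  · rw [if_neg hc]
    apply Finsupp.single_eq_of_ne
    intro h2
    apply hc
    rw [← spG_aff h v a b hab]
    rw [← h2]
    exact hp

/-- the function of a line is not zero -/
theorem h5_line {f : k[X][Y]} (hf : Qt f) {K : Type} [Field K] [Algebra k K] {x y : K}
    (h : FF f x y) (a b m : k) : lineFn x y a b m ≠ 0 := by
  intro h0
  have e1 : aevalAeval x y ((X - C (C b + C m * (X - C a)) : k[X][Y])) = lineFn x y a b m := by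
    unfold lineFn
    simp [aevalAeval]
    ring
  have hdeg : ((X - C (C b + C m * (X - C a)) : k[X][Y])).natDegree < 4 := by
    rw [natDegree_X_sub_C]
    norm_num
  have h2 := eq_zero_of_aeval hf h hdeg (by rw [e1, h0])
  exact X_sub_C_ne_zero _ h2

/-- ORTHOGONALITY: `exists_ff`, `ord_ratio`, `push_*`, `orth_identity`. -/
theorem orth [IsAlgClosed k] {F : MvPolynomial (Fin 3) k} (hF : Quartic F) {c : Cf k}
    (hc : IsCfg (chart F) c) :
    RatEqZero F (prodCycle (DD hc) (EE hc) + prodCycle (EE hc) (DD hc)) := by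
  have hq := chart_qt hF
  obtain ⟨K, i1, i2, x, y, h⟩ := exists_ff (irr_of_sm hq (chart_sm hF) (chart_sm2 hF))
  have n1 := h5_line hq h c.x c.y c.m
  have n2 := h5_line hq h c.x c.y c.m'
  have hφ : lineFn x y c.x c.y c.m / lineFn x y c.x c.y c.m' ≠ 0 := div_ne_zero n1 n2
  have hD : DivOf h (lineFn x y c.x c.y c.m / lineFn x y c.x c.y c.m')
      (2 • Finsupp.single (ptA hc) (1 : ℤ) + Finsupp.single (ptB hc) 1
        - 2 • Finsupp.single (ptA' hc) 1
        - Finsupp.single (Pt.aff _ _ (cfg_pt hc).2.2.2 : Pt F) 1) := by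
    intro v p hp
    rw [ord_ratio hq (chart_sm hF) (chart_sm2 hF) h hc v]
    rw [Finsupp.sub_apply, Finsupp.sub_apply, Finsupp.add_apply, Finsupp.smul_apply,
      Finsupp.smul_apply]
    unfold ptA ptB ptA'
    rw [h5_ind hF h hp, h5_ind hF h hp, h5_ind hF h hp, h5_ind hF h hp]
    simp only [nsmul_eq_mul]
    push_cast
    ring
  exact orth_identity (ptA hc) (ptB hc) (ptA' hc) (Pt.aff _ _ (cfg_pt hc).2.2.2) _ rfl
    (AddSubgroup.subset_closure (push_diag hF h hφ hD))
    (fun Q => AddSubgroup.subset_closure (push_left hF h hφ hD Q))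
    (fun Q => AddSubgroup.subset_closure (push_right hF h hφ hD Q))

end H

end Pool.Agent.LibQuart
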