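import Pool.Agent.LibQuart.BP

open scoped Classical
open Polynomial
open scoped Polynomial.Bivariate

namespace Pool.Agent.LibQuart

open Pool.Agent.LibBH2

/-! ## Block K: the function field -/

section K
variable {k : Type} [Field k] {f : k[X][Y]}

/-! ### K1 -/
theorem k1_ext {k : Type} [Field k] {K : Type} [Field K] [Algebra k K] (x y : K)
    (φ : k[X][Y] →ₐ[k] K) (hx : φ (C X) = x) (hy : φ X = y) (p : k[X][Y]) :
    aevalAeval x y p = φ p := by
  have h : aevalAeval x y = φ := by
    apply (aevalAevalEquiv k K).symm.injective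
    rw [Equiv.symm_apply_apply]
    exact Prod.ext hx.symm hy.symm
  rw [h]

/-- `FractionRing (AdjoinRoot f)`; `AdjoinRoot f` is a domain (`f` prime: `k[X][Y]` is a UFD). -/
theorem exists_ff (hi : Irreducible f) : ∃ (K : Type) (_ : Field K) (_ : Algebra k K) (x y : K),
    FF f x y := by
  have hp : Prime f := UniqueFactorizationMonoid.irreducible_iff_prime.1 hi
  haveI : IsDomain (AdjoinRoot f) := AdjoinRoot.isDomain_of_prime hp
  let A := AdjoinRoot f
  let K := FractionRing A
  let φ : k[X][Y] →ₐ[k] K :=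
    (IsScalarTower.toAlgHom k A K).comp ((AdjoinRoot.mkₐ f).restrictScalars k)
  have hφ : ∀ p, φ p = algebraMap A K (AdjoinRoot.mk f p) := fun p => rfl
  have key : ∀ p, aevalAeval (φ (C X)) (φ X) p = algebraMap A K (AdjoinRoot.mk f p) := fun p => by
    rw [k1_ext (φ (C X)) (φ X) φ rfl rfl p, hφ]
  refine ⟨K, inferInstance, inferInstance, φ (C X), φ X, ?_, ?_, ?_⟩
  · rw [key, AdjoinRoot.mk_self, map_zero]
  · intro p h
    rw [key] at h
    have h1 : AdjoinRoot.mk f p = 0 := (IsFractionRing.injective A K) (by rw [h, map_zero])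
    exact AdjoinRoot.mk_eq_zero.1 h1
  · intro z
    obtain ⟨a, b, hb, h⟩ := IsFractionRing.div_surjective (A := A) z
    obtain ⟨p, rfl⟩ := AdjoinRoot.mk_surjective a
    obtain ⟨q, rfl⟩ := AdjoinRoot.mk_surjective b
    have hq : algebraMap A K (AdjoinRoot.mk f q) ≠ 0 := by
      intro h0
      have h1 : AdjoinRoot.mk f q = 0 := (IsFractionRing.injective A K) (by rw [h0, map_zero])
      exact nonZeroDivisors.ne_zero hb h1
    refine ⟨p, q, ?_, ?_⟩
    · rw [key]; exact hq
    · rw [key, key, ← h, div_mul_cancel₀ _ hq]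

variable {K : Type} [Field K] [Algebra k K] {x y : K}

/-! ### K2 -/
/-- if `x` is algebraic over `k`: a nonzero `P ∈ k[X]` with `aeval x P = 0` gives `f ∣ C P`, degree. -/
theorem ff_transcendental (hf : Qt f) (h : FF f x y) : Transcendental k x := by
  intro ⟨P, hP0, hP⟩
  have h1 : f ∣ C P := h.inj _ (by rw [aevalAeval_C]; exact hP)
  have h2 : (C P : k[X][Y]) ≠ 0 := by rwa [Ne, C_eq_zero]
  exact hf.monic.not_dvd_of_natDegree_lt h2 (by rw [natDegree_C, hf.deg]; norm_num) h1

theorem ff_ne_zero (hf : Qt f) (h : FF f x y) : x ≠ 0 := by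
  rintro rfl
  exact ff_transcendental hf h (isAlgebraic_zero)

theorem k2_eval2 (x y : K) (p : k[X][Y]) :
    aevalAeval x y p = eval₂ ((aeval x : k[X] →ₐ[k] K) : k[X] →+* K) y p := by
  induction p using Polynomial.induction_on' with
  | add p q hp hq => rw [map_add, eval₂_add, hp, hq]
  | monomial n a =>
    rw [← C_mul_X_pow_eq_monomial, map_mul, map_pow, aevalAeval_C, aevalAeval_Y, eval₂_mul,
      eval₂_pow, eval₂_C, eval₂_X]
    rfl

theorem k2_mem (S : IntermediateField k K) (hx : x ∈ S) (hy : y ∈ S) (p : k[X][Y]) :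
    aevalAeval x y p ∈ S := by
  have h : aevalAeval x y = S.val.comp (aevalAeval (⟨x, hx⟩ : S) (⟨y, hy⟩ : S)) := by
    apply (aevalAevalEquiv k K).symm.injective
    rw [Equiv.symm_apply_apply]
    refine Prod.ext ?_ ?_
    · show x = S.val (aevalAeval (⟨x, hx⟩ : S) (⟨y, hy⟩ : S) (C X))
      rw [aevalAeval_X]; rfl
    · show y = S.val (aevalAeval (⟨x, hx⟩ : S) (⟨y, hy⟩ : S) X)
      rw [aevalAeval_Y]; rfl
  rw [h]
  exact (aevalAeval (⟨x, hx⟩ : S) (⟨y, hy⟩ : S) p).2

theorem ff_adjoin (h : FF f x y) : IntermediateField.adjoin k {x, y} = ⊤ := by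
  rw [eq_top_iff]
  intro z _
  obtain ⟨p, q, hq, hz⟩ := h.gen z
  have hx : x ∈ IntermediateField.adjoin k ({x, y} : Set K) :=
    IntermediateField.subset_adjoin k _ (by simp)
  have hy : y ∈ IntermediateField.adjoin k ({x, y} : Set K) :=
    IntermediateField.subset_adjoin k _ (by simp)
  have h1 : z = aevalAeval x y p / aevalAeval x y q := by rw [← hz, mul_div_cancel_right₀ _ hq]
  rw [h1]
  exact div_mem (k2_mem _ hx hy p) (k2_mem _ hx hy q)

/-- `K = k(x)(y)`, `y` integral over `k[x]` -/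
theorem ff_finite (hf : Qt f) (h : FF f x y) :
    FiniteDimensional (IntermediateField.adjoin k {x}) K := by
  set E := IntermediateField.adjoin k ({x} : Set K) with hE
  have hx : x ∈ E := IntermediateField.subset_adjoin k _ (by simp)
  let xE : E := ⟨x, hx⟩
  have hint : IsIntegral E y := by
    refine ⟨f.map ((aeval xE : k[X] →ₐ[k] E) : k[X] →+* E), hf.monic.map _, ?_⟩
    rw [← h.root, eval₂_map, k2_eval2]
    congr 1
    ext
    · simp
    · simp [xE]
  have h2 : IntermediateField.adjoin E ({y} : Set K) = ⊤ := by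
    have h3 := IntermediateField.adjoin_adjoin_left k ({x} : Set K) ({y} : Set K)
    rw [Set.singleton_union, ff_adjoin h] at h3
    rw [← IntermediateField.restrictScalars_eq_top_iff (K := k)]
    exact h3
  haveI h4 : FiniteDimensional E (IntermediateField.adjoin E ({y} : Set K)) :=
    IntermediateField.adjoin.finiteDimensional hint
  rw [h2] at h4
  exact Module.Finite.equiv (IntermediateField.topEquiv (F := E) (E := K)).toLinearEquiv

/-! ### K3 -/
/-- `inj`: `p ∈ ker` of `k[X][Y] → K`; the kernel is a prime `P` containing `f`; mod `f` a nonzero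
class `p %ₘ f` in the kernel: take the resultant/norm of `AdjoinRoot f` over `k[X]`: a nonzero
element of `k[X]` in the kernel (`AdjoinRoot f` is a domain, integral over `k[X]`), contradicting
transcendence. `gen`: elements of `adjoin` are quotients. -/
theorem ff_of_adjoin (hi : Irreducible f) (hf : Qt f) (h0 : aevalAeval x y f = 0)
    (ht : Transcendental k x) (ha : IntermediateField.adjoin k {x, y} = ⊤) : FF f x y := by
  refine ⟨h0, ?_, ?_⟩
  · intro p hp
    by_contra hnd
    have hprime : Prime f := hi.prime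
    haveI : Fact (Irreducible f) := ⟨hi⟩
    haveI : IsDomain (AdjoinRoot f) := AdjoinRoot.isDomain_of_prime hprime
    have hne : AdjoinRoot.mk f p ≠ 0 := fun hh => hnd (AdjoinRoot.mk_eq_zero.mp hh)
    haveI : Algebra.IsIntegral k[X] (AdjoinRoot f) := by
      haveI := hf.monic.finite_adjoinRoot
      infer_instance
    have hint : IsIntegral k[X] (AdjoinRoot.mk f p) := Algebra.IsIntegral.isIntegral _
    have hcomap := Ideal.comap_ne_bot_of_integral_mem hne
      (Ideal.mem_span_singleton_self (AdjoinRoot.mk f p)) hint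
    obtain ⟨d, hd, hd0⟩ := Submodule.exists_mem_ne_zero_of_ne_bot hcomap
    rw [Ideal.mem_comap, Ideal.mem_span_singleton] at hd
    obtain ⟨s, hs⟩ := hd
    obtain ⟨s', rfl⟩ := AdjoinRoot.mk_surjective s
    have hdvd : f ∣ C d - p * s' := by
      rw [← AdjoinRoot.mk_eq_zero, map_sub, map_mul, ← hs, sub_eq_zero]
      rfl
    obtain ⟨t, ht'⟩ := hdvd
    have hev := congrArg (aevalAeval x y) ht'
    rw [map_sub, map_mul, map_mul, hp, h0, zero_mul, zero_mul, sub_zero, aevalAeval_C] at hev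
    exact ht ⟨d, hd0, hev⟩
  · intro φ
    have hφ : φ ∈ IntermediateField.adjoin k {x, y} := by rw [ha]; trivial
    refine IntermediateField.adjoin_induction (F := k)
      (p := fun φ _ => ∃ p q : k[X][Y], aevalAeval x y q ≠ 0 ∧
        φ * aevalAeval x y q = aevalAeval x y p) ?_ ?_ ?_ ?_ ?_ hφ
    · intro z hz
      rcases hz with rfl | hz
      · exact ⟨C X, 1, by rw [map_one]; exact one_ne_zero, by rw [map_one, mul_one, aevalAeval_X]⟩
      · rw [Set.mem_singleton_iff.mp hz]
        exact ⟨X, 1, by rw [map_one]; exact one_ne_zero, by rw [map_one, mul_one, aevalAeval_Y]⟩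
    · intro c
      exact ⟨C (C c), 1, by rw [map_one]; exact one_ne_zero, by
        rw [map_one, mul_one, aevalAeval_C, aeval_C]⟩
    · rintro a b - - ⟨p, q, hq, e⟩ ⟨r, s, hs, e'⟩
      refine ⟨p * s + r * q, q * s, ?_, ?_⟩
      · rw [map_mul]; exact mul_ne_zero hq hs
      · rw [map_mul, map_add, map_mul, map_mul, ← e, ← e']; ring
    · rintro a - ⟨p, q, hq, e⟩
      by_cases ha0 : a = 0
      · exact ⟨0, 1, by rw [map_one]; exact one_ne_zero, by rw [ha0, inv_zero, zero_mul, map_zero]⟩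
      · refine ⟨q, p, ?_, ?_⟩
        · rw [← e]; exact mul_ne_zero ha0 hq
        · rw [← e, inv_mul_cancel_left₀ ha0]
    · rintro a b - - ⟨p, q, hq, e⟩ ⟨r, s, hs, e'⟩
      refine ⟨p * r, q * s, ?_, ?_⟩
      · rw [map_mul]; exact mul_ne_zero hq hs
      · rw [map_mul, map_mul, ← e, ← e']; ring

/-! ### K4 -/
theorem k4_coeff (d : ℕ) (p : k[X][Y]) (n : ℕ) :
    (flip d p).coeff n = if n ≤ d then (p.coeff n).reflect (d - n) else 0 := by
  unfold flip
  rw [finsetSum_coeff]
  simp only [coeff_C_mul_X_pow]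
  rw [Finset.sum_ite_eq]
  simp only [Finset.mem_range, Nat.lt_succ_iff]

/-- `root` from `flip_eval`. `inj`: `aeval x⁻¹ (y x⁻¹) p = 0`, `TD d p`: `aeval x y (flip d p) = 0`
(`flip_eval`, `flip_flip`), so `f ∣ flip d p = f * q`; `TD`; flip back (`flip_mul`, `d` large).
`gen`: numerator and denominator multiplied by a power of `x⁻¹`. -/
theorem ff_flip (hf : Qt f) (h : FF f x y) : FF (flip 4 f) x⁻¹ (y * x⁻¹) := by
  have hx : x ≠ 0 := ff_ne_zero hf h
  have hf' : Qt (flip 4 f) := qt_flip hf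
  have hroot : aevalAeval x⁻¹ (y * x⁻¹) (flip 4 f) = 0 := by
    have h1 := flip_eval hf.td x y hx
    rw [h.root] at h1
    exact (mul_eq_zero.1 h1).resolve_right (pow_ne_zero 4 hx)
  refine ⟨hroot, ?_, ?_⟩
  · intro p hp
    rw [← modByMonic_eq_zero_iff_dvd hf'.monic]
    set r := p %ₘ flip 4 f with hr
    have hr0 : aevalAeval x⁻¹ (y * x⁻¹) r = 0 := by
      rw [hr, aeval_mod hf'.monic hroot, hp]
    have hrd : r.natDegree < 4 := by
      have h1 := natDegree_modByMonic_lt p hf'.monic (by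
        intro h1
        have h2 := hf'.deg
        rw [h1, natDegree_one] at h2
        omega)
      rwa [hf'.deg] at h1
    obtain ⟨d, hd⟩ := exists_td r
    have h1 := flip_eval (td_flip hd) x y hx
    rw [flip_flip hd, hr0, zero_mul] at h1
    have h2 : (flip d r).natDegree < 4 := by
      refine lt_of_le_of_lt ((natDegree_le_iff_coeff_eq_zero (n := 3)).2 ?_) (by norm_num)
      intro n hn
      rw [k4_coeff]
      split
      · rw [coeff_eq_zero_of_natDegree_lt (by omega), reflect_zero]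
      · rfl
    have h3 := eq_zero_of_aeval hf h h2 h1.symm
    have h4 := flip_flip hd
    rw [h3] at h4
    rw [← h4]
    ext n : 1
    rw [k4_coeff]
    split
    · rw [coeff_zero, reflect_zero]
    · rw [coeff_zero]
  · intro φ
    obtain ⟨p, q, hq, h1⟩ := h.gen φ
    obtain ⟨d, hd⟩ := exists_td p
    obtain ⟨e, he⟩ := exists_td q
    have hp' := flip_eval (td_mono (le_max_left d e) hd) x y hx
    have hq' := flip_eval (td_mono (le_max_right d e) he) x y hx
    refine ⟨flip (max d e) p, flip (max d e) q, ?_, ?_⟩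
    · intro h2
      rw [h2, zero_mul] at hq'
      exact hq hq'.symm
    · apply mul_right_cancel₀ (pow_ne_zero (max d e) hx)
      rw [mul_assoc, hq', hp', h1]

/-! ### K5 -/
theorem k5_ker (h : FF f x y) (a : k[X][Y]) (ha : a ∈ Ideal.span {f}) :
    (aevalAeval x y : k[X][Y] →ₐ[k] K).toRingHom a = 0 := by
  obtain ⟨q, rfl⟩ := Ideal.mem_span_singleton.1 ha
  show aevalAeval x y (f * q) = 0
  rw [map_mul, h.root, zero_mul]

/-- the function field as a field of fractions of `k[X][Y] ⧸ (f)` -/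
noncomputable def k5_hom (h : FF f x y) : k[X][Y] ⧸ Ideal.span {f} →+* K :=
  Ideal.Quotient.lift (Ideal.span {f}) (aevalAeval x y : k[X][Y] →ₐ[k] K).toRingHom (k5_ker h)

theorem k5_hom_mk (h : FF f x y) (p : k[X][Y]) :
    k5_hom h (Ideal.Quotient.mk (Ideal.span {f}) p) = aevalAeval x y p := rfl

theorem k5_inj (h : FF f x y) : Function.Injective (k5_hom h) := by
  rw [injective_iff_map_eq_zero]
  intro a ha
  obtain ⟨p, rfl⟩ := Ideal.Quotient.mk_surjective a
  rw [k5_hom_mk] at ha
  exact Ideal.Quotient.eq_zero_iff_mem.2 (Ideal.mem_span_singleton.2 (h.inj p ha))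

theorem k5_frac (h : FF f x y) (Q : Type) [CommRing Q] [Algebra Q K] (mk : k[X][Y] →+* Q)
    (m1 : ∀ p : k[X][Y], algebraMap Q K (mk p) = aevalAeval x y p)
    (hinj : Function.Injective (algebraMap Q K)) : IsFractionRing Q K := by
  haveI f1 : FaithfulSMul Q K := (faithfulSMul_iff_algebraMap_injective Q K).2 hinj
  exact IsFractionRing.of_field Q K (fun z => by
    obtain ⟨p, q, hq, hz⟩ := h.gen z
    refine ⟨mk p, mk q, ?_⟩
    rw [m1, m1, ← hz, mul_div_cancel_right₀ _ hq])

theorem k5_gen {Q K K' : Type} [CommRing Q] [Field K] [Field K'] [Algebra Q K] [Algebra Q K']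
    [IsFractionRing Q K] [IsFractionRing Q K'] (e : Q ≃+* Q) :
    ∃ τ : K ≃+* K', ∀ a, τ (algebraMap Q K a) = algebraMap Q K' (e a) :=
  ⟨IsFractionRing.ringEquivOfRingEquiv (A := Q) (B := Q) e, fun a =>
    IsFractionRing.ringEquivOfRingEquiv_algebraMap (A := Q) (B := Q) e a⟩

theorem k5_gen2 {Q K K' : Type} [CommRing Q] [Field K] [Field K'] (g : Q →+* K) (g' : Q →+* K')
    [Algebra k K] [Algebra k K'] {x y : K} {x' y' : K'}
    (h : FF f x y) (h' : FF f x' y') (mk : k[X][Y] →+* Q)
    (m1 : ∀ p : k[X][Y], g (mk p) = aevalAeval x y p)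
    (m2 : ∀ p : k[X][Y], g' (mk p) = aevalAeval x' y' p)
    (hg : Function.Injective g) (hg' : Function.Injective g') (e : Q ≃+* Q) :
    ∃ τ : K ≃+* K', ∀ a, τ (g a) = g' (e a) := by
  letI a1 : Algebra Q K := g.toAlgebra
  letI a2 : Algebra Q K' := g'.toAlgebra
  haveI i1 : IsFractionRing Q K := k5_frac h Q mk m1 hg
  haveI i2 : IsFractionRing Q K' := k5_frac h' Q mk m2 hg'
  exact k5_gen e

/-- `φ = aeval p / aeval q ↦ aeval (σ p) / aeval (σ q)`: the kernel of `p ↦ aeval x' y' (p.map σ)` is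
`(f)` again, lift to fractions (or through `IsFractionRing.lift` / `AdjoinRoot`). Semilinear
isomorphism between two function fields of `f`. -/
theorem ff_semi {K' : Type} [Field K'] [Algebra k K'] {x' y' : K'} (h : FF f x y)
    (h' : FF f x' y') (σ : k ≃+* k) (hσ : f.map (mapRingHom σ.toRingHom) = f) :
    ∃ τ : K ≃+* K', (∀ c, τ (algebraMap k K c) = algebraMap k K' (σ c)) ∧ τ x = x' ∧ τ y = y' := by
  let s : k[X][Y] ≃+* k[X][Y] := Polynomial.mapEquiv (Polynomial.mapEquiv σ)
  have hs : ∀ p : k[X][Y], s p = p.map (mapRingHom σ.toRingHom) := fun p => rfl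
  have hI : Ideal.span {f} = Ideal.map (s : k[X][Y] →+* k[X][Y]) (Ideal.span {f}) := by
    rw [Ideal.map_span, Set.image_singleton]
    congr 2
    exact hσ.symm
  obtain ⟨τ, hτ0⟩ := k5_gen2 (Q := k[X][Y] ⧸ Ideal.span {f}) (k5_hom h) (k5_hom h') h h' (Ideal.Quotient.mk (Ideal.span {f}))
    (k5_hom_mk h) (k5_hom_mk h') (k5_inj h) (k5_inj h') (Ideal.quotientEquiv _ _ s hI)
  have hτ : ∀ p, τ (aevalAeval x y p) = aevalAeval x' y' (s p) := by
    intro p
    have h1 := hτ0 (Ideal.Quotient.mk (Ideal.span {f}) p)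
    rw [k5_hom_mk] at h1
    rw [h1]
    exact k5_hom_mk h' (s p)
  refine ⟨τ, ?_, ?_, ?_⟩
  · intro c
    have h1 := hτ (C (C c))
    rw [hs, map_C, coe_mapRingHom, map_C, aevalAeval_C, aevalAeval_C, aeval_C, aeval_C] at h1
    exact h1
  · have h1 := hτ (C X)
    rw [hs, map_C, coe_mapRingHom, map_X, aevalAeval_C, aevalAeval_C, aeval_X, aeval_X] at h1
    exact h1
  · have h1 := hτ X
    rw [hs, map_X, aevalAeval_Y, aevalAeval_Y] at h1
    exact h1

/-! ### K6 -/
theorem k6_eval₂ (x y : K) (p : k[X][Y]) :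
    aevalAeval x y p = p.eval₂ (aeval x : k[X] →ₐ[k] K).toRingHom y := by
  induction p using Polynomial.induction_on' with
  | add p q hp hq => rw [map_add, hp, hq, Polynomial.eval₂_add]
  | monomial n a =>
    rw [← Polynomial.C_mul_X_pow_eq_monomial]
    simp

theorem k6_integral (hf : f.Monic) (h0 : aevalAeval x y f = 0) (p : k[X][Y]) :
    (aeval x : k[X] →ₐ[k] K).toRingHom.IsIntegralElem (aevalAeval x y p) := by
  have hy : (aeval x : k[X] →ₐ[k] K).toRingHom.IsIntegralElem y := ⟨f, hf, by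
    rw [← k6_eval₂]
    exact h0⟩
  have hpow : ∀ n : ℕ, (aeval x : k[X] →ₐ[k] K).toRingHom.IsIntegralElem (y ^ n) := by
    intro n
    induction n with
    | zero =>
      rw [pow_zero]
      exact RingHom.isIntegralElem_one _
    | succ n ih =>
      rw [pow_succ]
      exact RingHom.IsIntegralElem.mul _ ih hy
  induction p using Polynomial.induction_on' with
  | add p q hp hq =>
    rw [map_add]
    exact RingHom.IsIntegralElem.add _ hp hq
  | monomial n a =>
    rw [k6_eval₂, Polynomial.eval₂_monomial]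
    exact RingHom.IsIntegralElem.mul _ (RingHom.isIntegralElem_map _) (hpow n)

/-- the elimination: a nonzero multiple of `p` modulo `f` in `k[X]` -/
theorem k6_elim (hf : f.Monic) (h0 : aevalAeval x y f = 0) {p : k[X][Y]}
    (hp : aevalAeval x y p ≠ 0) :
    ∃ (d : k[X]) (s : k[X][Y]), d ≠ 0 ∧ aevalAeval x y (C d + p * s) = 0 := by
  obtain ⟨g, hg, hg0⟩ := k6_integral hf h0 p
  obtain ⟨q, hq1, hq2⟩ := Polynomial.exists_eq_pow_rootMultiplicity_mul_and_not_dvd g hg.ne_zero 0
  rw [Polynomial.C_0, sub_zero, Polynomial.X_dvd_iff] at hq2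
  rw [Polynomial.C_0, sub_zero] at hq1
  rw [hq1, Polynomial.eval₂_mul, Polynomial.eval₂_pow, Polynomial.eval₂_X, mul_eq_zero] at hg0
  have hq0 : q.eval₂ (aeval x : k[X] →ₐ[k] K).toRingHom (aevalAeval x y p) = 0 := by
    rcases hg0 with h1 | h1
    · exact absurd h1 (pow_ne_zero _ hp)
    · exact h1
  refine ⟨q.coeff 0, (q.divX).eval₂ C p, hq2, ?_⟩
  have e1 : aevalAeval x y ((q.divX).eval₂ C p)
      = (q.divX).eval₂ (aeval x : k[X] →ₐ[k] K).toRingHom (aevalAeval x y p) := by
    have h2 := Polynomial.hom_eval₂ q.divX (C : k[X] →+* k[X][Y])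
      (aevalAeval x y : k[X][Y] →ₐ[k] K).toRingHom p
    have h3 : (aevalAeval x y : k[X][Y] →ₐ[k] K).toRingHom.comp (C : k[X] →+* k[X][Y])
        = (aeval x : k[X] →ₐ[k] K).toRingHom := by
      ext r
      · simp
      · simp
    rw [h3] at h2
    exact h2
  have e2 : aevalAeval x y (C (q.coeff 0)) = (aeval x : k[X] →ₐ[k] K).toRingHom (q.coeff 0) := by
    simp
  rw [map_add, map_mul, e1, e2]
  have h4 := Polynomial.divX_mul_X_add q
  rw [← h4, Polynomial.eval₂_add, Polynomial.eval₂_mul, Polynomial.eval₂_X, Polynomial.eval₂_C] at hq0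
  rw [← hq0]
  ring

/-- `p %ₘ f ≠ 0` in the domain `AdjoinRoot f`, integral over `k[X]`: a multiple of it is a nonzero
`P ∈ k[X]`; so `P(a) = 0`: finitely many `a`, and for each finitely many `b`. -/
theorem zeros_finite (hf : Qt f) (h : FF f x y) {p : k[X][Y]} (hp : aevalAeval x y p ≠ 0) :
    {P : k × k | f.evalEval P.1 P.2 = 0 ∧ p.evalEval P.1 P.2 = 0}.Finite := by
  obtain ⟨d, s, hd, h1⟩ := k6_elim hf.monic h.root hp
  obtain ⟨r, hr⟩ := h.inj _ h1
  have hA : (d.rootSet k).Finite := Polynomial.rootSet_finite d k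
  have hB : (⋃ a ∈ d.rootSet k, (fun b : k => (a, b)) '' ((f.map (evalRingHom a)).rootSet k)).Finite :=
    hA.biUnion fun a _ => (Polynomial.rootSet_finite _ k).image _
  refine hB.subset ?_
  rintro ⟨a, b⟩ ⟨h2, h3⟩
  have h4 : d.eval a = 0 := by
    have h5 := congrArg (fun g : k[X][Y] => g.evalEval a b) hr
    simp only [Polynomial.evalEval_add, Polynomial.evalEval_mul, h2, h3, zero_mul, add_zero,
      Polynomial.evalEval_C] at h5
    exact h5
  have h6 : (f.map (evalRingHom a)) ≠ 0 := (hf.monic.map _).ne_zero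
  refine Set.mem_biUnion (x := a) ?_ ⟨b, ?_, rfl⟩
  · rw [Polynomial.mem_rootSet]
    exact ⟨hd, by rw [Polynomial.coe_aeval_eq_eval]; exact h4⟩
  · rw [Polynomial.mem_rootSet]
    refine ⟨h6, ?_⟩
    rw [Polynomial.coe_aeval_eq_eval, Polynomial.eval_map]
    rw [← h2]
    rw [Polynomial.eval₂_evalRingHom]

theorem pts_infinite [IsAlgClosed k] (hf : Qt f) : {P : k × k | f.evalEval P.1 P.2 = 0}.Infinite := by
  have h1 : ∀ a : k, ∃ b : k, f.evalEval a b = 0 := by
    intro a
    have hm := hf.monic.map (evalRingHom a)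
    have hd : (f.map (evalRingHom a)).natDegree = 4 := by
      rw [hf.monic.natDegree_map, hf.deg]
    obtain ⟨b, hb⟩ := IsAlgClosed.exists_root (f.map (evalRingHom a)) (by
      rw [Polynomial.degree_eq_natDegree hm.ne_zero, hd]
      norm_num)
    refine ⟨b, ?_⟩
    rw [← Polynomial.eval₂_evalRingHom, ← Polynomial.eval_map]
    exact hb
  choose b hb using h1
  have : Infinite k := IsAlgClosed.instInfinite
  exact Set.infinite_of_injective_forall_mem (f := fun a : k => (a, b a))
    (fun a a' h => congrArg Prod.fst h) (fun a => hb a)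

end K

end Pool.Agent.LibQuart
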