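import Pool.Agent.LibQuart.BN

open scoped Classical
open Polynomial
open scoped Polynomial.Bivariate

namespace Pool.Agent.LibQuart

open Pool.Agent.LibBH2

/-! ## Block L: places -/

section L
variable {k : Type} [Field k] {f : k[X][Y]} {K : Type} [Field K] [Algebra k K] {x y : K}

/-! ### L1 -/
theorem l1_dec (p : k[X][Y]) (a b : k) :
    ∃ p₁ : k[X][Y], p = (X - C (C b)) * p₁ + C (p.eval (C b)) ∧
      p₁.evalEval a b = (derivative p).evalEval a b := by
  refine ⟨p /ₘ (X - C (C b)), ?_, ?_⟩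
  · have h := modByMonic_add_div p (X - C (C b))
    rw [modByMonic_X_sub_C_eq_C_eval] at h
    rw [add_comm]; exact h.symm
  · have h := modByMonic_add_div p (X - C (C b))
    rw [modByMonic_X_sub_C_eq_C_eval] at h
    have h2 := congrArg (fun q => (derivative q).evalEval a b) h
    simp only [derivative_add, derivative_C, derivative_mul, derivative_sub, derivative_X,
      sub_zero, one_mul, zero_add, evalEval, eval_add, eval_mul, eval_sub, eval_X, eval_C,
      sub_self, zero_mul, add_zero] at h2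
    exact h2

theorem l1_fac (q : k[X]) (a : k) (hq : q.eval a = 0) :
    ∃ r : k[X], q = (X - C a) * r ∧ r.eval a = (derivative q).eval a := by
  obtain ⟨r, hr⟩ := dvd_iff_isRoot.mpr hq
  refine ⟨r, hr, ?_⟩
  rw [hr]
  simp [derivative_mul]

theorem l1_ev (a b : k) (p₁ : k[X][Y]) (r : k[X]) :
    aevalAeval x y ((X - C (C b)) * p₁ + C ((X - C a) * r)) =
      (y - algebraMap k K b) * aevalAeval x y p₁ + (x - algebraMap k K a) * aevalAeval x y (C r) := by
  simp [aevalAeval]

/-- If `dY f a b ≠ 0` then every polynomial vanishing at `(a, b)` is `(x - a)` times a regular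
function: `f(x, y) = (y - b) G + (x - a) H` with `G(a, b) = dY f a b ≠ 0` (expand `f` at `y = b`, then
`f(x, b)` at `x = a`), so `y - b = -(x - a) H / G`; and `p = (y - b) p₁ + (x - a) p₂`. -/
theorem div_x {a b : k} (h : FF f x y) (hab : f.evalEval a b = 0) (hd : dY f a b ≠ 0)
    {p : k[X][Y]} (hp : p.evalEval a b = 0) :
    ∃ u, Rg x y a b u ∧ aevalAeval x y p = (x - algebraMap k K a) * u := by
  obtain ⟨G, hG, hG1⟩ := l1_dec f a b
  obtain ⟨H, hH, -⟩ := l1_fac (f.eval (C b)) a hab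
  obtain ⟨p₁, hp1, -⟩ := l1_dec p a b
  obtain ⟨q, hq, -⟩ := l1_fac (p.eval (C b)) a hp
  rw [hH] at hG
  rw [hq] at hp1
  have hGne : G.evalEval a b ≠ 0 := by rw [hG1]; exact hd
  have e0 : (y - algebraMap k K b) * aevalAeval x y G +
      (x - algebraMap k K a) * aevalAeval x y (C H) = 0 := by
    rw [← l1_ev, ← hG]; exact h.root
  have hG0 : aevalAeval x y G ≠ 0 := by
    intro h0
    obtain ⟨c, hc⟩ := h.inj G h0
    apply hGne
    rw [hc]
    simp only [evalEval, eval_mul] at hab ⊢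
    rw [hab, zero_mul]
  refine ⟨aevalAeval x y (-(C H * p₁) + C q * G) / aevalAeval x y G,
    ⟨_, G, hGne, div_mul_cancel₀ _ hG0⟩, ?_⟩
  rw [hp1, l1_ev, map_add, map_neg, map_mul, map_mul]
  field_simp
  linear_combination (aevalAeval x y p₁) * e0

theorem div_y {a b : k} (h : FF f x y) (hab : f.evalEval a b = 0) (hd : dX f a b ≠ 0)
    {p : k[X][Y]} (hp : p.evalEval a b = 0) :
    ∃ u, Rg x y a b u ∧ aevalAeval x y p = (y - algebraMap k K b) * u := by
  obtain ⟨G, hG, -⟩ := l1_dec f a b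
  obtain ⟨H, hH, hH1⟩ := l1_fac (f.eval (C b)) a hab
  obtain ⟨p₁, hp1, -⟩ := l1_dec p a b
  obtain ⟨q, hq, -⟩ := l1_fac (p.eval (C b)) a hp
  rw [hH] at hG
  rw [hq] at hp1
  have hHne : (C H : k[X][Y]).evalEval a b ≠ 0 := by
    simp only [evalEval, eval_C]; rw [hH1]; exact hd
  have e0 : (y - algebraMap k K b) * aevalAeval x y G +
      (x - algebraMap k K a) * aevalAeval x y (C H) = 0 := by
    rw [← l1_ev, ← hG]; exact h.root
  have hH0 : aevalAeval x y (C H) ≠ 0 := by
    intro h0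
    obtain ⟨c, hc⟩ := h.inj (C H) h0
    apply hHne
    rw [hc]
    simp only [evalEval, eval_mul] at hab ⊢
    rw [hab, zero_mul]
  refine ⟨aevalAeval x y (p₁ * C H + -(G * C q)) / aevalAeval x y (C H),
    ⟨_, C H, hHne, div_mul_cancel₀ _ hH0⟩, ?_⟩
  rw [hp1, l1_ev, map_add, map_neg, map_mul, map_mul]
  field_simp
  linear_combination (aevalAeval x y (C q)) * e0

/-! ### L2 -/
omit [Field k] in
theorem l2_pow {R : Type} [CommRing R] (I : Ideal R) (p c d : R) (n : ℕ) (hc : c ∈ I ^ n)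
    (hd : d ∈ I) (h : p = p * d + c) : p ∈ I ^ n := by
  have h1 : ∀ m : ℕ, p - p * d ^ m ∈ I ^ n := by
    intro m
    induction m with
    | zero => simp
    | succ m ih =>
      have h2 : p - p * d ^ (m + 1) = (p - p * d ^ m) + (p - p * d) * d ^ m := by ring
      rw [h2]
      refine Ideal.add_mem _ ih (Ideal.mul_mem_right _ _ ?_)
      have h3 : p - p * d = c := by linear_combination h
      rw [h3]; exact hc
  have h2 : p = (p - p * d ^ n) + p * d ^ n := by ring
  rw [h2]
  exact Ideal.add_mem _ (h1 n) (Ideal.mul_mem_left _ _ (Ideal.pow_mem_pow hd n))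

theorem l2_eval {a b : k} (h : FF f x y) (hab : f.evalEval a b = 0) {p : k[X][Y]}
    (hp : aevalAeval x y p = 0) : p.evalEval a b = 0 := by
  obtain ⟨q, rfl⟩ := h.inj p hp
  rw [evalEval_mul, hab, zero_mul]

theorem l2_ne {a b : k} (h : FF f x y) (hab : f.evalEval a b = 0) {p : k[X][Y]}
    (hp : p.evalEval a b ≠ 0) : aevalAeval x y p ≠ 0 := fun h0 => hp (l2_eval h hab h0)

theorem l2_mul {a b : k} {φ ψ : K} (h1 : Rg x y a b φ) (h2 : Rg x y a b ψ) :
    Rg x y a b (φ * ψ) := by
  obtain ⟨g, q, hq, e⟩ := h1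
  obtain ⟨g', q', hq', e'⟩ := h2
  refine ⟨g * g', q * q', by rw [evalEval_mul]; exact mul_ne_zero hq hq', ?_⟩
  rw [map_mul, map_mul, ← e, ← e']
  ring

theorem l2_inv {a b : k} (h : FF f x y) (hab : f.evalEval a b = 0) {p : k[X][Y]}
    (hp : p.evalEval a b ≠ 0) : Rg x y a b (aevalAeval x y p)⁻¹ :=
  ⟨1, p, hp, by rw [inv_mul_cancel₀ (l2_ne h hab hp), map_one]⟩

theorem l2_poly (a b : k) (p : k[X][Y]) : Rg x y a b (aevalAeval x y p) :=
  ⟨p, 1, by simp, by rw [map_one, mul_one]⟩

/-- Krull's intersection theorem in the coordinate ring. -/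
theorem l2_krull (h : FF f x y) {a b : k} (hab : f.evalEval a b = 0) (π p : k[X][Y])
    (hπ : π.evalEval a b = 0)
    (hp : ∀ n : ℕ, ∃ u, Rg x y a b u ∧ aevalAeval x y p = aevalAeval x y π ^ n * u) :
    aevalAeval x y p = 0 := by
  set A := (aevalAeval x y : k[X][Y] →ₐ[k] K).toRingHom.range with hA
  have hN : IsNoetherianRing A := isNoetherianRing_range _
  set r : k[X][Y] →+* A := (aevalAeval x y : k[X][Y] →ₐ[k] K).toRingHom.rangeRestrict with hr
  have hrs : Function.Surjective r := RingHom.rangeRestrict_surjective _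
  have hrv : ∀ q, ((r q : A) : K) = aevalAeval x y q := fun q => rfl
  set J : Ideal k[X][Y] := RingHom.ker (evalEvalRingHom a b) with hJ
  set P : Ideal A := J.map r with hP
  have hJm : ∀ q : k[X][Y], q.evalEval a b = 0 → r q ∈ P := fun q hq =>
    Ideal.mem_map_of_mem r (by rw [hJ, RingHom.mem_ker]; exact hq)
  have hPtop : P ≠ ⊤ := by
    intro h1
    have h2 : (1 : A) ∈ P := by rw [h1]; exact Submodule.mem_top
    rw [hP, Ideal.mem_map_iff_of_surjective r hrs] at h2
    obtain ⟨q, hq, hq1⟩ := h2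
    have h3 : aevalAeval x y (q - 1) = 0 := by
      rw [map_sub, map_one, ← hrv, hq1]
      simp
    have h4 := l2_eval h hab h3
    have h5 : q.evalEval a b = 0 := hq
    rw [evalEval_sub, h5] at h4
    simp at h4
  have h0 := Ideal.iInf_pow_eq_bot_of_isDomain P hPtop
  have h1 : r p ∈ (⨅ i, P ^ i : Ideal A) := by
    rw [Ideal.mem_iInf]
    intro n
    obtain ⟨u, ⟨g, q, hq, e⟩, hu⟩ := hp n
    -- normalise the denominator
    set c : k := q.evalEval a b with hc
    have e1 : aevalAeval x y (p * q) = aevalAeval x y (π ^ n * g) := by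
      rw [map_mul, map_mul, map_pow, hu, ← e]; ring
    set q' : k[X][Y] := C (C c⁻¹) * q with hq'
    have hd : (1 - q').evalEval a b = 0 := by
      rw [evalEval_sub, hq', evalEval_mul]
      simp only [evalEval_C, eval_C, ← hc]
      rw [inv_mul_cancel₀ hq]
      simp
    have e2 : aevalAeval x y (p * q') = aevalAeval x y (π ^ n * (C (C c⁻¹) * g)) := by
      have h3 : p * q' = C (C c⁻¹) * (p * q) := by rw [hq']; ring
      have h4 : π ^ n * (C (C c⁻¹) * g) = C (C c⁻¹) * (π ^ n * g) := by ring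
      rw [h3, h4, map_mul, map_mul _ _ (π ^ n * g), e1]
    refine l2_pow P (r p) (r (π ^ n * (C (C c⁻¹) * g))) (r (1 - q')) n ?_ (hJm _ hd) ?_
    · rw [map_mul, map_pow]
      exact Ideal.mul_mem_right _ _ (Ideal.pow_mem_pow (hJm _ hπ) n)
    · apply Subtype.ext
      rw [← map_mul, ← map_add, hrv, hrv, map_add, ← e2, ← map_add]
      congr 1
      ring
  rw [h0, Ideal.mem_bot] at h1
  rw [← hrv, h1]
  rfl

/-- The local ring at a smooth point is a discrete valuation ring with uniformiser `π = x - a` or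
`y - b`. -/
theorem local_dvr (hf : Qt f) (h : FF f x y) {a b : k} (hab : f.evalEval a b = 0)
    (hs : dX f a b ≠ 0 ∨ dY f a b ≠ 0) :
    ∃ π : K, π ≠ 0 ∧ Rg x y a b π ∧ ¬ Rg x y a b π⁻¹ ∧
      (dY f a b ≠ 0 → π = x - algebraMap k K a) ∧
      (∀ p : k[X][Y], p.evalEval a b = 0 → Rg x y a b (aevalAeval x y p * π⁻¹)) ∧
      ∀ φ : K, φ ≠ 0 → ∃ (n : ℤ) (u : K), u ≠ 0 ∧ Rg x y a b u ∧ Rg x y a b u⁻¹ ∧ φ = π ^ n * u := by
  -- choose the uniformiser
  obtain ⟨P, hP0, hPab, hPd, hPy⟩ : ∃ P : k[X][Y], aevalAeval x y P ≠ 0 ∧ P.evalEval a b = 0 ∧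
      (∀ p : k[X][Y], p.evalEval a b = 0 → ∃ u, Rg x y a b u ∧
        aevalAeval x y p = aevalAeval x y P * u) ∧
      (dY f a b ≠ 0 → aevalAeval x y P = x - algebraMap k K a) := by
    have hdeg : ∀ P : k[X][Y], P ≠ 0 → P.natDegree < 4 → aevalAeval x y P ≠ 0 := by
      intro P hP hlt h0
      have h1 := Polynomial.natDegree_le_of_dvd (h.inj P h0) hP
      rw [hf.deg] at h1
      omega
    by_cases hd : dY f a b ≠ 0
    · have hv : aevalAeval x y (C (X - C a) : k[X][Y]) = x - algebraMap k K a := by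
        simp [aevalAeval]
      refine ⟨C (X - C a), hdeg _ ?_ ?_, ?_, fun p hp => ?_, fun _ => hv⟩
      · rw [Ne, C_eq_zero]; exact X_sub_C_ne_zero a
      · rw [natDegree_C]; norm_num
      · simp [evalEval]
      · obtain ⟨u, hu, e⟩ := div_x h hab hd hp
        exact ⟨u, hu, by rw [hv]; exact e⟩
    · have hd' : dX f a b ≠ 0 := hs.resolve_right hd
      have hv : aevalAeval x y (X - C (C b) : k[X][Y]) = y - algebraMap k K b := by
        simp [aevalAeval]
      refine ⟨X - C (C b), hdeg _ (X_sub_C_ne_zero _) ?_, ?_, fun p hp => ?_, fun h => absurd h hd⟩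
      · rw [natDegree_X_sub_C]; norm_num
      · simp [evalEval]
      · obtain ⟨u, hu, e⟩ := div_y h hab hd' hp
        exact ⟨u, hu, by rw [hv]; exact e⟩
  set π := aevalAeval x y P with hπ
  -- the numerators
  have hnum : ∀ p : k[X][Y], aevalAeval x y p ≠ 0 → ∃ (n : ℕ) (u : K), u ≠ 0 ∧ Rg x y a b u ∧
      Rg x y a b u⁻¹ ∧ aevalAeval x y p = π ^ n * u := by
    intro p hp
    have hex : ∃ n : ℕ, ¬ ∃ u, Rg x y a b u ∧ aevalAeval x y p = π ^ n * u := by
      by_contra hcon
      push Not at hcon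
      exact hp (l2_krull h hab P p hPab hcon)
    classical
    set n := Nat.find hex with hn
    have hn1 : ¬ ∃ u, Rg x y a b u ∧ aevalAeval x y p = π ^ n * u := Nat.find_spec hex
    have hn0 : n ≠ 0 := by
      intro h0
      rw [h0] at hn1
      exact hn1 ⟨_, l2_poly a b p, by simp⟩
    obtain ⟨m, hm⟩ : ∃ m, n = m + 1 := ⟨n - 1, by omega⟩
    have hn2 := Nat.find_min hex (m := m) (by rw [← hn]; omega)
    push Not at hn2
    obtain ⟨u, hu, e⟩ := hn2
    have hu0 : u ≠ 0 := by
      rintro rfl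
      rw [mul_zero] at e
      exact hp e
    refine ⟨m, u, hu0, hu, ?_, e⟩
    obtain ⟨g, q, hq, e1⟩ := hu
    have hg : g.evalEval a b ≠ 0 := by
      intro hg
      apply hn1
      obtain ⟨u', hu', e2⟩ := hPd g hg
      refine ⟨u' * (aevalAeval x y q)⁻¹, l2_mul hu' (l2_inv h hab hq), ?_⟩
      have hq0 := l2_ne h hab hq
      have h3 : u = π * u' * (aevalAeval x y q)⁻¹ := by
        rw [← e2, ← e1, mul_assoc, mul_inv_cancel₀ hq0, mul_one]
      rw [hm, e, h3]
      ring
    refine ⟨q, g, hg, ?_⟩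
    rw [← e1, ← mul_assoc, inv_mul_cancel₀ hu0, one_mul]
  refine ⟨π, hP0, l2_poly a b P, ?_, hPy, fun p hp => ?_, fun φ hφ => ?_⟩
  · rintro ⟨g, q, hq, e⟩
    have h1 : aevalAeval x y (q - P * g) = 0 := by
      rw [map_sub, map_mul, ← hπ, ← e, ← mul_assoc, mul_inv_cancel₀ hP0, one_mul, sub_self]
    have h2 := l2_eval h hab h1
    rw [evalEval_sub, evalEval_mul, hPab, zero_mul, sub_zero] at h2
    exact hq h2
  · obtain ⟨u, hu, e⟩ := hPd p hp
    rw [e, mul_comm, ← mul_assoc, inv_mul_cancel₀ hP0, one_mul]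
    exact hu
  · obtain ⟨p, q, hq0, e⟩ := h.gen φ
    have hp0 : aevalAeval x y p ≠ 0 := by
      rw [← e]; exact mul_ne_zero hφ hq0
    obtain ⟨n, u, hu0, hu, hui, e1⟩ := hnum p hp0
    obtain ⟨n', u', hu0', hu', hui', e2⟩ := hnum q hq0
    refine ⟨(n : ℤ) - n', u * u'⁻¹, mul_ne_zero hu0 (inv_ne_zero hu0'), l2_mul hu hui', ?_, ?_⟩
    · rw [mul_inv, inv_inv, mul_comm]
      exact l2_mul hu' hui
    · have h3 : φ = aevalAeval x y p * (aevalAeval x y q)⁻¹ := by
        rw [← e, mul_assoc, mul_inv_cancel₀ hq0, mul_one]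
      rw [h3, e1, e2, zpow_sub₀ hP0, zpow_natCast, zpow_natCast, mul_inv]
      field_simp

/-! ### L3 -/
theorem l3_rg_const (a b : k) (c : k) : Rg x y a b (algebraMap k K c) :=
  ⟨C (C c), 1, by simp, by simp⟩

theorem l3_rg_mul {a b : k} {φ ψ : K} (h1 : Rg x y a b φ) (h2 : Rg x y a b ψ) :
    Rg x y a b (φ * ψ) := by
  obtain ⟨g, h, hh, e⟩ := h1
  obtain ⟨g', h', hh', e'⟩ := h2
  refine ⟨g * g', h * h', ?_, ?_⟩
  · rw [evalEval_mul]
    exact mul_ne_zero hh hh'
  · rw [map_mul, map_mul, ← e, ← e']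
    ring

theorem l3_rg_add {a b : k} {φ ψ : K} (h1 : Rg x y a b φ) (h2 : Rg x y a b ψ) :
    Rg x y a b (φ + ψ) := by
  obtain ⟨g, h, hh, e⟩ := h1
  obtain ⟨g', h', hh', e'⟩ := h2
  refine ⟨g * h' + g' * h, h * h', ?_, ?_⟩
  · rw [evalEval_mul]
    exact mul_ne_zero hh hh'
  · rw [map_mul, map_add, map_mul, map_mul, ← e, ← e']
    ring

theorem l3_rg_pow {a b : k} {φ : K} (h1 : Rg x y a b φ) (n : ℕ) : Rg x y a b (φ ^ n) := by
  induction n with
  | zero =>
    rw [pow_zero, ← map_one (algebraMap k K)]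
    exact l3_rg_const a b 1
  | succ n ih =>
    rw [pow_succ]
    exact l3_rg_mul ih h1

theorem l3_rg_zpow {a b : k} {φ : K} (h1 : Rg x y a b φ) {n : ℤ} (hn : 0 ≤ n) :
    Rg x y a b (φ ^ n) := by
  obtain ⟨m, rfl⟩ := Int.eq_ofNat_of_zero_le hn
  rw [zpow_natCast]
  exact l3_rg_pow h1 m

/-- if `π ^ n * u` is regular, `u` a unit, then `0 ≤ n` -/
theorem l3_nonneg {a b : k} {π u : K} (hπ : π ≠ 0) (hr : Rg x y a b π) (hni : ¬ Rg x y a b π⁻¹)
    (hu0 : u ≠ 0) (hui : Rg x y a b u⁻¹) {n : ℤ} (h : Rg x y a b (π ^ n * u)) : 0 ≤ n := by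
  by_contra hn
  push Not at hn
  apply hni
  have h1 : π⁻¹ = π ^ (-n - 1) * ((π ^ n * u) * u⁻¹) := by
    rw [mul_assoc, mul_inv_cancel₀ hu0, mul_one, ← zpow_add₀ hπ, ← zpow_neg_one]
    congr 1
    ring
  rw [h1]
  exact l3_rg_mul (l3_rg_zpow hr (by omega)) (l3_rg_mul h hui)

/-- `ord φ = n` of L2 (`n` is unique: `π^n` and `π^{-n}` both regular only for `n = 0`). -/
theorem place_exists (hf : Qt f) (h : FF f x y) {a b : k} (hab : f.evalEval a b = 0)
    (hs : dX f a b ≠ 0 ∨ dY f a b ≠ 0) : ∃ v : Place k K, Cen v x y a b := by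
  obtain ⟨π, hπ, hr, hni, -, hdiv, hfac⟩ := local_dvr hf h hab hs
  have hone : Rg x y a b (1 : K) := by
    rw [← map_one (algebraMap k K)]
    exact l3_rg_const a b 1
  have huniq : ∀ (n m : ℤ) (u w : K), u ≠ 0 → w ≠ 0 → Rg x y a b u → Rg x y a b u⁻¹ →
      Rg x y a b w → Rg x y a b w⁻¹ → π ^ n * u = π ^ m * w → n = m := by
    intro n m u w hu0 hw0 hu hui hw hwi he
    have hle : ∀ (n m : ℤ) (u w : K), u ≠ 0 → w ≠ 0 → Rg x y a b u → Rg x y a b u⁻¹ →
      Rg x y a b w → Rg x y a b w⁻¹ → π ^ n * u = π ^ m * w → m ≤ n := by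
      intro n m u w hu0 hw0 hu hui hw hwi he
      have h1 : π ^ (n - m) * u = w := by
        rw [zpow_sub₀ hπ, div_mul_eq_mul_div, he, mul_div_assoc, mul_comm,
          div_mul_cancel₀ _ (zpow_ne_zero _ hπ)]
      have h2 := l3_nonneg hπ hr hni hu0 hui (n := n - m) (by rw [h1]; exact hw)
      omega
    exact le_antisymm (hle m n w u hw0 hu0 hw hwi hu hui he.symm)
      (hle n m u w hu0 hw0 hu hui hw hwi he)
  choose! N U hU0 hU hUi hφ using hfac
  let o : K → ℤ := fun φ => if φ = 0 then 0 else N φ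
  have ho : ∀ φ, φ ≠ 0 → o φ = N φ := fun φ h0 => if_neg h0
  have hval : ∀ (φ : K) (n : ℤ) (u : K), u ≠ 0 → Rg x y a b u → Rg x y a b u⁻¹ →
      φ = π ^ n * u → o φ = n := by
    intro φ n u hu0 hu hui he
    have h0 : φ ≠ 0 := by
      rw [he]
      exact mul_ne_zero (zpow_ne_zero _ hπ) hu0
    rw [ho φ h0]
    refine huniq _ _ _ _ (hU0 φ h0) hu0 (hU φ h0) (hUi φ h0) hu hui ?_
    rw [← hφ φ h0, he]
  have hreg : ∀ φ, φ ≠ 0 → Rg x y a b φ → 0 ≤ o φ := by
    intro φ h0 hrφ
    rw [ho φ h0]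
    refine l3_nonneg hπ hr hni (hU0 φ h0) (hUi φ h0) (n := N φ) ?_
    rw [← hφ φ h0]
    exact hrφ
  have hmul : ∀ f g : K, f ≠ 0 → g ≠ 0 → o (f * g) = o f + o g := by
    intro f g hf0 hg0
    refine hval _ _ (U f * U g) (mul_ne_zero (hU0 f hf0) (hU0 g hg0))
      (l3_rg_mul (hU f hf0) (hU g hg0)) ?_ ?_
    · rw [mul_inv]
      exact l3_rg_mul (hUi f hf0) (hUi g hg0)
    · rw [ho f hf0, ho g hg0, zpow_add₀ hπ]
      calc f * g = (π ^ N f * U f) * (π ^ N g * U g) := by rw [← hφ f hf0, ← hφ g hg0]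
        _ = _ := by ring
  have hadd0 : ∀ f g : K, f ≠ 0 → g ≠ 0 → f + g ≠ 0 → o f ≤ o g → o f ≤ o (f + g) := by
    intro f g hf0 hg0 hfg hle
    rw [ho f hf0, ho g hg0] at hle
    have hs1 : Rg x y a b (U f + π ^ (N g - N f) * U g) :=
      l3_rg_add (hU f hf0) (l3_rg_mul (l3_rg_zpow hr (by omega)) (hU g hg0))
    have hs2 : f + g = π ^ (N f) * (U f + π ^ (N g - N f) * U g) := by
      rw [mul_add, ← mul_assoc, ← zpow_add₀ hπ, ← hφ f hf0]
      congr 1
      have : N f + (N g - N f) = N g := by ring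
      rw [this, ← hφ g hg0]
    have hs0 : U f + π ^ (N g - N f) * U g ≠ 0 := by
      intro h0
      rw [h0, mul_zero] at hs2
      exact hfg hs2
    have hs3 := hreg _ hs0 hs1
    have hs4 : o (f + g) = o (π ^ N f) + o (U f + π ^ (N g - N f) * U g) := by
      rw [hs2]
      exact hmul _ _ (zpow_ne_zero _ hπ) hs0
    have hs5 : o (π ^ N f) = N f := hval _ _ 1 one_ne_zero hone (by rw [inv_one]; exact hone)
      (by rw [mul_one])
    rw [ho f hf0]
    omega
  let v : Place k K :=
    { ord := o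
      ord_zero := if_pos rfl
      ord_mul := hmul
      ord_add := by
        intro f g hf0 hg0 hfg
        rcases le_total (o f) (o g) with hle | hle
        · rw [min_eq_left hle]
          exact hadd0 f g hf0 hg0 hfg hle
        · rw [min_eq_right hle, add_comm]
          exact hadd0 g f hg0 hf0 (by rwa [add_comm]) hle
      ord_const := by
        intro c hc
        refine hval _ _ (algebraMap k K c) (by simpa using hc) (l3_rg_const a b c) ?_ ?_
        · rw [← map_inv₀]
          exact l3_rg_const a b c⁻¹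
        · rw [zpow_zero, one_mul]
      exists_uniformizer := ⟨π, hval _ _ 1 one_ne_zero hone (by rw [inv_one]; exact hone)
        (by rw [mul_one, zpow_one])⟩ }
  have hzer : ∀ p : k[X][Y], p.evalEval a b = 0 → v.Zer (aevalAeval x y p) := by
    intro p hp
    by_cases h0 : aevalAeval x y p = 0
    · exact Or.inl h0
    · refine Or.inr ?_
      have h1 := hdiv p hp
      have h2 : aevalAeval x y p * π⁻¹ ≠ 0 := mul_ne_zero h0 (inv_ne_zero hπ)
      have h3 := hreg _ h2 h1
      have h4 : o (aevalAeval x y p) = o (aevalAeval x y p * π⁻¹) + o π := by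
        rw [← hmul _ _ h2 hπ, mul_assoc, inv_mul_cancel₀ hπ, mul_one]
      have h5 : o π = 1 := hval _ _ 1 one_ne_zero hone (by rw [inv_one]; exact hone)
        (by rw [mul_one, zpow_one])
      show 0 < o (aevalAeval x y p)
      omega
  refine ⟨v, ?_, ?_⟩
  · have h1 := hzer (C X - C (C a)) (by simp [evalEval_C])
    simpa using h1
  · have h1 := hzer (Y - C (C b)) (by simp)
    simpa using h1

/-! ### L4 -/
theorem l4_mul {v : Place k K} {α β : K} {s t : k} (h1 : v.Zer (α - algebraMap k K s))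
    (h2 : v.Zer (β - algebraMap k K t)) : v.Zer (α * β - algebraMap k K (s * t)) := by
  have r1 : v.Reg α := by
    have h3 := h1.reg.add (v.reg_const s)
    rwa [sub_add_cancel] at h3
  have e : α * β - algebraMap k K (s * t) =
      α * (β - algebraMap k K t) + (α - algebraMap k K s) * algebraMap k K t := by
    rw [map_mul]
    ring
  rw [e]
  exact (Place.Zer.reg_mul r1 h2).add (h1.mul_reg (v.reg_const t))

theorem l4_add {v : Place k K} {α β : K} {s t : k} (h1 : v.Zer (α - algebraMap k K s))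
    (h2 : v.Zer (β - algebraMap k K t)) : v.Zer (α + β - algebraMap k K (s + t)) := by
  have e : α + β - algebraMap k K (s + t) =
      (α - algebraMap k K s) + (β - algebraMap k K t) := by
    rw [map_add]
    ring
  rw [e]
  exact h1.add h2

theorem l4_inner {v : Place k K} {a b : k} (hv : Cen v x y a b) (p : k[X]) :
    v.Zer (aeval x p - algebraMap k K (p.eval a)) := by
  induction p using Polynomial.induction_on with
  | C c => simp [v.zer_zero]
  | add p q hp hq =>
    rw [map_add, eval_add]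
    exact l4_add hp hq
  | monomial n c h =>
    rw [pow_succ, ← mul_assoc, map_mul, eval_mul, aeval_X, eval_X]
    exact l4_mul h hv.1

/-- Values: `Cen v x y a b → v.Zer (aeval p - p(a,b))` (induction on polynomials), so polynomials not
vanishing at the point have order 0, `Rg φ → 0 ≤ ord φ`. -/
theorem cen_zer {v : Place k K} {a b : k} (hv : Cen v x y a b) (p : k[X][Y]) :
    v.Zer (aevalAeval x y p - algebraMap k K (p.evalEval a b)) := by
  induction p using Polynomial.induction_on with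
  | C p =>
    rw [aevalAeval_C, evalEval_C]
    exact l4_inner hv p
  | add p q hp hq =>
    rw [map_add, evalEval_add]
    exact l4_add hp hq
  | monomial n p h =>
    rw [pow_succ, ← mul_assoc, map_mul, evalEval_mul, aevalAeval_Y, evalEval_X]
    exact l4_mul h hv.2

theorem cen_ord_zero {v : Place k K} {a b : k} (hv : Cen v x y a b) {p : k[X][Y]}
    (hp : p.evalEval a b ≠ 0) : v.ord (aevalAeval x y p) = 0 := by
  have h1 := cen_zer hv p
  have h2 := v.ord_const _ hp
  have hc : algebraMap k K (p.evalEval a b) ≠ 0 := by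
    intro h3
    exact hp ((map_eq_zero (algebraMap k K)).1 h3)
  have r1 : v.Reg (aevalAeval x y p) := by
    have h3 := h1.reg.add (v.reg_const (p.evalEval a b))
    rwa [sub_add_cancel] at h3
  have h0 : aevalAeval x y p ≠ 0 := by
    intro h3
    rw [h3, zero_sub] at h1
    rcases h1 with h1 | h1
    · exact hc (neg_eq_zero.1 h1)
    · rw [v.ord_neg, h2] at h1
      exact lt_irrefl _ h1
  have h4 := r1.resolve_left h0
  rcases lt_or_eq_of_le h4 with h5 | h5
  · exfalso
    have h6 : v.Zer (aevalAeval x y p) := Or.inr h5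
    have h7 := h6.sub h1
    rw [sub_sub_cancel] at h7
    rcases h7 with h7 | h7
    · exact hc h7
    · rw [h2] at h7
      exact lt_irrefl _ h7
  · exact h5.symm

theorem cen_reg {v : Place k K} {a b : k} (hv : Cen v x y a b) {φ : K} (h : Rg x y a b φ) :
    v.Reg φ := by
  obtain ⟨g, q, hq, e⟩ := h
  by_cases hφ : φ = 0
  · exact Or.inl hφ
  have h1 := cen_ord_zero hv hq
  have hq0 : aevalAeval x y q ≠ 0 := by
    intro h3
    have h4 := cen_zer hv q
    rw [h3, zero_sub] at h4
    have hc : algebraMap k K (q.evalEval a b) ≠ 0 := by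
      intro h3
      exact hq ((map_eq_zero (algebraMap k K)).1 h3)
    rcases h4 with h4 | h4
    · exact hc (neg_eq_zero.1 h4)
    · rw [v.ord_neg, v.ord_const _ hq] at h4
      exact lt_irrefl _ h4
  have h2 := v.ord_mul φ _ hφ hq0
  have r1 : v.Reg (aevalAeval x y g) := by
    have h3 := (cen_zer hv g).reg.add (v.reg_const (g.evalEval a b))
    rwa [sub_add_cancel] at h3
  rw [e, h1, add_zero] at h2
  rcases r1 with h3 | h3
  · exfalso
    rw [h3] at e
    exact mul_ne_zero hφ hq0 e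
  · right
    rw [← h2]
    exact h3

/-! ### L5 -/
theorem l5_rg_mul {a b : k} {φ ψ : K} (h1 : Rg x y a b φ) (h2 : Rg x y a b ψ) :
    Rg x y a b (φ * ψ) := by
  obtain ⟨g, h, hh, e⟩ := h1
  obtain ⟨g', h', hh', e'⟩ := h2
  refine ⟨g * g', h * h', ?_, ?_⟩
  · rw [evalEval_mul]
    exact mul_ne_zero hh hh'
  · rw [map_mul, map_mul, ← e, ← e']
    ring

theorem l5_rg_pow {a b : k} {φ : K} (h1 : Rg x y a b φ) (n : ℕ) : Rg x y a b (φ ^ n) := by
  induction n with
  | zero => exact ⟨1, 1, by simp, by simp⟩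
  | succ n ih =>
    rw [pow_succ]
    exact l5_rg_mul ih h1

/-- the main lemma: the uniformiser of `local_dvr` has order 1 at every place centred at the point,
units have order 0 -/
theorem l5_main (hf : Qt f) (h : FF f x y) {a b : k} (hab : f.evalEval a b = 0)
    (hs : dX f a b ≠ 0 ∨ dY f a b ≠ 0) :
    ∃ π : K, π ≠ 0 ∧ Rg x y a b π ∧ (dY f a b ≠ 0 → π = x - algebraMap k K a) ∧
      (∀ φ : K, φ ≠ 0 → ∃ (n : ℤ) (u : K), u ≠ 0 ∧ Rg x y a b u ∧ Rg x y a b u⁻¹ ∧
        φ = π ^ n * u ∧ ∀ v : Place k K, Cen v x y a b → v.ord φ = n) := by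
  obtain ⟨π, hπ, hr, hni, hX, hdiv, hfac⟩ := local_dvr hf h hab hs
  have hunit : ∀ v : Place k K, Cen v x y a b → ∀ u : K, u ≠ 0 → Rg x y a b u →
      Rg x y a b u⁻¹ → v.ord u = 0 := by
    intro v hv u hu0 hu hui
    have h1 := (cen_reg hv hu).resolve_left hu0
    have h2 := (cen_reg hv hui).resolve_left (inv_ne_zero hu0)
    rw [v.ord_inv] at h2
    omega
  have hone : ∀ v : Place k K, Cen v x y a b → v.ord π = 1 := by
    intro v hv
    obtain ⟨t, ht⟩ := v.exists_uniformizer
    have ht0 : t ≠ 0 := by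
      rintro rfl
      rw [v.ord_zero] at ht
      exact absurd ht (by norm_num)
    obtain ⟨n, u, hu0, hu, hui, he⟩ := hfac t ht0
    have h1 : v.ord t = n * v.ord π := by
      rw [he, v.ord_mul _ _ (zpow_ne_zero _ hπ) hu0, v.ord_zpow, hunit v hv u hu0 hu hui, add_zero]
    have h2 : 0 ≤ v.ord π := (cen_reg hv hr).resolve_left hπ
    rw [ht] at h1
    have h3 : v.ord π ∣ 1 := ⟨n, by rw [mul_comm]; exact h1⟩
    rcases Int.isUnit_iff.1 (isUnit_of_dvd_one h3) with h4 | h4
    · exact h4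
    · omega
  refine ⟨π, hπ, hr, hX, fun φ h0 => ?_⟩
  obtain ⟨n, u, hu0, hu, hui, he⟩ := hfac φ h0
  refine ⟨n, u, hu0, hu, hui, he, fun v hv => ?_⟩
  rw [he, v.ord_mul _ _ (zpow_ne_zero _ hπ) hu0, v.ord_zpow, hunit v hv u hu0 hu hui,
    hone v hv, add_zero, mul_one]

/-- With `π` of L2: `v.ord π = e ≥ 1` (`π` vanishes at `v`: `π` regular, not invertible; `π = x - a` or
`y - b`...: use that `v.Zer π`, since `π⁻¹` not regular...), `v.ord (π^n u) = e n`; normalisation gives
`e = 1`. Hence uniqueness, `Rg ↔ 0 ≤ ord`. -/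
theorem place_unique (hf : Qt f) (h : FF f x y) {a b : k} (hab : f.evalEval a b = 0)
    (hs : dX f a b ≠ 0 ∨ dY f a b ≠ 0) {v v' : Place k K} (hv : Cen v x y a b)
    (hv' : Cen v' x y a b) : v = v' := by
  obtain ⟨π, hπ, hr, hX, hfac⟩ := l5_main hf h hab hs
  refine Place.ext' fun φ => ?_
  by_cases h0 : φ = 0
  · rw [h0, v.ord_zero, v'.ord_zero]
  · obtain ⟨n, u, -, -, -, -, hn⟩ := hfac φ h0
    rw [hn v hv, hn v' hv']

theorem rg_iff (hf : Qt f) (h : FF f x y) {a b : k} (hab : f.evalEval a b = 0)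
    (hs : dX f a b ≠ 0 ∨ dY f a b ≠ 0) {v : Place k K} (hv : Cen v x y a b) {φ : K} (hφ : φ ≠ 0) :
    Rg x y a b φ ↔ 0 ≤ v.ord φ := by
  constructor
  · intro hr
    exact (cen_reg hv hr).resolve_left hφ
  · intro ho
    obtain ⟨π, hπ, hr, hX, hfac⟩ := l5_main hf h hab hs
    obtain ⟨n, u, hu0, hu, hui, he, hn⟩ := hfac φ hφ
    rw [hn v hv] at ho
    obtain ⟨m, rfl⟩ := Int.eq_ofNat_of_zero_le ho
    rw [he, zpow_natCast]
    exact l5_rg_mul (l5_rg_pow hr m) hu

theorem ord_x (hf : Qt f) (h : FF f x y) {a b : k} (hab : f.evalEval a b = 0)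
    (hd : dY f a b ≠ 0) {v : Place k K} (hv : Cen v x y a b) :
    v.ord (x - algebraMap k K a) = 1 := by
  obtain ⟨π, hπ, hr, hX, hfac⟩ := l5_main hf h hab (Or.inr hd)
  obtain ⟨n, u, hu0, hu, hui, he, hn⟩ := hfac π hπ
  rw [← hX hd, hn v hv]
  -- `π = π ^ n * u`, `ord t = 1` for some `t`
  obtain ⟨t, ht⟩ := v.exists_uniformizer
  have ht0 : t ≠ 0 := by
    rintro rfl
    rw [v.ord_zero] at ht
    exact absurd ht (by norm_num)
  obtain ⟨n', u', hu0', hu', hui', he', hn'⟩ := hfac t ht0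
  have h1 : v.ord u' = 0 := by
    have h1 := (cen_reg hv hu').resolve_left hu0'
    have h2 := (cen_reg hv hui').resolve_left (inv_ne_zero hu0')
    rw [v.ord_inv] at h2
    omega
  have h2 : v.ord t = n' * v.ord π := by
    rw [he', v.ord_mul _ _ (zpow_ne_zero _ hπ) hu0', v.ord_zpow, h1, add_zero]
  rw [ht, hn v hv] at h2
  have h3 : 0 ≤ v.ord π := (cen_reg hv hr).resolve_left hπ
  rw [hn v hv] at h3
  have h4 : n ∣ 1 := ⟨n', by rw [mul_comm]; exact h2⟩
  rcases Int.isUnit_iff.1 (isUnit_of_dvd_one h4) with h5 | h5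
  · exact h5
  · omega

/-! ### L6 -/
theorem l6_zer_sum {v : Place k K} {ι : Type} (s : Finset ι) (g : ι → K)
    (h : ∀ i ∈ s, v.Zer (g i)) : v.Zer (∑ i ∈ s, g i) := by
  induction s using Finset.induction_on with
  | empty => rw [Finset.sum_empty]; exact v.zer_zero
  | insert a s ha ih =>
    rw [Finset.sum_insert ha]
    exact (h a (Finset.mem_insert_self a s)).add
      (ih fun i hi => h i (Finset.mem_insert_of_mem hi))

/-- `aevalAeval` as a sum over the coefficients -/
theorem l6_sum (p : k[X][Y]) (n : ℕ) (hn : p.natDegree < n) :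
    aevalAeval x y p = ∑ j ∈ Finset.range n, aeval x (p.coeff j) * y ^ j := by
  have h1 : p = ∑ j ∈ Finset.range n, C (p.coeff j) * X ^ j := p.as_sum_range_C_mul_X_pow' hn
  conv_lhs => rw [h1]
  rw [map_sum]
  refine Finset.sum_congr rfl fun j _ => ?_
  rw [map_mul, map_pow, aevalAeval_C, aevalAeval_Y]

theorem l6_poly [IsAlgClosed k] {v : Place k K} (ht : Transcendental k x)
    (h1 : ∀ c : k, v.ord (x - algebraMap k K c) = 0) :
    ∀ P : k[X], P ≠ 0 → v.ord (aeval x P) = 0 := by
  have hne : ∀ c : k, x - algebraMap k K c ≠ 0 := by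
    intro c hc
    apply ht
    rw [sub_eq_zero.1 hc]
    exact isAlgebraic_algebraMap c
  have hne' : ∀ P : k[X], P ≠ 0 → aeval x P ≠ 0 := by
    intro P hP h0
    exact ht ⟨P, hP, h0⟩
  intro P
  induction hn : P.natDegree generalizing P with
  | zero =>
    intro hP
    rw [eq_C_of_natDegree_eq_zero hn, aeval_C]
    refine v.ord_const _ ?_
    intro h0
    apply hP
    rw [eq_C_of_natDegree_eq_zero hn, h0, C_0]
  | succ n ih =>
    intro hP
    have hd : P.degree ≠ 0 := by
      rw [degree_eq_natDegree hP, hn]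
      exact_mod_cast Nat.succ_ne_zero n
    obtain ⟨c, hroot⟩ := IsAlgClosed.exists_root P hd
    obtain ⟨Q, hQ⟩ := dvd_iff_isRoot.2 hroot
    have hQ0 : Q ≠ 0 := by
      rintro rfl
      rw [mul_zero] at hQ
      exact hP hQ
    have hQn : Q.natDegree = n := by
      have h3 := congrArg natDegree hQ
      rw [natDegree_mul (X_sub_C_ne_zero c) hQ0, natDegree_X_sub_C, hn] at h3
      omega
    have h4 : aeval x (X - C c) = x - algebraMap k K c := by simp
    rw [hQ, map_mul, h4, v.ord_mul _ _ (hne c) (hne' Q hQ0), h1, ih Q hQn hQ0, add_zero]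

theorem l6_val [IsAlgClosed k] (hf : Qt f) (h : FF f x y) {v : Place k K} (hx : 0 ≤ v.ord x) :
    ∃ a : k, v.Zer (x - algebraMap k K a) := by
  by_contra hc
  push Not at hc
  have ht := ff_transcendental hf h
  have hne : ∀ c : k, x - algebraMap k K c ≠ 0 := by
    intro c hc
    apply ht
    rw [sub_eq_zero.1 hc]
    exact isAlgebraic_algebraMap c
  have h1 : ∀ c : k, v.ord (x - algebraMap k K c) = 0 := by
    intro c
    have h2 : ¬ 0 < v.ord (x - algebraMap k K c) := fun h => hc c (Or.inr h)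
    have h3 : v.Reg (x - algebraMap k K c) := Place.Reg.sub (Or.inr hx) (v.reg_const c)
    have h4 := h3.resolve_left (hne c)
    omega
  have h2 := l6_poly ht h1
  -- elements of `k(x)` are `0` or of order `0`
  have h3 : ∀ c : K, c ∈ IntermediateField.adjoin k {x} → c = 0 ∨ v.ord c = 0 := by
    intro c hc
    obtain ⟨r, s, rfl⟩ := (IntermediateField.mem_adjoin_simple_iff k c).1 hc
    by_cases hr : aeval x r = 0
    · left; rw [hr, zero_div]
    by_cases hs : aeval x s = 0
    · left; rw [hs, div_zero]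
    right
    have hr0 : r ≠ 0 := by rintro rfl; exact hr (map_zero _)
    have hs0 : s ≠ 0 := by rintro rfl; exact hs (map_zero _)
    rw [v.ord_div _ _ hr hs, h2 r hr0, h2 s hs0, sub_zero]
  obtain ⟨t, ht1⟩ := v.exists_uniformizer
  have ht0 : t ≠ 0 := by
    rintro rfl
    rw [v.ord_zero] at ht1
    exact zero_ne_one ht1
  have := ff_finite hf h
  have hint : IsIntegral (IntermediateField.adjoin k {x}) t := IsIntegral.of_finite _ t
  have hm0 := minpoly.coeff_zero_ne_zero hint ht0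
  have hreg : ∀ P : (IntermediateField.adjoin k {x})[X], v.Reg (aeval t P) := by
    intro P
    induction P using Polynomial.induction_on' with
    | add p q hp hq => rw [map_add]; exact hp.add hq
    | monomial n a =>
      rw [aeval_monomial]
      refine Place.Reg.mul ?_ (Place.Reg.pow (Or.inr (by rw [ht1]; norm_num)) n)
      rcases h3 _ a.2 with h4 | h4
      · exact Or.inl h4
      · exact Or.inr (le_of_eq h4.symm)
  have hev := minpoly.aeval (IntermediateField.adjoin k {x}) t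
  rw [← divX_mul_X_add (minpoly (IntermediateField.adjoin k {x}) t), map_add, map_mul, aeval_X,
    aeval_C] at hev
  have hz : v.Zer (algebraMap (IntermediateField.adjoin k {x}) K
      ((minpoly (IntermediateField.adjoin k {x}) t).coeff 0)) := by
    rw [eq_neg_of_add_eq_zero_right hev]
    exact (Place.Zer.reg_mul (hreg _) (Or.inr (by rw [ht1]; norm_num))).neg
  have hne0 : algebraMap (IntermediateField.adjoin k {x}) K
      ((minpoly (IntermediateField.adjoin k {x}) t).coeff 0) ≠ 0 := by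
    intro h0
    exact hm0 ((map_eq_zero _).1 h0)
  have hord := (h3 _ ((minpoly (IntermediateField.adjoin k {x}) t).coeff 0).2).resolve_left hne0
  rcases hz with hz | hz
  · exact hne0 hz
  · have h5 : v.ord (algebraMap (IntermediateField.adjoin k {x}) K
      ((minpoly (IntermediateField.adjoin k {x}) t).coeff 0)) = 0 := hord
    rw [h5] at hz
    exact lt_irrefl _ hz

/-- `y` is regular if `x` is -/
theorem l6_reg (hf : Qt f) (h : aevalAeval x y f = 0) {v : Place k K} {a : k}
    (ha : v.Zer (x - algebraMap k K a)) : v.Reg y := by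
  by_contra hy
  have hy0 : y ≠ 0 := fun h0 => hy (Or.inl h0)
  have hyo : v.ord y < 0 := by
    by_contra h1
    push Not at h1
    exact hy (Or.inr h1)
  have h1 := l6_sum (x := x) (y := y) f 5 (by rw [hf.deg]; norm_num)
  rw [h, Finset.sum_range_succ] at h1
  have hlead : f.coeff 4 = 1 := by
    have h2 := hf.monic
    rw [Monic, leadingCoeff, hf.deg] at h2
    exact h2
  rw [hlead, map_one, one_mul] at h1
  have h2 : (1 : K) = -∑ j ∈ Finset.range 4, aeval x (f.coeff j) * y ^ j * (y ^ 4)⁻¹ := by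
    rw [← Finset.sum_mul]
    have h3 : (∑ j ∈ Finset.range 4, aeval x (f.coeff j) * y ^ j) = -y ^ 4 := by
      exact eq_neg_of_add_eq_zero_left h1.symm
    rw [h3, neg_mul, neg_neg, mul_inv_cancel₀ (pow_ne_zero 4 hy0)]
  have h3 : v.Zer (1 : K) := by
    rw [h2]
    apply Place.Zer.neg
    apply l6_zer_sum
    intro j hj
    rw [Finset.mem_range] at hj
    rw [mul_assoc]
    refine Place.Zer.reg_mul (Place.reg_of_val (Place.val_aeval ha _)) (Or.inr ?_)
    rw [v.ord_mul _ _ (pow_ne_zero _ hy0) (inv_ne_zero (pow_ne_zero _ hy0)), v.ord_inv,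
      v.ord_pow, v.ord_pow]
    have hj' : (j : ℤ) < 4 := by exact_mod_cast hj
    push_cast
    nlinarith
  rcases h3 with h3 | h3
  · exact one_ne_zero h3
  · rw [v.ord_one] at h3
    exact lt_irrefl _ h3

/-- a value of a monic polynomial vanishes at `v`: so does some factor -/
theorem l6_root [IsAlgClosed k] {v : Place k K} (hy : v.Reg y) :
    ∀ P : k[X], P.Monic → v.Zer (aeval y P) → ∃ b, P.eval b = 0 ∧ v.Zer (y - algebraMap k K b) := by
  intro P
  induction hn : P.natDegree generalizing P with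
  | zero =>
    intro hP hz
    exfalso
    rw [hP.natDegree_eq_zero.1 hn, map_one] at hz
    rcases hz with hz | hz
    · exact one_ne_zero hz
    · rw [v.ord_one] at hz
      exact lt_irrefl _ hz
  | succ n ih =>
    intro hP hz
    have hd : P.degree ≠ 0 := by
      rw [degree_eq_natDegree hP.ne_zero, hn]
      exact_mod_cast Nat.succ_ne_zero n
    obtain ⟨c, hroot⟩ := IsAlgClosed.exists_root P hd
    by_cases hc : v.Zer (y - algebraMap k K c)
    · exact ⟨c, hroot, hc⟩
    obtain ⟨Q, hQ⟩ := dvd_iff_isRoot.2 hroot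
    have hQm : Q.Monic := (monic_X_sub_C c).of_mul_monic_left (by rw [← hQ]; exact hP)
    have hQn : Q.natDegree = n := by
      have h3 := congrArg natDegree hQ
      rw [natDegree_mul (X_sub_C_ne_zero c) hQm.ne_zero, natDegree_X_sub_C, hn] at h3
      omega
    have h4 : aeval y (X - C c) = y - algebraMap k K c := by simp
    have h5 : y - algebraMap k K c ≠ 0 := fun h0 => hc (Or.inl h0)
    have h6 : v.ord (y - algebraMap k K c) = 0 :=
      Place.ord_eq_zero_of_reg (hy.sub (v.reg_const c)) hc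
    have h7 : v.Zer (aeval y Q) := by
      have h8 : aeval y Q = (y - algebraMap k K c)⁻¹ * aeval y P := by
        rw [hQ, map_mul, h4, ← mul_assoc, inv_mul_cancel₀ h5, one_mul]
      rw [h8]
      exact Place.Zer.reg_mul (Or.inr (by rw [v.ord_inv, h6, neg_zero])) hz
    obtain ⟨b, hb, hb'⟩ := ih Q hQn hQm h7
    exact ⟨b, by rw [hQ, eval_mul, hb, mul_zero], hb'⟩

theorem l6_cen [IsAlgClosed k] (hf : Qt f) (h : aevalAeval x y f = 0) {v : Place k K} {a : k}
    (ha : v.Zer (x - algebraMap k K a)) : ∃ b, f.evalEval a b = 0 ∧ Cen v x y a b := by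
  have hy := l6_reg hf h ha
  have hm : (f.map (evalRingHom a)).Monic := hf.monic.map _
  have hz : v.Zer (aeval y (f.map (evalRingHom a))) := by
    have h1 := l6_sum (x := x) (y := y) f 5 (by rw [hf.deg]; norm_num)
    have h2 : aeval y (f.map (evalRingHom a)) =
        ∑ j ∈ Finset.range 5, algebraMap k K ((f.coeff j).eval a) * y ^ j := by
      rw [aeval_eq_sum_range' (n := 5) (by rw [hf.monic.natDegree_map, hf.deg]; norm_num)]
      refine Finset.sum_congr rfl fun j _ => ?_
      rw [coeff_map, Algebra.smul_def, coe_evalRingHom]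
    have h3 : aeval y (f.map (evalRingHom a)) = -∑ j ∈ Finset.range 5,
        (aeval x (f.coeff j) - algebraMap k K ((f.coeff j).eval a)) * y ^ j := by
      have h4 : ∑ j ∈ Finset.range 5,
          (aeval x (f.coeff j) - algebraMap k K ((f.coeff j).eval a)) * y ^ j =
          aevalAeval x y f - aeval y (f.map (evalRingHom a)) := by
        rw [h1, h2, ← Finset.sum_sub_distrib]
        exact Finset.sum_congr rfl fun j _ => sub_mul _ _ _
      rw [h4, h, zero_sub, neg_neg]
    rw [h3]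
    apply Place.Zer.neg
    apply l6_zer_sum
    intro j _
    exact (Place.val_aeval ha _).mul_reg (hy.pow j)
  obtain ⟨b, hb, hb'⟩ := l6_root hy _ hm hz
  refine ⟨b, ?_, ha, hb'⟩
  rw [← map_evalRingHom_eval]
  exact hb

/-- Every place has a centre. If `0 ≤ ord x`: there is `a` with `Zer (x - a)` (otherwise `ord` is 0 on
`k(x)^*`, hence on `K^*` because `K` is algebraic over `k(x)`, contradicting `exists_uniformizer`:
port of LibJac77/A1b); `y` is integral over `k[x]` so `ord y ≥ 0`; `f(a, y) = ∏ (y - b_i)` vanishes at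
`v`, so some `y - b_i` does. If `ord x < 0`: `x⁻¹` vanishes, use the same argument in the chart
`(flip 4 f; x⁻¹, y x⁻¹)` (`ff_flip`), `a = 0`. -/
theorem center [IsAlgClosed k] (hf : Qt f) (h : FF f x y) (v : Place k K) :
    (∃ a b, f.evalEval a b = 0 ∧ Cen v x y a b) ∨
    ∃ b, (flip 4 f).evalEval 0 b = 0 ∧ Cen v x⁻¹ (y * x⁻¹) 0 b := by
  by_cases hx : 0 ≤ v.ord x
  · left
    obtain ⟨a, ha⟩ := l6_val hf h hx
    obtain ⟨b, hb, hc⟩ := l6_cen hf h.root ha
    exact ⟨a, b, hb, hc⟩
  · right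
    push Not at hx
    have ha : v.Zer (x⁻¹ - algebraMap k K 0) := by
      rw [map_zero, sub_zero]
      exact Or.inr (by rw [v.ord_inv]; omega)
    exact l6_cen (qt_flip hf) (ff_flip hf h).root ha

/-! ### L7 -/
theorem l7_ord {v : Place k K} {a : k} (ha : a ≠ 0) (h : v.Zer (x - algebraMap k K a)) :
    v.ord x = 0 := by
  have hc : algebraMap k K a ≠ 0 := fun h3 => ha ((map_eq_zero (algebraMap k K)).1 h3)
  have h2 := v.ord_const a ha
  have r1 : v.Reg x := by
    have h3 := h.reg.add (v.reg_const a)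
    rwa [sub_add_cancel] at h3
  have hx : x ≠ 0 := by
    intro h3
    rw [h3, zero_sub] at h
    rcases h with h | h
    · exact hc (neg_eq_zero.1 h)
    · rw [v.ord_neg, h2] at h
      exact lt_irrefl _ h
  have h4 := r1.resolve_left hx
  rcases lt_or_eq_of_le h4 with h5 | h5
  · exfalso
    have h6 : v.Zer x := Or.inr h5
    have h7 := h6.sub h
    rw [sub_sub_cancel] at h7
    rcases h7 with h7 | h7
    · exact hc h7
    · rw [h2] at h7
      exact lt_irrefl _ h7
  · exact h5.symm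

theorem l7_flip {v : Place k K} {a b : k} (ha : a ≠ 0) (hx : x ≠ 0) (h : Cen v x y a b) :
    Cen v x⁻¹ (y * x⁻¹) a⁻¹ (b * a⁻¹) := by
  obtain ⟨h1, h2⟩ := h
  have hc : algebraMap k K a ≠ 0 := fun h3 => ha ((map_eq_zero (algebraMap k K)).1 h3)
  have h3 := l7_ord ha h1
  have r1 : v.Reg x⁻¹ := Or.inr (by rw [v.ord_inv, h3, neg_zero])
  have r2 : v.Reg (algebraMap k K a⁻¹) := v.reg_const _
  constructor
  · have e : x⁻¹ - algebraMap k K a⁻¹ =
        (x - algebraMap k K a) * -(x⁻¹ * algebraMap k K a⁻¹) := by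
      rw [map_inv₀]
      field_simp
      ring
    rw [e]
    exact h1.mul_reg (r1.mul r2).neg
  · have e : y * x⁻¹ - algebraMap k K (b * a⁻¹) =
        (y - algebraMap k K b) * x⁻¹ -
          (x - algebraMap k K a) * (x⁻¹ * algebraMap k K a⁻¹ * algebraMap k K b) := by
      rw [map_mul, map_inv₀]
      field_simp
      ring
    rw [e]
    exact (h2.mul_reg r1).sub (h1.mul_reg ((r1.mul r2).mul (v.reg_const b)))

/-- `Cen` in the two charts: for `a ≠ 0` the same point; never both affine and at infinity. -/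
theorem cen_flip {v : Place k K} {a b : k} (ha : a ≠ 0) (hx : x ≠ 0) :
    Cen v x⁻¹ (y * x⁻¹) a⁻¹ (b * a⁻¹) ↔ Cen v x y a b := by
  constructor
  · intro h
    have h2 := l7_flip (inv_ne_zero ha) (inv_ne_zero hx) h
    rwa [inv_inv, inv_inv, mul_assoc, inv_mul_cancel₀ hx, mul_one, mul_assoc,
      inv_mul_cancel₀ ha, mul_one] at h2
  · exact l7_flip ha hx

theorem cen_excl {v : Place k K} {a b b' : k} (hx : x ≠ 0) (h1 : Cen v x y a b)
    (h2 : Cen v x⁻¹ (y * x⁻¹) 0 b') : False := by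
  have r1 : v.Reg x := by
    have h3 := h1.1.reg.add (v.reg_const a)
    rwa [sub_add_cancel] at h3
  have h3 := r1.resolve_left hx
  have h4 := h2.1
  rw [map_zero, sub_zero] at h4
  rcases h4 with h4 | h4
  · exact inv_ne_zero hx h4
  · rw [v.ord_inv] at h4
    omega

theorem l7_sub (hf : Qt f) (hs : Sm f) (h : FF f x y) (T : Set (k × k)) (hT : T.Finite)
    (hT' : ∀ P ∈ T, f.evalEval P.1 P.2 = 0) :
    (⋃ P ∈ T, {v : Place k K | Cen v x y P.1 P.2}).Finite := by
  refine hT.biUnion fun P hP => Set.Subsingleton.finite ?_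
  intro v hv v' hv'
  exact place_unique hf h (hT' P hP) (hs _ _ (hT' P hP)) hv hv'

/-- finitely many places with `ord φ ≠ 0`: `φ` a quotient of polynomials, K6, L4, L5; at infinity the
finitely many roots of `(flip 4 f)(0, b)`. -/
theorem ord_finite [IsAlgClosed k] (hf : Qt f) (h1 : Sm f) (h2 : Sm (flip 4 f)) (h : FF f x y)
    {φ : K} (hφ : φ ≠ 0) : {v : Place k K | v.ord φ ≠ 0}.Finite := by
  obtain ⟨p, q, hq, e⟩ := h.gen φ
  have hp : aevalAeval x y p ≠ 0 := by
    rw [← e]
    exact mul_ne_zero hφ hq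
  have t1 := l7_sub hf h1 h _ (zeros_finite hf h hp) fun P hP => hP.1
  have t2 := l7_sub hf h1 h _ (zeros_finite hf h hq) fun P hP => hP.1
  have hff := ff_flip hf h
  have hB : {b : k | (flip 4 f).evalEval 0 b = 0}.Finite := by
    have h3 : ((flip 4 f).map (evalRingHom (0 : k))) ≠ 0 :=
      ((qt_flip hf).monic.map _).ne_zero
    have h4 := Polynomial.finite_setOfPred_isRoot h3
    refine h4.subset fun b hb => ?_
    change ((flip 4 f).map (evalRingHom (0 : k))).eval b = 0
    rw [map_evalRingHom_eval]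
    exact hb
  have t3 := l7_sub (qt_flip hf) h2 hff ((fun b => ((0 : k), b)) '' {b : k | (flip 4 f).evalEval 0 b = 0})
    (hB.image _) (by
      rintro _ ⟨b, hb, rfl⟩
      exact hb)
  refine ((t1.union t2).union t3).subset fun v hv => ?_
  rcases center hf h v with ⟨a, b, hab, hc⟩ | ⟨b, hb, hc⟩
  · left
    by_cases hpa : p.evalEval a b = 0
    · left
      rw [Set.mem_iUnion₂]
      exact ⟨(a, b), ⟨hab, hpa⟩, hc⟩
    · by_cases hqa : q.evalEval a b = 0
      · right
        rw [Set.mem_iUnion₂]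
        exact ⟨(a, b), ⟨hab, hqa⟩, hc⟩
      · exfalso
        apply hv
        have e1 := v.ord_mul φ _ hφ hq
        rw [e, cen_ord_zero hc hpa, cen_ord_zero hc hqa] at e1
        omega
  · right
    rw [Set.mem_iUnion₂]
    exact ⟨(0, b), ⟨b, hb, rfl⟩, hc⟩

end L

end Pool.Agent.LibQuart
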