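import Pool.Agent.LibQuart.BK

open scoped Classical
open Polynomial
open scoped Polynomial.Bivariate

namespace Pool.Agent.LibQuart

open Pool.Agent.LibBH2

/-! ## Block N: functions regular everywhere -/

section N
variable {k : Type} [Field k] [IsAlgClosed k] {f : k[X][Y]} {K : Type} [Field K] [Algebra k K] {x y : K}

/-! ### N1 -/
/-- The ideal of all `h` with `φ * aeval h ∈ range aeval` contains `f` and, for each point of the
curve, an element not vanishing there; so it is `⊤` by `nss`; reduce modulo `f` (`aeval_mod`). -/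
theorem poly_of_regular (hf : Qt f) (h : FF f x y) {φ : K}
    (hr : ∀ a b, f.evalEval a b = 0 → Rg x y a b φ) :
    ∃ p : k[X][Y], p.natDegree < 4 ∧ φ = aevalAeval x y p := by
  have h0 : aevalAeval x y f = 0 := h.root
  set I : Ideal k[X][Y] :=
    { carrier := {q | ∃ p : k[X][Y], φ * aevalAeval x y q = aevalAeval x y p}
      add_mem' := by
        rintro q₁ q₂ ⟨p₁, h₁⟩ ⟨p₂, h₂⟩
        exact ⟨p₁ + p₂, by rw [map_add, map_add, mul_add, h₁, h₂]⟩
      zero_mem' := ⟨0, by rw [map_zero, mul_zero]⟩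
      smul_mem' := by
        rintro c q ⟨p, hp⟩
        exact ⟨c * p, by rw [smul_eq_mul, map_mul, map_mul, ← hp]; ring⟩ } with hI
  have hmem : ∀ q : k[X][Y], q ∈ I ↔ ∃ p : k[X][Y], φ * aevalAeval x y q = aevalAeval x y p :=
    fun q => Iff.rfl
  have htop : I = ⊤ := by
    apply nss
    intro a b
    by_cases hab : f.evalEval a b = 0
    · obtain ⟨g, q, hq, hgq⟩ := hr a b hab
      exact ⟨q, (hmem q).2 ⟨g, hgq⟩, hq⟩
    · exact ⟨f, (hmem f).2 ⟨0, by rw [h0, mul_zero, map_zero]⟩, hab⟩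
  obtain ⟨p, hp⟩ : ∃ p : k[X][Y], φ * aevalAeval x y 1 = aevalAeval x y p := by
    apply (hmem 1).1
    rw [htop]
    exact Submodule.mem_top
  refine ⟨p %ₘ f, ?_, ?_⟩
  · rw [← hf.deg]
    apply natDegree_modByMonic_lt _ hf.monic
    intro h1
    have h2 := hf.deg
    rw [h1, natDegree_one] at h2
    omega
  · rw [aeval_mod hf.monic h0, ← hp, map_one, mul_one]

/-! ### N2 -/
/-- the ideal of the denominators -/
def n2_I (x y φ : K) : Ideal k[X][Y] where
  carrier := {h | ∃ g : k[X][Y], φ * aevalAeval x y h = aevalAeval x y g}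
  zero_mem' := ⟨0, by simp⟩
  add_mem' := by
    rintro a b ⟨g, hg⟩ ⟨g', hg'⟩
    exact ⟨g + g', by rw [map_add, mul_add, hg, hg', map_add]⟩
  smul_mem' := by
    rintro c a ⟨g, hg⟩
    exact ⟨c * g, by rw [smul_eq_mul, map_mul, mul_left_comm, hg, map_mul]⟩

omit [IsAlgClosed k] in
theorem n2_mem (x y φ : K) (h : k[X][Y]) :
    h ∈ n2_I x y φ ↔ ∃ g : k[X][Y], φ * aevalAeval x y h = aevalAeval x y g := Iff.rfl

theorem n2_top (h : FF f x y) {φ : K}
    (hr : ∀ b, f.evalEval 0 b = 0 → Rg x y 0 b φ) :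
    n2_I x y φ ⊔ Ideal.span {(C X : k[X][Y])} = ⊤ := by
  refine nss _ fun a b => ?_
  by_cases ha : a = 0
  · subst ha
    by_cases hb : f.evalEval 0 b = 0
    · obtain ⟨g, q, hq, hg⟩ := hr b hb
      exact ⟨q, Submodule.mem_sup_left ⟨g, hg⟩, hq⟩
    · refine ⟨f, Submodule.mem_sup_left ⟨0, ?_⟩, hb⟩
      rw [h.root, mul_zero, map_zero]
  · refine ⟨C X, Submodule.mem_sup_right (Ideal.subset_span rfl), ?_⟩
    rw [evalEval_C, eval_X]
    exact ha

/-- Regular at all points with `x = 0`. `I = {h | φ * aeval h ∈ range aeval} ∋ f`. `nss` gives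
`I + (C X) = ⊤`. `AdjoinRoot f` is finite over `k[X]`; Nakayama
(`Submodule.exists_sub_one_mem_and_smul_eq_zero_of_fg_of_le_smul` for the module `k[X][Y] ⧸ I`)
gives `q ∈ k[X]`, `q ≡ 1 mod X`, `C q ∈ I`. -/
theorem semilocal (hf : Qt f) (h : FF f x y) {φ : K}
    (hr : ∀ b, f.evalEval 0 b = 0 → Rg x y 0 b φ) :
    ∃ (q : k[X]) (p : k[X][Y]), q.eval 0 ≠ 0 ∧ p.natDegree < 4 ∧
      φ * aeval x q = aevalAeval x y p := by
  set I : Ideal k[X][Y] := n2_I x y φ with hI
  have hfI : f ∈ I := ⟨0, by rw [h.root, mul_zero, map_zero]⟩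
  have hfin : Module.Finite k[X] (k[X][Y] ⧸ I) := by
    have h1 : Module.Finite k[X] (AdjoinRoot f) := hf.monic.finite_adjoinRoot
    have h2 : Module.Finite k[X] (k[X][Y] ⧸ Ideal.span {f}) := h1
    have hle : Ideal.span {f} ≤ I := by
      rw [Ideal.span_le]
      rintro _ rfl
      exact hfI
    exact Module.Finite.of_surjective
      (Ideal.Quotient.factorₐ k[X] hle).toLinearMap (Ideal.Quotient.factor_surjective hle)
  have htop : (1 : k[X][Y]) ∈ I ⊔ Ideal.span {(C X : k[X][Y])} := by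
    rw [n2_top h hr]
    exact Submodule.mem_top
  obtain ⟨a, ha, b, hb, hab⟩ := Submodule.mem_sup.1 htop
  obtain ⟨r, rfl⟩ := Ideal.mem_span_singleton'.1 hb
  obtain ⟨q, hq1, hq2⟩ := Submodule.exists_sub_one_mem_and_smul_eq_zero_of_fg_of_le_smul
    (Ideal.span {(X : k[X])}) (⊤ : Submodule k[X] (k[X][Y] ⧸ I)) hfin.fg_top (by
      intro m _
      obtain ⟨m, rfl⟩ := Ideal.Quotient.mk_surjective m
      have e1 : Ideal.Quotient.mk I m = (X : k[X]) • Ideal.Quotient.mk I (r * m) := by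
        have e2 : (X : k[X]) • Ideal.Quotient.mk I (r * m) = Ideal.Quotient.mk I (C X * (r * m)) := by
          rw [← Polynomial.smul_eq_C_mul]
          rfl
        rw [e2, Ideal.Quotient.mk_eq_mk_iff_sub_mem]
        have e3 : m - C X * (r * m) = m * a := by
          have e4 : a = 1 - r * C X := by rw [← hab]; ring
          rw [e4]
          ring
        rw [e3]
        exact Ideal.mul_mem_left _ _ ha
      rw [e1]
      exact Submodule.smul_mem_smul (Ideal.subset_span rfl) Submodule.mem_top)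
  have h3 := hq2 (Ideal.Quotient.mk I 1) Submodule.mem_top
  have h4 : (C q : k[X][Y]) ∈ I := by
    rw [← Ideal.Quotient.eq_zero_iff_mem, ← h3]
    have e2 : q • Ideal.Quotient.mk I (1 : k[X][Y]) = Ideal.Quotient.mk I (C q * 1) := by
      rw [← Polynomial.smul_eq_C_mul]
      rfl
    rw [e2, mul_one]
  obtain ⟨g, hg⟩ := h4
  refine ⟨q, g %ₘ f, ?_, ?_, ?_⟩
  · rw [Ideal.mem_span_singleton] at hq1
    obtain ⟨s, hs⟩ := hq1
    have h5 : q = 1 + X * s := by rw [← hs]; ring
    rw [h5]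
    simp
  · have h6 := Polynomial.natDegree_modByMonic_lt g hf.monic (by
      intro h7
      have h8 := hf.deg
      rw [h7] at h8
      simp at h8)
    rw [hf.deg] at h6
    exact h6
  · rw [aeval_mod hf.monic h.root, ← hg, aevalAeval_C]

/-! ### N3 -/
omit [IsAlgClosed k] in
theorem n3_flip_coeff (d : ℕ) (p : k[X][Y]) (j : ℕ) :
    (flip d p).coeff j = if j ≤ d then (p.coeff j).reflect (d - j) else 0 := by
  unfold flip
  rw [finsetSum_coeff]
  simp only [coeff_C_mul, coeff_X_pow, mul_ite, mul_one, mul_zero]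
  rw [Finset.sum_ite_eq (Finset.range (d + 1)) j]
  simp only [Finset.mem_range, Nat.lt_succ_iff]

omit [IsAlgClosed k] in
theorem n3_natDegree_reflect (N : ℕ) (p : k[X]) (h : p.natDegree ≤ N) :
    (p.reflect N).natDegree ≤ N := by
  rw [natDegree_le_iff_coeff_eq_zero]
  intro i hi
  rw [coeff_reflect, revAt_eq_self_of_lt hi]
  exact coeff_eq_zero_of_natDegree_lt (lt_of_le_of_lt h hi)

/-- Functions regular at all affine points, with pole of order `≤ d` along the line at infinity, are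
polynomials of total degree `≤ d`. N1: `φ = aeval p`, `p = ∑_{j<4} p_j(x) Y^j`. N2 in the chart at
infinity (`ff_flip`): `φ x^{-d} q(1/x) = ∑ g_j(1/x) (y/x)^j`. Multiply by a high power of `x` and
compare coefficients of `y^j` (`eq_zero_of_aeval`): `p_j(x) x^{j-d} q(1/x) = g_j(1/x)`, so
`natDegree p_j ≤ d - j` (`q(0) ≠ 0`). -/
theorem poly_of_regular_td (hf : Qt f) (h : FF f x y) {φ : K} (d : ℕ)
    (hr : ∀ a b, f.evalEval a b = 0 → Rg x y a b φ)
    (hi : ∀ b, (flip 4 f).evalEval 0 b = 0 → Rg x⁻¹ (y * x⁻¹) 0 b (φ * x⁻¹ ^ d)) :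
    ∃ p : k[X][Y], p.natDegree < 4 ∧ TD d p ∧ φ = aevalAeval x y p := by
  obtain ⟨p, hp4, hp⟩ := poly_of_regular hf h hr
  obtain ⟨q, g, hq0, hg4, hg⟩ := semilocal (qt_flip hf) (ff_flip hf h) hi
  have hx : x ≠ 0 := ff_ne_zero hf h
  obtain ⟨e, he⟩ := exists_td g
  have hqne : q ≠ 0 := by
    rintro rfl
    simp at hq0
  set N : ℕ := max (max e q.natDegree) 4 with hN
  have hNe : e ≤ N := le_trans (le_max_left _ _) (le_max_left _ _)
  have hNq : q.natDegree ≤ N := le_trans (le_max_right _ _) (le_max_left _ _)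
  have hN4 : 4 ≤ N := le_max_right _ _
  have htg : TD (d + N) g := td_mono (by omega) he
  have htq : TD N (C q : k[X][Y]) := by
    intro j hj
    rcases Nat.eq_zero_or_pos j with rfl | hj0
    · simpa using hNq
    · exact absurd (by rw [coeff_C, if_neg (by omega)]) hj
  have hg1 : aevalAeval x⁻¹ (y * x⁻¹) g * x ^ (d + N) = aevalAeval x y (flip (d + N) g) := by
    have := flip_eval (td_flip htg) x y hx
    rwa [flip_flip htg] at this
  have hq1 : aevalAeval x⁻¹ (y * x⁻¹) (C q : k[X][Y]) * x ^ N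
      = aevalAeval x y (flip N (C q : k[X][Y])) := by
    have := flip_eval (td_flip htq) x y hx
    rwa [flip_flip htq] at this
  have hfq : flip N (C q : k[X][Y]) = C (q.reflect N) := by
    ext1 j
    rcases Nat.eq_zero_or_pos j with rfl | hj0
    · simp [n3_flip_coeff]
    · have hj1 : j ≠ 0 := by omega
      simp [n3_flip_coeff, coeff_C, hj1]
  rw [aevalAeval_C, hfq, aevalAeval_C] at hq1
  set r : k[X] := q.reflect N with hr'
  have key : aevalAeval x y (p * C r - flip (d + N) g) = 0 := by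
    rw [map_sub, map_mul, aevalAeval_C, ← hg1, ← hq1, ← hp, ← hg]
    have : x⁻¹ ^ d * x ^ d = 1 := by
      rw [← mul_pow, inv_mul_cancel₀ hx, one_pow]
    calc φ * (aeval x⁻¹ q * x ^ N) - φ * x⁻¹ ^ d * aeval x⁻¹ q * x ^ (d + N)
        = φ * (aeval x⁻¹ q * x ^ N) * (1 - x⁻¹ ^ d * x ^ d) := by rw [pow_add]; ring
      _ = 0 := by rw [this, sub_self, mul_zero]
  have hdeg : (p * C r - flip (d + N) g).natDegree < 4 := by
    rw [Nat.lt_iff_le_pred (by norm_num), natDegree_le_iff_coeff_eq_zero]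
    intro j hj
    have hj4 : 4 ≤ j := by
      have : 4 - 1 < j := hj
      omega
    rw [coeff_sub, coeff_mul_C, n3_flip_coeff,
      coeff_eq_zero_of_natDegree_lt (lt_of_lt_of_le hp4 hj4),
      coeff_eq_zero_of_natDegree_lt (lt_of_lt_of_le hg4 hj4)]
    simp
  have hzero := eq_zero_of_aeval hf h hdeg key
  have hcoef : ∀ j, p.coeff j * r = (flip (d + N) g).coeff j := by
    intro j
    have := congrArg (fun P => P.coeff j) hzero
    simpa [coeff_sub, coeff_mul_C, sub_eq_zero] using this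
  have hrN : r.coeff N ≠ 0 := by
    rw [hr', coeff_reflect, revAt_le le_rfl, Nat.sub_self, coeff_zero_eq_eval_zero]
    exact hq0
  have hrne : r ≠ 0 := by
    intro h0
    rw [h0] at hrN
    simp at hrN
  have hrdeg : N ≤ r.natDegree := le_natDegree_of_ne_zero hrN
  refine ⟨p, hp4, ?_, hp⟩
  intro j hj
  have hj4 : j < 4 := by
    by_contra hcon
    exact hj (coeff_eq_zero_of_natDegree_lt (by omega))
  have h1 : (p.coeff j * r).natDegree = (p.coeff j).natDegree + r.natDegree :=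
    natDegree_mul hj hrne
  have h2 : ((flip (d + N) g).coeff j).natDegree ≤ d + N - j := by
    rw [n3_flip_coeff, if_pos (by omega)]
    apply n3_natDegree_reflect
    by_cases hgj : g.coeff j = 0
    · rw [hgj]; simp
    · have := htg j hgj
      omega
  rw [← hcoef j, h1] at h2
  omega

/-- the case `d = 0` -/
theorem const_of_regular (hf : Qt f) (h : FF f x y) {φ : K}
    (hr : ∀ a b, f.evalEval a b = 0 → Rg x y a b φ)
    (hi : ∀ b, (flip 4 f).evalEval 0 b = 0 → Rg x⁻¹ (y * x⁻¹) 0 b φ) :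
    ∃ c : k, φ = algebraMap k K c := by
  obtain ⟨p, -, hp, hφ⟩ := poly_of_regular_td hf h 0 hr (by simpa using hi)
  refine ⟨(p.coeff 0).coeff 0, ?_⟩
  have h0 : p = C (C ((p.coeff 0).coeff 0)) := by
    ext1 j
    rcases Nat.eq_zero_or_pos j with rfl | hj0
    · rw [coeff_C_zero]
      apply eq_C_of_natDegree_le_zero
      by_cases h0 : p.coeff 0 = 0
      · rw [h0]; simp
      · have := hp 0 h0
        omega
    · rw [coeff_C, if_neg (by omega)]
      by_contra hne
      have := hp j hne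
      omega
  rw [hφ]
  conv_lhs => rw [h0]
  rw [aevalAeval_C, aeval_C]

/-! ### N4 -/
/-! closure properties of `Rg` -/
theorem rg_add {a b : k} {φ ψ : K} (h1 : Rg x y a b φ) (h2 : Rg x y a b ψ) : Rg x y a b (φ + ψ) := by
  obtain ⟨g, h, hh, e⟩ := h1
  obtain ⟨g', h', hh', e'⟩ := h2
  refine ⟨g * h' + g' * h, h * h', ?_, ?_⟩
  · rw [evalEval_mul]
    exact mul_ne_zero hh hh'
  · rw [map_mul, map_add, map_mul, map_mul, ← e, ← e']
    ring
theorem rg_sub {a b : k} {φ ψ : K} (h1 : Rg x y a b φ) (h2 : Rg x y a b ψ) : Rg x y a b (φ - ψ) := by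
  obtain ⟨g, h, hh, e⟩ := h1
  obtain ⟨g', h', hh', e'⟩ := h2
  refine ⟨g * h' - g' * h, h * h', ?_, ?_⟩
  · rw [evalEval_mul]
    exact mul_ne_zero hh hh'
  · rw [map_mul, map_sub, map_mul, map_mul, ← e, ← e']
    ring
theorem rg_mul {a b : k} {φ ψ : K} (h1 : Rg x y a b φ) (h2 : Rg x y a b ψ) : Rg x y a b (φ * ψ) := by
  obtain ⟨g, h, hh, e⟩ := h1
  obtain ⟨g', h', hh', e'⟩ := h2
  refine ⟨g * g', h * h', ?_, ?_⟩
  · rw [evalEval_mul]
    exact mul_ne_zero hh hh'
  · rw [map_mul, map_mul, ← e, ← e']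
    ring
theorem rg_poly (a b : k) (p : k[X][Y]) : Rg x y a b (aevalAeval x y p) := by
  refine ⟨p, 1, ?_, ?_⟩
  · rw [evalEval_one]
    exact one_ne_zero
  · rw [map_one, mul_one]
theorem rg_const (a b : k) (c : k) : Rg x y a b (algebraMap k K c) := by
  have h1 := rg_poly (x := x) (y := y) a b (C (C c))
  rwa [aevalAeval_C, aeval_C] at h1
theorem rg_inv_poly {a b : k} {p : k[X][Y]} (hp : p.evalEval a b ≠ 0) :
    Rg x y a b (aevalAeval x y p)⁻¹ := by
  by_cases h0 : aevalAeval x y p = 0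
  · refine ⟨0, p, hp, ?_⟩
    rw [h0, mul_zero, map_zero]
  · refine ⟨1, p, hp, ?_⟩
    rw [inv_mul_cancel₀ h0, map_one]
/-- at a point outside the curve everything is regular: denominator `f` -/
theorem rg_of_ne (h : FF f x y) {a b : k} (hab : f.evalEval a b ≠ 0) (φ : K) : Rg x y a b φ := by
  refine ⟨0, f, hab, ?_⟩
  rw [h.root, mul_zero, map_zero]

theorem n4_flip (h0 : x ≠ 0) {a b : k} (ha : a ≠ 0) (φ : K) (hφ : Rg x y a b φ) :
    Rg x⁻¹ (y * x⁻¹) a⁻¹ (b * a⁻¹) φ := by
  obtain ⟨g, h, hh, e⟩ := hφ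
  obtain ⟨d1, hd1⟩ := exists_td g
  obtain ⟨d2, hd2⟩ := exists_td h
  have t1 : TD (max d1 d2) g := td_mono (le_max_left _ _) hd1
  have t2 : TD (max d1 d2) h := td_mono (le_max_right _ _) hd2
  refine ⟨flip (max d1 d2) g, flip (max d1 d2) h, ?_, ?_⟩
  · intro h3
    apply hh
    have h4 := flip_eval t2 a b ha
    rw [evalEval_eq, evalEval_eq, h3, zero_mul] at h4
    exact h4.symm
  · have e1 := flip_eval t1 x y h0
    have e2 := flip_eval t2 x y h0
    have e3 : x ^ max d1 d2 ≠ 0 := pow_ne_zero _ h0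
    apply mul_right_cancel₀ e3
    rw [mul_assoc, e2, e1, e]

/-- the same point in the two charts -/
theorem rg_flip (h0 : x ≠ 0) {a b : k} (ha : a ≠ 0) (φ : K) :
    Rg x⁻¹ (y * x⁻¹) a⁻¹ (b * a⁻¹) φ ↔ Rg x y a b φ := by
  constructor
  · intro h1
    have h2 := n4_flip (inv_ne_zero h0) (inv_ne_zero ha) φ h1
    rwa [inv_inv, inv_inv, mul_assoc, inv_mul_cancel₀ h0, mul_one, mul_assoc,
      inv_mul_cancel₀ ha, mul_one] at h2
  · exact n4_flip h0 ha φ

end N

end Pool.Agent.LibQuart
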