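import Pool.Agent.LibQuart.ExB

/-!
Smooth plane quartics are irreducible; common zeros.
-/

open scoped Classical
open Polynomial
open scoped Polynomial.Bivariate

namespace Pool.Agent.LibQuart

section irr
variable {k : Type} [Field k]

/-- a polynomial vanishing at all nonzero arguments is zero -/
theorem ex_zero_of_eval [Infinite k] (p : k[X]) (h : ∀ x, x ≠ 0 → p.eval x = 0) : p = 0 := by
  apply eq_zero_of_infinite_isRoot
  apply Set.Infinite.mono (s := {x : k | x ≠ 0})
  · intro x hx
    exact h x hx
  · have : ({0} : Set k)ᶜ.Infinite := (Set.finite_singleton (0 : k)).infinite_compl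
    exact this

theorem ex_ext_eval [Infinite k] (P Q : k[X][Y])
    (h : ∀ x y, x ≠ 0 → P.evalEval x y = Q.evalEval x y) : P = Q := by
  rw [← sub_eq_zero]
  set D := P - Q with hD
  have h1 : ∀ x y, x ≠ 0 → D.evalEval x y = 0 := by
    intro x y hx
    rw [hD, evalEval_sub, h x y hx, sub_self]
  ext1 l
  rw [coeff_zero]
  apply ex_zero_of_eval
  intro x hx
  have h2 : D.map (evalRingHom x) = 0 := by
    apply Polynomial.funext
    intro y
    rw [map_evalRingHom_eval, h1 x y hx, eval_zero]
  have h3 := congrArg (fun u => u.coeff l) h2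
  simpa [coeff_map] using h3

theorem ex_reflect_eval (p : k[X]) (N : ℕ) (hN : p.natDegree ≤ N) (x : k) (hx : x ≠ 0) :
    (p.reflect N).eval x = x ^ N * p.eval x⁻¹ := by
  have hinv : Invertible (x⁻¹) := invertibleOfNonzero (inv_ne_zero hx)
  have h1 := eval₂_reflect_mul_pow (RingHom.id k) (x⁻¹) N p hN
  have h2 : ⅟(x⁻¹) = x := by
    rw [invOf_eq_inv, inv_inv]
  rw [h2] at h1
  have h3 : eval₂ (RingHom.id k) x (reflect N p) = (p.reflect N).eval x := rfl
  have h4 : eval₂ (RingHom.id k) (x⁻¹) p = p.eval x⁻¹ := rfl
  rw [h3, h4] at h1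
  rw [← h1]
  rw [inv_pow]
  field_simp

/-- the polynomial in the chart at infinity -/
theorem ex_flip_eval (d : ℕ) (p : k[X][Y]) (hp : TD d p) (x y : k) (hx : x ≠ 0) :
    (flip d p).evalEval x y = x ^ d * p.evalEval x⁻¹ (y * x⁻¹) := by
  have hd : p.natDegree ≤ d := by
    by_cases h0 : p = 0
    · rw [h0]
      simp
    · have := hp p.natDegree (by
        rw [coeff_natDegree]
        exact leadingCoeff_ne_zero.2 h0)
      omega
  have h1 : p.evalEval x⁻¹ (y * x⁻¹) =
      ∑ j ∈ Finset.range (d + 1), (p.coeff j).eval x⁻¹ * (y * x⁻¹) ^ j := by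
    rw [← map_evalRingHom_eval, eval_eq_sum_range' (n := d + 1)]
    · apply Finset.sum_congr rfl
      intro j _
      rw [coeff_map, coe_evalRingHom]
    · exact lt_of_le_of_lt (natDegree_map_le) (by omega)
  rw [h1]
  unfold flip
  rw [evalEval_finsetSum, Finset.mul_sum]
  apply Finset.sum_congr rfl
  intro j hj
  rw [Finset.mem_range] at hj
  rw [evalEval_mul, evalEval_C, evalEval_pow, evalEval_X]
  have hjd : (p.coeff j).natDegree ≤ d - j := by
    by_cases h0 : p.coeff j = 0
    · rw [h0]
      simp
    · have := hp j h0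
      omega
  rw [ex_reflect_eval _ _ hjd x hx]
  have e1 : x ^ d = x ^ (d - j) * x ^ j := by
    rw [← pow_add]
    congr 1
    omega
  rw [e1, mul_pow, inv_pow]
  field_simp

theorem ex_flip_mul [Infinite k] {g h : k[X][Y]} (hg : TD g.natDegree g) (hh : TD h.natDegree h)
    (hgh : TD (g.natDegree + h.natDegree) (g * h)) :
    flip (g.natDegree + h.natDegree) (g * h) = flip g.natDegree g * flip h.natDegree h := by
  apply ex_ext_eval
  intro x y hx
  rw [evalEval_mul, ex_flip_eval _ _ hgh x y hx, ex_flip_eval _ _ hg x y hx,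
    ex_flip_eval _ _ hh x y hx, evalEval_mul, pow_add]
  ring

theorem ex_flip_monic {g : k[X][Y]} (hg : g.Monic) :
    (flip g.natDegree g).Monic ∧ (flip g.natDegree g).natDegree = g.natDegree := by
  set d := g.natDegree with hd
  have h1 : flip d g = (∑ j ∈ Finset.range d, C ((g.coeff j).reflect (d - j)) * X ^ j) + X ^ d := by
    unfold flip
    rw [Finset.sum_range_succ]
    congr 1
    have h2 : g.coeff d = 1 := hg
    rw [h2, Nat.sub_self]
    have h3 : (1 : k[X]).reflect 0 = 1 := ex_ref4
    rw [h3, map_one, one_mul]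
  have hdeg : (∑ j ∈ Finset.range d, C ((g.coeff j).reflect (d - j)) * X ^ j : k[X][Y]).degree
      < (d : WithBot ℕ) := by
    apply lt_of_le_of_lt (degree_sum_le _ _)
    rw [Finset.sup_lt_iff (by exact WithBot.bot_lt_coe d)]
    intro j hj
    rw [Finset.mem_range] at hj
    exact lt_of_le_of_lt (degree_C_mul_X_pow_le _ _) (by exact_mod_cast hj)
  rw [h1, add_comm]
  constructor
  · exact monic_X_pow_add hdeg
  · have h4 : (X ^ d + ∑ j ∈ Finset.range d, C ((g.coeff j).reflect (d - j)) * X ^ j :
        k[X][Y]).degree = (d : WithBot ℕ) := by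
      rw [degree_add_eq_left_of_degree_lt]
      · exact degree_X_pow d
      · rw [degree_X_pow]
        exact hdeg
    exact natDegree_eq_of_degree_eq_some h4

theorem ex_flip_coeff (d : ℕ) (p : k[X][Y]) (j : ℕ) :
    (flip d p).coeff j = if j < d + 1 then (p.coeff j).reflect (d - j) else 0 := by
  unfold flip
  rw [finsetSum_coeff]
  simp only [coeff_C_mul, coeff_X_pow, mul_ite, mul_one, mul_zero]
  rw [Finset.sum_ite_eq]
  simp only [Finset.mem_range]

/-- away from infinity the flipped polynomial is obtained by scaling the roots -/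
theorem ex_flip_scale {g : k[X][Y]} (hgm : g.Monic) (hg : TD g.natDegree g) (x : k)
    (hx : x ≠ 0) :
    (flip g.natDegree g).map (evalRingHom x) = (g.map (evalRingHom x⁻¹)).scaleRoots x := by
  ext j
  rw [coeff_map, coeff_scaleRoots, coeff_map, ex_flip_coeff, hgm.natDegree_map]
  by_cases hj : j < g.natDegree + 1
  · rw [if_pos hj, coe_evalRingHom, coe_evalRingHom]
    have hjd : (g.coeff j).natDegree ≤ g.natDegree - j := by
      by_cases h0 : g.coeff j = 0
      · rw [h0]
        simp
      · have := hg j h0
        omega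
    rw [ex_reflect_eval _ _ hjd x hx]
    ring
  · rw [if_neg hj, map_zero]
    have h0 : g.coeff j = 0 := coeff_eq_zero_of_natDegree_lt (by omega)
    rw [h0, map_zero, zero_mul]

/-- a factorisation of a quartic into monic factors of positive degree gives a singular point -/
theorem ex_common [IsAlgClosed k] {g h : k[X][Y]} (hg : g.Monic) (hh : h.Monic)
    (tg : TD g.natDegree g) (th : TD h.natDegree h) (h0 : 0 < g.natDegree) (h1 : 0 < h.natDegree) :
    (∃ a b, g.evalEval a b = 0 ∧ h.evalEval a b = 0) ∨
    ∃ b, (flip g.natDegree g).evalEval 0 b = 0 ∧ (flip h.natDegree h).evalEval 0 b = 0 := by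
  -- common zero over a point
  have hcr : ∀ (u v : k[X][Y]) (hu : u.Monic) (hv : v.Monic) (hu0 : 0 < u.natDegree)
      (x : k), (resultant u v).eval x = 0 →
      ∃ b, u.evalEval x b = 0 ∧ v.evalEval x b = 0 := by
    intro u v hu hv hu0 x hx
    have e1 : resultant (u.map (evalRingHom x)) (v.map (evalRingHom x)) u.natDegree v.natDegree
        = 0 := by
      rw [resultant_map_map]
      exact hx
    have e2 : (u.map (evalRingHom x)).natDegree = u.natDegree := hu.natDegree_map _
    have e3 : (v.map (evalRingHom x)).natDegree = v.natDegree := hv.natDegree_map _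
    rw [← e2, ← e3] at e1
    have e4 := (resultant_eq_zero_iff.1 e1).2
    rw [Polynomial.isCoprime_iff_aeval_ne_zero_of_isAlgClosed k k] at e4
    push Not at e4
    obtain ⟨b, hb1, hb2⟩ := e4
    refine ⟨b, ?_, ?_⟩
    · rw [← map_evalRingHom_eval]
      simpa using hb1
    · rw [← map_evalRingHom_eval]
      simpa using hb2
  set r := resultant g h with hr
  by_cases hroot : ∃ x, r.eval x = 0
  · left
    obtain ⟨x, hx⟩ := hroot
    obtain ⟨b, hb⟩ := hcr g h hg hh h0 x hx
    exact ⟨x, b, hb⟩
  · right
    push Not at hroot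
    have hdeg : r.degree = 0 := by
      by_contra hne
      obtain ⟨x, hx⟩ := IsAlgClosed.exists_root r hne
      exact hroot x hx
    obtain ⟨c, hc⟩ : ∃ c, r = C c := ⟨_, eq_C_of_degree_eq_zero hdeg⟩
    obtain ⟨mg, dg⟩ := ex_flip_monic hg
    obtain ⟨mh, dh⟩ := ex_flip_monic hh
    have hR : resultant (flip g.natDegree g) (flip h.natDegree h) =
        C c * X ^ (g.natDegree * h.natDegree) := by
      rw [← sub_eq_zero]
      apply ex_zero_of_eval
      intro x hx
      rw [eval_sub, sub_eq_zero]
      have e1 : (resultant (flip g.natDegree g) (flip h.natDegree h)).eval x =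
          resultant ((flip g.natDegree g).map (evalRingHom x))
            ((flip h.natDegree h).map (evalRingHom x)) (flip g.natDegree g).natDegree
            (flip h.natDegree h).natDegree := by
        rw [resultant_map_map]
        rfl
      have e2 : ((g.map (evalRingHom x⁻¹)).scaleRoots x).natDegree = g.natDegree := by
        rw [natDegree_scaleRoots]
        exact hg.natDegree_map _
      have e3 : ((h.map (evalRingHom x⁻¹)).scaleRoots x).natDegree = h.natDegree := by
        rw [natDegree_scaleRoots]
        exact hh.natDegree_map _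
      rw [e1, dg, dh, ex_flip_scale hg tg x hx, ex_flip_scale hh th x hx]
      have e4 := resultant_scaleRoots (g.map (evalRingHom x⁻¹)) (h.map (evalRingHom x⁻¹)) x
      rw [e2, e3] at e4
      rw [e4]
      have e5 : (g.map (evalRingHom x⁻¹)).natDegree = g.natDegree := hg.natDegree_map _
      have e6 : (h.map (evalRingHom x⁻¹)).natDegree = h.natDegree := hh.natDegree_map _
      rw [e5, e6, resultant_map_map]
      have e7 : resultant g h g.natDegree h.natDegree = C c := hc
      rw [e7]
      simp
      ring
    obtain ⟨b, hb1, hb2⟩ := hcr _ _ mg mh (by rw [dg]; exact h0) 0 (by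
      rw [hR]
      simp [h0.ne', h1.ne'])
    exact ⟨b, hb1, hb2⟩

theorem ex_dX_mul (g h : k[X][Y]) (a b : k) :
    dX (g * h) a b = dX g a b * h.evalEval a b + g.evalEval a b * dX h a b := by
  unfold dX
  rw [eval_mul, derivative_mul, eval_add, eval_mul, eval_mul]

theorem ex_dY_mul (g h : k[X][Y]) (a b : k) :
    dY (g * h) a b = dY g a b * h.evalEval a b + g.evalEval a b * dY h a b := by
  unfold dY
  rw [derivative_mul, evalEval_add, evalEval_mul, evalEval_mul]

theorem ex_not_sm {g h : k[X][Y]} (hs : Sm (g * h)) (a b : k) (h1 : g.evalEval a b = 0)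
    (h2 : h.evalEval a b = 0) : False := by
  rcases hs a b (by rw [evalEval_mul, h1, zero_mul]) with h3 | h3
  · apply h3
    rw [ex_dX_mul, h1, h2]
    ring
  · apply h3
    rw [ex_dY_mul, h1, h2]
    ring

/-- a smooth plane quartic is irreducible -/
theorem ex_irr [IsAlgClosed k] {f : k[X][Y]} (hf : Qt f) (h1 : Sm f) (h2 : Sm (flip 4 f)) :
    Irreducible f := by
  have hinf : Infinite k := IsAlgClosed.instInfinite
  rw [hf.monic.irreducible_iff_natDegree']
  refine ⟨?_, ?_⟩
  · intro h
    have := hf.deg
    rw [h, natDegree_one] at this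
    omega
  · intro g h hg hh hgh hmem
    rw [Finset.mem_Ioc, hf.deg] at hmem
    have hdeg : g.natDegree + h.natDegree = 4 := by
      rw [← hg.natDegree_mul hh, hgh, hf.deg]
    have htd : TD (g.natDegree + h.natDegree) (g * h) := by
      rw [hdeg, hgh]
      exact hf.td
    obtain ⟨tg, th⟩ := exTD_factor hg hh htd
    rcases ex_common hg hh tg th (by omega) (by omega) with ⟨a, b, e1, e2⟩ | ⟨b, e1, e2⟩
    · rw [← hgh] at h1
      exact ex_not_sm h1 a b e1 e2
    · rw [← hgh, ← hdeg, ex_flip_mul tg th htd] at h2
      exact ex_not_sm h2 0 b e1 e2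

end irr

section zeros
variable {k : Type} [Field k]

/-- finitely many abscissas of common zeros -/
theorem ex_zeros {f g : k[X][Y]} (hf : f.Monic) (hirr : Irreducible f) (hfg : ¬ f ∣ g) :
    ∃ r : k[X], r ≠ 0 ∧ ∀ a b, f.evalEval a b = 0 → g.evalEval a b = 0 → r.eval a = 0 := by
  have hf0 : f.natDegree ≠ 0 := by
    intro h
    have := eq_one_of_monic_natDegree_zero hf h
    rw [this] at hirr
    exact not_irreducible_one hirr
  obtain ⟨p, q, -, -, e⟩ := exists_mul_add_mul_eq_C_resultant (m := f.natDegree)
    (n := g.natDegree) f g le_rfl le_rfl (Or.inl hf0)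
  refine ⟨f.resultant g f.natDegree g.natDegree, ?_, ?_⟩
  · intro h0
    have h1 : resultant (f.map (algebraMap k[X] (FractionRing k[X])))
        (g.map (algebraMap k[X] (FractionRing k[X]))) f.natDegree g.natDegree = 0 := by
      rw [resultant_map_map, h0, map_zero]
    have hinj : Function.Injective (algebraMap k[X] (FractionRing k[X])) :=
      IsFractionRing.injective _ _
    have e2 : (f.map (algebraMap k[X] (FractionRing k[X]))).natDegree = f.natDegree :=
      natDegree_map_eq_of_injective hinj f
    have e3 : (g.map (algebraMap k[X] (FractionRing k[X]))).natDegree = g.natDegree :=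
      natDegree_map_eq_of_injective hinj g
    rw [← e2, ← e3] at h1
    have h2 := (resultant_eq_zero_iff.1 h1).2
    have hirr' := (Monic.irreducible_iff_irreducible_map_fraction_map
      (K := FractionRing k[X]) hf).1 hirr
    have h3 : f.map (algebraMap k[X] (FractionRing k[X])) ∣
        g.map (algebraMap k[X] (FractionRing k[X])) := by
      by_contra hnd
      exact h2 ((hirr'.coprime_iff_not_dvd).2 hnd)
    exact hfg ((Polynomial.map_dvd_map _ hinj hf).1 h3)
  · intro a b h1 h2
    have h3 := congrArg (fun u => u.evalEval a b) e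
    simp only [evalEval_add, evalEval_mul, h1, h2, zero_mul, add_zero] at h3
    rw [evalEval_C] at h3
    exact h3.symm

end zeros

end Pool.Agent.LibQuart
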