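import Pool.Agent.LibBH2.Place

/-!
Smooth plane quartics `C : F(X, Y, Z) = 0` over a field `k`, not containing the point `(0 : 1 : 0)`:
points, divisors of functions on `C`, zero-cycles on `C × C` and rational equivalence.
-/

open scoped Classical

namespace Pool.Agent.LibQuart

open Pool.Agent.LibBH2

/-- `F = 0` is a smooth plane quartic which does not contain the point `(0 : 1 : 0)`; `F` is scaled
so that `F(0, 1, 0) = 1`. -/
structure Quartic {k : Type} [Field k] (F : MvPolynomial (Fin 3) k) : Prop where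
  hom : F.IsHomogeneous 4
  val : MvPolynomial.eval ![0, 1, 0] F = 1
  smooth : ∀ P : Fin 3 → k, P ≠ 0 → MvPolynomial.eval P F = 0 →
    ∃ i, MvPolynomial.eval P (MvPolynomial.pderiv i F) ≠ 0

/-- The points of the curve `F = 0`: the affine points `(x : y : 1)` and the points `(1 : y : 0)`
at infinity. -/
inductive Pt {k : Type} [Field k] (F : MvPolynomial (Fin 3) k) : Type
  | aff (x y : k) (h : MvPolynomial.eval ![x, y, 1] F = 0) : Pt F
  | inf (y : k) (h : MvPolynomial.eval ![1, y, 0] F = 0) : Pt F

variable {k : Type} [Field k]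

/-- `Sp v T p`: the `K`-point `T` of the curve `F = 0` (defined over `k`) specialises at the place
`v` of `K` over `k` to the `k`-point `p`. -/
def Sp {K : Type} [Field K] [Algebra k K] {F : MvPolynomial (Fin 3) k} (v : Place k K) :
    Pt (MvPolynomial.map (algebraMap k K) F) → Pt F → Prop
  | .aff x y _, .aff x₀ y₀ _ =>
      v.Zer (x - algebraMap k K x₀) ∧ v.Zer (y - algebraMap k K y₀)
  | .aff x y _, .inf y₀ _ => v.ord x < 0 ∧ v.Zer (y / x - algebraMap k K y₀)
  | .inf _ _, .aff _ _ _ => False
  | .inf y _, .inf y₀ _ => v.Zer (y - algebraMap k K y₀)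

/-- The degree of a divisor. -/
noncomputable def deg {F : MvPolynomial (Fin 3) k} (D : Pt F →₀ ℤ) : ℤ := D.sum fun _ n => n

/-- `D` is the divisor of a rational function `φ` on the curve `F = 0`: `K` is the function field
of the curve, generated over `k` by the affine coordinates `x`, `y` of the generic point, and `D` is
the sum over the places `v` of `K` of `ord_v φ` times the point at which `v` is centred. -/
def IsDivisor (F : MvPolynomial (Fin 3) k) (D : Pt F →₀ ℤ) : Prop :=
  ∃ (K : Type) (_ : Field K) (_ : Algebra k K) (x y : K)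
    (hxy : MvPolynomial.eval ![x, y, 1] (MvPolynomial.map (algebraMap k K) F) = 0) (φ : K)
    (S : Finset (Place k K)) (p : Place k K → Pt F),
    Transcendental k x ∧ IntermediateField.adjoin k {x, y} = ⊤ ∧ φ ≠ 0 ∧
    (∀ v, v.ord φ ≠ 0 → v ∈ S) ∧ (∀ v ∈ S, Sp v (.aff x y hxy) (p v)) ∧
    D = ∑ v ∈ S, Finsupp.single (p v) (v.ord φ)

/-- The zero-cycle `c` on `C × C` is the push-forward of the divisor of a function `φ` on a curve:
`K` is a function field of one variable over `k` (finite over `k(s)`, `s` transcendental),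
`(T₁, T₂)` is a `K`-point of `C × C`, i.e. a map from the curve of `K` to `C × C`, and `c` is the
sum over the places `v` of `K` of `ord_v φ` times the value of `(T₁, T₂)` at `v`. -/
def IsPush (F : MvPolynomial (Fin 3) k) (c : Pt F × Pt F →₀ ℤ) : Prop :=
  ∃ (K : Type) (_ : Field K) (_ : Algebra k K) (s : K)
    (T₁ T₂ : Pt (MvPolynomial.map (algebraMap k K) F)) (φ : K) (S : Finset (Place k K))
    (p₁ p₂ : Place k K → Pt F),
    Transcendental k s ∧ FiniteDimensional (IntermediateField.adjoin k {s}) K ∧ φ ≠ 0 ∧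
    (∀ v, v.ord φ ≠ 0 → v ∈ S) ∧ (∀ v ∈ S, Sp v T₁ (p₁ v) ∧ Sp v T₂ (p₂ v)) ∧
    c = ∑ v ∈ S, Finsupp.single (p₁ v, p₂ v) (v.ord φ)

/-- The zero-cycle `c` on `C × C` is rationally equivalent to zero. -/
def RatEqZero (F : MvPolynomial (Fin 3) k) (c : Pt F × Pt F →₀ ℤ) : Prop :=
  c ∈ AddSubgroup.closure {c' | IsPush F c'}

/-- The product zero-cycle `D × E` of two divisors on `C`. -/
noncomputable def prodCycle {F : MvPolynomial (Fin 3) k} (D E : Pt F →₀ ℤ) : Pt F × Pt F →₀ ℤ :=
  D.sum fun P m => E.sum fun Q n => Finsupp.single (P, Q) (m * n)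

end Pool.Agent.LibQuart
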