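import Pool.Agent.LibQuart.QD
import Pool.Agent.LibQuart.QS
import Pool.Agent.LibQuart.ExC

open scoped Classical
open Polynomial
open scoped Polynomial.Bivariate

namespace Pool.Agent.LibQuart

open Pool.Agent.LibBH2

/-! ## Block P: polynomials -/

section P
variable {R : Type} [CommRing R]

/-! ### P1 -/
theorem p1_td_iff {d : ℕ} {p : R[X][Y]} :
    TD d p ↔ ∀ i j, (p.coeff j).coeff i ≠ 0 → i + j ≤ d := by
  constructor
  · intro h i j hij
    have h1 : p.coeff j ≠ 0 := fun h0 => hij (by rw [h0, coeff_zero])
    have h2 := h j h1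
    have h3 := le_natDegree_of_ne_zero hij
    omega
  · intro h j hj
    have h1 : (p.coeff j).coeff (p.coeff j).natDegree ≠ 0 := by
      rw [coeff_natDegree]
      exact leadingCoeff_ne_zero.2 hj
    have h2 := h _ j h1
    omega

theorem p1_flip_coeff (d : ℕ) (p : R[X][Y]) (j : ℕ) :
    (flip d p).coeff j = if j ≤ d then (p.coeff j).reflect (d - j) else 0 := by
  unfold flip
  rw [finsetSum_coeff]
  simp only [coeff_C_mul, coeff_X_pow, mul_ite, mul_one, mul_zero]
  rw [Finset.sum_ite_eq]
  simp only [Finset.mem_range, Nat.lt_succ_iff]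

/-- `reflect_map` coefficientwise. -/
theorem flip_map {S : Type} [CommRing S] (φ : R →+* S) (d : ℕ) (p : R[X][Y]) :
    (flip d p).map (mapRingHom φ) = flip d (p.map (mapRingHom φ)) := by
  ext1 j
  rw [coeff_map, p1_flip_coeff, p1_flip_coeff, coeff_map]
  split_ifs
  · exact (reflect_map φ (p.coeff j) (d - j)).symm
  · rw [map_zero]

theorem td_add {d : ℕ} {p q : R[X][Y]} (hp : TD d p) (hq : TD d q) : TD d (p + q) := by
  rw [p1_td_iff] at hp hq ⊢
  intro i j h
  rw [coeff_add, coeff_add] at h
  by_cases h1 : (p.coeff j).coeff i = 0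
  · rw [h1, zero_add] at h
    exact hq i j h
  · exact hp i j h1

theorem td_mono {d e : ℕ} (h : d ≤ e) {p : R[X][Y]} (hp : TD d p) : TD e p :=
  fun j hj => (hp j hj).trans h

theorem td_mul {d e : ℕ} {p q : R[X][Y]} (hp : TD d p) (hq : TD e q) : TD (d + e) (p * q) := by
  rw [p1_td_iff] at hp hq ⊢
  intro i j h
  rw [coeff_mul, finsetSum_coeff] at h
  obtain ⟨a, ha, h1⟩ := Finset.exists_ne_zero_of_sum_ne_zero h
  rw [coeff_mul] at h1
  obtain ⟨b, hb, h2⟩ := Finset.exists_ne_zero_of_sum_ne_zero h1
  rw [Finset.HasAntidiagonal.mem_antidiagonal] at ha hb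
  have h3 := hp b.1 a.1 (left_ne_zero_of_mul h2)
  have h4 := hq b.2 a.2 (right_ne_zero_of_mul h2)
  omega

theorem td_map {S : Type} [CommRing S] (φ : R →+* S) {d : ℕ} {p : R[X][Y]} (hp : TD d p) :
    TD d (p.map (mapRingHom φ)) := by
  rw [p1_td_iff] at hp ⊢
  intro i j h
  rw [coeff_map, coe_mapRingHom, coeff_map] at h
  exact hp i j (fun h0 => h (by rw [h0, map_zero]))

/-- every polynomial has some total degree -/
theorem exists_td (p : R[X][Y]) : ∃ d, TD d p := by
  refine ⟨∑ j ∈ p.support, (j + (p.coeff j).natDegree), fun j hj => ?_⟩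
  exact Finset.single_le_sum (f := fun j => j + (p.coeff j).natDegree) (fun _ _ => Nat.zero_le _)
    (mem_support_iff.2 hj)

/-! ### P2 -/
theorem p2_flip_coeff (d : ℕ) (p : R[X][Y]) (j : ℕ) :
    (flip d p).coeff j = if j ≤ d then (p.coeff j).reflect (d - j) else 0 := by
  unfold flip
  rw [finsetSum_coeff]
  simp only [coeff_C_mul, coeff_X_pow, mul_ite, mul_one, mul_zero]
  rw [Finset.sum_ite_eq]
  simp only [Finset.mem_range, Nat.lt_succ_iff]

theorem p2_td_iff {d : ℕ} {p : R[X][Y]} :
    TD d p ↔ ∀ i j, (p.coeff j).coeff i ≠ 0 → i + j ≤ d := by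
  constructor
  · intro h i j hij
    have h1 : p.coeff j ≠ 0 := fun h0 => hij (by rw [h0, coeff_zero])
    have h2 := h j h1
    have h3 := le_natDegree_of_ne_zero hij
    omega
  · intro h j hj
    have h1 : (p.coeff j).coeff (p.coeff j).natDegree ≠ 0 := by
      rw [coeff_natDegree]
      exact leadingCoeff_ne_zero.2 hj
    have h2 := h _ j h1
    omega

/-- coefficient `j` of `flip d p` is `reflect (d-j)` of coefficient `j`; `natDegree ≤ d - j`; reflect twice. -/
theorem td_flip {d : ℕ} {p : R[X][Y]} (hp : TD d p) : TD d (flip d p) := by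
  rw [p2_td_iff] at hp ⊢
  intro i j h
  rw [p2_flip_coeff] at h
  split_ifs at h with hj
  · rw [coeff_reflect] at h
    by_contra hlt
    have h1 : revAt (d - j) i = i := revAt_eq_self_of_lt (by omega)
    rw [h1] at h
    exact hlt (hp i j h)
  · rw [coeff_zero] at h
    exact absurd rfl h

theorem flip_flip {d : ℕ} {p : R[X][Y]} (hp : TD d p) : flip d (flip d p) = p := by
  rw [p2_td_iff] at hp
  ext j i
  rw [p2_flip_coeff, p2_flip_coeff]
  split_ifs with hj
  · rw [coeff_reflect, coeff_reflect, revAt_invol]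
  · rw [coeff_zero]
    by_contra h
    exact hj (le_trans (Nat.le_add_left j i) (hp i j (Ne.symm h)))

theorem qt_flip {f : R[X][Y]} (hf : Qt f) : Qt (flip 4 f) := by
  have hnt : Nontrivial R := by
    by_contra h
    rw [not_nontrivial_iff_subsingleton] at h
    have h1 := hf.deg
    have h2 : f = 0 := by
      ext j i
      exact Subsingleton.elim _ _
    rw [h2, natDegree_zero] at h1
    omega
  have h4 : (flip 4 f).coeff 4 = 1 := by
    have h5 : f.coeff 4 = 1 := by
      have := hf.monic.coeff_natDegree
      rwa [hf.deg] at this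
    rw [p2_flip_coeff, if_pos le_rfl, h5]
    have : (1 : R[X]) = C 1 * X ^ 0 := by simp
    rw [this, reflect_C_mul_X_pow]
    simp
  have hle : (flip 4 f).natDegree ≤ 4 := by
    rw [natDegree_le_iff_coeff_eq_zero]
    intro N hN
    rw [p2_flip_coeff, if_neg (by omega)]
  have hdeg : (flip 4 f).natDegree = 4 := by
    refine le_antisymm hle (le_natDegree_of_ne_zero ?_)
    rw [h4]
    exact one_ne_zero
  refine ⟨?_, hdeg, td_flip hf.td⟩
  rw [Monic, leadingCoeff, hdeg, h4]

theorem qt_map {S : Type} [CommRing S] [Nontrivial S] (φ : R →+* S) {f : R[X][Y]} (hf : Qt f) :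
    Qt (f.map (mapRingHom φ)) := by
  refine ⟨hf.monic.map _, ?_, td_map φ hf.td⟩
  rw [hf.monic.natDegree_map, hf.deg]

/-! ### P3 -/
theorem p3_neg {d : ℕ} {p : R[X][Y]} (hp : TD d p) : TD d (-p) := by
  intro j hj
  rw [coeff_neg] at hj ⊢
  rw [natDegree_neg]
  exact hp j fun h => hj (by rw [h, neg_zero])

theorem p3_mon {d n : ℕ} {c : R[X]} (h : c ≠ 0 → n + c.natDegree ≤ d) : TD d (C c * X ^ n : R[X][Y]) := by
  intro j hj
  rw [coeff_C_mul_X_pow] at hj ⊢
  split_ifs at hj ⊢ with h1
  · rw [h1]
    exact h hj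
  · exact absurd rfl hj

theorem p3_nontrivial {f : R[X][Y]} (hf : Qt f) : Nontrivial R := by
  by_contra h
  rw [not_nontrivial_iff_subsingleton] at h
  have h1 : f = 0 := Subsingleton.elim _ _
  have h2 := hf.deg
  rw [h1, natDegree_zero] at h2
  omega

theorem p3_aux {f : R[X][Y]} (hf : Qt f) {d : ℕ} : ∀ n : ℕ, ∀ p : R[X][Y], p.natDegree ≤ n → TD d p →
    TD d (p %ₘ f) := by
  intro n
  induction n with
  | zero =>
    intro p hn hp
    have := p3_nontrivial hf
    have h1 : p.degree < f.degree := by
      rw [degree_eq_natDegree hf.monic.ne_zero, hf.deg]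
      refine lt_of_le_of_lt degree_le_natDegree ?_
      rw [Nat.le_zero.1 hn]
      norm_num
    rw [(modByMonic_eq_self_iff hf.monic).2 h1]
    exact hp
  | succ n ih =>
    intro p hn hp
    have := p3_nontrivial hf
    rcases lt_or_ge p.natDegree 4 with h4 | h4
    · have h1 : p.degree < f.degree := by
        rw [degree_eq_natDegree hf.monic.ne_zero, hf.deg]
        exact lt_of_le_of_lt degree_le_natDegree (by exact_mod_cast h4)
      rw [(modByMonic_eq_self_iff hf.monic).2 h1]
      exact hp
    · have hp0 : p ≠ 0 := by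
        rintro rfl
        simp at h4
      have hl : p.leadingCoeff ≠ 0 := leadingCoeff_ne_zero.2 hp0
      have hle : p.natDegree + p.leadingCoeff.natDegree ≤ d := hp _ hl
      have hmon : TD (d - 4) (C p.leadingCoeff * X ^ (p.natDegree - 4) : R[X][Y]) := p3_mon fun _ => by omega
      have hmul : TD (d - 4 + 4) (C p.leadingCoeff * X ^ (p.natDegree - 4) * f) := td_mul hmon hf.td
      rw [show d - 4 + 4 = d by omega] at hmul
      have hsub : TD d (p + -(C p.leadingCoeff * X ^ (p.natDegree - 4) * f)) := td_add hp (p3_neg hmul)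
      have hdeg : (p + -(C p.leadingCoeff * X ^ (p.natDegree - 4) * f)).natDegree ≤ n := by
        rw [natDegree_le_iff_coeff_eq_zero]
        intro m hm
        rw [coeff_add, coeff_neg]
        have hX : (C p.leadingCoeff * X ^ (p.natDegree - 4) * f).natDegree ≤ p.natDegree := by
          refine natDegree_mul_le.trans ?_
          have := natDegree_C_mul_X_pow_le p.leadingCoeff (p.natDegree - 4)
          rw [hf.deg]
          omega
        rcases lt_or_ge p.natDegree m with hm1 | hm1
        · rw [coeff_eq_zero_of_natDegree_lt hm1, coeff_eq_zero_of_natDegree_lt (lt_of_le_of_lt hX hm1)]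
          simp
        · have hm2 : m = p.natDegree := by omega
          have hc : (C p.leadingCoeff * X ^ (p.natDegree - 4) * f).coeff m = p.leadingCoeff := by
            have e1 : m = 4 + (p.natDegree - 4) := by omega
            have e2 : C p.leadingCoeff * X ^ (p.natDegree - 4) * f =
                C p.leadingCoeff * (f * X ^ (p.natDegree - 4)) := by ring
            rw [e2, coeff_C_mul, e1, coeff_mul_X_pow]
            have e3 : f.coeff 4 = 1 := by
              have := hf.monic.coeff_natDegree
              rwa [hf.deg] at this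
            rw [e3, mul_one]
          rw [hc, hm2]
          simp
      have hmod : p %ₘ f = (p + -(C p.leadingCoeff * X ^ (p.natDegree - 4) * f)) %ₘ f := by
        rw [← sub_eq_add_neg, sub_modByMonic, (modByMonic_eq_zero_iff_dvd hf.monic).2 (dvd_mul_left _ _), sub_zero]
      rw [hmod]
      exact ih _ hdeg hsub

/-- one step of the division algorithm: `p - C(lead) * X^(n-4) * f` keeps `TD d`
(`n + natDegree lead ≤ d`); induction on `p.natDegree` (or `modByMonic` recursion). -/
theorem td_mod {f : R[X][Y]} (hf : Qt f) {d : ℕ} {p : R[X][Y]} (hp : TD d p) : TD d (p %ₘ f) :=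
  p3_aux hf p.natDegree p le_rfl hp

/-! ### P4 -/
section
variable {k : Type} [Field k] {K : Type} [Field K] [Algebra k K]

theorem p4_aeval_sum (x y : K) (p : k[X][Y]) (n : ℕ) (hn : p.natDegree < n) :
    aevalAeval x y p = ∑ j ∈ Finset.range n, aeval x (p.coeff j) * y ^ j := by
  conv_lhs => rw [p.as_sum_range' n hn]
  rw [map_sum]
  refine Finset.sum_congr rfl fun j _ => ?_
  rw [← C_mul_X_pow_eq_monomial, map_mul, map_pow, aevalAeval_C, aevalAeval_Y]

/-- expand both sides as a sum over `j`; `Polynomial.eval₂_reflect_mul_pow` for the coefficients. -/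
theorem flip_eval {d : ℕ} {p : k[X][Y]} (hp : TD d p) (x y : K) (hx : x ≠ 0) :
    aevalAeval x⁻¹ (y * x⁻¹) (flip d p) * x ^ d = aevalAeval x y p := by
  have hle : p.natDegree < d + 1 := by
    rw [Nat.lt_succ_iff, natDegree_le_iff_coeff_eq_zero]
    intro N hN
    by_contra h
    have := hp N h
    omega
  rw [p4_aeval_sum x y p (d + 1) hle]
  unfold flip
  rw [map_sum, Finset.sum_mul]
  refine Finset.sum_congr rfl fun j hj => ?_
  rw [Finset.mem_range, Nat.lt_succ_iff] at hj
  rw [map_mul, map_pow, aevalAeval_C, aevalAeval_Y]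
  have hdeg : (p.coeff j).natDegree ≤ d - j := by
    by_cases h0 : p.coeff j = 0
    · rw [h0, natDegree_zero]
      exact Nat.zero_le _
    · have := hp j h0
      omega
  let _ : Invertible x := invertibleOfNonzero hx
  have h1 := eval₂_reflect_mul_pow (algebraMap k K) x (d - j) (p.coeff j) hdeg
  rw [invOf_eq_inv] at h1
  rw [← aeval_def, ← aeval_def] at h1
  rw [← h1, mul_pow, inv_pow]
  have h2 : x ^ d = x ^ (d - j) * x ^ j := by rw [← pow_add]; congr 1; omega
  rw [h2]
  field_simp

theorem aeval_mod {f p : k[X][Y]} (hf : f.Monic) {x y : K} (h : aevalAeval x y f = 0) :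
    aevalAeval x y (p %ₘ f) = aevalAeval x y p := by
  conv_rhs => rw [← modByMonic_add_div p f]
  rw [map_add, map_mul, h, zero_mul, add_zero]

theorem evalEval_eq (p : k[X][Y]) (a b : k) : aevalAeval a b p = p.evalEval a b := by
  rw [coe_aevalAeval_eq_evalEval]

/-- from `FF.inj` and degrees (`f` monic of degree 4) -/
theorem eq_zero_of_aeval {f : k[X][Y]} (hf : Qt f) {x y : K} (h : FF f x y) {p : k[X][Y]}
    (hp : p.natDegree < 4) (h0 : aevalAeval x y p = 0) : p = 0 := by
  refine eq_zero_of_dvd_of_natDegree_lt (h.inj p h0) ?_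
  rw [hf.deg]
  exact hp
end

/-! ### P5 -/
theorem p5_eval {k : Type} [Field k] (x : Fin 2 → k) (p : k[X][Y]) :
    MvPolynomial.aeval x (Polynomial.Bivariate.equivMvPolynomial k p) =
      p.evalEval (x 0) (x 1) := by
  have key : ((MvPolynomial.aeval x : MvPolynomial (Fin 2) k →ₐ[k] k).toRingHom.comp
      (Polynomial.Bivariate.equivMvPolynomial k : k[X][Y] →+* MvPolynomial (Fin 2) k)) =
      Polynomial.evalEvalRingHom (x 0) (x 1) := by
    refine Polynomial.ringHom_ext' (Polynomial.ringHom_ext' ?_ ?_) ?_
    · refine RingHom.ext fun a => ?_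
      simp
    · simp
    · simp
  have := congrArg (fun φ : k[X][Y] →+* k => φ p) key
  simpa using this

/-- Nullstellensatz. Otherwise `I ≤ M` maximal; `k[X][Y] ⧸ M` is a finitely generated `k`-algebra
and a field, hence `= k` (`MvPolynomial` version through `Bivariate.equivMvPolynomial`, or
`MvPolynomial.isMaximal_iff_eq_vanishingIdeal_singleton`), so `M` is the kernel of an evaluation. -/
theorem nss {k : Type} [Field k] [IsAlgClosed k] (I : Ideal k[X][Y])
    (h : ∀ a b : k, ∃ p ∈ I, p.evalEval a b ≠ 0) : I = ⊤ := by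
  by_contra hI
  obtain ⟨M, hM, hIM⟩ := Ideal.exists_le_maximal I hI
  have hM' : (M.comap (Polynomial.Bivariate.equivMvPolynomial k).symm.toRingEquiv).IsMaximal :=
    Ideal.comap_isMaximal_of_equiv _
  obtain ⟨x, hx⟩ := MvPolynomial.isMaximal_iff_eq_vanishingIdeal_singleton.mp hM'
  obtain ⟨p, hp, hne⟩ := h (x 0) (x 1)
  apply hne
  rw [← p5_eval x p]
  have h1 : Polynomial.Bivariate.equivMvPolynomial k p ∈
      M.comap (Polynomial.Bivariate.equivMvPolynomial k).symm.toRingEquiv := by
    rw [Ideal.mem_comap]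
    simpa using hIM hp
  rw [hx, MvPolynomial.mem_vanishingIdeal_singleton_iff] at h1
  exact h1

/-! ### P6 -/
theorem p6_sum {k : Type} [Field k] {A : Type} [CommRing A] [Algebra k A] (x y : A) (p : k[X][Y])
    (n : ℕ) (hn : p.natDegree < n) :
    aevalAeval x y p = ∑ j ∈ Finset.range n, aeval x (p.coeff j) * y ^ j := by
  conv_lhs => rw [p.as_sum_range' n hn]
  rw [map_sum]
  refine Finset.sum_congr rfl fun j _ => ?_
  rw [← C_mul_X_pow_eq_monomial, map_mul, map_pow, aevalAeval_C, aevalAeval_Y]

theorem p6_ind {k : Type} [Field k] (P : k[X][Y] → Prop) (hadd : ∀ p q, P p → P q → P (p + q))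
    (hmon : ∀ n i (r : k), P (monomial n (monomial i r))) (p : k[X][Y]) : P p := by
  have h0 : P 0 := by
    have := hmon 0 0 0
    rwa [monomial_zero_right, monomial_zero_right] at this
  induction p using Polynomial.induction_on' with
  | add p q hp hq => exact hadd p q hp hq
  | monomial n q =>
    induction q using Polynomial.induction_on' with
    | add p q hp hq =>
      rw [map_add]
      exact hadd _ _ hp hq
    | monomial i r => exact hmon n i r

theorem fx_eval {k : Type} [Field k] (f : k[X][Y]) (a b : k) :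
    (fx f).evalEval a b = dX f a b := by
  have h1 : ∀ g : k[X][Y], (Bivariate.swap g).evalEval a b = g.evalEval b a := fun g => by
    rw [← coe_aevalAeval_eq_evalEval, ← coe_aevalAeval_eq_evalEval]
    exact Bivariate.aevalAeval_swap a b g
  unfold fx dX
  rw [h1]
  induction f using p6_ind with
  | hadd p q hp hq =>
    rw [map_add, derivative_add, evalEval_add, hp, hq, eval_add, derivative_add, eval_add]
  | hmon n i r =>
    rw [Bivariate.swap_monomial_monomial, derivative_monomial]
    simp only [evalEval, eval_monomial, eval_mul, eval_pow, eval_C, derivative_mul,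
      derivative_monomial, eval_natCast]
    rw [← C_pow, derivative_C, mul_zero, add_zero, eval_mul, eval_monomial, eval_C]
    ring

theorem ln_eval {k : Type} [Field k] (f : k[X][Y]) (a b m s : k) :
    (Ln f a b m).eval s = f.evalEval (a + s) (b + m * s) := by
  unfold Ln
  rw [p6_sum _ _ f (f.natDegree + 1) (Nat.lt_succ_self _), eval_finsetSum,
    ← coe_aevalAeval_eq_evalEval, p6_sum _ _ f (f.natDegree + 1) (Nat.lt_succ_self _)]
  refine Finset.sum_congr rfl fun j _ => ?_
  have h : aeval (C a + X) (f.coeff j) = (f.coeff j).comp (C a + X) := rfl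
  rw [h, eval_mul, eval_pow, eval_comp, coe_aeval_eq_eval]
  simp

theorem ln_coeff_zero {k : Type} [Field k] (f : k[X][Y]) (a b m : k) :
    (Ln f a b m).coeff 0 = f.evalEval a b := by
  rw [coeff_zero_eq_eval_zero, ln_eval, mul_zero, add_zero, add_zero]

theorem ln_coeff_one {k : Type} [Field k] (f : k[X][Y]) (a b m : k) :
    (Ln f a b m).coeff 1 = dX f a b + m * dY f a b := by
  have h1 : (Ln f a b m).coeff 1 = (derivative (Ln f a b m)).eval 0 := by
    rw [← coeff_zero_eq_eval_zero, coeff_derivative]
    simp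
  rw [h1]
  clear h1
  unfold dX dY Ln
  induction f using p6_ind with
  | hadd p q hp hq =>
    rw [map_add, derivative_add, eval_add, hp, hq, eval_add, derivative_add, eval_add,
      derivative_add, evalEval_add]
    ring
  | hmon n i r =>
    have h2 : aevalAeval (C a + X) (C b + C m * X) (monomial n (monomial i r))
        = C r * (C a + X) ^ i * (C b + C m * X) ^ n := by
      rw [← C_mul_X_pow_eq_monomial, ← C_mul_X_pow_eq_monomial, map_mul, map_pow, aevalAeval_C,
        aevalAeval_Y, map_mul, map_pow, aeval_C, aeval_X]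
      rfl
    rw [h2]
    simp only [evalEval, eval_monomial, eval_mul, eval_pow, eval_C, derivative_mul,
      derivative_monomial, eval_natCast, derivative_pow, derivative_add, derivative_C,
      derivative_X, eval_add, eval_X, eval_one, eval_zero, map_natCast]
    ring

theorem p6_deg1 {k : Type} [Field k] (b m : k) : (C b + C m * X : k[X]).natDegree ≤ 1 := by
  refine (natDegree_add_le _ _).trans (max_le ?_ ?_)
  · rw [natDegree_C]
    exact Nat.zero_le _
  · exact (natDegree_C_mul_le m X).trans natDegree_X_le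

theorem p6_deg2 {k : Type} [Field k] {f : k[X][Y]} (hf : Qt f) (a : k) (j : ℕ) (hj : j ≤ 4) :
    (aeval (C a + X) (f.coeff j) : k[X]).natDegree ≤ 4 - j := by
  have h1 : (f.coeff j).natDegree ≤ 4 - j := by
    by_cases h0 : f.coeff j = 0
    · rw [h0, natDegree_zero]
      exact Nat.zero_le _
    · have := hf.td j h0
      omega
  have h : aeval (C a + X) (f.coeff j) = (f.coeff j).comp (C a + X) := rfl
  have h2 : (C a + X : k[X]).natDegree ≤ 1 := by
    have := p6_deg1 a (1 : k)
    rwa [C_1, one_mul] at this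
  rw [h]
  refine natDegree_comp_le.trans ?_
  calc (f.coeff j).natDegree * (C a + X : k[X]).natDegree ≤ (4 - j) * 1 := Nat.mul_le_mul h1 h2
    _ = 4 - j := mul_one _

theorem ln_natDegree {k : Type} [Field k] {f : k[X][Y]} (hf : Qt f) (a b m : k) :
    (Ln f a b m).natDegree ≤ 4 := by
  unfold Ln
  rw [p6_sum _ _ f 5 (by rw [hf.deg]; omega)]
  refine natDegree_sum_le_of_forall_le _ _ fun j hj => ?_
  rw [Finset.mem_range] at hj
  have h1 := p6_deg2 hf a j (by omega)
  have h2 : ((C b + C m * X : k[X]) ^ j).natDegree ≤ j := by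
    refine natDegree_pow_le.trans ?_
    calc j * (C b + C m * X : k[X]).natDegree ≤ j * 1 := Nat.mul_le_mul le_rfl (p6_deg1 b m)
      _ = j := mul_one _
  refine natDegree_mul_le.trans ?_
  omega

/-- the coefficient of `s^4` is the leading form at `(1, m)` -/
theorem ln_coeff_four {k : Type} [Field k] {f : k[X][Y]} (hf : Qt f) (a b m : k) :
    (Ln f a b m).coeff 4 = (flip 4 f).evalEval 0 m := by
  have hr : (flip 4 f).evalEval 0 m
      = ∑ j ∈ Finset.range 5, (f.coeff j).coeff (4 - j) * m ^ j := by
    unfold flip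
    rw [evalEval_finsetSum]
    refine Finset.sum_congr rfl fun j _ => ?_
    rw [evalEval_mul, evalEval_pow, evalEval_C, evalEval_X, ← coeff_zero_eq_eval_zero,
      coeff_reflect, revAt_le (Nat.zero_le _), Nat.sub_zero]
  rw [hr]
  unfold Ln
  rw [p6_sum _ _ f 5 (by rw [hf.deg]; omega), finsetSum_coeff]
  refine Finset.sum_congr rfl fun j hj => ?_
  rw [Finset.mem_range] at hj
  have h1 := p6_deg2 hf a j (by omega)
  have h2 : ((C b + C m * X : k[X]) ^ j).natDegree ≤ j := by
    refine natDegree_pow_le.trans ?_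
    calc j * (C b + C m * X : k[X]).natDegree ≤ j * 1 := Nat.mul_le_mul le_rfl (p6_deg1 b m)
      _ = j := mul_one _
  have h3 := coeff_mul_add_eq_of_natDegree_le h1 h2
  rw [show 4 - j + j = 4 by omega] at h3
  rw [h3]
  congr 1
  · have h : aeval (C a + X) (f.coeff j) = taylor a (f.coeff j) := by
      rw [taylor_apply, add_comm (C a) X]
      rfl
    have hd : (f.coeff j).natDegree ≤ 4 - j := by
      by_cases h0 : f.coeff j = 0
      · rw [h0, natDegree_zero]
        exact Nat.zero_le _
      · have := hf.td j h0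
        omega
    rw [h]
    rcases lt_or_eq_of_le hd with hlt | heq
    · rw [coeff_eq_zero_of_natDegree_lt hlt, coeff_eq_zero_of_natDegree_lt]
      rw [natDegree_taylor]
      exact hlt
    · rw [← heq, coeff_taylor_natDegree, coeff_natDegree]
  · have h4 := coeff_pow_of_natDegree_le (m := j) (p6_deg1 b m)
    rw [mul_one] at h4
    rw [h4]
    simp

/-! ### P7 -/
/-- `f = g h` with `g, h` monic in `y` of degrees `a, b` has `TD a g`: weight
`w(p) = max (j + natDegree coeff_j)` is additive on products over a domain (leading forms), and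
`w(g) ≥ a`, `w(h) ≥ b`, `w(f) ≤ a + b`. -/
theorem td_of_mul {k : Type} [Field k] {g h : k[X][Y]} {a b : ℕ} (hg : g.Monic) (hh : h.Monic)
    (ha : g.natDegree = a) (hb : h.natDegree = b) (ht : TD (a + b) (g * h)) : TD a g ∧ TD b h := by
  subst ha
  subst hb
  exact exTD_factor hg hh ht

theorem p7_inf {k : Type} [Field k] [Infinite k] {d e : ℕ} {p q : k[X][Y]} (hp : TD d p)
    (hq : TD e q) : flip (d + e) (p * q) = flip d p * flip e q := by
  apply ex_ext_eval
  intro x y hx
  rw [evalEval_mul, ex_flip_eval _ _ (td_mul hp hq) x y hx, ex_flip_eval _ _ hp x y hx,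
    ex_flip_eval _ _ hq x y hx, evalEval_mul, pow_add]
  ring

/-- `flip` of a product (for monic factors): from `flip_eval` at the generic point, or directly. -/
theorem flip_mul {k : Type} [Field k] {d e : ℕ} {p q : k[X][Y]} (hp : TD d p) (hq : TD e q) :
    flip (d + e) (p * q) = flip d p * flip e q := by
  have hinf : Infinite (AlgebraicClosure k) := IsAlgClosed.instInfinite
  set φ := algebraMap k (AlgebraicClosure k)
  have hφ : Function.Injective φ := (algebraMap k (AlgebraicClosure k)).injective
  apply Polynomial.map_injective (mapRingHom φ) (Polynomial.map_injective φ hφ)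
  rw [flip_map, Polynomial.map_mul, Polynomial.map_mul, flip_map, flip_map]
  exact p7_inf (td_map φ hp) (td_map φ hq)

/-! ### P10 -/
/-- A nontrivial factorisation has monic factors of degrees (1,3), (2,2), (3,1) (`f` is monic, so a
factor of degree 0 in `y` is a unit); `td_of_mul`; a common zero of the factors is a singular point
(`dX (g h) = g dX h + h dX g = 0`, same for `dY`), at infinity with `flip_mul`. -/
theorem irr_of_sm {k : Type} [Field k] [IsAlgClosed k] {f : k[X][Y]} (hf : Qt f) (h1 : Sm f)
    (h2 : Sm (flip 4 f)) : Irreducible f := ex_irr hf h1 h2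

end P

end Pool.Agent.LibQuart
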