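import Pool.Agent.LibQuart.BG

open scoped Classical
open Polynomial
open scoped Polynomial.Bivariate

namespace Pool.Agent.LibQuart

open Pool.Agent.LibBH2

/-! ## Block T: three noncollinear points -/

section T
variable {κ : Type} [Field κ] [IsAlgClosed κ] {f : κ[X][Y]} {K : Type} [Field K] [Algebra κ K] {x y : K}

/-- an affine linear form -/
noncomputable def lin (α β γ : κ) : κ[X][Y] := C (C α * X + C γ) + C (C β) * X

/-! ### T1 -/
omit [IsAlgClosed κ] in
/-- a linear form in the chart at infinity -/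
theorem t1_flip (hx : x ≠ 0) (α β γ : κ) :
    aevalAeval x y (lin α β γ) * x⁻¹ = aevalAeval x⁻¹ (y * x⁻¹) (lin γ β α) := by
  simp only [lin, map_add, map_mul, aevalAeval_C, aevalAeval_Y, aeval_C, aeval_X]
  field_simp
  ring

/-- `ℓ` through `P₁, P₂`, `m` through `P₃`: `ℓ m φ` is regular at all affine points and has a pole of
order `≤ 2` at infinity: `poly_of_regular_td` with `d = 2`. At `P_i`: `div_x` for `ℓ` (or `m`). At
infinity: `lin x⁻¹` is regular there. -/
theorem conic_mul (hf : Qt f) (hs : Sm f) (h : FF f x y) {φ : K} (P : Fin 3 → κ × κ)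
    (hP : ∀ i, f.evalEval (P i).1 (P i).2 = 0) (hd : ∀ i, dY f (P i).1 (P i).2 ≠ 0)
    (hr : ∀ a b, f.evalEval a b = 0 → (∀ i, (a, b) ≠ P i) → Rg x y a b φ)
    (hi : ∀ b, (flip 4 f).evalEval 0 b = 0 → Rg x⁻¹ (y * x⁻¹) 0 b φ)
    (hp : ∀ i, Rg x y (P i).1 (P i).2 ((x - algebraMap κ K (P i).1) * φ))
    {α β γ α' β' γ' : κ}
    (hv : ∀ i, (lin α β γ).evalEval (P i).1 (P i).2 = 0 ∨ (lin α' β' γ').evalEval (P i).1 (P i).2 = 0) :
    ∃ G : κ[X][Y], G.natDegree < 4 ∧ TD 2 G ∧
      aevalAeval x y (lin α β γ) * aevalAeval x y (lin α' β' γ') * φ = aevalAeval x y G := by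
  have hx : x ≠ 0 := ff_ne_zero hf h
  refine poly_of_regular_td hf h 2 ?_ ?_
  · intro a b hab
    by_cases hex : ∃ i, (a, b) = P i
    · obtain ⟨i, hi'⟩ := hex
      have ha : (P i).1 = a := by rw [← hi']
      have hb : (P i).2 = b := by rw [← hi']
      have hpi := hp i
      have hvi := hv i
      have hdi := hd i
      rw [ha, hb] at hpi hvi hdi
      rcases hvi with h1 | h1
      · obtain ⟨u, hu, hue⟩ := div_x h hab hdi h1
        have e : aevalAeval x y (lin α β γ) * aevalAeval x y (lin α' β' γ') * φ =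
            u * (aevalAeval x y (lin α' β' γ') * ((x - algebraMap κ K a) * φ)) := by
          rw [hue]; ring
        rw [e]
        exact rg_mul hu (rg_mul (rg_poly a b _) hpi)
      · obtain ⟨u, hu, hue⟩ := div_x h hab hdi h1
        have e : aevalAeval x y (lin α β γ) * aevalAeval x y (lin α' β' γ') * φ =
            u * (aevalAeval x y (lin α β γ) * ((x - algebraMap κ K a) * φ)) := by
          rw [hue]; ring
        rw [e]
        exact rg_mul hu (rg_mul (rg_poly a b _) hpi)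
    · have hne : ∀ i, (a, b) ≠ P i := fun i hh => hex ⟨i, hh⟩
      exact rg_mul (rg_mul (rg_poly a b _) (rg_poly a b _)) (hr a b hab hne)
  · intro b hb
    have e : aevalAeval x y (lin α β γ) * aevalAeval x y (lin α' β' γ') * φ * x⁻¹ ^ 2 =
        aevalAeval x⁻¹ (y * x⁻¹) (lin γ β α) * aevalAeval x⁻¹ (y * x⁻¹) (lin γ' β' α') * φ := by
      rw [← t1_flip hx α β γ, ← t1_flip hx α' β' γ']; ring
    rw [e]
    exact rg_mul (rg_mul (rg_poly 0 b _) (rg_poly 0 b _)) (hi b hb)

/-! ### T2 -/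
omit [IsAlgClosed κ] in
/-- total degree bounds the degree in `y` -/
theorem t2_natDegree {d : ℕ} {p : κ[X][Y]} (h : TD d p) : p.natDegree ≤ d := by
  rw [natDegree_le_iff_coeff_eq_zero]
  intro j hj
  by_contra hne
  have := h j hne
  omega

omit [IsAlgClosed κ] in
/-- value of a linear form -/
theorem t2_evalEval (α β γ a b : κ) : (lin α β γ).evalEval a b = α * a + γ + β * b := by
  simp [lin, Polynomial.evalEval]

omit [IsAlgClosed κ] in
/-- a polynomial of total degree at most 1 is a linear form -/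
theorem t2_lin {p : κ[X][Y]} (h : TD 1 p) : ∃ α β γ : κ, p = lin α β γ := by
  have h2 : p.natDegree ≤ 1 := t2_natDegree h
  have h0 : (p.coeff 0).natDegree ≤ 1 := by
    by_cases hz : p.coeff 0 = 0
    · rw [hz]; simp
    · have := h 0 hz; omega
  have h1 : (p.coeff 1).natDegree ≤ 0 := by
    by_cases hz : p.coeff 1 = 0
    · rw [hz]; simp
    · have := h 1 hz; omega
  refine ⟨(p.coeff 0).coeff 1, (p.coeff 1).coeff 0, (p.coeff 0).coeff 0, ?_⟩
  have e0 : p.coeff 0 = C ((p.coeff 0).coeff 1) * X + C ((p.coeff 0).coeff 0) :=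
    eq_X_add_C_of_natDegree_le_one h0
  have e1 : p.coeff 1 = C ((p.coeff 1).coeff 0) := eq_C_of_natDegree_le_zero h1
  have e := eq_X_add_C_of_natDegree_le_one h2
  rw [lin, ← e0, ← e1]
  rw [add_comm]
  exact e

omit [IsAlgClosed κ] in
/-- a transcendental element is not a constant -/
theorem t2_x (hx : Transcendental κ x) (p : κ) (h0 : x - algebraMap κ K p = 0) : False :=
  hx (by rw [sub_eq_zero.mp h0]; exact isAlgebraic_algebraMap p)

/-- `ℓ` fixed through `P₁, P₂`; two different lines `m, m'` through `P₃`: `G m' = G' m` as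
polynomials (total degree 3 < 4: `f ∣ G m' - G' m` forces it to be 0), so `m ∣ G` (a nonzero
linear form which is not proportional to `m'` is prime and does not divide `m'`): `G = m * λ`,
`TD 1 λ`, `ℓ φ = λ`. -/
theorem line_mul (hf : Qt f) (hs : Sm f) (h : FF f x y) {φ : K} (P : Fin 3 → κ × κ)
    (hP : ∀ i, f.evalEval (P i).1 (P i).2 = 0) (hd : ∀ i, dY f (P i).1 (P i).2 ≠ 0)
    (hr : ∀ a b, f.evalEval a b = 0 → (∀ i, (a, b) ≠ P i) → Rg x y a b φ)
    (hi : ∀ b, (flip 4 f).evalEval 0 b = 0 → Rg x⁻¹ (y * x⁻¹) 0 b φ)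
    (hp : ∀ i, Rg x y (P i).1 (P i).2 ((x - algebraMap κ K (P i).1) * φ))
    (i₀ : Fin 3) {α β γ : κ} (hv : ∀ i, i ≠ i₀ → (lin α β γ).evalEval (P i).1 (P i).2 = 0) :
    ∃ α' β' γ' : κ, aevalAeval x y (lin α β γ) * φ = aevalAeval x y (lin α' β' γ') := by
  have hx : Transcendental κ x := ff_transcendental hf h
  set p := (P i₀).1 with hpdef
  set q := (P i₀).2 with hqdef
  have hv1 : ∀ i, (lin α β γ).evalEval (P i).1 (P i).2 = 0 ∨
      (lin 1 0 (-p)).evalEval (P i).1 (P i).2 = 0 := by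
    intro i
    by_cases hii : i = i₀
    · right
      rw [hii, ← hpdef, ← hqdef, t2_evalEval]; ring
    · exact Or.inl (hv i hii)
  have hv2 : ∀ i, (lin α β γ).evalEval (P i).1 (P i).2 = 0 ∨
      (lin 0 1 (-q)).evalEval (P i).1 (P i).2 = 0 := by
    intro i
    by_cases hii : i = i₀
    · right
      rw [hii, ← hpdef, ← hqdef, t2_evalEval]; ring
    · exact Or.inl (hv i hii)
  obtain ⟨G, -, tG, eG⟩ := conic_mul hf hs h P hP hd hr hi hp hv1
  obtain ⟨G', -, tG', eG'⟩ := conic_mul hf hs h P hP hd hr hi hp hv2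
  have hm : (lin 1 0 (-p) : κ[X][Y]) = C (X - C p) := by
    simp only [lin, map_zero, map_one, map_neg, zero_mul, add_zero, one_mul, sub_eq_add_neg]
  have hm' : (lin 0 1 (-q) : κ[X][Y]) = X - C (C q) := by
    simp only [lin, map_zero, map_one, map_neg, zero_mul, zero_add, one_mul, sub_eq_add_neg]
    ring
  rw [hm] at eG
  rw [hm'] at eG'
  -- the polynomial identity
  have key : G * (X - C (C q)) = G' * C (X - C p) := by
    have h0 : aevalAeval x y (G * (X - C (C q)) - G' * C (X - C p)) = 0 := by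
      rw [map_sub, map_mul, map_mul, ← eG, ← eG']; ring
    have hdeg : (G * (X - C (C q)) - G' * C (X - C p)).natDegree < 4 := by
      have d1 : (G * (X - C (C q))).natDegree ≤ 3 := by
        refine natDegree_mul_le.trans ?_
        have := t2_natDegree tG
        have e1 : (X - C (C q) : κ[X][Y]).natDegree = 1 := natDegree_X_sub_C _
        omega
      have d2 : (G' * C (X - C p)).natDegree ≤ 3 := by
        refine natDegree_mul_le.trans ?_
        have := t2_natDegree tG'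
        have e1 : (C (X - C p) : κ[X][Y]).natDegree = 0 := natDegree_C _
        omega
      exact lt_of_le_of_lt (natDegree_sub_le _ _) (by omega)
    exact sub_eq_zero.mp (eq_zero_of_aeval hf h hdeg h0)
  have hXp : (X - C p : κ[X]) ≠ 0 := X_sub_C_ne_zero p
  have hroot : G'.eval (C q) = 0 := by
    have := congrArg (Polynomial.eval (C q)) key
    rw [eval_mul, eval_mul, eval_C, eval_sub, eval_X, eval_C, sub_self, mul_zero] at this
    exact (mul_eq_zero.mp this.symm).resolve_right hXp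
  obtain ⟨l, hl⟩ := dvd_iff_isRoot.mpr hroot
  have hG : G = l * C (X - C p) := by
    have hne : (X - C (C q) : κ[X][Y]) ≠ 0 := X_sub_C_ne_zero _
    apply mul_right_cancel₀ hne
    rw [key, hl]; ring
  have hl1 : TD 1 l := by
    intro j hj
    have hc : G.coeff j = l.coeff j * (X - C p) := by rw [hG, coeff_mul_C]
    have hne : G.coeff j ≠ 0 := by rw [hc]; exact mul_ne_zero hj hXp
    have := tG j hne
    rw [hc, natDegree_mul hj hXp, natDegree_X_sub_C] at this
    omega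
  obtain ⟨α', β', γ', hlin⟩ := t2_lin hl1
  refine ⟨α', β', γ', ?_⟩
  rw [← hlin]
  have hev : aevalAeval x y (C (X - C p) : κ[X][Y]) ≠ 0 := by
    rw [aevalAeval_C, map_sub, aeval_X, aeval_C]
    intro h0
    exact t2_x hx p h0
  apply mul_right_cancel₀ hev
  have e2 : aevalAeval x y l * aevalAeval x y (C (X - C p) : κ[X][Y]) = aevalAeval x y G := by
    rw [hG, map_mul]
  rw [e2, ← eG]; ring

/-! ### T3 -/
omit [IsAlgClosed κ] in
/-- value of a linear form -/
theorem t3_evalEval (α β γ a b : κ) : (lin α β γ).evalEval a b = α * a + γ + β * b := by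
  simp [lin, Polynomial.evalEval]

omit [IsAlgClosed κ] in
/-- degree of a linear form -/
theorem t3_natDegree (α β γ : κ) : (lin α β γ).natDegree ≤ 1 := by
  rw [lin]
  exact (natDegree_add_le _ _).trans (max_le (by rw [natDegree_C]; omega)
    ((natDegree_C_mul_le _ _).trans natDegree_X_le))

omit [IsAlgClosed κ] in
/-- scaling of a linear form -/
theorem t3_smul (t α β γ : κ) :
    aevalAeval x y (lin (t * α) (t * β) (t * γ)) = algebraMap κ K t * aevalAeval x y (lin α β γ) := by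
  simp only [lin, map_add, map_mul, aevalAeval_C, aevalAeval_Y, aeval_C, aeval_X]
  ring

/-- `ℓ₁₂ φ = λ`, `ℓ₁₃ φ = λ'`: `ℓ₁₃ λ = ℓ₁₂ λ'` as polynomials (degree 2 < 4); `ℓ₁₂, ℓ₁₃` are not
proportional (noncollinear), so `ℓ₁₂ ∣ λ`, `λ = γ ℓ₁₂`. -/
theorem three_points (hf : Qt f) (hs : Sm f) (h : FF f x y) {φ : K} (P : Fin 3 → κ × κ)
    (hP : ∀ i, f.evalEval (P i).1 (P i).2 = 0) (hd : ∀ i, dY f (P i).1 (P i).2 ≠ 0)
    (hnc : ((P 1).1 - (P 0).1) * ((P 2).2 - (P 0).2) - ((P 1).2 - (P 0).2) * ((P 2).1 - (P 0).1) ≠ 0)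
    (hr : ∀ a b, f.evalEval a b = 0 → (∀ i, (a, b) ≠ P i) → Rg x y a b φ)
    (hi : ∀ b, (flip 4 f).evalEval 0 b = 0 → Rg x⁻¹ (y * x⁻¹) 0 b φ)
    (hp : ∀ i, Rg x y (P i).1 (P i).2 ((x - algebraMap κ K (P i).1) * φ)) :
    ∃ γ : κ, φ = algebraMap κ K γ := by
  obtain ⟨x0, hx0⟩ : ∃ t, t = (P 0).1 := ⟨_, rfl⟩
  obtain ⟨y0, hy0⟩ : ∃ t, t = (P 0).2 := ⟨_, rfl⟩
  obtain ⟨x1, hx1⟩ : ∃ t, t = (P 1).1 := ⟨_, rfl⟩
  obtain ⟨y1, hy1⟩ : ∃ t, t = (P 1).2 := ⟨_, rfl⟩
  obtain ⟨x2, hx2⟩ : ∃ t, t = (P 2).1 := ⟨_, rfl⟩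
  obtain ⟨y2, hy2⟩ : ∃ t, t = (P 2).2 := ⟨_, rfl⟩
  rw [← hx0, ← hy0, ← hx1, ← hy1, ← hx2, ← hy2] at hnc
  -- the two lines
  have hv1 : ∀ i, i ≠ 2 → (lin (-(y1 - y0)) (x1 - x0) (x0 * (y1 - y0) - y0 * (x1 - x0))).evalEval
      (P i).1 (P i).2 = 0 := by
    intro i hi2
    rw [t3_evalEval]
    fin_cases i
    · show -(y1 - y0) * (P 0).1 + _ + (x1 - x0) * (P 0).2 = 0
      rw [← hx0, ← hy0]; ring
    · show -(y1 - y0) * (P 1).1 + _ + (x1 - x0) * (P 1).2 = 0
      rw [← hx1, ← hy1]; ring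
    · exact absurd rfl hi2
  have hv2 : ∀ i, i ≠ 1 → (lin (-(y2 - y0)) (x2 - x0) (x0 * (y2 - y0) - y0 * (x2 - x0))).evalEval
      (P i).1 (P i).2 = 0 := by
    intro i hi2
    rw [t3_evalEval]
    fin_cases i
    · show -(y2 - y0) * (P 0).1 + _ + (x2 - x0) * (P 0).2 = 0
      rw [← hx0, ← hy0]; ring
    · exact absurd rfl hi2
    · show -(y2 - y0) * (P 2).1 + _ + (x2 - x0) * (P 2).2 = 0
      rw [← hx2, ← hy2]; ring
  obtain ⟨u, v, w, e1⟩ := line_mul hf hs h P hP hd hr hi hp 2 hv1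
  obtain ⟨u', v', w', e2⟩ := line_mul hf hs h P hP hd hr hi hp 1 hv2
  have key : lin (-(y2 - y0)) (x2 - x0) (x0 * (y2 - y0) - y0 * (x2 - x0)) * lin u v w =
      lin (-(y1 - y0)) (x1 - x0) (x0 * (y1 - y0) - y0 * (x1 - x0)) * lin u' v' w' := by
    refine sub_eq_zero.mp (eq_zero_of_aeval hf h ?_ ?_)
    · refine lt_of_le_of_lt (natDegree_sub_le _ _) ?_
      have d1 : ∀ a b c a' b' c' : κ, (lin a b c * lin a' b' c').natDegree ≤ 2 := fun a b c a' b' c' =>
        natDegree_mul_le.trans (by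
          have := t3_natDegree a b c
          have := t3_natDegree a' b' c'
          omega)
      have := d1 (-(y2 - y0)) (x2 - x0) (x0 * (y2 - y0) - y0 * (x2 - x0)) u v w
      have := d1 (-(y1 - y0)) (x1 - x0) (x0 * (y1 - y0) - y0 * (x1 - x0)) u' v' w'
      omega
    · rw [map_sub, map_mul, map_mul, ← e1, ← e2]; ring
  have keyv : ∀ s t : κ, (-(y2 - y0) * s + (x0 * (y2 - y0) - y0 * (x2 - x0)) + (x2 - x0) * t) *
      (u * s + w + v * t) =
      (-(y1 - y0) * s + (x0 * (y1 - y0) - y0 * (x1 - x0)) + (x1 - x0) * t) *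
      (u' * s + w' + v' * t) := by
    intro s t
    have := congrArg (Polynomial.evalEval s t) key
    rw [evalEval_mul, evalEval_mul, t3_evalEval, t3_evalEval, t3_evalEval, t3_evalEval] at this
    exact this
  have l1 : u * x1 + w + v * y1 = 0 := by
    have h1 := keyv x1 y1
    have h2 : (-(y2 - y0) * x1 + (x0 * (y2 - y0) - y0 * (x2 - x0)) + (x2 - x0) * y1) ≠ 0 := by
      intro h0
      apply hnc
      linear_combination -h0
    have h3 : (-(y1 - y0) * x1 + (x0 * (y1 - y0) - y0 * (x1 - x0)) + (x1 - x0) * y1) = 0 := by ring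
    rw [h3, zero_mul] at h1
    exact (mul_eq_zero.mp h1).resolve_left h2
  have l0 : u * x0 + w + v * y0 = 0 := by
    obtain ⟨t0, ht0⟩ : ∃ t0 : κ, t0 ∉ ({0, 1} : Finset κ) := Infinite.exists_notMem_finset _
    have ht00 : t0 ≠ 0 := fun hh => ht0 (by rw [hh]; simp)
    have ht01 : t0 ≠ 1 := fun hh => ht0 (by rw [hh]; simp)
    have h1 := keyv (x0 + t0 * (x1 - x0)) (y0 + t0 * (y1 - y0))
    have h2 : (-(y2 - y0) * (x0 + t0 * (x1 - x0)) + (x0 * (y2 - y0) - y0 * (x2 - x0)) +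
        (x2 - x0) * (y0 + t0 * (y1 - y0))) ≠ 0 := by
      intro h0
      apply mul_ne_zero ht00 hnc
      linear_combination -h0
    have h3 : (-(y1 - y0) * (x0 + t0 * (x1 - x0)) + (x0 * (y1 - y0) - y0 * (x1 - x0)) +
        (x1 - x0) * (y0 + t0 * (y1 - y0))) = 0 := by ring
    rw [h3, zero_mul] at h1
    have h4 := (mul_eq_zero.mp h1).resolve_left h2
    have h5 : (1 - t0) * (u * x0 + w + v * y0) = 0 := by linear_combination h4 - t0 * l1
    exact (mul_eq_zero.mp h5).resolve_left (sub_ne_zero.mpr (Ne.symm ht01))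
  -- proportionality
  have huv : u * (x1 - x0) + v * (y1 - y0) = 0 := by linear_combination l1 - l0
  obtain ⟨t, htu, htv⟩ : ∃ t, u = t * (-(y1 - y0)) ∧ v = t * (x1 - x0) := by
    by_cases hb : x1 - x0 = 0
    · have ha : y1 - y0 ≠ 0 := by
        intro ha
        apply hnc
        rw [hb, ha]; ring
      refine ⟨u / (-(y1 - y0)), ?_, ?_⟩
      · rw [div_mul_cancel₀]
        exact neg_ne_zero.mpr ha
      · rw [hb, mul_zero]
        rw [hb, mul_zero, zero_add] at huv
        exact (mul_eq_zero.mp huv).resolve_right ha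
    · refine ⟨v / (x1 - x0), ?_, ?_⟩
      · field_simp
        linear_combination huv
      · rw [div_mul_cancel₀ _ hb]
  have htw : w = t * (x0 * (y1 - y0) - y0 * (x1 - x0)) := by
    rw [htu, htv] at l0
    linear_combination l0
  have hlne : aevalAeval x y (lin (-(y1 - y0)) (x1 - x0) (x0 * (y1 - y0) - y0 * (x1 - x0))) ≠ 0 := by
    intro h0
    have hz := eq_zero_of_aeval hf h (lt_of_le_of_lt (t3_natDegree _ _ _) (by norm_num)) h0
    have := congrArg (Polynomial.evalEval x2 y2) hz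
    rw [t3_evalEval, evalEval_zero] at this
    apply hnc
    linear_combination this
  refine ⟨t, ?_⟩
  apply mul_left_cancel₀ hlne
  rw [e1, htu, htv, htw, t3_smul, mul_comm]


end T

end Pool.Agent.LibQuart
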