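import Pool.Agent.LibQuart.BY

open scoped Classical
open Polynomial
open scoped Polynomial.Bivariate

namespace Pool.Agent.LibQuart

open Pool.Agent.LibBH2

/-! ## Block V: moving a configuration -/

section V
variable {k κ : Type} [Field k] [Field κ]

/-- A configuration with good reduction: all coordinates are integral, the points `c, a, b` on the
first line and `c, a', b'` on the second one have different reductions (`N u = 1`: `u` is a unit),
the two lines too, and the tangents at the reductions of `a, b, a'` are not vertical. -/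
structure Good (R : Red k κ) (f : k[X][Y]) (c : Cf k) : Prop where
  ix : R.N c.x ≤ 1
  iy : R.N c.y ≤ 1
  im : R.N c.m ≤ 1
  im' : R.N c.m' ≤ 1
  us : R.N c.s = 1
  ut : R.N c.t = 1
  us' : R.N c.s' = 1
  ut' : R.N c.t' = 1
  ust : R.N (c.s - c.t) = 1
  umm : R.N (c.m - c.m') = 1
  ua : R.N (dY f (c.x + c.s) (c.y + c.m * c.s)) = 1
  ub : R.N (dY f (c.x + c.t) (c.y + c.m * c.t)) = 1
  ua' : R.N (dY f (c.x + c.s') (c.y + c.m' * c.s')) = 1

/-- `σ` moves the coordinates of `c` (other than `t'`) by at most `1 / 4` -/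
structure Mov (R : Red k κ) (c : Cf k) (σ : k ≃+* k) : Prop where
  inv : ∀ u, R.N (σ u) = R.N u
  x : R.N (σ c.x - c.x) ≤ 1 / 4
  y : R.N (σ c.y - c.y) ≤ 1 / 4
  m : R.N (σ c.m - c.m) ≤ 1 / 4
  s : R.N (σ c.s - c.s) ≤ 1 / 4
  t : R.N (σ c.t - c.t) ≤ 1 / 4
  m' : R.N (σ c.m' - c.m') ≤ 1 / 4
  s' : R.N (σ c.s' - c.s') ≤ 1 / 4

/-! ### V1 -/
theorem v1_hom {k A B : Type} [Field k] [CommRing A] [Algebra k A] [CommRing B] [Algebra k B]
    (φ : A →ₐ[k] B) (a b : A) (f : k[X][Y]) :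
    φ (aevalAeval a b f) = aevalAeval (φ a) (φ b) f := by
  have h : φ.comp (aevalAeval (R := k) a b) = aevalAeval (R := k) (φ a) (φ b) :=
    algHom_ext' (by ext; simp) (by simp)
  exact DFunLike.congr_fun h f

theorem v1_shift {k : Type} [Field k] (f : k[X][Y]) (x y m s : k) :
    (Ln f x y m).comp (X + C s) = Ln f (x + s) (y + m * s) m := by
  unfold Ln
  have h1 := v1_hom (aeval (X + C s) : k[X] →ₐ[k] k[X]) (C x + X) (C y + C m * X) f
  have h2 : ∀ p : k[X], (aeval (X + C s) : k[X] →ₐ[k] k[X]) p = p.comp (X + C s) := fun p => rfl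
  rw [h2, h2, h2] at h1
  rw [h1]
  congr 2
  · simp only [add_comp, C_comp, X_comp, C_add]
    ring_nf
  · simp only [add_comp, mul_comp, C_comp, X_comp, C_add, C_mul]
    ring_nf

theorem v1_dX {A B : Type} [CommRing A] [CommRing B] (φ : A →+* B) (f : A[X][Y]) (a b : A) :
    dX (f.map (mapRingHom φ)) (φ a) (φ b) = φ (dX f a b) := by
  unfold dX
  have h1 : (f.map (mapRingHom φ)).eval (C (φ b)) = (f.eval (C b)).map φ := by
    have := map_mapRingHom_eval_map φ f (C b)
    rwa [map_C] at this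
  rw [h1, derivative_map, eval_map, eval₂_hom]

theorem v1_dY {A B : Type} [CommRing A] [CommRing B] (φ : A →+* B) (f : A[X][Y]) (a b : A) :
    dY (f.map (mapRingHom φ)) (φ a) (φ b) = φ (dY f a b) := by
  unfold dY
  rw [derivative_map, map_mapRingHom_evalEval]

/-- If the tangency point `a = (x + s, y + m s)` is fixed by `σ` then so is `m = - dX / dY` at `a`
(`s` is a double root of `Ln`; derivative of `Ln` at `s` is `dX + m dY` at `a`: `ln_coeff_one` at the
base point `a`, as `Ln f a₁ a₂ m = (Ln f x y m).comp (X + C s)`), so `σ(c) = c + τ (1, m)` with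
`τ = s - σ s = σ x - x`, `τ ∈ {0, s, t}` (`on_line`), and `N τ < 1`, so `τ = 0`. -/
theorem move_half (R : Red k κ) {f : k[X][Y]} {x y m s t : k}
    (hh : Half f x y m s t) (h0 : f.evalEval x y = 0) (hs : R.N s = 1) (ht : R.N t = 1)
    (σ : k ≃+* k) (hσ : f.map (mapRingHom σ.toRingHom) = f) (hc : R.N (σ x - x) < 1)
    (h1 : σ (x + s) = x + s) (h2 : σ (y + m * s) = y + m * s) : σ x = x := by
  have hh' := hh
  obtain ⟨_, _, _, _, hLn, hdy, _⟩ := hh
  -- the slope
  have hm0 : dX f (x + s) (y + m * s) + m * dY f (x + s) (y + m * s) = 0 := by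
    rw [← ln_coeff_one, ← v1_shift, hLn]
    have e : (C ((flip 4 f).evalEval 0 m) * X * (X - C s) ^ 2 * (X - C t)).comp (X + C s) =
        C ((flip 4 f).evalEval 0 m) * (X + C s) * (X + C s - C t) * X ^ 2 := by
      simp only [mul_comp, pow_comp, sub_comp, X_comp, C_comp, add_sub_cancel_right]
      ring
    rw [e, coeff_mul_X_pow']
    rw [if_neg (by norm_num)]
  have hdX : σ (dX f (x + s) (y + m * s)) = dX f (x + s) (y + m * s) := by
    have := v1_dX σ.toRingHom f (x + s) (y + m * s)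
    rw [hσ] at this
    have e1 : σ.toRingHom (x + s) = x + s := h1
    have e2 : σ.toRingHom (y + m * s) = y + m * s := h2
    rw [e1, e2] at this
    exact this.symm
  have hdY : σ (dY f (x + s) (y + m * s)) = dY f (x + s) (y + m * s) := by
    have := v1_dY σ.toRingHom f (x + s) (y + m * s)
    rw [hσ] at this
    have e1 : σ.toRingHom (x + s) = x + s := h1
    have e2 : σ.toRingHom (y + m * s) = y + m * s := h2
    rw [e1, e2] at this
    exact this.symm
  have hm1 : dX f (x + s) (y + m * s) + σ m * dY f (x + s) (y + m * s) = 0 := by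
    have := congrArg σ hm0
    rw [map_add, map_mul, hdX, hdY, map_zero] at this
    exact this
  have hσm : σ m = m := by
    have h3 : (σ m - m) * dY f (x + s) (y + m * s) = 0 := by
      linear_combination hm1 - hm0
    rcases mul_eq_zero.1 h3 with h | h
    · exact sub_eq_zero.1 h
    · exact absurd h hdy
  -- the point `σ c` is on the line
  have hpt : f.evalEval (σ x) (σ y) = 0 := by
    have := map_mapRingHom_evalEval σ.toRingHom f x y
    rw [hσ, h0, map_zero] at this
    exact this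
  have hx : σ x + σ s = x + s := by rw [← map_add]; exact h1
  have hy : σ y + m * σ s = y + m * s := by
    have := h2
    rw [map_add, map_mul, hσm] at this
    exact this
  have hl : σ y - y = m * (σ x - x) := by linear_combination hy - m * hx
  rcases on_line hh' hpt hl with h | h | h
  · exact h
  · rw [h, add_sub_cancel_left, hs] at hc
    exact absurd hc (lt_irrefl _)
  · rw [h, add_sub_cancel_left, ht] at hc
    exact absurd hc (lt_irrefl _)

/-! ### V2 -/
/-- the difference of two integral elements reduces to zero when it is small -/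
theorem v2_red (R : Red k κ) {a b : R.O} (h : R.N ((a : k) - (b : k)) ≤ 1 / 4) :
    R.red a = R.red b := by
  have h1 : R.red (a - b) = 0 := by
    rw [R.ker]
    push_cast
    linarith
  rw [map_sub, sub_eq_zero] at h1
  exact h1

theorem v2_unit (R : Red k κ) {a : R.O} (h : R.N (a : k) = 1) : R.red a ≠ 0 := by
  intro h0
  rw [R.ker] at h0
  linarith

theorem v2_max (R : Red k κ) {a b : k} (ha : R.N a ≤ 1 / 4) (hb : R.N b ≤ 1 / 4) :
    R.N (a + b) ≤ 1 / 4 := (R.na a b).trans (max_le ha hb)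

/-- The three pairs: `P = a, b, a'`, `P' = σ(a), σ(b), σ(a')`. `nc`: the determinant is
`(t - s) (m' - m) s'`. `dy`: `dY_up`, `dY_dn` (`N (u : k) = 1` iff `red u ≠ 0`). `red2`: products and sums. -/
theorem good_pairs {R : Red k κ} {f : R.O[X][Y]} {c : Cf k} (hc : IsCfg (R.up f) c)
    (hg : Good R (R.up f) c) {σ : k ≃+* k} (hσ : (R.up f).map (mapRingHom σ.toRingHom) = R.up f)
    (hm : Mov R c σ) :
    ∃ P P' : Fin 3 → R.O × R.O, Pairs R f P P' ∧
      (((P 0).1 : k) = c.x + c.s ∧ ((P 0).2 : k) = c.y + c.m * c.s) ∧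
      (((P 1).1 : k) = c.x + c.t ∧ ((P 1).2 : k) = c.y + c.m * c.t) ∧
      (((P 2).1 : k) = c.x + c.s' ∧ ((P 2).2 : k) = c.y + c.m' * c.s') ∧
      (∀ i, ((P' i).1 : k) = σ ((P i).1 : k)) ∧ (∀ i, ((P' i).2 : k) = σ ((P i).2 : k)) := by
  have io : ∀ {u : k}, R.N u ≤ 1 → ∃ w : R.O, (w : k) = u := fun {u} hu =>
    ⟨⟨u, (R.mem_O u).2 hu⟩, rfl⟩
  have iσ : ∀ {u : k}, R.N u ≤ 1 → R.N (σ u) ≤ 1 := fun {u} hu => by rw [hm.inv]; exact hu
  obtain ⟨x, hx⟩ := io hg.ix
  obtain ⟨y, hy⟩ := io hg.iy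
  obtain ⟨m, hmm⟩ := io hg.im
  obtain ⟨m', hmm'⟩ := io hg.im'
  obtain ⟨s, hs⟩ := io hg.us.le
  obtain ⟨t, ht⟩ := io hg.ut.le
  obtain ⟨s', hs'⟩ := io hg.us'.le
  obtain ⟨x1, hx1⟩ := io (iσ hg.ix)
  obtain ⟨y1, hy1⟩ := io (iσ hg.iy)
  obtain ⟨m1, hm1⟩ := io (iσ hg.im)
  obtain ⟨m1', hm1'⟩ := io (iσ hg.im')
  obtain ⟨s1, hs1⟩ := io (iσ hg.us.le)
  obtain ⟨t1, ht1⟩ := io (iσ hg.ut.le)
  obtain ⟨s1', hs1'⟩ := io (iσ hg.us'.le)
  -- reductions agree
  have rx : R.red x1 = R.red x := v2_red R (by rw [hx1, hx]; exact hm.x)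
  have ry : R.red y1 = R.red y := v2_red R (by rw [hy1, hy]; exact hm.y)
  have rm : R.red m1 = R.red m := v2_red R (by rw [hm1, hmm]; exact hm.m)
  have rm' : R.red m1' = R.red m' := v2_red R (by rw [hm1', hmm']; exact hm.m')
  have rs : R.red s1 = R.red s := v2_red R (by rw [hs1, hs]; exact hm.s)
  have rt : R.red t1 = R.red t := v2_red R (by rw [ht1, ht]; exact hm.t)
  have rs' : R.red s1' = R.red s' := v2_red R (by rw [hs1', hs']; exact hm.s')
  -- the points are on the curve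
  have on0 : ∀ u : k, (Ln (R.up f) c.x c.y c.m).eval u = 0 →
      (R.up f).evalEval (c.x + u) (c.y + c.m * u) = 0 := fun u hu => by
    rw [← ln_eval]; exact hu
  have on0' : ∀ u : k, (Ln (R.up f) c.x c.y c.m').eval u = 0 →
      (R.up f).evalEval (c.x + u) (c.y + c.m' * u) = 0 := fun u hu => by
    rw [← ln_eval]; exact hu
  have ha : (R.up f).evalEval (c.x + c.s) (c.y + c.m * c.s) = 0 := by
    apply on0
    rw [hc.h1.2.2.2.2.1]
    simp
  have hb : (R.up f).evalEval (c.x + c.t) (c.y + c.m * c.t) = 0 := by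
    apply on0
    rw [hc.h1.2.2.2.2.1]
    simp
  have ha' : (R.up f).evalEval (c.x + c.s') (c.y + c.m' * c.s') = 0 := by
    apply on0'
    rw [hc.h2.2.2.2.2.1]
    simp
  have conj : ∀ u w : k, (R.up f).evalEval u w = 0 → (R.up f).evalEval (σ u) (σ w) = 0 := by
    intro u w h0
    have h1 := map_mapRingHom_evalEval σ.toRingHom (R.up f) u w
    rw [hσ, h0, map_zero] at h1
    exact h1
  have onO : ∀ a b : R.O, (R.up f).evalEval (a : k) (b : k) = 0 → f.evalEval a b = 0 := by
    intro a b h0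
    rw [up_evalEval] at h0
    exact_mod_cast h0
  have dyO : ∀ a b : R.O, R.N (dY (R.up f) (a : k) (b : k)) = 1 →
      dY (R.dn f) (R.red a) (R.red b) ≠ 0 := by
    intro a b h0
    rw [dY_dn]
    apply v2_unit
    rw [← dY_up]
    exact h0
  refine ⟨![(x + s, y + m * s), (x + t, y + m * t), (x + s', y + m' * s')],
    ![(x1 + s1, y1 + m1 * s1), (x1 + t1, y1 + m1 * t1), (x1 + s1', y1 + m1' * s1')],
    ⟨?_, ?_, ?_, ?_, ?_, ?_, ?_⟩, ⟨?_, ?_⟩, ⟨?_, ?_⟩, ⟨?_, ?_⟩, ?_, ?_⟩
  · intro i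
    fin_cases i
    · apply onO
      simpa [hx, hy, hmm, hs] using ha
    · apply onO
      simpa [hx, hy, hmm, ht] using hb
    · apply onO
      simpa [hx, hy, hmm', hs'] using ha'
  · intro i
    fin_cases i
    · apply onO
      simpa [hx1, hy1, hm1, hs1] using conj _ _ ha
    · apply onO
      simpa [hx1, hy1, hm1, ht1] using conj _ _ hb
    · apply onO
      simpa [hx1, hy1, hm1', hs1'] using conj _ _ ha'
  · intro i
    fin_cases i
    · have h2 := v2_max R hm.x hm.s
      have h3 : σ c.x + σ c.s - (c.x + c.s) = σ c.x - c.x + (σ c.s - c.s) := by ring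
      simpa [hx1, hs1, hx, hs, h3] using h2
    · have h2 := v2_max R hm.x hm.t
      have h3 : σ c.x + σ c.t - (c.x + c.t) = σ c.x - c.x + (σ c.t - c.t) := by ring
      simpa [hx1, ht1, hx, ht, h3] using h2
    · have h2 := v2_max R hm.x hm.s'
      have h3 : σ c.x + σ c.s' - (c.x + c.s') = σ c.x - c.x + (σ c.s' - c.s') := by ring
      simpa [hx1, hs1', hx, hs', h3] using h2
  · intro i
    fin_cases i <;> simp [rx, rs, rt, rs']
  · intro i
    fin_cases i <;> simp [ry, rm, rm', rs, rt, rs']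
  · intro i
    fin_cases i
    · apply dyO
      simpa [hx, hy, hmm, hs] using hg.ua
    · apply dyO
      simpa [hx, hy, hmm, ht] using hg.ub
    · apply dyO
      simpa [hx, hy, hmm', hs'] using hg.ua'
  · have u1 : R.red (s - t) ≠ 0 := v2_unit R (by push_cast; rw [hs, ht]; exact hg.ust)
    have u2 : R.red (m - m') ≠ 0 := v2_unit R (by push_cast; rw [hmm, hmm']; exact hg.umm)
    have u3 : R.red s' ≠ 0 := v2_unit R (by rw [hs']; exact hg.us')
    rw [map_sub] at u1 u2
    have h4 : (R.red (x + t) - R.red (x + s)) * (R.red (y + m' * s') - R.red (y + m * s)) -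
        (R.red (y + m * t) - R.red (y + m * s)) * (R.red (x + s') - R.red (x + s))
        = (R.red s - R.red t) * (R.red m - R.red m') * R.red s' := by
      simp only [map_add, map_mul]
      ring
    show (R.red (x + t) - R.red (x + s)) * (R.red (y + m' * s') - R.red (y + m * s)) -
        (R.red (y + m * t) - R.red (y + m * s)) * (R.red (x + s') - R.red (x + s)) ≠ 0
    rw [h4]
    exact mul_ne_zero (mul_ne_zero u1 u2) u3
  · simp [hx, hs]
  · simp [hy, hmm, hs]
  · simp [hx, ht]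
  · simp [hy, hmm, ht]
  · simp [hx, hs']
  · simp [hy, hmm', hs']
  · intro i
    fin_cases i <;> simp [hx, hx1, hs, hs1, ht, ht1, hs', hs1']
  · intro i
    fin_cases i <;> simp [hy, hy1, hmm, hm1, hmm', hm1', hs, hs1, ht, ht1, hs', hs1']

/-! ### V3 -/
/-- the indicator of a place centred at an affine point -/
theorem v3_ind {F : MvPolynomial (Fin 3) k} (hF : Quartic F) {K : Type} [Field K] [Algebra k K]
    {x y : K} (h : FF (chart F) x y) {v : Place k K} {p : Pt F} (hp : SpG h v p) (a b : k)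
    (hab : MvPolynomial.eval ![a, b, 1] F = 0) (n : ℤ) :
    (Finsupp.single (Pt.aff a b hab : Pt F) n) p = n * ind v x y (a, b) := by
  unfold ind
  by_cases hc : Cen v x y a b
  · have h1 : SpG h v (.aff a b hab) := (spG_aff h v a b hab).2 hc
    have h2 : (Pt.aff a b hab : Pt F) = p := spG_unique hF h h1 hp
    rw [if_pos hc, ← h2, Finsupp.single_eq_same, mul_one]
  · rw [if_neg hc, mul_zero]
    apply Finsupp.single_eq_of_ne
    intro h2
    apply hc
    rw [← spG_aff h v a b hab]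
    rw [← h2]
    exact hp

/-- INDEPENDENCE. `isDivisor_conj`: `(α+β)(σa - a) + 2β(σb - b) - (α+3β)(σa' - a')` is the divisor of a
function `φ` of `K` (`isDivisor_iff` for the function field of `h`, `R.up f = chart F`). Rewrite
`DivOf` at a place through `ind` (every place has a centre `spG_exists`, `spG_aff`, `spG_unique`);
`lemma_A` with `P, P'` of V2 and `m = ![α+β, 2β, -(α+3β)]`: `α + β = 0` or `σa = a`; `α + 3β = 0` or
`σa' = a'`; `move_half` excludes the second alternatives. -/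
theorem indep_of_move [IsAlgClosed k] [IsAlgClosed κ] {R : Red k κ} {F : MvPolynomial (Fin 3) k}
    (hF : Quartic F) {f : R.O[X][Y]} (hfF : R.up f = chart F)
    {K K' : Type} [Field K] [Algebra k K] [Field K'] [Algebra κ K'] {x y : K} {x' y' : K'}
    (h : GR R f x y x' y') {c : Cf k} (hc : IsCfg (chart F) c) (hg : Good R (chart F) c)
    (σ : k ≃+* k) (hσ : MvPolynomial.map σ.toRingHom F = F) (hm : Mov R c σ) (hx : σ c.x ≠ c.x)
    (B : Pt F →₀ ℤ) (hB : B.mapDomain (ptMap σ hσ) = B) (α β : ℤ)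
    (hp : IsDivisor F (α • DD hc + β • EE hc + B)) : α = 0 ∧ β = 0 := by
  have hff : FF (chart F) x y := by rw [← hfF]; exact h.ff
  have hσf : (chart F).map (mapRingHom σ.toRingHom) = chart F := by
    rw [← chart_map, hσ]
  have hcu : IsCfg (R.up f) c := by rw [hfF]; exact hc
  have hgu : Good R (R.up f) c := by rw [hfF]; exact hg
  have hσu : (R.up f).map (mapRingHom σ.toRingHom) = R.up f := by rw [hfF]; exact hσf
  obtain ⟨P, P', hPP, ⟨p01, p02⟩, ⟨p11, p12⟩, ⟨p21, p22⟩, hP1, hP2⟩ := good_pairs hcu hgu hσu hm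
  obtain ⟨φ, hφ, hdiv⟩ := (isDivisor_iff hF hff _).1 (isDivisor_conj hF σ hσ hp)
  have e1 : (α • DD hc + β • EE hc + B).mapDomain (ptMap σ hσ) - (α • DD hc + β • EE hc + B)
      = ((α + β) • (Finsupp.single (ptMap σ hσ (ptA hc)) (1 : ℤ) - Finsupp.single (ptA hc) 1)
        + (2 * β) • (Finsupp.single (ptMap σ hσ (ptB hc)) (1 : ℤ) - Finsupp.single (ptB hc) 1))
        + (-(α + 3 * β)) • (Finsupp.single (ptMap σ hσ (ptA' hc)) (1 : ℤ)
          - Finsupp.single (ptA' hc) 1) := by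
    rw [Finsupp.mapDomain_add, hB, add_sub_add_right_eq_sub, Finsupp.mapDomain_add,
      Finsupp.mapDomain_smul, Finsupp.mapDomain_smul]
    have d1 : (DD hc).mapDomain (ptMap σ hσ) = Finsupp.single (ptMap σ hσ (ptA hc)) (1 : ℤ)
        - Finsupp.single (ptMap σ hσ (ptA' hc)) 1 := by
      unfold DD
      rw [sub_eq_add_neg, Finsupp.mapDomain_add, ← Finsupp.single_neg, Finsupp.mapDomain_single,
        Finsupp.mapDomain_single, Finsupp.single_neg, ← sub_eq_add_neg]
    have d2 : (EE hc).mapDomain (ptMap σ hσ) = Finsupp.single (ptMap σ hσ (ptA hc)) (1 : ℤ)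
        + 2 • Finsupp.single (ptMap σ hσ (ptB hc)) 1
        - 3 • Finsupp.single (ptMap σ hσ (ptA' hc)) 1 := by
      unfold EE
      rw [sub_eq_add_neg, Finsupp.mapDomain_add, Finsupp.mapDomain_add, Finsupp.smul_single,
        Finsupp.smul_single, ← Finsupp.single_neg, Finsupp.mapDomain_single,
        Finsupp.mapDomain_single, Finsupp.mapDomain_single, Finsupp.single_neg,
        ← sub_eq_add_neg, Finsupp.smul_single, Finsupp.smul_single]
    rw [d1, d2]
    unfold DD EE
    module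
  rw [e1] at hdiv
  have key : ∀ v : Place k K, v.ord φ = ∑ i, (![α + β, 2 * β, -(α + 3 * β)] : Fin 3 → ℤ) i *
      (ind v x y (((P' i).1 : k), ((P' i).2 : k)) - ind v x y (((P i).1 : k), ((P i).2 : k))) := by
    intro v
    obtain ⟨p, hpv⟩ := spG_exists hF hff v
    rw [hdiv v p hpv]
    have q0 : (Finsupp.single (ptMap σ hσ (ptA hc)) (1 : ℤ)) p
        = ind v x y (((P' 0).1 : k), ((P' 0).2 : k)) := by
      rw [hP1, hP2, p01, p02, ← one_mul (ind v x y _)]
      exact v3_ind hF hff hpv _ _ _ 1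
    have q1 : (Finsupp.single (ptMap σ hσ (ptB hc)) (1 : ℤ)) p
        = ind v x y (((P' 1).1 : k), ((P' 1).2 : k)) := by
      rw [hP1, hP2, p11, p12, ← one_mul (ind v x y _)]
      exact v3_ind hF hff hpv _ _ _ 1
    have q2 : (Finsupp.single (ptMap σ hσ (ptA' hc)) (1 : ℤ)) p
        = ind v x y (((P' 2).1 : k), ((P' 2).2 : k)) := by
      rw [hP1, hP2, p21, p22, ← one_mul (ind v x y _)]
      exact v3_ind hF hff hpv _ _ _ 1
    have r0 : (Finsupp.single (ptA hc) (1 : ℤ)) p
        = ind v x y (((P 0).1 : k), ((P 0).2 : k)) := by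
      rw [p01, p02, ← one_mul (ind v x y _)]
      exact v3_ind hF hff hpv _ _ _ 1
    have r1 : (Finsupp.single (ptB hc) (1 : ℤ)) p
        = ind v x y (((P 1).1 : k), ((P 1).2 : k)) := by
      rw [p11, p12, ← one_mul (ind v x y _)]
      exact v3_ind hF hff hpv _ _ _ 1
    have r2 : (Finsupp.single (ptA' hc) (1 : ℤ)) p
        = ind v x y (((P 2).1 : k), ((P 2).2 : k)) := by
      rw [p21, p22, ← one_mul (ind v x y _)]
      exact v3_ind hF hff hpv _ _ _ 1
    rw [Fin.sum_univ_three]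
    simp only [Finsupp.coe_add, Finsupp.coe_sub, Finsupp.coe_smul, Pi.add_apply, Pi.sub_apply,
      Pi.smul_apply, smul_eq_mul, q0, q1, q2, r0, r1, r2]
    simp
  have hA := lemma_A h hPP hφ key
  have hs1 : R.N (σ c.x - c.x) < 1 := by
    have := hm.x
    linarith
  have n0 : α + β = 0 := by
    rcases hA 0 with h1 | h1
    · simpa using h1
    · exfalso
      apply hx
      have a1 : σ (c.x + c.s) = c.x + c.s := by rw [← p01, ← hP1, h1]
      have a2 : σ (c.y + c.m * c.s) = c.y + c.m * c.s := by rw [← p02, ← hP2, h1]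
      exact move_half R hc.h1 hc.pt hg.us hg.ut σ hσf hs1 a1 a2
  have n2 : α + 3 * β = 0 := by
    rcases hA 2 with h1 | h1
    · have h2 : -(α + 3 * β) = 0 := by simpa using h1
      omega
    · exfalso
      apply hx
      have a1 : σ (c.x + c.s') = c.x + c.s' := by rw [← p21, ← hP1, h1]
      have a2 : σ (c.y + c.m' * c.s') = c.y + c.m' * c.s' := by rw [← p22, ← hP2, h1]
      exact move_half R hc.h2 hc.pt hg.us' hg.ut' σ hσf hs1 a1 a2
  omega

/-! ### V4 -/
theorem v4_lt {k κ : Type} [Field k] [Field κ] (R : Red k κ) {a b : k} (ha : R.N a < 1) (hb : R.N b < 1) :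
    R.N (a + b) < 1 := (R.na a b).trans_lt (max_lt ha hb)

theorem v4_le {k κ : Type} [Field k] [Field κ] (R : Red k κ) {a b : k} (ha : R.N a ≤ 1) (hb : R.N b ≤ 1) :
    R.N (a + b) ≤ 1 := (R.na a b).trans (max_le ha hb)

theorem v4_mul_le {k κ : Type} [Field k] [Field κ] (R : Red k κ) {a b : k} (ha : R.N a ≤ 1)
    (hb : R.N b ≤ 1) : R.N (a * b) ≤ 1 := by
  rw [map_mul]
  exact mul_le_one₀ ha (R.N.nonneg _) hb

theorem v4_mul_lt {k κ : Type} [Field k] [Field κ] (R : Red k κ) {a b : k} (ha : R.N a ≤ 1)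
    (hb : R.N b < 1) : R.N (a * b) < 1 := by
  rw [map_mul]
  have h0 := R.N.nonneg a
  have h1 := R.N.nonneg b
  nlinarith

theorem v4_mul_lt' {k κ : Type} [Field k] [Field κ] (R : Red k κ) {a b : k} (ha : R.N a < 1)
    (hb : R.N b ≤ 1) : R.N (a * b) < 1 := by
  rw [mul_comm]
  exact v4_mul_lt R hb ha

theorem v4_int {k κ : Type} [Field k] [Field κ] (R : Red k κ) {a b : k} (ha : R.N a ≤ 1)
    (h : R.N (b - a) < 1) : R.N b ≤ 1 := by
  have h1 : b = a + (b - a) := by ring
  rw [h1]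
  exact v4_le R ha h.le

theorem v4_one {k κ : Type} [Field k] [Field κ] (R : Red k κ) {a b : k} (ha : R.N a = 1)
    (h : R.N (b - a) < 1) : R.N b = 1 := by
  refine le_antisymm (v4_int R ha.le h) ?_
  by_contra hb
  push Not at hb
  have h1 : a = b + (a - b) := by ring
  have h2 : R.N (a - b) < 1 := by rwa [R.N.map_sub]
  have h3 := v4_lt R hb h2
  rw [← h1, ha] at h3
  exact lt_irrefl _ h3

theorem v4_dY {k κ : Type} [Field k] [Field κ] (R : Red k κ) (f : R.O[X][Y]) {a b a' b' : k}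
    (ha : R.N a ≤ 1) (hb : R.N b ≤ 1) (haa : R.N (a' - a) < 1) (hbb : R.N (b' - b) < 1)
    (h : R.N (dY (R.up f) a b) = 1) : R.N (dY (R.up f) a' b') = 1 := by
  have ha' := v4_int R ha haa
  have hb' := v4_int R hb hbb
  set A : R.O := ⟨a, (R.mem_O a).2 ha⟩ with hA
  set B : R.O := ⟨b, (R.mem_O b).2 hb⟩ with hB
  set A' : R.O := ⟨a', (R.mem_O a').2 ha'⟩ with hA'
  set B' : R.O := ⟨b', (R.mem_O b').2 hb'⟩ with hB'
  have e1 : R.red A' = R.red A := by
    have h1 : R.red (A' - A) = 0 := (R.ker (A' - A)).2 (by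
      have : ((A' - A : R.O) : k) = a' - a := rfl
      rw [this]
      exact haa)
    rw [map_sub] at h1
    exact sub_eq_zero.1 h1
  have e2 : R.red B' = R.red B := by
    have h1 : R.red (B' - B) = 0 := (R.ker (B' - B)).2 (by
      have : ((B' - B : R.O) : k) = b' - b := rfl
      rw [this]
      exact hbb)
    rw [map_sub] at h1
    exact sub_eq_zero.1 h1
  have e3 : R.red (dY f A' B') = R.red (dY f A B) := by
    rw [← dY_dn, ← dY_dn, e1, e2]
  have e4 : R.N ((dY f A B : R.O) : k) = 1 := by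
    rw [← dY_up]
    exact h
  have e5 : R.red (dY f A' B') ≠ 0 := by
    rw [e3]
    intro h0
    have := (R.ker _).1 h0
    rw [e4] at this
    exact lt_irrefl _ this
  have e6 : R.N ((dY f A' B' : R.O) : k) = 1 := by
    refine le_antisymm ((R.mem_O _).1 (dY f A' B').2) ?_
    by_contra hlt
    push Not at hlt
    exact e5 ((R.ker _).2 hlt)
  rw [← dY_up] at e6
  exact e6

/-- `U` = the nonzero ones among `x, y, m, m'` and the other quantities in `Good`. -/
theorem exists_good {k : Type} [Field k] {f : k[X][Y]} {c : Cf k} (hc : IsCfg f c) :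
    ∃ U : Finset k, (0 : k) ∉ U ∧ ∀ (κ : Type) [Field κ] (R : Red k κ), (∀ u ∈ U, R.N u = 1) →
      Good R f c := by
  set U₀ : Finset k := {c.x, c.y, c.m, c.m', c.s, c.t, c.s', c.t', c.s - c.t, c.m - c.m',
    dY f (c.x + c.s) (c.y + c.m * c.s), dY f (c.x + c.t) (c.y + c.m * c.t),
    dY f (c.x + c.s') (c.y + c.m' * c.s')} with hU₀
  refine ⟨U₀.erase 0, Finset.notMem_erase 0 U₀, fun κ _ R hR => ?_⟩
  have hle : ∀ u ∈ U₀, R.N u ≤ 1 := by
    intro u hu
    by_cases h0 : u = 0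
    · rw [h0, map_zero]
      exact zero_le_one
    · exact (hR u (Finset.mem_erase.2 ⟨h0, hu⟩)).le
  have heq : ∀ u ∈ U₀, u ≠ 0 → R.N u = 1 := fun u hu h0 => hR u (Finset.mem_erase.2 ⟨h0, hu⟩)
  obtain ⟨hs, ht, hst, _, _, hda, hdb⟩ := hc.h1
  obtain ⟨hs', ht', _, _, _, hda', _⟩ := hc.h2
  exact {
    ix := hle _ (by simp [hU₀])
    iy := hle _ (by simp [hU₀])
    im := hle _ (by simp [hU₀])
    im' := hle _ (by simp [hU₀])
    us := heq _ (by simp [hU₀]) hs
    ut := heq _ (by simp [hU₀]) ht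
    us' := heq _ (by simp [hU₀]) hs'
    ut' := heq _ (by simp [hU₀]) ht'
    ust := heq _ (by simp [hU₀]) (sub_ne_zero.2 hst)
    umm := heq _ (by simp [hU₀]) (sub_ne_zero.2 hc.ne)
    ua := heq _ (by simp [hU₀]) hda
    ub := heq _ (by simp [hU₀]) hdb
    ua' := heq _ (by simp [hU₀]) hda' }

/-- `Good` is stable under perturbations of norm `< 1`. -/
theorem good_stable {R : Red k κ} {f : R.O[X][Y]} {c₀ c : Cf k} (h : Good R (R.up f) c₀)
    (hx : R.N (c.x - c₀.x) < 1) (hy : R.N (c.y - c₀.y) < 1) (hm : R.N (c.m - c₀.m) < 1)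
    (hs : R.N (c.s - c₀.s) < 1) (ht : R.N (c.t - c₀.t) < 1) (hm' : R.N (c.m' - c₀.m') < 1)
    (hs' : R.N (c.s' - c₀.s') < 1) (ht' : R.N (c.t' - c₀.t') < 1) : Good R (R.up f) c := by
  have im := v4_int R h.im hm
  have im' := v4_int R h.im' hm'
  have hpt : ∀ {y₀ y m₀ m s₀ s : k}, R.N (y - y₀) < 1 → R.N (m - m₀) < 1 → R.N (s - s₀) < 1 →
      R.N m ≤ 1 → R.N s₀ ≤ 1 → R.N ((y + m * s) - (y₀ + m₀ * s₀)) < 1 := by
    intro y₀ y m₀ m s₀ s h1 h2 h3 h4 h5
    have e : (y + m * s) - (y₀ + m₀ * s₀) = (y - y₀) + (m * (s - s₀) + (m - m₀) * s₀) := by ring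
    rw [e]
    exact v4_lt R h1 (v4_lt R (v4_mul_lt R h4 h3) (v4_mul_lt' R h2 h5))
  have hsum : ∀ {x₀ x s₀ s : k}, R.N (x - x₀) < 1 → R.N (s - s₀) < 1 →
      R.N ((x + s) - (x₀ + s₀)) < 1 := by
    intro x₀ x s₀ s h1 h2
    have e : (x + s) - (x₀ + s₀) = (x - x₀) + (s - s₀) := by ring
    rw [e]
    exact v4_lt R h1 h2
  have hdiff : ∀ {x₀ x s₀ s : k}, R.N (x - x₀) < 1 → R.N (s - s₀) < 1 →
      R.N ((x - s) - (x₀ - s₀)) < 1 := by
    intro x₀ x s₀ s h1 h2
    have e : (x - s) - (x₀ - s₀) = (x - x₀) + -(s - s₀) := by ring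
    rw [e]
    exact v4_lt R h1 (by rwa [R.N.map_neg])
  exact {
    ix := v4_int R h.ix hx
    iy := v4_int R h.iy hy
    im := im
    im' := im'
    us := v4_one R h.us hs
    ut := v4_one R h.ut ht
    us' := v4_one R h.us' hs'
    ut' := v4_one R h.ut' ht'
    ust := v4_one R h.ust (hdiff hs ht)
    umm := v4_one R h.umm (hdiff hm hm')
    ua := v4_dY R f (v4_le R h.ix h.us.le) (v4_le R h.iy (v4_mul_le R h.im h.us.le))
      (hsum hx hs) (hpt hy hm hs im h.us.le) h.ua
    ub := v4_dY R f (v4_le R h.ix h.ut.le) (v4_le R h.iy (v4_mul_le R h.im h.ut.le))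
      (hsum hx ht) (hpt hy hm ht im h.ut.le) h.ub
    ua' := v4_dY R f (v4_le R h.ix h.us'.le) (v4_le R h.iy (v4_mul_le R h.im' h.us'.le))
      (hsum hx hs') (hpt hy hm' hs' im' h.us'.le) h.ua' }

end V

end Pool.Agent.LibQuart
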