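import Pool.Agent.LibQuart.QD

/-!
Nonarchimedean absolute values on an algebraic closure of `ℚ`, with many isometric automorphisms.
-/

open scoped Classical
open Polynomial

namespace Pool.Agent.LibQuart

section ultra
variable {k : Type} [Field k] (N : AbsoluteValue k ℝ) (na : ∀ a b, N (a + b) ≤ max (N a) (N b))
include na

theorem na_sum {ι : Type} (s : Finset ι) (f : ι → k) {B : ℝ} (hB : 0 ≤ B)
    (h : ∀ i ∈ s, N (f i) ≤ B) : N (∑ i ∈ s, f i) ≤ B := by
  induction s using Finset.induction_on with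
  | empty => simpa using hB
  | insert a s ha ih =>
    rw [Finset.sum_insert ha]
    refine (na _ _).trans (max_le (h a (Finset.mem_insert_self _ _)) (ih ?_))
    intro i hi
    exact h i (Finset.mem_insert_of_mem hi)

/-- a root of a polynomial with integral coefficients and unit leading coefficient is integral -/
theorem le_one_of_root {P : k[X]} (hc : ∀ i, N (P.coeff i) ≤ 1) (hl : N P.leadingCoeff = 1) {z : k}
    (hz : P.eval z = 0) : N z ≤ 1 := by
  by_contra hlt
  push Not at hlt
  have hP : P ≠ 0 := by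
    rintro rfl
    simp at hl
  have hn : P.natDegree ≠ 0 := by
    intro h0
    rw [eq_C_of_natDegree_eq_zero h0, eval_C] at hz
    rw [leadingCoeff, h0, hz] at hl
    simp at hl
  obtain ⟨n, hn'⟩ := Nat.exists_eq_succ_of_ne_zero hn
  rw [eval_eq_sum_range, Finset.sum_range_succ] at hz
  have h1 : P.coeff P.natDegree * z ^ P.natDegree
      = - ∑ i ∈ Finset.range P.natDegree, P.coeff i * z ^ i := by
    linear_combination hz
  have h2 : N (P.coeff P.natDegree * z ^ P.natDegree) = N z ^ (n + 1) := by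
    have e : N (P.coeff P.natDegree) = 1 := hl
    rw [map_mul, map_pow, e, one_mul, hn']
  have h3 : N (- ∑ i ∈ Finset.range P.natDegree, P.coeff i * z ^ i) ≤ N z ^ n := by
    rw [AbsoluteValue.map_neg]
    apply na_sum N na _ _ (by positivity)
    intro i hi
    rw [map_mul, map_pow]
    rw [Finset.mem_range, hn'] at hi
    calc N (P.coeff i) * N z ^ i ≤ 1 * N z ^ n := by
          apply mul_le_mul (hc i) (pow_le_pow_right₀ hlt.le (by omega)) (by positivity) (by norm_num)
      _ = N z ^ n := one_mul _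
  rw [← h1, h2] at h3
  have h4 : N z ^ n < N z ^ (n + 1) := pow_lt_pow_right₀ hlt (by omega)
  linarith

/-- a root of a polynomial with integral coefficients and unit constant coefficient has absolute
value at least one -/
theorem one_le_of_root {P : k[X]} (hc : ∀ i, N (P.coeff i) ≤ 1) (h0 : N (P.coeff 0) = 1) {z : k}
    (hz : P.eval z = 0) : 1 ≤ N z := by
  by_contra hlt
  push Not at hlt
  rw [eval_eq_sum_range, Finset.sum_range_succ'] at hz
  have h1 : P.coeff 0 = - ∑ i ∈ Finset.range P.natDegree, P.coeff (i + 1) * z ^ (i + 1) := by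
    linear_combination hz
  have h3 : N (- ∑ i ∈ Finset.range P.natDegree, P.coeff (i + 1) * z ^ (i + 1)) ≤ N z := by
    rw [AbsoluteValue.map_neg]
    apply na_sum N na _ _ (by positivity)
    intro i _
    rw [map_mul, map_pow]
    calc N (P.coeff (i + 1)) * N z ^ (i + 1) ≤ 1 * N z ^ 1 := by
          apply mul_le_mul (hc _) (pow_le_pow_of_le_one (by positivity) hlt.le (by omega))
            (by positivity) (by norm_num)
      _ = N z := by rw [one_mul, pow_one]
  rw [← h1, h0] at h3
  linarith

end ultra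

/-- the residue field of an algebraically closed field with a nonarchimedean absolute value -/
theorem exists_red {k : Type} [Field k] [IsAlgClosed k] (N : AbsoluteValue k ℝ)
    (na : ∀ a b, N (a + b) ≤ max (N a) (N b)) (nat : ∀ j : ℕ, j ≠ 0 → (1 : ℝ) / j ≤ N (j : k)) :
    ∃ (κ : Type) (_ : Field κ) (_ : IsAlgClosed κ) (R : Red k κ), R.N = N := by
  let O : Subring k :=
    { carrier := {c | N c ≤ 1}
      mul_mem' := fun {a b} ha hb => by
        change N (a * b) ≤ 1
        rw [map_mul]
        exact mul_le_one₀ ha (AbsoluteValue.nonneg _ _) hb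
      one_mem' := by change N 1 ≤ 1; rw [map_one]
      add_mem' := fun {a b} ha hb => (na a b).trans (max_le ha hb)
      zero_mem' := by change N 0 ≤ 1; rw [map_zero]; norm_num
      neg_mem' := fun {a} ha => by change N (-a) ≤ 1; rw [AbsoluteValue.map_neg]; exact ha }
  have memO : ∀ c, c ∈ O ↔ N c ≤ 1 := fun c => Iff.rfl
  let I : Ideal O :=
    { carrier := {c | N (c : k) < 1}
      add_mem' := fun {a b} ha hb => lt_of_le_of_lt (na a b) (max_lt ha hb)
      zero_mem' := by change N (((0 : O) : k)) < 1; simp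
      smul_mem' := fun c a ha => by
        change N (((c * a : O) : k)) < 1
        rw [Subring.coe_mul, map_mul]
        calc N (c : k) * N (a : k) ≤ 1 * N (a : k) :=
              mul_le_mul_of_nonneg_right c.2 (AbsoluteValue.nonneg _ _)
          _ < 1 := by rw [one_mul]; exact ha }
  have memI : ∀ c : O, c ∈ I ↔ N (c : k) < 1 := fun c => Iff.rfl
  have hmax : I.IsMaximal := by
    rw [Ideal.isMaximal_iff]
    refine ⟨?_, ?_⟩
    · rw [memI]; simp
    · intro J x hIJ hx hxJ
      rw [memI] at hx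
      have hx1 : N (x : k) = 1 := le_antisymm x.2 (not_lt.mp hx)
      have hx0 : (x : k) ≠ 0 := by
        intro h; rw [h, map_zero] at hx1; norm_num at hx1
      have hy : (x : k)⁻¹ ∈ O := by rw [memO, map_inv₀, hx1]; norm_num
      have : (⟨(x : k)⁻¹, hy⟩ : O) * x = 1 := by
        apply Subtype.ext
        change (x : k)⁻¹ * (x : k) = 1
        exact inv_mul_cancel₀ hx0
      rw [← this]
      exact J.mul_mem_left _ hxJ
  let _ : Field (O ⧸ I) := Ideal.Quotient.field I
  have hker : ∀ c : O, Ideal.Quotient.mk I c = 0 ↔ N (c : k) < 1 := fun c => by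
    rw [Ideal.Quotient.eq_zero_iff_mem]; exact memI c
  have hsurj : Function.Surjective (Ideal.Quotient.mk I) := Ideal.Quotient.mk_surjective
  have hcl : IsAlgClosed (O ⧸ I) := by
    apply IsAlgClosed.of_exists_root
    intro p hp hirr
    have hlift : p ∈ lifts (Ideal.Quotient.mk I) := by
      rw [lifts_iff_coeff_lifts]
      intro n
      exact hsurj _
    obtain ⟨q, hq, hdeg, hmon⟩ := lifts_and_natDegree_eq_and_monic hlift hp
    have hqk : (q.map O.subtype).Monic := hmon.map _
    have hdeg' : (q.map O.subtype).degree ≠ 0 := by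
      have h1 : (q.map O.subtype).natDegree = p.natDegree := by
        rw [hmon.natDegree_map, hdeg]
      intro h0
      have h2 := natDegree_eq_zero_iff_degree_le_zero.mpr h0.le
      have h3 := hirr.natDegree_pos
      rw [h1] at h2
      omega
    obtain ⟨z, hz⟩ := IsAlgClosed.exists_root _ hdeg'
    have hzO : z ∈ O := by
      rw [memO]
      apply le_one_of_root N na (P := q.map O.subtype) _ _ hz
      · intro i
        rw [coeff_map]
        exact (q.coeff i).2
      · rw [hqk.leadingCoeff, map_one]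
    refine ⟨Ideal.Quotient.mk I ⟨z, hzO⟩, ?_⟩
    have h1 : q.eval ⟨z, hzO⟩ = 0 := by
      apply Subtype.ext
      change O.subtype (q.eval ⟨z, hzO⟩) = 0
      rw [← eval_map_apply]
      exact hz
    rw [← hq, eval_map_apply, h1, map_zero]
  exact ⟨O ⧸ I, inferInstance, hcl, ⟨N, na, O, memO, Ideal.Quotient.mk I, hsurj, hker, nat⟩, rfl⟩

/-! ### `p`-adic numbers -/

/-- a `p`-adic number with `z ^ (d + 1) = p ^ d` does not exist for `d ≥ 1` -/
theorem no_root_p (p : ℕ) [Fact p.Prime] {d : ℕ} (hd : 1 ≤ d) (z : ℚ_[p]) :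
    z ^ (d + 1) ≠ (p : ℚ_[p]) ^ d := by
  intro h
  have hp0 : (p : ℚ_[p]) ≠ 0 := by exact_mod_cast (Fact.out : p.Prime).ne_zero
  have hz : z ≠ 0 := by
    rintro rfl
    rw [zero_pow (by omega)] at h
    exact pow_ne_zero _ hp0 h.symm
  have h1 := congrArg Padic.valuation h
  rw [Padic.valuation_pow, Padic.valuation_pow, Padic.valuation_p, mul_one] at h1
  have h2 : ((d + 1 : ℕ) : ℤ) ∣ (d : ℤ) := ⟨_, h1.symm⟩
  have h3 := Int.le_of_dvd (by exact_mod_cast hd) h2
  push_cast at h3
  omega

theorem padic_int_unit (p : ℕ) [Fact p.Prime] (c : ℤ) (hc : c ≠ 0) (h : c.natAbs < p) :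
    ‖(c : ℚ_[p])‖ = 1 := by
  apply le_antisymm (Padic.norm_int_le_one c)
  by_contra hlt
  push Not at hlt
  rw [Padic.norm_intCast_lt_one_iff] at hlt
  have := Int.natAbs_dvd_natAbs.mpr hlt
  have h2 := Nat.le_of_dvd (Int.natAbs_pos.mpr hc) this
  rw [Int.natAbs_natCast] at h2
  omega

theorem padic_nat (p : ℕ) [Fact p.Prime] (j : ℕ) (hj : j ≠ 0) : (1 : ℝ) / j ≤ ‖(j : ℚ_[p])‖ := by
  have hj0 : (j : ℚ_[p]) ≠ 0 := by exact_mod_cast hj
  have hp : 0 < p := (Fact.out : p.Prime).pos
  rw [Padic.norm_eq_zpow_neg_valuation hj0, Padic.valuation_natCast, zpow_neg, zpow_natCast,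
    one_div]
  apply inv_anti₀ (by positivity)
  have := Nat.le_of_dvd (Nat.pos_of_ne_zero hj) (pow_padicValNat_dvd (p := p) (n := j))
  exact_mod_cast this

/-- Given finitely many nonzero elements there is a nonarchimedean absolute value for which they
are units, and which has isometric automorphisms fixing a given finite set and moving a small
element. -/
theorem E_main_gen {k : Type} [Field k] [CharZero k] [IsAlgClosed k] [Algebra.IsAlgebraic ℚ k]
    (U : Finset k) (hU : ∀ u ∈ U, u ≠ 0) :
    ∃ (κ : Type) (_ : Field κ) (_ : IsAlgClosed κ) (R : Red k κ), (∀ u ∈ U, R.N u = 1) ∧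
      ∀ (S : Finset k) (ε : ℝ), 0 < ε → ∃ (δ : k) (σ : k ≃+* k), R.N δ < ε ∧ (∀ z ∈ S, σ z = z) ∧
        (∀ z, R.N (σ z) = R.N z) ∧ σ δ ≠ δ := by
  have hq : ∀ u : k, u ∈ U → ∃ q : ℤ[X], q.coeff 0 ≠ 0 ∧ aeval u q = 0 := by
    intro u hu
    have h1 : IsAlgebraic ℤ u :=
      (IsFractionRing.isAlgebraic_iff ℤ ℚ k).mpr (Algebra.IsAlgebraic.isAlgebraic u)
    exact h1.exists_nonzero_coeff_and_aeval_eq_zero (mem_nonZeroDivisors_of_ne_zero (hU u hu))
  choose! q hq0 hqu using hq
  obtain ⟨p, hpB, hp⟩ := Nat.exists_infinite_primes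
    (∑ u ∈ U, (((q u).coeff 0).natAbs + ((q u).leadingCoeff).natAbs) + 1)
  have : Fact p.Prime := ⟨hp⟩
  have hbound : ∀ u ∈ U, ((q u).coeff 0).natAbs + ((q u).leadingCoeff).natAbs < p := by
    intro u hu
    have := Finset.single_le_sum (f := fun u => ((q u).coeff 0).natAbs +
      ((q u).leadingCoeff).natAbs) (fun _ _ => Nat.zero_le _) hu
    omega
  let τ : k →ₐ[ℚ] PadicAlgCl p := IsAlgClosed.lift
  let N : AbsoluteValue k ℝ := (NormedField.toAbsoluteValue (PadicAlgCl p)).comp
    (f := (τ : k →+* PadicAlgCl p)) τ.injective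
  have hN : ∀ z, N z = ‖τ z‖ := fun z => rfl
  have na : ∀ a b, N (a + b) ≤ max (N a) (N b) := by
    intro a b
    rw [hN, hN, hN, map_add]
    exact PadicAlgCl.isNonarchimedean p _ _
  have hNint : ∀ c : ℤ, N (c : k) = ‖(c : ℚ_[p])‖ := by
    intro c
    rw [hN, map_intCast, ← PadicAlgCl.norm_extends p (c : ℚ_[p]), map_intCast]
  have hNnat : ∀ c : ℕ, N (c : k) = ‖(c : ℚ_[p])‖ := by
    intro c
    have := hNint c
    simpa using this
  obtain ⟨κ, i1, i2, R, hR⟩ := exists_red N na (fun j hj => by rw [hNnat]; exact padic_nat p j hj)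
  refine ⟨κ, i1, i2, R, ?_, ?_⟩
  · intro u hu
    rw [hR]
    have hroot : ((q u).map (Int.castRingHom k)).eval u = 0 := by
      rw [eval_map, ← hqu u hu, aeval_def]
      rfl
    have hc : ∀ i, N (((q u).map (Int.castRingHom k)).coeff i) ≤ 1 := by
      intro i
      rw [coeff_map, eq_intCast, hNint]
      exact Padic.norm_int_le_one _
    have hqne : q u ≠ 0 := by
      intro h
      apply hq0 u hu
      rw [h, coeff_zero]
    have hlc : N ((q u).map (Int.castRingHom k)).leadingCoeff = 1 := by
      rw [leadingCoeff_map_of_injective (Int.castRingHom k).injective_int, eq_intCast, hNint]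
      apply padic_int_unit p _ (leadingCoeff_ne_zero.mpr hqne)
      have := hbound u hu
      omega
    have hc0 : N (((q u).map (Int.castRingHom k)).coeff 0) = 1 := by
      rw [coeff_map, eq_intCast, hNint]
      apply padic_int_unit p _ (hq0 u hu)
      have := hbound u hu
      omega
    exact le_antisymm (le_one_of_root N na hc hlc hroot) (one_le_of_root N na hc hc0 hroot)
  · intro S ε hε
    rw [hR]
    let L : IntermediateField ℚ_[p] (PadicAlgCl p) :=
      IntermediateField.adjoin ℚ_[p] ((S.image τ : Finset (PadicAlgCl p)) : Set (PadicAlgCl p))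
    have hfin : FiniteDimensional ℚ_[p] L := by
      apply IntermediateField.finiteDimensional_adjoin
      intro x _
      exact (Algebra.IsAlgebraic.isAlgebraic x).isIntegral
    set d := Module.finrank ℚ_[p] L with hd
    have hd1 : 1 ≤ d := Module.finrank_pos
    obtain ⟨α, hα⟩ := IsAlgClosed.exists_pow_nat_eq (p : k) (Nat.succ_pos d)
    have hp1 : N (p : k) = (p : ℝ)⁻¹ := by
      rw [hNnat]; exact Padic.norm_p
    have hp1' : N (p : k) < 1 := by
      rw [hp1]
      apply inv_lt_one_of_one_lt₀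
      exact_mod_cast hp.one_lt
    have hα1 : N α ≤ 1 := by
      by_contra hlt
      push Not at hlt
      have h1 : 1 < N α ^ (d.succ) := one_lt_pow₀ hlt (by omega)
      rw [← map_pow, hα] at h1
      linarith
    obtain ⟨M, hM⟩ := exists_pow_lt_of_lt_one hε hp1'
    have hαL : τ α ∉ L := by
      intro hmem
      have h1 : (⟨τ α, hmem⟩ : L) ^ (d + 1) = algebraMap ℚ_[p] L (p : ℚ_[p]) := by
        apply Subtype.ext
        change (τ α) ^ (d + 1) = algebraMap ℚ_[p] (PadicAlgCl p) (p : ℚ_[p])
        rw [← map_pow, hα, map_natCast, map_natCast]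
      have h2 := congrArg (Algebra.norm ℚ_[p]) h1
      rw [map_pow, Algebra.norm_algebraMap] at h2
      exact no_root_p p hd1 _ h2
    have hpτ : (p : PadicAlgCl p) ≠ 0 := by exact_mod_cast hp.ne_zero
    have hδL : τ ((p : k) ^ M * α) ∉ L := by
      intro hmem
      apply hαL
      have hpm : ((p : PadicAlgCl p) ^ M) ∈ L := by
        have : (p : PadicAlgCl p) = algebraMap ℚ_[p] (PadicAlgCl p) (p : ℚ_[p]) := by
          rw [map_natCast]
        rw [this]
        exact pow_mem (L.algebraMap_mem _) _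
      rw [map_mul, map_pow, map_natCast] at hmem
      have := L.mul_mem (L.inv_mem hpm) hmem
      rwa [inv_mul_cancel_left₀ (pow_ne_zero _ hpτ)] at this
    have hex : ∃ σ ∈ L.fixingSubgroup, σ (τ ((p : k) ^ M * α)) ≠ τ ((p : k) ^ M * α) := by
      by_contra hcon
      push Not at hcon
      apply hδL
      rw [← InfiniteGalois.fixedField_fixingSubgroup L, IntermediateField.mem_fixedField_iff]
      exact hcon
    obtain ⟨σ, hσL, hσ⟩ := hex
    let _ : Algebra k (PadicAlgCl p) := (τ : k →+* PadicAlgCl p).toAlgebra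
    have : IsScalarTower ℚ k (PadicAlgCl p) :=
      IsScalarTower.of_algebraMap_eq (fun x => (τ.commutes x).symm)
    have : Normal ℚ k := normal_iff.mpr fun x =>
      ⟨(Algebra.IsAlgebraic.isAlgebraic x).isIntegral, IsAlgClosed.splits _⟩
    let σ' : PadicAlgCl p ≃ₐ[ℚ] PadicAlgCl p := σ.restrictScalars ℚ
    have hres : ∀ z, τ ((σ'.restrictNormal k) z) = σ (τ z) := fun z =>
      AlgEquiv.restrictNormal_commutes σ' k z
    refine ⟨(p : k) ^ M * α, (σ'.restrictNormal k).toRingEquiv, ?_, ?_, ?_, ?_⟩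
    · rw [map_mul, map_pow]
      calc N (p : k) ^ M * N α ≤ N (p : k) ^ M * 1 :=
            mul_le_mul_of_nonneg_left hα1 (by positivity)
        _ < ε := by rw [mul_one]; exact hM
    · intro z hz
      apply τ.injective
      change τ ((σ'.restrictNormal k) z) = τ z
      rw [hres]
      have hzL : τ z ∈ L := IntermediateField.subset_adjoin _ _
        (by exact_mod_cast Finset.mem_image_of_mem τ hz)
      exact (IntermediateField.mem_fixingSubgroup_iff _ _).mp hσL _ hzL
    · intro z
      change N ((σ'.restrictNormal k) z) = N z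
      rw [hN, hres, hN]
      have := spectralNorm_eq_of_equiv (K := ℚ_[p]) σ (τ z)
      rw [PadicAlgCl.spectralNorm_eq, PadicAlgCl.spectralNorm_eq] at this
      exact this.symm
    · intro h
      apply hσ
      have h1 : τ ((σ'.restrictNormal k) ((p : k) ^ M * α)) = τ ((p : k) ^ M * α) :=
        congrArg τ h
      rwa [hres] at h1

theorem isAlgebraic_closure : Algebra.IsAlgebraic ℚ (AlgebraicClosure ℚ) := by
  have h := AlgebraicClosure.isAlgebraic ℚ
  have e : (AlgebraicClosure.instAlgebra ℚ : Algebra ℚ (AlgebraicClosure ℚ)) =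
    DivisionRing.toRatAlgebra := Subsingleton.elim _ _
  rw [e] at h
  exact h

/-- `E_main_gen` for an algebraic closure of `ℚ` -/
theorem E_main (U : Finset (AlgebraicClosure ℚ)) (hU : ∀ u ∈ U, u ≠ 0) :
    ∃ (κ : Type) (_ : Field κ) (_ : IsAlgClosed κ) (R : Red (AlgebraicClosure ℚ) κ),
      (∀ u ∈ U, R.N u = 1) ∧
      ∀ (S : Finset (AlgebraicClosure ℚ)) (ε : ℝ), 0 < ε →
        ∃ (δ : AlgebraicClosure ℚ) (σ : AlgebraicClosure ℚ ≃+* AlgebraicClosure ℚ),
          R.N δ < ε ∧ (∀ z ∈ S, σ z = z) ∧ (∀ z, R.N (σ z) = R.N z) ∧ σ δ ≠ δ := by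
  have := isAlgebraic_closure
  exact E_main_gen U hU

end Pool.Agent.LibQuart
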