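import Pool.Agent.LibQuart.ExE

/-!
Existence of a point of a smooth plane quartic with two simple tangents through it.
-/

open scoped Classical
open Polynomial
open scoped Polynomial.Bivariate

namespace Pool.Agent.LibQuart

section gen
variable {k : Type} [Field k] {q : ℕ → ℕ → k}

theorem exDP_eval (q : ℕ → ℕ → k) (a b m : k) : (DP (exQ q) a b).eval m =
    disc3 (ex1 q a b m) (ex2 q a b m) (ex3 q a b m) (ex4 q m) := by
  rw [exQ_DP, ← exc1_eval, ← exc2_eval, ← exc3_eval, ← exc4_eval]
  unfold disc3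
  simp

/-- abscissas of tangent points with slope at infinity -/
def exS3 (q : ℕ → ℕ → k) : Set k :=
  {a : k | ∃ b m, exF q a b = 0 ∧ ex4 q m = 0 ∧ ex1 q a b m = 0}

/-- abscissas of points on tangents at points with abscissa in `B` -/
def exT (q : ℕ → ℕ → k) (B : Set k) : Set k :=
  {x : k | ∃ b m s, exF q x b = 0 ∧ exF q (x + s) (b + m * s) = 0 ∧
      ex1 q (x + s) (b + m * s) m = 0 ∧ x + s ∈ B}

/-- first exceptional set -/
def exZ (q : ℕ → ℕ → k) : Set k :=
  {a : k | ∃ b, exF q a b = 0 ∧ exY q a b = 0} ∪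
    ({a : k | ∃ b m, exF q a b = 0 ∧ ex4 q m = 0 ∧ ex3 q a b m = 0} ∪ exT q (exS3 q))

theorem exZ_fin [IsAlgClosed k] [CharZero k] (H : ExH q) : (exZ q).Finite :=
  (ex_S1 H).union ((ex_S5 H).union (ex_T H _ (ex_S3 H)))

theorem exZ_Y {x y : k} (hx : x ∉ exZ q) (hy : exF q x y = 0) : exY q x y ≠ 0 :=
  fun h => hx (Or.inl ⟨y, hy, h⟩)

theorem exZ_deg [IsAlgClosed k] {x y : k} (hx : x ∉ exZ q) (hy : exF q x y = 0) :
    (DP (exQ q) x y).natDegree = 10 := by
  obtain ⟨h1, h2⟩ := exDP_deg q x y
  apply le_antisymm h1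
  apply le_natDegree_of_ne_zero
  rw [h2]
  intro h
  obtain ⟨s, t, e3, e2, e1⟩ := ex_double _ _ _ _ one_ne_zero h
  apply hx
  left
  refine ⟨y + s, ?_, ?_⟩
  · have e : exF q x (y + s) = exF q x y + s * (exY q x y + exYY q x y * s
        + (4 * y + q 1 3 * x + q 0 3) * s ^ 2 + s ^ 3) := by
      unfold exF exY exYY
      ring
    rw [e, hy, e1, e2, e3]
    ring
  · have e : exY q x (y + s) = exY q x y + 2 * exYY q x y * s
        + 3 * (4 * y + q 1 3 * x + q 0 3) * s ^ 2 + 4 * s ^ 3 := by
      unfold exY exYY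
      ring
    rw [e, e1, e2, e3]
    ring

theorem exZ_four [CharZero k] {x y m : k} (hx : x ∉ exZ q) (hy : exF q x y = 0)
    (hm : (DP (exQ q) x y).eval m = 0) : ex4 q m ≠ 0 := by
  intro h4
  rw [exDP_eval, h4] at hm
  have h3 : ex3 q x y m ≠ 0 := fun h3 => hx (Or.inr (Or.inl ⟨y, m, hy, h4, h3⟩))
  have h5 : ex2 q x y m ^ 2 - 4 * ex1 q x y m * ex3 q x y m = 0 := by
    have e : ex3 q x y m ^ 2 * (ex2 q x y m ^ 2 - 4 * ex1 q x y m * ex3 q x y m) = 0 := by
      unfold disc3 at hm
      linear_combination hm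
    rcases mul_eq_zero.1 e with h6 | h6
    · exact absurd h6 (pow_ne_zero 2 h3)
    · exact h6
  have h2 : (2 : k) ≠ 0 := two_ne_zero
  set s : k := -ex2 q x y m / (2 * ex3 q x y m) with hs
  have hs1 : ex2 q x y m = -2 * ex3 q x y m * s := by
    rw [hs]
    field_simp
  have hs2 : ex1 q x y m = ex3 q x y m * s ^ 2 := by
    have h4' : (4 : k) * ex3 q x y m ≠ 0 := mul_ne_zero (by norm_num) h3
    apply mul_left_cancel₀ h4'
    rw [hs1] at h5
    linear_combination -h5
  apply hx
  right
  right
  refine ⟨y, m, s, hy, ?_, ?_, ?_⟩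
  · rw [ex_taylor0, hy, hs1, hs2, h4]
    ring
  · rw [ex_taylor1, hs1, hs2, h4]
    ring
  · refine ⟨y + m * s, m, ?_, h4, ?_⟩
    · rw [ex_taylor0, hy, hs1, hs2, h4]
      ring
    · rw [ex_taylor1, hs1, hs2, h4]
      ring

/-- the structure of a tangent through a general point -/
structure ExR (q : ℕ → ℕ → k) (x y m s t : k) : Prop where
  h4 : ex4 q m ≠ 0
  e3 : ex3 q x y m = -ex4 q m * (2 * s + t)
  e2 : ex2 q x y m = ex4 q m * (s ^ 2 + 2 * s * t)
  e1 : ex1 q x y m = -ex4 q m * s ^ 2 * t
  f0 : exF q (x + s) (y + m * s) = 0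
  f1 : ex1 q (x + s) (y + m * s) m = 0
  g0 : exF q (x + t) (y + m * t) = 0
  f2 : ex2 q (x + s) (y + m * s) m = ex4 q m * (s * (s - t))
  f3 : ex3 q (x + s) (y + m * s) m = ex4 q m * (2 * s - t)
  yne : exY q (x + s) (y + m * s) ≠ 0
  m1 : s ≠ t → (DP (exQ q) x y).rootMultiplicity m = 1
  m2 : s = t → (DP (exQ q) x y).rootMultiplicity m = 2

theorem exR_exists [IsAlgClosed k] [CharZero k] (H : ExH q) {x y m : k} (hx : x ∉ exZ q)
    (hy : exF q x y = 0) (hm : (DP (exQ q) x y).eval m = 0) : ∃ s t, ExR q x y m s t := by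
  have h4 := exZ_four hx hy hm
  rw [exDP_eval] at hm
  obtain ⟨s, t, e3, e2, e1⟩ := ex_double _ _ _ _ h4 hm
  have f0 : exF q (x + s) (y + m * s) = 0 := by
    rw [ex_taylor0, hy, e1, e2, e3]
    ring
  have f1 : ex1 q (x + s) (y + m * s) m = 0 := by
    rw [ex_taylor1, e1, e2, e3]
    ring
  have yne : exY q (x + s) (y + m * s) ≠ 0 := by
    intro h
    have f1' := f1
    unfold ex1 at f1'
    rw [h] at f1'
    exact ex_smooth H.sm _ _ f0 (by simpa using f1') h
  have hder := ex_d1_der q x y s m
  have v1 : (exc1 q x y + exc2 q x y * C s + exc3 q x y * C s ^ 2 + exc4 q * C s ^ 3).eval m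
      = 0 := by
    simp only [eval_add, eval_mul, eval_pow, eval_C, exc1_eval, exc2_eval, exc3_eval, exc4_eval]
    rw [e1, e2, e3]
    ring
  have v2 : (exc2 q x y + 2 * exc3 q x y * C s + 3 * exc4 q * C s ^ 2).eval m = 0 := by
    simp only [eval_add, eval_mul, eval_pow, eval_C, exc2_eval, exc3_eval, exc4_eval, eval_ofNat]
    rw [e2, e3]
    ring
  have v3 : (exc3 q x y + 3 * exc4 q * C s).eval m = ex4 q m * (s - t) := by
    simp only [eval_add, eval_mul, eval_C, exc3_eval, exc4_eval, eval_ofNat]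
    rw [e3]
    ring
  refine ⟨s, t, h4, e3, e2, e1, f0, f1, ?_, ?_, ?_, yne, ?_, ?_⟩
  · rw [ex_taylor0, hy, e1, e2, e3]
    ring
  · rw [ex_taylor2, e2, e3]
    ring
  · rw [ex_taylor3, e3]
    ring
  · intro hst
    rw [exQ_DP, ex_disc_shift _ _ _ _ (C s)]
    apply ex_mult1 _ _ _ _ m v1 v2
    · rw [hder]
      exact yne
    · rw [v3]
      exact mul_ne_zero h4 (sub_ne_zero.2 hst)
  · intro hst
    rw [exQ_DP, ex_disc_shift _ _ _ _ (C s)]
    apply ex_mult2 _ _ _ _ m v1 v2
    · rw [v3, hst]
      ring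
    · rw [hder]
      exact yne
    · rw [exc4_eval]
      exact h4

/-- the Hessian condition for flexes -/
def exHs (q : ℕ → ℕ → k) (a b : k) : k :=
  exXX q a b * exY q a b ^ 2 - exXY q a b * exX q a b * exY q a b + exYY q a b * exX q a b ^ 2

theorem exHs_eq (q : ℕ → ℕ → k) (a b m : k) (h : ex1 q a b m = 0) :
    exHs q a b = exY q a b ^ 2 * ex2 q a b m := by
  have h1 : exX q a b = -m * exY q a b := by
    unfold ex1 at h
    linear_combination h
  unfold exHs ex2
  rw [h1]
  ring

noncomputable def exPH (q : ℕ → ℕ → k) : k[X][Y] :=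
  exPXX q * exPY q ^ 2 - exPXY q * exPX q * exPY q + exPYY q * exPX q ^ 2

theorem exPH_eval (q : ℕ → ℕ → k) (a b : k) : (exPH q).evalEval a b = exHs q a b := by
  unfold exPH exHs
  rw [evalEval_add, evalEval_sub, evalEval_mul, evalEval_pow, evalEval_mul, evalEval_mul,
    evalEval_mul, evalEval_pow, exPX_eval, exPY_eval, exPXX_eval, exPXY_eval, exPYY_eval]

/-- the number of roots with multiplicity -/
theorem ex_count [IsAlgClosed k] (D : k[X]) (hD : D.natDegree = 10) :
    ∑ m ∈ D.roots.toFinset, D.rootMultiplicity m = 10 := by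
  have h1 : D.roots.card = D.natDegree := by
    have := IsAlgClosed.splits D
    exact (splits_iff_card_roots).1 this
  rw [hD] at h1
  rw [← h1, ← Multiset.toFinset_sum_count_eq]
  apply Finset.sum_congr rfl
  intro m _
  rw [count_roots]

/-- finitely many flexes -/
theorem ex_flex [IsAlgClosed k] [CharZero k] (H : ExH q) :
    {a : k | ∃ b, exF q a b = 0 ∧ exHs q a b = 0}.Finite := by
  by_cases hdvd : exQ q ∣ exPH q
  · exfalso
    have hall : ∀ a b, exF q a b = 0 → exHs q a b = 0 := by
      intro a b hab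
      obtain ⟨g, hg⟩ := hdvd
      rw [← exPH_eval, hg, evalEval_mul, exQ_eval, hab, zero_mul]
    -- tangent slope
    have hslope : ∀ x y, exY q x y ≠ 0 → ∀ m, ex1 q x y m = 0 ↔ m = -exX q x y / exY q x y := by
      intro x y hY m
      unfold ex1
      rw [eq_div_iff hY]
      constructor
      · intro h
        linear_combination h
      · intro h
        linear_combination h
    -- tangents at other points
    have hother : ∀ x y m s t, exF q x y = 0 → ExR q x y m s t → ex1 q x y m ≠ 0 →
        s ≠ 0 ∧ s = t := by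
      intro x y m s t hy hR hne
      have hs : s ≠ 0 := by
        intro hs
        apply hne
        rw [hR.e1, hs]
        ring
      refine ⟨hs, ?_⟩
      have h1 := hall _ _ hR.f0
      rw [exHs_eq q _ _ m hR.f1] at h1
      rcases mul_eq_zero.1 h1 with h2 | h2
      · exact absurd h2 (pow_ne_zero 2 hR.yne)
      · rw [hR.f2] at h2
        rcases mul_eq_zero.1 h2 with h3 | h3
        · exact absurd h3 hR.h4
        · rcases mul_eq_zero.1 h3 with h4 | h4
          · exact absurd h4 hs
          · exact sub_eq_zero.1 h4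
    have hDne : ∀ x y, x ∉ exZ q → exF q x y = 0 → DP (exQ q) x y ≠ 0 := by
      intro x y hx hy h
      have := exZ_deg hx hy
      rw [h, natDegree_zero] at this
      omega
    -- general points are hyperflexes
    have hhyper : ∀ x y m, x ∉ exZ q → exF q x y = 0 → ex1 q x y m = 0 → ex3 q x y m = 0 := by
      intro x y m0 hx hy hm0
      have hY := exZ_Y hx hy
      have h2 : ex2 q x y m0 = 0 := by
        have h1 := hall _ _ hy
        rw [exHs_eq q _ _ m0 hm0] at h1
        rcases mul_eq_zero.1 h1 with h2 | h2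
        · exact absurd h2 (pow_ne_zero 2 hY)
        · exact h2
      have hroot : (DP (exQ q) x y).eval m0 = 0 := by
        rw [exDP_eval, hm0, h2]
        unfold disc3
        ring
      obtain ⟨s, t, hR⟩ := exR_exists H hx hy hroot
      have hs : s = 0 := by
        by_contra hs
        have e1 := hR.e1
        have e2 := hR.e2
        rw [hm0] at e1
        rw [h2] at e2
        have ht : t = 0 := by
          have h5 : ex4 q m0 * s ^ 2 * t = 0 := by linear_combination e1
          rcases mul_eq_zero.1 h5 with h6 | h6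
          · exact absurd h6 (mul_ne_zero hR.h4 (pow_ne_zero 2 hs))
          · exact h6
        rw [ht] at e2
        have h5 : ex4 q m0 * s ^ 2 = 0 := by linear_combination -e2
        exact mul_ne_zero hR.h4 (pow_ne_zero 2 hs) h5
      by_cases ht : t = 0
      · rw [hR.e3, hs, ht]
        ring
      · exfalso
        have hst : s ≠ t := by
          rw [hs]
          exact fun h => ht h.symm
        have hm1 := hR.m1 hst
        have hcount := ex_count _ (exZ_deg hx hy)
        have hmem : m0 ∈ (DP (exQ q) x y).roots.toFinset := by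
          rw [Multiset.mem_toFinset, mem_roots (hDne x y hx hy)]
          exact hroot
        rw [← Finset.add_sum_erase _ _ hmem, hm1] at hcount
        have h2' : ∀ m ∈ (DP (exQ q) x y).roots.toFinset.erase m0,
            (DP (exQ q) x y).rootMultiplicity m = 2 := by
          intro m hm
          rw [Finset.mem_erase, Multiset.mem_toFinset, mem_roots (hDne x y hx hy)] at hm
          obtain ⟨s', t', hR'⟩ := exR_exists H hx hy hm.2
          have hne : ex1 q x y m ≠ 0 := by
            intro h
            rw [hslope x y hY] at h hm0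
            exact hm.1 (h.trans hm0.symm)
          exact hR'.m2 (hother x y m s' t' hy hR' hne).2
        rw [Finset.sum_congr rfl h2', Finset.sum_const, smul_eq_mul] at hcount
        omega
    -- contradiction
    have hfin : (exZ q ∪ exT q (exZ q)).Finite := (exZ_fin H).union (ex_T H _ (exZ_fin H))
    have hinf : Infinite k := IsAlgClosed.instInfinite
    obtain ⟨x, hx⟩ := hfin.exists_notMem
    have hx1 : x ∉ exZ q := fun h => hx (Or.inl h)
    have hx2 : x ∉ exT q (exZ q) := fun h => hx (Or.inr h)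
    obtain ⟨y, hy⟩ := ex_fiber_ne q x
    have hY := exZ_Y hx1 hy
    set m0 := -exX q x y / exY q x y with hm0
    have hex : ∃ m, (DP (exQ q) x y).eval m = 0 ∧ m ≠ m0 := by
      by_contra hcon
      push Not at hcon
      have hcount := ex_count _ (exZ_deg hx1 hy)
      have hsub : (DP (exQ q) x y).roots.toFinset ⊆ {m0} := by
        intro m hm
        rw [Multiset.mem_toFinset, mem_roots (hDne x y hx1 hy)] at hm
        rw [Finset.mem_singleton]
        exact hcon m hm
      rcases Finset.subset_singleton_iff.1 hsub with h | h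
      · rw [h, Finset.sum_empty] at hcount
        omega
      · rw [h, Finset.sum_singleton] at hcount
        have hm : m0 ∈ (DP (exQ q) x y).roots.toFinset := by
          rw [h]
          exact Finset.mem_singleton_self _
        rw [Multiset.mem_toFinset, mem_roots (hDne x y hx1 hy)] at hm
        obtain ⟨s, t, hR⟩ := exR_exists H hx1 hy hm
        by_cases hst : s = t
        · have := hR.m2 hst
          omega
        · have := hR.m1 hst
          omega
    obtain ⟨m, hm, hmne⟩ := hex
    obtain ⟨s, t, hR⟩ := exR_exists H hx1 hy hm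
    have hne : ex1 q x y m ≠ 0 := by
      intro h
      rw [hslope x y hY] at h
      exact hmne h
    obtain ⟨hs, hst⟩ := hother x y m s t hy hR hne
    have hxs : x + s ∉ exZ q := fun h => hx2 ⟨y, m, s, hy, hR.f0, hR.f1, h⟩
    have h3 := hhyper _ _ m hxs hR.f0 hR.f1
    rw [hR.f3, ← hst] at h3
    rcases mul_eq_zero.1 h3 with h4 | h4
    · exact hR.h4 h4
    · exact hs (by linear_combination h4)
  · have := ex_fin_of_not_dvd H (exPH q) hdvd
    simpa only [exPH_eval] using this

end gen

section main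
variable {k : Type} [Field k]

/-- On every smooth plane quartic there is a point with two simple tangents through it. -/
theorem exists_cfg [IsAlgClosed k] [CharZero k] {f : k[X][Y]} (hf : Qt f) (h1 : Sm f)
    (h2 : Sm (flip 4 f)) : ∃ c : Cf k, IsCfg f c := by
  obtain ⟨q, hq⟩ : ∃ q : ℕ → ℕ → k, f = exQ q := ⟨_, exQ_of_Qt hf⟩
  subst hq
  have H : ExH q := ⟨hf, h1, h2⟩
  set B : Set k := {a : k | ∃ b, exF q a b = 0 ∧ exHs q a b = 0} ∪
    {a : k | ∃ b u v, exF q a b = 0 ∧ exF q u v = 0 ∧ exY q u v = 0 ∧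
      exX q a b * (u - a) + exY q a b * (v - b) = 0} with hB
  have hBfin : B.Finite := (ex_flex H).union (ex_S4 H)
  have hfin : (exZ q ∪ exT q B).Finite := (exZ_fin H).union (ex_T H _ hBfin)
  have hinf : Infinite k := IsAlgClosed.instInfinite
  obtain ⟨x, hx⟩ := hfin.exists_notMem
  have hx1 : x ∉ exZ q := fun h => hx (Or.inl h)
  have hx2 : x ∉ exT q B := fun h => hx (Or.inr h)
  obtain ⟨y, hy⟩ := ex_fiber_ne q x
  have hY := exZ_Y hx1 hy
  set D := DP (exQ q) x y with hD
  have hdeg : D.natDegree = 10 := exZ_deg hx1 hy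
  have hD0 : D ≠ 0 := by
    intro h
    rw [h, natDegree_zero] at hdeg
    omega
  have hinfo : ∀ m, D.eval m = 0 → ∃ s t, ExR q x y m s t ∧ s ≠ 0 ∧ s ≠ t ∧
      exY q (x + t) (y + m * t) ≠ 0 := by
    intro m hm
    obtain ⟨s, t, hR⟩ := exR_exists H hx1 hy hm
    have hnotB : x + s ∉ B := fun h => hx2 ⟨y, m, s, hy, hR.f0, hR.f1, h⟩
    have hflex : ex2 q (x + s) (y + m * s) m ≠ 0 := by
      intro h
      apply hnotB
      left
      refine ⟨y + m * s, hR.f0, ?_⟩
      rw [exHs_eq q _ _ m hR.f1, h, mul_zero]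
    rw [hR.f2] at hflex
    have hs : s ≠ 0 := by
      intro h
      apply hflex
      rw [h]
      ring
    have hst : s ≠ t := by
      intro h
      apply hflex
      rw [h]
      ring
    refine ⟨s, t, hR, hs, hst, ?_⟩
    intro hYt
    apply hnotB
    right
    refine ⟨y + m * s, x + t, y + m * t, hR.f0, hR.g0, hYt, ?_⟩
    have hf1 := hR.f1
    unfold ex1 at hf1
    linear_combination (t - s) * hf1
  have hcard : D.roots.toFinset.card = 10 := by
    have hcount := ex_count D hdeg
    have h1' : ∀ m ∈ D.roots.toFinset, D.rootMultiplicity m = 1 := by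
      intro m hm
      rw [Multiset.mem_toFinset, mem_roots hD0] at hm
      obtain ⟨s, t, hR, -, hst, -⟩ := hinfo m hm
      exact hR.m1 hst
    rw [Finset.sum_congr rfl h1', Finset.sum_const, smul_eq_mul, mul_one] at hcount
    exact hcount
  set m0 := -exX q x y / exY q x y with hm0
  have hcard2 : 1 < (D.roots.toFinset.erase m0).card := by
    have := Finset.pred_card_le_card_erase (s := D.roots.toFinset) (a := m0)
    omega
  obtain ⟨m, hm, m', hm', hne⟩ := Finset.one_lt_card.1 hcard2
  have hhalf : ∀ m ∈ D.roots.toFinset.erase m0, ∃ s t, Half (exQ q) x y m s t := by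
    intro m hm
    rw [Finset.mem_erase, Multiset.mem_toFinset, mem_roots hD0] at hm
    obtain ⟨s, t, hR, hs, hst, hYt⟩ := hinfo m hm.2
    have h1ne : ex1 q x y m ≠ 0 := by
      intro h
      apply hm.1
      rw [hm0, eq_div_iff hY]
      unfold ex1 at h
      linear_combination h
    have ht : t ≠ 0 := by
      intro ht
      apply h1ne
      rw [hR.e1, ht]
      ring
    have hfl : (flip 4 (exQ q)).evalEval 0 m = ex4 q m := by
      rw [exQ_flip, exQ_eval]
      unfold exF ex4
      norm_num
    refine ⟨s, t, hs, ht, hst, ?_, ?_, ?_, ?_⟩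
    · rw [hfl]
      exact hR.h4
    · rw [hfl, exQ_Ln, hy, hR.e1, hR.e2, hR.e3]
      simp only [map_mul, map_add, map_neg, map_pow, map_zero, map_ofNat]
      ring
    · rw [exQ_dY]
      exact hR.yne
    · rw [exQ_dY]
      exact hYt
  obtain ⟨s, t, hh⟩ := hhalf m hm
  obtain ⟨s', t', hh'⟩ := hhalf m' hm'
  exact ⟨⟨x, y, m, s, t, m', s', t'⟩, by rw [exQ_eval]; exact hy, by rw [exQ_dY]; exact hY,
    hh, hh', hne⟩

end main

end Pool.Agent.LibQuart
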