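import Pool.Agent.LibQuart.NearRoot

/-!
Configurations near a given configuration.
-/

open scoped Classical
open Polynomial Filter Topology
open scoped Polynomial.Bivariate

namespace Pool.Agent.LibQuart

section two
variable {T : Type} [TopologicalSpace T] {k : Type} [NormedField k]

/-- families of bivariate polynomials -/
def Gd2 (F : T → k[X][Y]) : Prop :=
  (∀ i n, Continuous fun t => ((F t).coeff i).coeff n) ∧ ∃ D, ∀ t i, ((F t).coeff i).natDegree ≤ D

theorem Gd2.coeff {F : T → k[X][Y]} (hF : Gd2 F) (i : ℕ) : Gd (fun t => (F t).coeff i) := by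
  obtain ⟨h1, D, h2⟩ := hF
  exact ⟨fun n => h1 i n, D, fun t => h2 t i⟩

theorem Gd2.const (P : k[X][Y]) : Gd2 (fun _ : T => P) := by
  refine ⟨fun _ _ => continuous_const, P.support.sup fun i => (P.coeff i).natDegree, ?_⟩
  intro _ i
  by_cases h : P.coeff i = 0
  · rw [h]; simp
  · exact Finset.le_sup (f := fun i => (P.coeff i).natDegree) (mem_support_iff.mpr h)

theorem Gd2.C {F : T → k[X]} (hF : Gd F) : Gd2 (fun t => Polynomial.C (F t)) := by
  obtain ⟨h1, D, h2⟩ := hF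
  refine ⟨fun i n => ?_, D, fun t i => ?_⟩
  · simp only [coeff_C]
    by_cases h : i = 0
    · simp only [h, if_true]; exact h1 n
    · simp only [h, if_false]; exact continuous_const
  · rw [coeff_C]
    by_cases h : i = 0
    · simp only [h, if_true]; exact h2 t
    · simp only [h, if_false]; simp

theorem Gd2.add {F G : T → k[X][Y]} (hF : Gd2 F) (hG : Gd2 G) : Gd2 (fun t => F t + G t) := by
  obtain ⟨h1, D1, h2⟩ := hF
  obtain ⟨h3, D2, h4⟩ := hG
  refine ⟨fun i n => ?_, max D1 D2, fun t i => ?_⟩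
  · simp only [coeff_add]; exact (h1 i n).add (h3 i n)
  · rw [coeff_add]
    exact (natDegree_add_le _ _).trans (max_le_max (h2 t i) (h4 t i))

theorem Gd2.mul {F G : T → k[X][Y]} (hF : Gd2 F) (hG : Gd2 G) : Gd2 (fun t => F t * G t) := by
  obtain ⟨h1, D1, h2⟩ := hF
  obtain ⟨h3, D2, h4⟩ := hG
  refine ⟨fun i n => ?_, D1 + D2, fun t i => ?_⟩
  · simp only [coeff_mul, finsetSum_coeff]
    exact continuous_finsetSum _ fun p _ => continuous_finsetSum _ fun q _ =>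
      (h1 p.1 q.1).mul (h3 p.2 q.2)
  · rw [coeff_mul]
    apply natDegree_sum_le_of_forall_le
    intro p _
    exact natDegree_mul_le.trans (add_le_add (h2 t _) (h4 t _))

theorem Gd2.pow {F : T → k[X][Y]} (hF : Gd2 F) (n : ℕ) : Gd2 (fun t => F t ^ n) := by
  induction n with
  | zero => simp only [pow_zero]; exact Gd2.const 1
  | succ n ih => simp only [pow_succ]; exact ih.mul hF

end two

section lines
variable {k : Type} [NormedField k]

theorem gd_Ln (f : k[X][Y]) : Gd (fun v : k × k × k => Ln f v.1 v.2.1 v.2.2) := by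
  induction f using bi_induct with
  | hadd p q hp hq => simp only [Ln_add]; exact hp.add hq
  | hmon c i j =>
    simp only [Ln_mon]
    exact ((Gd.const _).mul (((Gd.C continuous_fst).add (Gd.const _)).pow i)).mul
      (((Gd.C continuous_snd.fst).add ((Gd.C continuous_snd.snd).mul (Gd.const _))).pow j)

theorem gd2_LP (f : k[X][Y]) : Gd2 (fun v : k × k => LP f v.1 v.2) := by
  induction f using bi_induct with
  | hadd p q hp hq => simp only [LP_add]; exact hp.add hq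
  | hmon c i j =>
    simp only [LP_mon]
    exact ((Gd2.const _).mul (((Gd2.C (Gd.C continuous_fst)).add (Gd2.const _)).pow i)).mul
      (((Gd2.C (Gd.C continuous_snd)).add (Gd2.const _)).pow j)

theorem gd_DP (f : k[X][Y]) : Gd (fun v : k × k => DP f v.1 v.2) := by
  have h := gd2_LP f
  have c := fun i => h.coeff i
  have n : ∀ m : ℕ, Gd (fun _ : k × k => (m : k[X])) := fun m => Gd.const _
  have n4 : Gd (fun _ : k × k => (4 : k[X])) := Gd.const _
  have n18 : Gd (fun _ : k × k => (18 : k[X])) := Gd.const _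
  have n27 : Gd (fun _ : k × k => (27 : k[X])) := Gd.const _
  unfold DP disc3
  exact (((((c 2).pow 2).mul ((c 3).pow 2)).sub ((n4.mul (c 1)).mul ((c 3).pow 3))).sub
    ((n4.mul ((c 2).pow 3)).mul (c 4))).add ((((n18.mul (c 1)).mul (c 2)).mul (c 3)).mul (c 4))
    |>.sub ((n27.mul ((c 1).pow 2)).mul ((c 4).pow 2))

/-- a polynomial restricted to a vertical line -/
noncomputable def Vt (f : k[X][Y]) (a : k) : k[X] := f.map (evalRingHom a)

theorem Vt_eval (f : k[X][Y]) (a b : k) : (Vt f a).eval b = f.evalEval a b := by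
  unfold Vt
  induction f using bi_induct with
  | hadd p q hp hq => rw [Polynomial.map_add, eval_add, hp, hq, evalEval_add]
  | hmon c i j => rw [evalEval_mon]; simp

theorem gd_Vt (f : k[X][Y]) : Gd (fun a : k => Vt f a) := by
  induction f using bi_induct with
  | hadd p q hp hq => simp only [Vt, Polynomial.map_add] at hp hq ⊢; exact hp.add hq
  | hmon c i j =>
    have e : ∀ a : k, Vt (C (C c * X ^ i) * X ^ j) a = C (c * a ^ i) * X ^ j := by
      intro a; unfold Vt; simp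
    simp only [e]
    exact (Gd.C (continuous_const.mul (continuous_id.pow i))).mul (Gd.const _)

theorem cont_evalEval (f : k[X][Y]) : Continuous fun v : k × k => f.evalEval v.1 v.2 := by
  induction f using bi_induct with
  | hadd p q hp hq => simp only [evalEval_add]; exact hp.add hq
  | hmon c i j =>
    simp only [evalEval_mon]
    fun_prop

end lines

section cubic
variable {k : Type} [Field k]

/-- the double root of a cubic with vanishing discriminant -/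
theorem double_root {c1 c2 c3 c4 s t : k} (h2 : (2 : k) ≠ 0) (h4 : c4 ≠ 0)
    (hΔ : c3 ^ 2 - 3 * c4 * c2 ≠ 0) (hd : disc3 c1 c2 c3 c4 = 0)
    (hs : s = (9 * c4 * c1 - c3 * c2) / (2 * (c3 ^ 2 - 3 * c4 * c2)))
    (ht : t = (4 * c4 * c3 * c2 - 9 * c4 ^ 2 * c1 - c3 ^ 3) / (c4 * (c3 ^ 2 - 3 * c4 * c2))) :
    c3 = - c4 * (2 * s + t) ∧ c2 = c4 * (s ^ 2 + 2 * s * t) ∧ c1 = - c4 * (s ^ 2 * t) := by
  have h22 : (4 : k) ≠ 0 := by
    have : (4 : k) = 2 * 2 := by norm_num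
    rw [this]; exact mul_ne_zero h2 h2
  unfold disc3 at hd
  have key2 : c4 * (9 * c4 * c1 - c3 * c2) ^ 2 + 4 * (9 * c4 * c1 - c3 * c2) *
      (4 * c4 * c3 * c2 - 9 * c4 ^ 2 * c1 - c3 ^ 3) = 4 * c2 * (c3 ^ 2 - 3 * c4 * c2) ^ 2 := by
    linear_combination 9 * c4 * hd
  have key3 : (9 * c4 * c1 - c3 * c2) ^ 2 * (4 * c4 * c3 * c2 - 9 * c4 ^ 2 * c1 - c3 ^ 3) =
      - (4 * c1 * (c3 ^ 2 - 3 * c4 * c2) ^ 3) := by
    linear_combination (27 * c1 * c4 ^ 2 - c3 ^ 3) * hd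
  have key1 : c4 * (9 * c4 * c1 - c3 * c2) + (4 * c4 * c3 * c2 - 9 * c4 ^ 2 * c1 - c3 ^ 3) =
      - (c3 * (c3 ^ 2 - 3 * c4 * c2)) := by ring
  generalize 9 * c4 * c1 - c3 * c2 = A at *
  generalize 4 * c4 * c3 * c2 - 9 * c4 ^ 2 * c1 - c3 ^ 3 = B at *
  generalize c3 ^ 2 - 3 * c4 * c2 = Δ at *
  subst hs ht
  refine ⟨?_, ?_, ?_⟩
  · have e : - c4 * (2 * (A / (2 * Δ)) + B / (c4 * Δ)) = - (c4 * A + B) / Δ := by
      field_simp
    rw [e, key1]
    field_simp
  · have e : c4 * ((A / (2 * Δ)) ^ 2 + 2 * (A / (2 * Δ)) * (B / (c4 * Δ)))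
        = (c4 * A ^ 2 + 4 * A * B) / (4 * Δ ^ 2) := by
      field_simp
      ring
    rw [e, key2]
    field_simp
  · have e : - c4 * ((A / (2 * Δ)) ^ 2 * (B / (c4 * Δ))) = - (A ^ 2 * B) / (4 * Δ ^ 3) := by
      field_simp
      ring
    rw [e, key3]
    field_simp

/-- the coefficients of a restriction with a double root -/
theorem half_coeffs {f : k[X][Y]} {x y m s t : k} (h : Half f x y m s t) :
    (Ln f x y m).coeff 1 = - (flip 4 f).evalEval 0 m * (s ^ 2 * t) ∧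
    (Ln f x y m).coeff 2 = (flip 4 f).evalEval 0 m * (s ^ 2 + 2 * s * t) ∧
    (Ln f x y m).coeff 3 = - (flip 4 f).evalEval 0 m * (2 * s + t) ∧
    (Ln f x y m).coeff 4 = (flip 4 f).evalEval 0 m := by
  obtain ⟨_, _, _, _, h5, _, _⟩ := h
  set L := (flip 4 f).evalEval 0 m
  have e : (C L * X * (X - C s) ^ 2 * (X - C t) : k[X]) = C (- L * (s ^ 2 * t)) * X +
      C (L * (s ^ 2 + 2 * s * t)) * X ^ 2 + C (- L * (2 * s + t)) * X ^ 3 + C L * X ^ 4 := by
    simp only [map_mul, map_neg, map_add, map_pow, map_ofNat]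
    ring
  rw [h5, e]
  generalize - L * (s ^ 2 * t) = c1
  generalize L * (s ^ 2 + 2 * s * t) = c2
  generalize - L * (2 * s + t) = c3
  refine ⟨?_, ?_, ?_, ?_⟩ <;>
    simp only [coeff_add, coeff_C_mul, coeff_X_pow, coeff_X] <;> norm_num

theorem eq_prod_of_coeffs {P : k[X]} (hdeg : P.natDegree ≤ 4) {L s t : k} (h0 : P.coeff 0 = 0)
    (h1 : P.coeff 1 = - L * (s ^ 2 * t)) (h2 : P.coeff 2 = L * (s ^ 2 + 2 * s * t))
    (h3 : P.coeff 3 = - L * (2 * s + t)) (h4 : P.coeff 4 = L) :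
    P = C L * X * (X - C s) ^ 2 * (X - C t) := by
  rw [P.as_sum_range' 5 (by omega)]
  simp only [Finset.sum_range_succ, Finset.sum_range_zero, h0, h1, h2, h3, h4,
    ← C_mul_X_pow_eq_monomial, map_mul, map_neg, map_add, map_pow, map_ofNat, map_zero]
  ring

theorem disc_grad (L s t d1 d2 d3 d4 : k) :
    (-4 * (- L * (2 * s + t)) ^ 3 + 18 * (L * (s ^ 2 + 2 * s * t)) * (- L * (2 * s + t)) * L -
      54 * (- L * (s ^ 2 * t)) * L ^ 2) * d1 +
    (2 * (L * (s ^ 2 + 2 * s * t)) * (- L * (2 * s + t)) ^ 2 -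
      12 * (L * (s ^ 2 + 2 * s * t)) ^ 2 * L + 18 * (- L * (s ^ 2 * t)) * (- L * (2 * s + t)) * L)
      * d2 +
    (2 * (L * (s ^ 2 + 2 * s * t)) ^ 2 * (- L * (2 * s + t)) -
      12 * (- L * (s ^ 2 * t)) * (- L * (2 * s + t)) ^ 2 +
      18 * (- L * (s ^ 2 * t)) * (L * (s ^ 2 + 2 * s * t)) * L) * d3 +
    (-4 * (L * (s ^ 2 + 2 * s * t)) ^ 3 +
      18 * (- L * (s ^ 2 * t)) * (L * (s ^ 2 + 2 * s * t)) * (- L * (2 * s + t)) -
      54 * (- L * (s ^ 2 * t)) ^ 2 * L) * d4 =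
    -4 * L ^ 3 * (s - t) ^ 3 * (d1 + d2 * s + d3 * s ^ 2 + d4 * s ^ 3) := by
  ring

/-- the pencil of lines has only finitely many tangents -/
theorem DP_ne_zero [Infinite k] {f : k[X][Y]} (hf : TD 4 f) {x y m s t : k}
    (h2 : (2 : k) ≠ 0) (h : Half f x y m s t) (hder : (derivative ((LP f x y).eval (C s))).eval m =
      s * dY f (x + s) (y + m * s)) : DP f x y ≠ 0 := by
  intro hcon
  obtain ⟨a1, a2, a3, a4⟩ := half_coeffs h
  obtain ⟨hs, _, hst, hL, _, hdY, _⟩ := h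
  set L := (flip 4 f).evalEval 0 m with hLd
  have hzero : ∀ i, 5 ≤ i → (LP f x y).coeff i = 0 := by
    intro i hi
    apply Polynomial.funext
    intro r
    rw [LP_coeff_eval, eval_zero]
    exact coeff_eq_zero_of_natDegree_lt (by have := Ln_natDegree_le f hf x y r; omega)
  have hc0 : (LP f x y).coeff 0 = C (f.evalEval x y) := by
    apply Polynomial.funext
    intro r
    rw [LP_coeff_eval, Ln_coeff_zero, eval_C]
  have hLP : LP f x y = ∑ i ∈ Finset.range 5, C ((LP f x y).coeff i) * X ^ i := by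
    ext1 i
    simp only [finsetSum_coeff, coeff_C_mul, coeff_X_pow]
    by_cases hi : i < 5
    · rw [Finset.sum_eq_single i]
      · simp
      · intro b _ hb; rw [if_neg (Ne.symm hb), mul_zero]
      · intro hb; exact absurd (Finset.mem_range.mpr hi) hb
    · rw [hzero i (by omega), Finset.sum_eq_zero]
      intro b hb
      have := Finset.mem_range.mp hb
      rw [if_neg (by omega), mul_zero]
  have hder2 : (derivative ((LP f x y).eval (C s))).eval m =
      s * ((derivative ((LP f x y).coeff 1)).eval m + (derivative ((LP f x y).coeff 2)).eval m * s +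
        (derivative ((LP f x y).coeff 3)).eval m * s ^ 2 +
        (derivative ((LP f x y).coeff 4)).eval m * s ^ 3) := by
    conv_lhs => rw [hLP]
    rw [eval_finsetSum]
    simp only [Finset.sum_range_succ, Finset.sum_range_zero, eval_mul, eval_C, eval_pow, eval_X,
      zero_add, pow_zero, mul_one, pow_one, hc0, derivative_add, derivative_mul, derivative_C,
      eval_add, mul_zero, eval_zero, add_zero, ← C_pow]
    ring
  have hsum : (derivative ((LP f x y).coeff 1)).eval m +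
      (derivative ((LP f x y).coeff 2)).eval m * s +
        (derivative ((LP f x y).coeff 3)).eval m * s ^ 2 +
        (derivative ((LP f x y).coeff 4)).eval m * s ^ 3 ≠ 0 := by
    intro h0
    rw [h0, mul_zero, hder] at hder2
    exact mul_ne_zero hs hdY hder2
  have hDP : (derivative (DP f x y)).eval m = 0 := by rw [hcon]; simp
  have hexp : (derivative (DP f x y)).eval m =
      (-4 * ((LP f x y).coeff 3).eval m ^ 3 + 18 * ((LP f x y).coeff 2).eval m *
        ((LP f x y).coeff 3).eval m * ((LP f x y).coeff 4).eval m -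
        54 * ((LP f x y).coeff 1).eval m * ((LP f x y).coeff 4).eval m ^ 2) *
          (derivative ((LP f x y).coeff 1)).eval m +
      (2 * ((LP f x y).coeff 2).eval m * ((LP f x y).coeff 3).eval m ^ 2 -
        12 * ((LP f x y).coeff 2).eval m ^ 2 * ((LP f x y).coeff 4).eval m +
        18 * ((LP f x y).coeff 1).eval m * ((LP f x y).coeff 3).eval m *
          ((LP f x y).coeff 4).eval m) * (derivative ((LP f x y).coeff 2)).eval m +
      (2 * ((LP f x y).coeff 2).eval m ^ 2 * ((LP f x y).coeff 3).eval m -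
        12 * ((LP f x y).coeff 1).eval m * ((LP f x y).coeff 3).eval m ^ 2 +
        18 * ((LP f x y).coeff 1).eval m * ((LP f x y).coeff 2).eval m *
          ((LP f x y).coeff 4).eval m) * (derivative ((LP f x y).coeff 3)).eval m +
      (-4 * ((LP f x y).coeff 2).eval m ^ 3 +
        18 * ((LP f x y).coeff 1).eval m * ((LP f x y).coeff 2).eval m *
          ((LP f x y).coeff 3).eval m -
        54 * ((LP f x y).coeff 1).eval m ^ 2 * ((LP f x y).coeff 4).eval m) *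
          (derivative ((LP f x y).coeff 4)).eval m := by
    unfold DP disc3
    simp only [derivative_add, derivative_sub, derivative_mul, derivative_pow, derivative_ofNat,
      eval_add, eval_sub, eval_mul, eval_pow, eval_ofNat, eval_zero, zero_mul,
      Nat.cast_ofNat, Nat.add_one_sub_one, map_ofNat]
    norm_num
    ring
  simp only [LP_coeff_eval, a1, a2, a3, a4] at hexp
  rw [disc_grad, hDP] at hexp
  have h4 : (-4 : k) ≠ 0 := by
    have : (-4 : k) = - (2 * 2) := by norm_num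
    rw [this]; exact neg_ne_zero.mpr (mul_ne_zero h2 h2)
  exact mul_ne_zero (mul_ne_zero (mul_ne_zero h4 (pow_ne_zero _ hL))
    (pow_ne_zero _ (sub_ne_zero.mpr hst))) hsum hexp.symm

/-- derivative of the value on the pencil of lines -/
theorem LP_deriv (f : k[X][Y]) (x y m s : k) :
    (derivative ((LP f x y).eval (C s))).eval m = s * dY f (x + s) (y + m * s) := by
  induction f using bi_induct with
  | hadd p q hp hq =>
    rw [LP_add, eval_add, derivative_add, eval_add, hp, hq]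
    unfold dY
    rw [derivative_add, evalEval_add]
    ring
  | hmon c i j =>
    rw [LP_mon]
    unfold dY
    have e1 : (derivative (C (C c * X ^ i) * X ^ j : k[X][Y])) =
        C (C (c * (j : k)) * X ^ i) * X ^ (j - 1) := by
      rw [derivative_C_mul, derivative_X_pow, ← mul_assoc]
      congr 1
      rw [map_natCast]
      simp only [map_mul, map_natCast, map_pow]
      ring
    rw [e1, evalEval_mon]
    have e2 : ((C (C c) * (C (C x) + X) ^ i * (C (C y) + C X * X) ^ j : k[X][Y]).eval (C s)) =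
        C (c * (x + s) ^ i) * (C y + X * C s) ^ j := by
      simp
    rw [e2, derivative_C_mul, derivative_pow]
    simp
    ring

end cubic

section near
variable {k : Type} [NormedField k]

/-- half configurations near a given one -/
theorem half_near (h2 : (2 : k) ≠ 0) {f : k[X][Y]} (hf : TD 4 f) {x₀ y₀ m₀ s₀ t₀ : k}
    (h : Half f x₀ y₀ m₀ s₀ t₀) {ε : ℝ} (hε : 0 < ε) :
    ∀ᶠ v : k × k × k in 𝓝 (x₀, y₀, m₀), f.evalEval v.1 v.2.1 = 0 →
      (DP f v.1 v.2.1).eval v.2.2 = 0 →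
        ∃ s t, Half f v.1 v.2.1 v.2.2 s t ∧ ‖s - s₀‖ < ε ∧ ‖t - t₀‖ < ε := by
  obtain ⟨a1, a2, a3, a4⟩ := half_coeffs h
  obtain ⟨hs, ht, hst, hL, _, hdY1, hdY2⟩ := h
  set L := (flip 4 f).evalEval 0 m₀ with hLd
  let c : ℕ → k × k × k → k := fun i v => (Ln f v.1 v.2.1 v.2.2).coeff i
  have cc : ∀ i, Continuous (c i) := (gd_Ln f).1
  have e1 : c 1 (x₀, y₀, m₀) = - L * (s₀ ^ 2 * t₀) := a1
  have e2 : c 2 (x₀, y₀, m₀) = L * (s₀ ^ 2 + 2 * s₀ * t₀) := a2
  have e3 : c 3 (x₀, y₀, m₀) = - L * (2 * s₀ + t₀) := a3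
  have e4 : c 4 (x₀, y₀, m₀) = L := a4
  let Δ : k × k × k → k := fun v => c 3 v ^ 2 - 3 * c 4 v * c 2 v
  have cΔ : Continuous Δ := ((cc 3).pow 2).sub ((continuous_const.mul (cc 4)).mul (cc 2))
  have eΔ : Δ (x₀, y₀, m₀) = L ^ 2 * (s₀ - t₀) ^ 2 := by
    change c 3 (x₀, y₀, m₀) ^ 2 - 3 * c 4 (x₀, y₀, m₀) * c 2 (x₀, y₀, m₀) = _
    rw [e2, e3, e4]; ring
  have hΔ : Δ (x₀, y₀, m₀) ≠ 0 := by
    rw [eΔ]; exact mul_ne_zero (pow_ne_zero _ hL) (pow_ne_zero _ (sub_ne_zero.mpr hst))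
  let S : k × k × k → k := fun v => (9 * c 4 v * c 1 v - c 3 v * c 2 v) / (2 * Δ v)
  let T : k × k × k → k := fun v =>
    (4 * c 4 v * c 3 v * c 2 v - 9 * c 4 v ^ 2 * c 1 v - c 3 v ^ 3) / (c 4 v * Δ v)
  have hS0 : S (x₀, y₀, m₀) = s₀ := by
    change (9 * c 4 (x₀, y₀, m₀) * c 1 (x₀, y₀, m₀) - c 3 (x₀, y₀, m₀) * c 2 (x₀, y₀, m₀)) /
      (2 * Δ (x₀, y₀, m₀)) = s₀
    rw [div_eq_iff (mul_ne_zero h2 hΔ), eΔ, e1, e2, e3, e4]
    ring
  have hT0 : T (x₀, y₀, m₀) = t₀ := by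
    change (4 * c 4 (x₀, y₀, m₀) * c 3 (x₀, y₀, m₀) * c 2 (x₀, y₀, m₀) -
      9 * c 4 (x₀, y₀, m₀) ^ 2 * c 1 (x₀, y₀, m₀) - c 3 (x₀, y₀, m₀) ^ 3) /
        (c 4 (x₀, y₀, m₀) * Δ (x₀, y₀, m₀)) = t₀
    rw [div_eq_iff (mul_ne_zero (by rw [e4]; exact hL) hΔ), eΔ, e1, e2, e3, e4]
    ring
  have cS : ContinuousAt S (x₀, y₀, m₀) :=
    (((continuous_const.mul (cc 4)).mul (cc 1)).sub ((cc 3).mul (cc 2))).continuousAt.div
      (continuous_const.mul cΔ).continuousAt (mul_ne_zero h2 hΔ)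
  have cT : ContinuousAt T (x₀, y₀, m₀) :=
    (((((continuous_const.mul (cc 4)).mul (cc 3)).mul (cc 2)).sub
      ((continuous_const.mul ((cc 4).pow 2)).mul (cc 1))).sub ((cc 3).pow 3)).continuousAt.div
      ((cc 4).mul cΔ).continuousAt (mul_ne_zero (by rw [e4]; exact hL) hΔ)
  have cY1 : ContinuousAt (fun v : k × k × k => dY f (v.1 + S v) (v.2.1 + v.2.2 * S v))
      (x₀, y₀, m₀) := by
    have h1 := cont_evalEval (derivative f)
    have h3 : ContinuousAt (fun v : k × k × k => (v.1 + S v, v.2.1 + v.2.2 * S v)) (x₀, y₀, m₀) :=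
      (continuous_fst.continuousAt.add cS).prodMk
        (continuous_snd.fst.continuousAt.add (continuous_snd.snd.continuousAt.mul cS))
    exact ContinuousAt.comp (f := fun v : k × k × k => (v.1 + S v, v.2.1 + v.2.2 * S v))
      (g := fun v : k × k => (derivative f).evalEval v.1 v.2) h1.continuousAt h3
  have cY2 : ContinuousAt (fun v : k × k × k => dY f (v.1 + T v) (v.2.1 + v.2.2 * T v))
      (x₀, y₀, m₀) := by
    have h1 := cont_evalEval (derivative f)
    have h3 : ContinuousAt (fun v : k × k × k => (v.1 + T v, v.2.1 + v.2.2 * T v)) (x₀, y₀, m₀) :=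
      (continuous_fst.continuousAt.add cT).prodMk
        (continuous_snd.fst.continuousAt.add (continuous_snd.snd.continuousAt.mul cT))
    exact ContinuousAt.comp (f := fun v : k × k × k => (v.1 + T v, v.2.1 + v.2.2 * T v))
      (g := fun v : k × k => (derivative f).evalEval v.1 v.2) h1.continuousAt h3
  have ev1 := cS.eventually_ne (show S (x₀, y₀, m₀) ≠ 0 by rw [hS0]; exact hs)
  have ev2 := cT.eventually_ne (show T (x₀, y₀, m₀) ≠ 0 by rw [hT0]; exact ht)
  have ev3 := (cS.sub cT).eventually_ne (show S (x₀, y₀, m₀) - T (x₀, y₀, m₀) ≠ 0 by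
    rw [hS0, hT0]; exact sub_ne_zero.mpr hst)
  have ev4 := (cc 4).continuousAt.eventually_ne (show c 4 (x₀, y₀, m₀) ≠ 0 by rw [e4]; exact hL)
  have ev5 := cΔ.continuousAt.eventually_ne hΔ
  have ev6 := cY1.eventually_ne (show dY f (x₀ + S (x₀, y₀, m₀)) (y₀ + m₀ * S (x₀, y₀, m₀)) ≠ 0 by
    rw [hS0]; exact hdY1)
  have ev7 := cY2.eventually_ne (show dY f (x₀ + T (x₀, y₀, m₀)) (y₀ + m₀ * T (x₀, y₀, m₀)) ≠ 0 by
    rw [hT0]; exact hdY2)
  have ev8 : ∀ᶠ v in 𝓝 ((x₀, y₀, m₀) : k × k × k), ‖S v - s₀‖ < ε := by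
    have := (cS.sub (continuous_const (y := s₀)).continuousAt).norm
    refine this.eventually_lt_const ?_
    simp only [Pi.sub_apply, hS0, sub_self, norm_zero]; exact hε
  have ev9 : ∀ᶠ v in 𝓝 ((x₀, y₀, m₀) : k × k × k), ‖T v - t₀‖ < ε := by
    have := (cT.sub (continuous_const (y := t₀)).continuousAt).norm
    refine this.eventually_lt_const ?_
    simp only [Pi.sub_apply, hT0, sub_self, norm_zero]; exact hε
  filter_upwards [ev1, ev2, ev3, ev4, ev5, ev6, ev7, ev8, ev9] with v h1 h2' h3 h4 h5 h6 h7 h8 h9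
  intro hpt hdp
  rw [DP_eval] at hdp
  obtain ⟨k1, k2, k3⟩ := double_root (s := S v) (t := T v) h2 h4 h5 hdp rfl rfl
  have hL4 : c 4 v = (flip 4 f).evalEval 0 v.2.2 := Ln_coeff_four f hf _ _ _
  refine ⟨S v, T v, ⟨h1, h2', sub_ne_zero.mp h3, by rw [← hL4]; exact h4, ?_, h6, h7⟩, h8, h9⟩
  rw [← hL4]
  exact eq_prod_of_coeffs (Ln_natDegree_le f hf _ _ _)
    ((Ln_coeff_zero _ _ _ _).trans hpt) k3 k2 k1 rfl

/-- configurations near a given one, with prescribed abscissa of the base point -/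
theorem near_cfg [IsUltrametricDist k] [IsAlgClosed k] [CharZero k] {f : k[X][Y]} (hf : Qt f)
    {c₀ : Cf k} (h : IsCfg f c₀) {ε : ℝ} (hε : 0 < ε) :
    ∃ η : ℝ, 0 < η ∧ ∀ δ : k, ‖δ‖ < η → ∃ c : Cf k, IsCfg f c ∧ c.x = c₀.x + δ ∧
      ‖c.y - c₀.y‖ < ε ∧ ‖c.m - c₀.m‖ < ε ∧ ‖c.s - c₀.s‖ < ε ∧ ‖c.t - c₀.t‖ < ε ∧
      ‖c.m' - c₀.m'‖ < ε ∧ ‖c.s' - c₀.s'‖ < ε ∧ ‖c.t' - c₀.t'‖ < ε := by
  have h2 : (2 : k) ≠ 0 := two_ne_zero
  have hinf : Infinite k := IsAlgClosed.instInfinite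
  -- the two halves
  have n1 := half_near h2 hf.td h.h1 hε
  have n2 := half_near h2 hf.td h.h2 hε
  rw [Metric.eventually_nhds_iff] at n1 n2
  obtain ⟨r1, hr1, n1⟩ := n1
  obtain ⟨r2, hr2, n2⟩ := n2
  -- the slopes
  have hr3 : 0 < ‖c₀.m - c₀.m'‖ := norm_pos_iff.mpr (sub_ne_zero.mpr h.ne)
  obtain ⟨ρ, hρ, hρ1, hρ2, hρ3, hρ4⟩ : ∃ ρ : ℝ, 0 < ρ ∧ ρ ≤ r1 ∧ ρ ≤ r2 ∧ ρ ≤ ε ∧
      ρ ≤ ‖c₀.m - c₀.m'‖ := by
    refine ⟨min (min r1 r2) (min ε ‖c₀.m - c₀.m'‖), by positivity, ?_, ?_, ?_, ?_⟩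
    · exact (min_le_left _ _).trans (min_le_left _ _)
    · exact (min_le_left _ _).trans (min_le_right _ _)
    · exact (min_le_right _ _).trans (min_le_left _ _)
    · exact (min_le_right _ _).trans (min_le_right _ _)
  have d1 : DP f c₀.x c₀.y ≠ 0 := DP_ne_zero hf.td h2 h.h1 (LP_deriv _ _ _ _ _)
  have disc0 : ∀ m s t, Half f c₀.x c₀.y m s t → (DP f c₀.x c₀.y).eval m = 0 := by
    intro m s t hh
    obtain ⟨a1, a2, a3, a4⟩ := half_coeffs hh
    rw [DP_eval, a1, a2, a3, a4]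
    unfold disc3
    ring
  have m1 := near_root (gd_DP f) (c₀.x, c₀.y) c₀.m d1 (disc0 _ _ _ h.h1) hρ
  have m2 := near_root (gd_DP f) (c₀.x, c₀.y) c₀.m' d1 (disc0 _ _ _ h.h2) hρ
  have hdy : ∀ᶠ v : k × k in 𝓝 (c₀.x, c₀.y), dY f v.1 v.2 ≠ 0 :=
    (cont_evalEval (derivative f)).continuousAt.eventually_ne h.dy
  have m3 := (m1.and m2).and hdy
  rw [Metric.eventually_nhds_iff] at m3
  obtain ⟨r4, hr4, m3⟩ := m3
  -- the ordinate
  have hv0 : Vt f c₀.x ≠ 0 := (hf.monic.map _).ne_zero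
  have hmin : 0 < min r4 ρ := lt_min hr4 hρ
  have y1 := near_root (gd_Vt f) c₀.x c₀.y hv0 ((Vt_eval _ _ _).trans h.pt) hmin
  rw [Metric.eventually_nhds_iff] at y1
  obtain ⟨r5, hr5, y1⟩ := y1
  refine ⟨min r5 (min r4 ρ), lt_min hr5 hmin, ?_⟩
  intro δ hδ
  have hδ5 : ‖δ‖ < r5 := lt_of_lt_of_le hδ (min_le_left _ _)
  have hδ4 : ‖δ‖ < r4 := lt_of_lt_of_le hδ ((min_le_right _ _).trans (min_le_left _ _))
  have hδρ : ‖δ‖ < ρ := lt_of_lt_of_le hδ ((min_le_right _ _).trans (min_le_right _ _))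
  have dx : dist (c₀.x + δ) c₀.x = ‖δ‖ := by rw [dist_eq_norm, add_sub_cancel_left]
  obtain ⟨y, hy, hyn⟩ := y1 (by rw [dx]; exact hδ5)
  have hy4 : ‖y - c₀.y‖ < r4 := lt_of_lt_of_le hyn (min_le_left _ _)
  have hyρ : ‖y - c₀.y‖ < ρ := lt_of_lt_of_le hyn (min_le_right _ _)
  have hdist : dist ((c₀.x + δ, y) : k × k) (c₀.x, c₀.y) < r4 := by
    rw [Prod.dist_eq]
    exact max_lt (by rw [dx]; exact hδ4) (by rw [dist_eq_norm]; exact hy4)
  obtain ⟨⟨⟨m, hm, hmn⟩, ⟨m', hm', hmn'⟩⟩, hdY⟩ := m3 hdist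
  rw [Vt_eval] at hy
  have hd1 : dist ((c₀.x + δ, y, m) : k × k × k) (c₀.x, c₀.y, c₀.m) < r1 := by
    rw [Prod.dist_eq, Prod.dist_eq]
    exact max_lt (by rw [dx]; exact lt_of_lt_of_le hδρ hρ1)
      (max_lt (by rw [dist_eq_norm]; exact lt_of_lt_of_le hyρ hρ1)
        (by rw [dist_eq_norm]; exact lt_of_lt_of_le hmn hρ1))
  have hd2 : dist ((c₀.x + δ, y, m') : k × k × k) (c₀.x, c₀.y, c₀.m') < r2 := by
    rw [Prod.dist_eq, Prod.dist_eq]
    exact max_lt (by rw [dx]; exact lt_of_lt_of_le hδρ hρ2)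
      (max_lt (by rw [dist_eq_norm]; exact lt_of_lt_of_le hyρ hρ2)
        (by rw [dist_eq_norm]; exact lt_of_lt_of_le hmn' hρ2))
  obtain ⟨s, t, hH, hsn, htn⟩ := n1 hd1 hy hm
  obtain ⟨s', t', hH', hsn', htn'⟩ := n2 hd2 hy hm'
  refine ⟨⟨c₀.x + δ, y, m, s, t, m', s', t'⟩, ⟨hy, hdY, hH, hH', ?_⟩, rfl,
    lt_of_lt_of_le hyρ hρ3, lt_of_lt_of_le hmn hρ3, hsn, htn, lt_of_lt_of_le hmn' hρ3, hsn', htn'⟩
  intro hmm
  change m = m' at hmm
  subst hmm
  have h1 : ‖c₀.m - c₀.m'‖ ≤ max ‖m - c₀.m‖ ‖m - c₀.m'‖ := by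
    have e : c₀.m - c₀.m' = (c₀.m - m) + (m - c₀.m') := by ring
    rw [e]
    refine (IsUltrametricDist.norm_add_le_max _ _).trans ?_
    rw [norm_sub_rev c₀.m m]
  have h3 := max_lt hmn hmn'
  linarith

end near

/-- `near_cfg` for a field with a nonarchimedean absolute value -/
theorem near_cfg_abs {k : Type} [Field k] [IsAlgClosed k] [CharZero k] (N : AbsoluteValue k ℝ)
    (na : ∀ a b, N (a + b) ≤ max (N a) (N b)) {f : k[X][Y]} (hf : Qt f) {c₀ : Cf k}
    (h : IsCfg f c₀) {ε : ℝ} (hε : 0 < ε) :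
    ∃ η : ℝ, 0 < η ∧ ∀ δ : k, N δ < η → ∃ c : Cf k, IsCfg f c ∧ c.x = c₀.x + δ ∧
      N (c.y - c₀.y) < ε ∧ N (c.m - c₀.m) < ε ∧ N (c.s - c₀.s) < ε ∧ N (c.t - c₀.t) < ε ∧
      N (c.m' - c₀.m') < ε ∧ N (c.s' - c₀.s') < ε ∧ N (c.t' - c₀.t') < ε := by
  let i : NormedField k := N.toNormedField
  have hu : @IsUltrametricDist k i.toDist :=
    IsUltrametricDist.isUltrametricDist_of_isNonarchimedean_norm (fun a b => na a b)
  exact @near_cfg k i hu _ _ f hf c₀ h ε hε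

end Pool.Agent.LibQuart
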