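import Pool.Agent.LibQuart.BV
import Pool.Agent.LibQuart.EMain
import Pool.Agent.LibQuart.Near
import Pool.Agent.LibQuart.ExF

open scoped Classical
open Polynomial
open scoped Polynomial.Bivariate

namespace Pool.Agent.LibQuart

open Pool.Agent.LibBH2

/-! ## Block W: infinitely many pairs -/

section W
variable {k : Type} [Field k]

/-! ### W1 -/
/-- Recursion: `(D n, E n)` for `T n` = the union of the supports of the previous `D i, E i`. If a
combination is principal let `n` be the largest index with `(c n, d n) ≠ 0`: `B` = the other terms. -/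
theorem recursion {F : MvPolynomial (Fin 3) k}
    (h : ∀ T : Finset (Pt F), ∃ D E : Pt F →₀ ℤ, deg D = 0 ∧ deg E = 0 ∧
      RatEqZero F (prodCycle D E + prodCycle E D) ∧
      ∀ B : Pt F →₀ ℤ, B.support ⊆ T → ∀ α β : ℤ, IsDivisor F (α • D + β • E + B) → α = 0 ∧ β = 0) :
    ∃ D E : ℕ → Pt F →₀ ℤ, (∀ n, deg (D n) = 0 ∧ deg (E n) = 0) ∧
      (∀ c d : ℕ →₀ ℤ, IsDivisor F (c.sum (fun n a => a • D n) + d.sum fun n a => a • E n) →
        c = 0 ∧ d = 0) ∧
      ∀ n, RatEqZero F (prodCycle (D n) (E n) + prodCycle (E n) (D n)) := by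
  choose D₀ E₀ hD hE hR hI using h
  set T : ℕ → Finset (Pt F) := fun n =>
    Nat.rec (motive := fun _ => Finset (Pt F)) ∅ (fun _ S => S ∪ ((D₀ S).support ∪ (E₀ S).support)) n with hT
  have hTs : ∀ n, T (n + 1) = T n ∪ ((D₀ (T n)).support ∪ (E₀ (T n)).support) := fun n => rfl
  have hmono : Monotone T := monotone_nat_of_le_succ fun n => by
    rw [hTs]
    exact Finset.subset_union_left
  have hDs : ∀ {i n : ℕ}, i < n → ∀ P, P ∉ T n → D₀ (T i) P = 0 := by
    intro i n hin P hP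
    by_contra h0
    refine hP (hmono (Nat.succ_le_of_lt hin) ?_)
    rw [Nat.succ_eq_add_one, hTs]
    exact Finset.mem_union_right _ (Finset.mem_union_left _ (Finsupp.mem_support_iff.2 h0))
  have hEs : ∀ {i n : ℕ}, i < n → ∀ P, P ∉ T n → E₀ (T i) P = 0 := by
    intro i n hin P hP
    by_contra h0
    refine hP (hmono (Nat.succ_le_of_lt hin) ?_)
    rw [Nat.succ_eq_add_one, hTs]
    exact Finset.mem_union_right _ (Finset.mem_union_right _ (Finsupp.mem_support_iff.2 h0))
  refine ⟨fun n => D₀ (T n), fun n => E₀ (T n), fun n => ⟨hD _, hE _⟩, ?_, fun n => hR _⟩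
  intro c d hcd
  by_contra hne
  set S : Finset ℕ := c.support ∪ d.support with hS
  have hSne : S.Nonempty := by
    rw [Finset.nonempty_iff_ne_empty]
    intro hS0
    rw [hS, Finset.union_eq_empty] at hS0
    exact hne ⟨Finsupp.support_eq_empty.1 hS0.1, Finsupp.support_eq_empty.1 hS0.2⟩
  set n := S.max' hSne with hn
  have hnS : n ∈ S := Finset.max'_mem S hSne
  have hlt : ∀ i ∈ S.erase n, i < n := by
    intro i hi
    rw [Finset.mem_erase] at hi
    exact lt_of_le_of_ne (Finset.le_max' S i hi.2) hi.1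
  have hcS : c.sum (fun n a => a • D₀ (T n)) = ∑ i ∈ S, c i • D₀ (T i) :=
    Finsupp.sum_of_support_subset c Finset.subset_union_left _ fun i _ => by rw [zero_smul]
  have hdS : d.sum (fun n a => a • E₀ (T n)) = ∑ i ∈ S, d i • E₀ (T i) :=
    Finsupp.sum_of_support_subset d Finset.subset_union_right _ fun i _ => by rw [zero_smul]
  set B : Pt F →₀ ℤ := ∑ i ∈ S.erase n, c i • D₀ (T i) + ∑ i ∈ S.erase n, d i • E₀ (T i) with hB
  have hBs : B.support ⊆ T n := by
    intro P hP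
    by_contra hPT
    refine (Finsupp.mem_support_iff.1 hP) ?_
    rw [hB, Finsupp.add_apply, Finsupp.finsetSum_apply, Finsupp.finsetSum_apply,
      Finset.sum_eq_zero, Finset.sum_eq_zero, add_zero]
    · intro i hi
      rw [Finsupp.smul_apply, hEs (hlt i hi) P hPT, smul_zero]
    · intro i hi
      rw [Finsupp.smul_apply, hDs (hlt i hi) P hPT, smul_zero]
  have htot : c.sum (fun n a => a • D₀ (T n)) + d.sum (fun n a => a • E₀ (T n)) =
      c n • D₀ (T n) + d n • E₀ (T n) + B := by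
    rw [hcS, hdS, ← Finset.add_sum_erase S (fun i => c i • D₀ (T i)) hnS,
      ← Finset.add_sum_erase S (fun i => d i • E₀ (T i)) hnS, hB]
    abel
  have hcd' : IsDivisor F (c n • D₀ (T n) + d n • E₀ (T n) + B) := by
    rw [← htot]
    exact hcd
  obtain ⟨h1, h2⟩ := hI (T n) B hBs (c n) (d n) hcd'
  rw [hS, Finset.mem_union, Finsupp.mem_support_iff, Finsupp.mem_support_iff] at hnS
  rcases hnS with h | h
  · exact h h1
  · exact h h2

/-! ### W2 -/
/-- the coordinates of a point -/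
noncomputable def w2_coord {k : Type} [Field k] {F : MvPolynomial (Fin 3) k} : Pt F → Finset k
  | .aff x y _ => {x, y}
  | .inf y _ => {y}

theorem w2_fix {k : Type} [Field k] {F : MvPolynomial (Fin 3) k} (σ : k ≃+* k)
    (hσ : MvPolynomial.map σ.toRingHom F = F) (p : Pt F) (hp : ∀ z ∈ w2_coord p, σ z = z) :
    ptMap σ hσ p = p := by
  cases p with
  | aff x y h =>
    have h1 : σ x = x := hp x (by simp [w2_coord])
    have h2 : σ y = y := hp y (by simp [w2_coord])
    simp only [ptMap]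
    congr 1
  | inf y h =>
    have h2 : σ y = y := hp y (by simp [w2_coord])
    simp only [ptMap]
    congr 1

theorem w2_map {k : Type} [Field k] {F : MvPolynomial (Fin 3) k} (σ : k ≃+* k)
    (h : ∀ z ∈ F.support.image (fun d => F.coeff d), σ z = z) :
    MvPolynomial.map σ.toRingHom F = F := by
  ext d
  rw [MvPolynomial.coeff_map]
  change σ (F.coeff d) = F.coeff d
  by_cases hd : d ∈ F.support
  · exact h _ (Finset.mem_image_of_mem _ hd)
  · rw [MvPolynomial.notMem_support_iff.mp hd, map_zero]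

/-- STEP: `exists_cfg` (helper86), `exists_gr`, `exists_good`, `E_main`, `DEF` (helper66), `good_stable`,
`indep_of_move`, `orth`, `deg_DD`, `deg_EE`. -/
theorem step {F : MvPolynomial (Fin 3) (AlgebraicClosure ℚ)} (hF : Quartic F) (T : Finset (Pt F)) :
    ∃ D E : Pt F →₀ ℤ, deg D = 0 ∧ deg E = 0 ∧
      RatEqZero F (prodCycle D E + prodCycle E D) ∧
      ∀ B : Pt F →₀ ℤ, B.support ⊆ T → ∀ α β : ℤ, IsDivisor F (α • D + β • E + B) →
        α = 0 ∧ β = 0 := by
  obtain ⟨c₀, hc₀⟩ := exists_cfg (chart_qt hF) (chart_sm hF) (chart_sm2 hF)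
  obtain ⟨U₁, hU₁, hgr⟩ := exists_gr hF
  obtain ⟨U₂, hU₂, hgood⟩ := exists_good hc₀
  obtain ⟨κ, i1, i2, R, hR, hE⟩ := E_main (U₁ ∪ U₂) (by
    intro u hu h0
    rw [h0] at hu
    rcases Finset.mem_union.mp hu with h | h
    · exact hU₁ h
    · exact hU₂ h)
  obtain ⟨f, K, j1, j2, K', j3, j4, x, y, x', y', hfF, hGR⟩ :=
    hgr κ R (fun u hu => hR u (Finset.mem_union_left _ hu))
  have hg₀ : Good R (chart F) c₀ := hgood κ R (fun u hu => hR u (Finset.mem_union_right _ hu))
  obtain ⟨η, hη, hdef⟩ := near_cfg_abs R.N R.na (chart_qt hF) hc₀ (ε := 1 / 4) (by norm_num)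
  let S : Finset (AlgebraicClosure ℚ) := (({c₀.x, c₀.y, c₀.m, c₀.s, c₀.t, c₀.m', c₀.s'} :
    Finset (AlgebraicClosure ℚ)) ∪ F.support.image (fun d => F.coeff d)) ∪ T.biUnion w2_coord
  obtain ⟨δ, σ, hδ, hσS, hσN, hσδ⟩ := hE S (min η (1 / 4)) (lt_min hη (by norm_num))
  obtain ⟨c, hc, hcx, hcy, hcm, hcs, hct, hcm', hcs', hct'⟩ := hdef δ
    (lt_of_lt_of_le hδ (min_le_left _ _))
  have hcx' : R.N (c.x - c₀.x) < 1 / 4 := by
    rw [hcx, add_sub_cancel_left]
    exact lt_of_lt_of_le hδ (min_le_right _ _)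
  have mS : ∀ z ∈ ({c₀.x, c₀.y, c₀.m, c₀.s, c₀.t, c₀.m', c₀.s'} :
      Finset (AlgebraicClosure ℚ)), σ z = z := fun z hz =>
    hσS z (Finset.mem_union_left _ (Finset.mem_union_left _ hz))
  have fx : σ c₀.x = c₀.x := mS _ (by simp)
  have fy : σ c₀.y = c₀.y := mS _ (by simp)
  have fm : σ c₀.m = c₀.m := mS _ (by simp)
  have fs : σ c₀.s = c₀.s := mS _ (by simp)
  have ft : σ c₀.t = c₀.t := mS _ (by simp)
  have fm' : σ c₀.m' = c₀.m' := mS _ (by simp)
  have fs' : σ c₀.s' = c₀.s' := mS _ (by simp)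
  have hσF : MvPolynomial.map σ.toRingHom F = F := w2_map σ (fun z hz =>
    hσS z (Finset.mem_union_left _ (Finset.mem_union_right _ hz)))
  have mv : ∀ z z₀, σ z₀ = z₀ → R.N (z - z₀) < 1 / 4 → R.N (σ z - z) ≤ 1 / 4 := by
    intro z z₀ h1 h2
    have e : σ z - z = σ (z - z₀) + -(z - z₀) := by rw [map_sub, h1]; ring
    rw [e]
    refine (R.na _ _).trans (max_le ?_ ?_)
    · rw [hσN]; exact h2.le
    · rw [AbsoluteValue.map_neg]; exact h2.le
  have hmov : Mov R c σ := ⟨hσN, mv _ _ fx hcx', mv _ _ fy hcy, mv _ _ fm hcm, mv _ _ fs hcs,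
    mv _ _ ft hct, mv _ _ fm' hcm', mv _ _ fs' hcs'⟩
  have hgood' : Good R (chart F) c := by
    rw [← hfF] at hg₀ ⊢
    have h14 : (1 / 4 : ℝ) < 1 := by norm_num
    exact good_stable hg₀ (hcx'.trans h14) (hcy.trans h14) (hcm.trans h14) (hcs.trans h14)
      (hct.trans h14) (hcm'.trans h14) (hcs'.trans h14) (hct'.trans h14)
  have hmx : σ c.x ≠ c.x := by
    rw [hcx, map_add, fx]
    intro h
    exact hσδ (add_left_cancel h)
  refine ⟨DD hc, EE hc, deg_DD hc, deg_EE hc, orth hF hc, ?_⟩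
  intro B hB α β hp
  refine indep_of_move hF hfF hGR hc hgood' σ hσF hmov hmx B ?_ α β hp
  rw [Finsupp.mapDomain, Finsupp.sum]
  conv_rhs => rw [← Finsupp.sum_single B, Finsupp.sum]
  apply Finset.sum_congr rfl
  intro p hpB
  rw [w2_fix σ hσF p]
  intro z hz
  exact hσS z (Finset.mem_union_right _ (Finset.mem_biUnion.mpr ⟨p, hB hpB, hz⟩))

end W

end Pool.Agent.LibQuart
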