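import Pool.Agent.LibQuart.BH

open scoped Classical
open Polynomial
open scoped Polynomial.Bivariate

namespace Pool.Agent.LibQuart

open Pool.Agent.LibBH2

/-! ## Block Y: good reduction -/

section YY
variable {k : Type} [Field k]

/-! ### Y1 -/
theorem y1_swap_map {R S : Type} [CommRing R] [CommRing S] (φ : R →+* S) (f : R[X][Y]) :
    (Bivariate.swap f).map (mapRingHom φ) = Bivariate.swap (f.map (mapRingHom φ)) := by
  induction f using Polynomial.induction_on' with
  | add p q hp hq => simp only [Polynomial.map_add, map_add, hp, hq]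
  | monomial n p =>
    induction p using Polynomial.induction_on' with
    | add p q hp hq => simp only [Polynomial.map_add, map_add, hp, hq]
    | monomial m r =>
      simp only [Bivariate.swap_monomial_monomial, Polynomial.map_monomial, coe_mapRingHom]

/-- from `nss` for the ideal generated by `f, fx f, derivative f`, and `fx_eval` -/
theorem cert [IsAlgClosed k] {f : k[X][Y]} (hf : Sm f) :
    ∃ A B D : k[X][Y], A * f + B * fx f + D * derivative f = 1 := by
  have hI : Ideal.span {f, fx f, derivative f} = ⊤ := by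
    refine nss _ fun a b => ?_
    by_cases h0 : f.evalEval a b = 0
    · rcases hf a b h0 with h | h
      · exact ⟨fx f, Ideal.subset_span (by simp), by rwa [fx_eval]⟩
      · exact ⟨derivative f, Ideal.subset_span (by simp), h⟩
    · exact ⟨f, Ideal.subset_span (by simp), h0⟩
  have h1 : (1 : k[X][Y]) ∈ Ideal.span {f, fx f, derivative f} := by
    rw [hI]; exact Submodule.mem_top
  rw [Ideal.mem_span_insert] at h1
  obtain ⟨A, z, hz, h1⟩ := h1
  rw [Ideal.mem_span_pair] at hz
  obtain ⟨B, D, hz⟩ := hz
  exact ⟨A, B, D, by rw [h1, ← hz, add_assoc]⟩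

theorem fx_map {R S : Type} [CommRing R] [CommRing S] (φ : R →+* S) (f : R[X][Y]) :
    (fx f).map (mapRingHom φ) = fx (f.map (mapRingHom φ)) := by
  unfold fx
  rw [y1_swap_map, ← Polynomial.derivative_map, y1_swap_map]

theorem sm_dn {κ : Type} [Field κ] (R : Red k κ) {f A B D : R.O[X][Y]}
    (h : A * f + B * fx f + D * derivative f = 1) : Sm (R.dn f) := by
  intro a b h0
  by_contra hc
  rw [not_or, not_not, not_not] at hc
  have h1 := congrArg (fun p : R.O[X][Y] => ((p.map (mapRingHom R.red)).evalEval a b)) h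
  simp only [Polynomial.map_add, Polynomial.map_mul, Polynomial.map_one, fx_map,
    ← Polynomial.derivative_map, evalEval_add, evalEval_mul, evalEval_one, fx_eval] at h1
  have h2 : (f.map (mapRingHom R.red)).evalEval a b = 0 := h0
  have h3 : dX (f.map (mapRingHom R.red)) a b = 0 := hc.1
  have h4 : (derivative (f.map (mapRingHom R.red))).evalEval a b = 0 := hc.2
  rw [h2, h3, h4] at h1
  simp at h1

/-! ### Y2 -/
/-- the nonzero coefficients of a polynomial -/
noncomputable def y2cfs (q : k[X][Y]) : Finset k :=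
  q.support.biUnion fun i => (q.coeff i).support.image fun j => (q.coeff i).coeff j

theorem y2_zero_notMem (q : k[X][Y]) : (0 : k) ∉ y2cfs q := by
  unfold y2cfs
  intro h
  rw [Finset.mem_biUnion] at h
  obtain ⟨i, _, h⟩ := h
  rw [Finset.mem_image] at h
  obtain ⟨j, hj, h⟩ := h
  exact (Polynomial.mem_support_iff.1 hj) h

theorem y2_le {κ : Type} [Field κ] (R : Red k κ) {q : k[X][Y]} (h : ∀ u ∈ y2cfs q, R.N u = 1) :
    ∀ i j, R.N ((q.coeff i).coeff j) ≤ 1 := by
  intro i j
  by_cases h0 : (q.coeff i).coeff j = 0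
  · rw [h0, map_zero]; exact zero_le_one
  · refine le_of_eq (h _ ?_)
    unfold y2cfs
    rw [Finset.mem_biUnion]
    refine ⟨i, ?_, ?_⟩
    · rw [Polynomial.mem_support_iff]
      intro h1
      exact h0 (by rw [h1, Polynomial.coeff_zero])
    · rw [Finset.mem_image]
      exact ⟨j, Polynomial.mem_support_iff.2 h0, rfl⟩

theorem y2_qt {κ : Type} [Field κ] (R : Red k κ) {f : R.O[X][Y]} (h : Qt (R.up f)) : Qt f := by
  have hi0 : Function.Injective R.O.subtype := Subtype.coe_injective
  have hi : Function.Injective (mapRingHom R.O.subtype) := Polynomial.map_injective _ hi0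
  refine ⟨Polynomial.monic_of_injective hi h.monic, ?_, ?_⟩
  · rw [← Polynomial.natDegree_map_eq_of_injective hi f]
    exact h.deg
  · intro j hj
    have h1 : (R.up f).coeff j = (f.coeff j).map R.O.subtype := by
      unfold Red.up
      rw [Polynomial.coeff_map, coe_mapRingHom]
    have h2 : (R.up f).coeff j ≠ 0 := by
      rw [h1]
      intro h3
      exact hj ((Polynomial.map_eq_zero_iff hi0).1 h3)
    have h3 := h.td j h2
    rwa [h1, Polynomial.natDegree_map_eq_of_injective hi0] at h3

/-- GOOD REDUCTION. `U` = the nonzero coefficients of `chart F`, and of the certificates `A, B, D` of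
`chart F` and of `flip 4 (chart F)` (`cert`, `chart_sm`, `chart_sm2`). `f` with `up f = chart F`
(`exists_up`), certificates lifted (`up_inj`), `sm_dn`; `flip_map`; `K, K'` from `exists_ff`,
`irr_of_sm`, `qt_map`. -/
theorem exists_gr [IsAlgClosed k] {F : MvPolynomial (Fin 3) k} (hF : Quartic F) :
    ∃ U : Finset k, (0 : k) ∉ U ∧ ∀ (κ : Type) [Field κ] [IsAlgClosed κ] (R : Red k κ),
      (∀ u ∈ U, R.N u = 1) →
      ∃ (f : R.O[X][Y]) (K : Type) (_ : Field K) (_ : Algebra k K) (K' : Type) (_ : Field K')
        (_ : Algebra κ K') (x y : K) (x' y' : K'), R.up f = chart F ∧ GR R f x y x' y' := by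
  obtain ⟨A, B, D, h1⟩ := cert (chart_sm hF)
  obtain ⟨A', B', D', h2⟩ := cert (chart_sm2 hF)
  refine ⟨y2cfs (chart F) ∪ (y2cfs A ∪ (y2cfs B ∪ (y2cfs D ∪ (y2cfs A' ∪ (y2cfs B' ∪ y2cfs D'))))),
    ?_, ?_⟩
  · simp only [Finset.mem_union, y2_zero_notMem, or_self, not_false_eq_true]
  · intro κ _ _ R hR
    simp only [Finset.mem_union] at hR
    obtain ⟨f, hf⟩ := exists_up R (y2_le R fun u hu => hR u (Or.inl hu))
    obtain ⟨a, ha⟩ := exists_up R (y2_le R fun u hu => hR u (Or.inr (Or.inl hu)))
    obtain ⟨b, hb⟩ := exists_up R (y2_le R fun u hu => hR u (Or.inr (Or.inr (Or.inl hu))))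
    obtain ⟨d, hd⟩ := exists_up R (y2_le R fun u hu => hR u (Or.inr (Or.inr (Or.inr (Or.inl hu)))))
    obtain ⟨a', ha'⟩ := exists_up R (y2_le R fun u hu =>
      hR u (Or.inr (Or.inr (Or.inr (Or.inr (Or.inl hu))))))
    obtain ⟨b', hb'⟩ := exists_up R (y2_le R fun u hu =>
      hR u (Or.inr (Or.inr (Or.inr (Or.inr (Or.inr (Or.inl hu)))))))
    obtain ⟨d', hd'⟩ := exists_up R (y2_le R fun u hu =>
      hR u (Or.inr (Or.inr (Or.inr (Or.inr (Or.inr (Or.inr hu)))))))
    have hq : Qt f := y2_qt R (by rw [hf]; exact chart_qt hF)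
    have hflip : R.up (flip 4 f) = flip 4 (chart F) := by
      rw [← hf]; exact flip_map _ 4 f
    have hflip' : R.dn (flip 4 f) = flip 4 (R.dn f) := flip_map _ 4 f
    have e1 : a * f + b * fx f + d * derivative f = 1 := by
      refine up_inj R ?_
      have hfx : R.up (fx f) = fx (R.up f) := fx_map _ f
      have hdf : R.up (derivative f) = derivative (R.up f) := (Polynomial.derivative_map _ _).symm
      have : R.up (a * f + b * fx f + d * derivative f) =
          R.up a * R.up f + R.up b * R.up (fx f) + R.up d * R.up (derivative f) := by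
        unfold Red.up
        rw [Polynomial.map_add, Polynomial.map_add, Polynomial.map_mul, Polynomial.map_mul,
          Polynomial.map_mul]
      rw [this, hfx, hdf, ha, hb, hd, hf, h1]
      unfold Red.up
      rw [Polynomial.map_one]
    have e2 : a' * flip 4 f + b' * fx (flip 4 f) + d' * derivative (flip 4 f) = 1 := by
      refine up_inj R ?_
      have hfx : R.up (fx (flip 4 f)) = fx (R.up (flip 4 f)) := fx_map _ _
      have hdf : R.up (derivative (flip 4 f)) = derivative (R.up (flip 4 f)) :=
        (Polynomial.derivative_map _ _).symm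
      have : R.up (a' * flip 4 f + b' * fx (flip 4 f) + d' * derivative (flip 4 f)) =
          R.up a' * R.up (flip 4 f) + R.up b' * R.up (fx (flip 4 f)) +
            R.up d' * R.up (derivative (flip 4 f)) := by
        unfold Red.up
        rw [Polynomial.map_add, Polynomial.map_add, Polynomial.map_mul, Polynomial.map_mul,
          Polynomial.map_mul]
      rw [this, hfx, hdf, ha', hb', hd', hflip, h2]
      unfold Red.up
      rw [Polynomial.map_one]
    have s1 : Sm (R.dn f) := sm_dn R e1
    have s2 : Sm (R.dn (flip 4 f)) := sm_dn R e2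
    have hsm : Sm (R.up f) := by rw [hf]; exact chart_sm hF
    have hsm2 : Sm (R.up (flip 4 f)) := by rw [hflip]; exact chart_sm2 hF
    obtain ⟨K, iK, aK, x, y, hK⟩ := exists_ff (irr_of_sm (f := R.up f)
      (by rw [hf]; exact chart_qt hF) hsm (by rw [hf]; exact chart_sm2 hF))
    obtain ⟨K', iK', aK', x', y', hK'⟩ := exists_ff (irr_of_sm (f := R.dn f)
      (qt_map R.red hq) s1 (by rw [← hflip']; exact s2))
    exact ⟨f, K, iK, aK, K', iK', aK', x, y, x', y', hf, hq, hsm, hsm2, s1, s2, hK, hK'⟩

end YY

end Pool.Agent.LibQuart
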