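import Pool.Agent.LibQuart.BA

open scoped Classical
open Polynomial
open scoped Polynomial.Bivariate

namespace Pool.Agent.LibQuart

open Pool.Agent.LibBH2

/-! ## Block Z: the homogeneous equation and its affine form -/

section Z
variable {R : Type} [CommRing R]

/-- the affine equation `F(x, y, 1)` -/
noncomputable def chart (F : MvPolynomial (Fin 3) R) : R[X][Y] :=
  MvPolynomial.aeval (![C X, X, 1] : Fin 3 → R[X][Y]) F

/-! ### Z1 -/
theorem chart_eval (F : MvPolynomial (Fin 3) R) (a b : R) :
    (chart F).evalEval a b = MvPolynomial.eval ![a, b, 1] F := by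
  have h1 : (evalEvalRingHom a b).comp
      (MvPolynomial.aeval (![C X, X, 1] : Fin 3 → R[X][Y])).toRingHom
      = (MvPolynomial.eval ![a, b, 1] : MvPolynomial (Fin 3) R →+* R) := by
    apply MvPolynomial.ringHom_ext
    · intro r
      simp
    · intro i
      fin_cases i <;> simp
  exact RingHom.congr_fun h1 F

theorem chart_map {S : Type} [CommRing S] (φ : R →+* S) (F : MvPolynomial (Fin 3) R) :
    chart (MvPolynomial.map φ F) = (chart F).map (mapRingHom φ) := by
  have h1 : (MvPolynomial.aeval (![C X, X, 1] : Fin 3 → S[X][Y])).toRingHom.comp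
      (MvPolynomial.map φ)
      = (mapRingHom (mapRingHom φ)).comp
        (MvPolynomial.aeval (![C X, X, 1] : Fin 3 → R[X][Y])).toRingHom := by
    apply MvPolynomial.ringHom_ext
    · intro r
      simp
    · intro i
      fin_cases i <;> simp
  exact RingHom.congr_fun h1 F

theorem chart_aeval {k K : Type} [Field k] [Field K] [Algebra k K] (F : MvPolynomial (Fin 3) k)
    (x y : K) : aevalAeval x y (chart F) =
      MvPolynomial.eval ![x, y, 1] (MvPolynomial.map (algebraMap k K) F) := by
  have h1 : (aevalAeval (R := k) x y).toRingHom.comp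
      (MvPolynomial.aeval (![C X, X, 1] : Fin 3 → k[X][Y])).toRingHom
      = (MvPolynomial.eval ![x, y, 1]).comp (MvPolynomial.map (algebraMap k K)) := by
    apply MvPolynomial.ringHom_ext
    · intro r
      simp
    · intro i
      fin_cases i <;> simp
  exact RingHom.congr_fun h1 F

theorem z1_chart_monomial (m : Fin 3 →₀ ℕ) (c : R) :
    chart (MvPolynomial.monomial m c) = C (C c * X ^ (m 0)) * X ^ (m 1) := by
  unfold chart
  rw [MvPolynomial.aeval_monomial, Finsupp.prod_fintype _ _ (fun i => pow_zero _),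
    Fin.prod_univ_three]
  simp only [Matrix.cons_val_zero, Matrix.cons_val_one, Matrix.cons_val]
  rw [one_pow, mul_one, ← mul_assoc, C_mul, C_pow]
  rfl

theorem z1_flip_add (d : ℕ) (p q : R[X][Y]) : flip d (p + q) = flip d p + flip d q := by
  unfold flip
  rw [← Finset.sum_add_distrib]
  refine Finset.sum_congr rfl (fun j _ => ?_)
  rw [coeff_add, reflect_add, C_add, add_mul]

theorem z1_flip_zero (d : ℕ) : flip d (0 : R[X][Y]) = 0 := by
  unfold flip
  refine Finset.sum_eq_zero (fun j _ => ?_)
  rw [coeff_zero, reflect_zero, C_0, zero_mul]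

theorem z1_deg {F : MvPolynomial (Fin 3) R} {d : ℕ} (hF : F.IsHomogeneous d) {m : Fin 3 →₀ ℕ}
    (hm : m ∈ F.support) : m 0 + m 1 + m 2 = d := by
  have h1 := hF (MvPolynomial.mem_support_iff.mp hm)
  rw [Finsupp.weight_apply, Finsupp.sum_fintype _ _ (fun i => by simp), Fin.sum_univ_three] at h1
  simpa using h1

theorem z1_sum (P : R[X][Y] → Prop) (h0 : P 0) (hadd : ∀ p q, P p → P q → P (p + q))
    (F : MvPolynomial (Fin 3) R)
    (hm : ∀ m ∈ F.support, P (chart (MvPolynomial.monomial m (MvPolynomial.coeff m F)))) :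
    P (chart F) := by
  have h1 : chart F
      = ∑ m ∈ F.support, chart (MvPolynomial.monomial m (MvPolynomial.coeff m F)) := by
    unfold chart
    rw [← map_sum, ← MvPolynomial.as_sum]
  rw [h1]
  exact Finset.sum_induction _ P hadd h0 hm

/-- by linearity for a monomial `X^i Y^j Z^l`, `i + j + l = d` -/
theorem chart_td {F : MvPolynomial (Fin 3) R} {d : ℕ} (hF : F.IsHomogeneous d) :
    TD d (chart F) := by
  apply z1_sum (TD d)
  · intro j hj
    exact absurd (coeff_zero j) hj
  · intro p q hp hq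
    exact td_add hp hq
  · intro m hm
    have h1 := z1_deg hF hm
    rw [z1_chart_monomial]
    intro j hj
    rw [coeff_C_mul, coeff_X_pow] at hj ⊢
    by_cases h2 : j = m 1
    · rw [if_pos h2, mul_one]
      have h3 := natDegree_C_mul_X_pow_le (MvPolynomial.coeff m F) (m 0)
      omega
    · rw [if_neg h2, mul_zero] at hj
      exact absurd rfl hj

/-- `flip d (chart F) = F(1, y, x)` -/
theorem flip_chart {F : MvPolynomial (Fin 3) R} {d : ℕ} (hF : F.IsHomogeneous d) :
    flip d (chart F) = MvPolynomial.aeval (![1, X, C X] : Fin 3 → R[X][Y]) F := by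
  have h1 : ∀ G : R[X][Y], ∀ s : Finset (Fin 3 →₀ ℕ), ∀ g : (Fin 3 →₀ ℕ) → R[X][Y],
      flip d (∑ m ∈ s, g m) = ∑ m ∈ s, flip d (g m) := by
    intro G s g
    classical
    induction s using Finset.induction_on with
    | empty => rw [Finset.sum_empty, Finset.sum_empty, z1_flip_zero]
    | insert a s ha ih => rw [Finset.sum_insert ha, Finset.sum_insert ha, z1_flip_add, ih]
  have h2 : chart F
      = ∑ m ∈ F.support, chart (MvPolynomial.monomial m (MvPolynomial.coeff m F)) := by
    unfold chart
    rw [← map_sum, ← MvPolynomial.as_sum]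
  have h3 : MvPolynomial.aeval (![1, X, C X] : Fin 3 → R[X][Y]) F
      = ∑ m ∈ F.support, MvPolynomial.aeval (![1, X, C X] : Fin 3 → R[X][Y])
        (MvPolynomial.monomial m (MvPolynomial.coeff m F)) := by
    rw [← map_sum, ← MvPolynomial.as_sum]
  rw [h2, h1 0, h3]
  refine Finset.sum_congr rfl (fun m hm => ?_)
  have h4 := z1_deg hF hm
  rw [z1_chart_monomial]
  set c := MvPolynomial.coeff m F with hc
  have h5 : flip d (C (C c * X ^ (m 0)) * X ^ (m 1)) = C (C c * X ^ (m 2)) * X ^ (m 1) := by
    unfold flip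
    rw [Finset.sum_eq_single_of_mem (m 1) (Finset.mem_range.mpr (by omega))]
    · rw [coeff_C_mul, coeff_X_pow, if_pos rfl, mul_one, reflect_C_mul_X_pow, revAt_le (by omega),
        show d - m 1 - m 0 = m 2 by omega]
    · intro j _ hj
      rw [coeff_C_mul, coeff_X_pow, if_neg hj, mul_zero, reflect_zero, C_0, zero_mul]
  rw [h5, MvPolynomial.aeval_monomial, Finsupp.prod_fintype _ _ (fun i => pow_zero _),
    Fin.prod_univ_three]
  simp only [Matrix.cons_val_zero, Matrix.cons_val_one, Matrix.cons_val]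
  rw [one_pow, one_mul, C_mul, C_pow]
  have h6 : algebraMap R R[X][Y] c = C (C c) := rfl
  rw [h6]
  ring

theorem flip_chart_eval {F : MvPolynomial (Fin 3) R} {d : ℕ} (hF : F.IsHomogeneous d) (a b : R) :
    (flip d (chart F)).evalEval a b = MvPolynomial.eval ![1, b, a] F := by
  rw [flip_chart hF]
  have h1 : (evalEvalRingHom a b).comp
      (MvPolynomial.aeval (![1, X, C X] : Fin 3 → R[X][Y])).toRingHom
      = (MvPolynomial.eval ![1, b, a] : MvPolynomial (Fin 3) R →+* R) := by
    apply MvPolynomial.ringHom_ext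
    · intro r
      simp
    · intro i
      fin_cases i <;> simp
  exact RingHom.congr_fun h1 F

/-! ### Z2 -/
variable {k : Type} [Field k] {F : MvPolynomial (Fin 3) k}

theorem z2_deg (hF : Quartic F) {m : Fin 3 →₀ ℕ} (hm : m ∈ F.support) : m 0 + m 1 + m 2 = 4 := by
  have h1 := hF.hom (MvPolynomial.mem_support_iff.1 hm)
  rw [Finsupp.weight_apply, Finsupp.sum_fintype _ _ (fun i => by simp), Fin.sum_univ_three] at h1
  simpa using h1

theorem z2_coeff (hF : Quartic F) : (chart F).coeff 4 = 1 := by
  have h1 : (chart F).coeff 4 = ∑ m ∈ F.support, if m 1 = 4 then C (F.coeff m) else 0 := by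
    unfold chart
    rw [MvPolynomial.aeval_def, MvPolynomial.eval₂_eq', Polynomial.finsetSum_coeff]
    refine Finset.sum_congr rfl fun m hm => ?_
    have hd := z2_deg hF hm
    have e0 : (∏ i, (![C X, X, 1] : Fin 3 → k[X][Y]) i ^ m i) = C (X ^ m 0) * X ^ m 1 := by
      rw [Fin.prod_univ_three]
      simp
    have e1 : (algebraMap k k[X][Y]) (F.coeff m) = C (C (F.coeff m)) := rfl
    rw [e0, e1, ← mul_assoc, ← C_mul, coeff_C_mul, coeff_X_pow]
    by_cases h4 : m 1 = 4
    · have h0 : m 0 = 0 := by omega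
      rw [if_pos h4, h4, if_pos rfl, h0, pow_zero, mul_one, mul_one]
    · rw [if_neg h4, if_neg (Ne.symm h4), mul_zero]
  have h2 : ∑ m ∈ F.support, (if m 1 = 4 then F.coeff m else 0) = 1 := by
    rw [← hF.val, MvPolynomial.eval_eq']
    refine Finset.sum_congr rfl fun m hm => ?_
    have hd := z2_deg hF hm
    rw [Fin.prod_univ_three]
    by_cases h4 : m 1 = 4
    · have h0 : m 0 = 0 := by omega
      have h2 : m 2 = 0 := by omega
      simp [h4, h0, h2]
    · rw [if_neg h4]
      have h5 : m 0 ≠ 0 ∨ m 2 ≠ 0 := by omega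
      rcases h5 with h5 | h5
      · simp [h5]
      · simp [h5]
  rw [h1, ← C_1, ← h2, map_sum]
  refine Finset.sum_congr rfl fun m _ => ?_
  split_ifs
  · rfl
  · rw [C_0]

theorem chart_qt (hF : Quartic F) : Qt (chart F) := by
  have ht := chart_td hF.hom
  have hc := z2_coeff hF
  have hle : (chart F).natDegree ≤ 4 := by
    rw [Polynomial.natDegree_le_iff_coeff_eq_zero]
    intro n hn
    by_contra h
    have := ht n h
    omega
  have hd : (chart F).natDegree = 4 := by
    refine Polynomial.natDegree_eq_of_le_of_coeff_ne_zero hle ?_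
    rw [hc]
    exact one_ne_zero
  refine ⟨?_, hd, ht⟩
  rw [Polynomial.Monic, Polynomial.leadingCoeff, hd, hc]

theorem z2_der {A : Type} [CommRing A] [Algebra k A] (D : A → A)
    (hadd : ∀ p q, D (p + q) = D p + D q) (hmul : ∀ p q, D (p * q) = D p * q + p * D q)
    (hc : ∀ c : k, D (algebraMap k A c) = 0) (u : Fin 3 → A) (G : MvPolynomial (Fin 3) k) :
    D (MvPolynomial.aeval u G) =
      ∑ i, MvPolynomial.aeval u (MvPolynomial.pderiv i G) * D (u i) := by
  induction G using MvPolynomial.induction_on with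
  | C a =>
    rw [MvPolynomial.aeval_C, hc]
    symm
    refine Finset.sum_eq_zero fun i _ => ?_
    rw [MvPolynomial.pderiv_C, map_zero, zero_mul]
  | add p q hp hq =>
    rw [map_add, hadd, hp, hq, ← Finset.sum_add_distrib]
    refine Finset.sum_congr rfl fun i _ => ?_
    rw [map_add, map_add, add_mul]
  | mul_X p j hp =>
    rw [map_mul, hmul, hp, MvPolynomial.aeval_X]
    have h1 : ∀ i, MvPolynomial.aeval u (MvPolynomial.pderiv i (p * MvPolynomial.X j)) * D (u i) =
        MvPolynomial.aeval u (MvPolynomial.pderiv i p) * D (u i) * u j +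
          (if i = j then MvPolynomial.aeval u p * D (u i) else 0) := by
      intro i
      rw [Derivation.leibniz, MvPolynomial.pderiv_X, smul_eq_mul, smul_eq_mul, map_add, map_mul,
        map_mul, MvPolynomial.aeval_X]
      by_cases hij : i = j
      · subst hij
        rw [if_pos rfl, Pi.single_eq_same, map_one]
        ring
      · rw [if_neg hij, Pi.single_eq_of_ne (Ne.symm hij), map_zero]
        ring
    rw [Finset.sum_congr rfl fun i _ => h1 i, Finset.sum_add_distrib, Finset.sum_ite_eq' ,
      if_pos (Finset.mem_univ j), Finset.sum_mul]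

/-- partial derivative of a substitution into `k[X][Y]` with respect to `y` -/
theorem z2_dY (u : Fin 3 → k[X][Y]) (G : MvPolynomial (Fin 3) k) (a b : k) :
    dY (MvPolynomial.aeval u G) a b = ∑ i, MvPolynomial.eval (fun l => (u l).evalEval a b)
      (MvPolynomial.pderiv i G) * (derivative (u i)).evalEval a b := by
  unfold dY
  have h1 := z2_der (k := k) (A := k[X][Y]) (fun p => derivative p) (fun p q => derivative_add)
    (fun p q => derivative_mul) (fun c => derivative_C) u G
  have h2 : ∀ H : MvPolynomial (Fin 3) k, (MvPolynomial.aeval u H).evalEval a b =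
      MvPolynomial.eval (fun l => (u l).evalEval a b) H := by
    intro H
    induction H using MvPolynomial.induction_on with
    | C c =>
      rw [MvPolynomial.aeval_C, MvPolynomial.eval_C]
      exact evalEval_CC a b c
    | add p q hp hq => rw [map_add, evalEval_add, hp, hq, map_add]
    | mul_X p j hp =>
      rw [map_mul, evalEval_mul, hp, map_mul, MvPolynomial.aeval_X, MvPolynomial.eval_X]
  rw [h1, evalEval_finsetSum]
  refine Finset.sum_congr rfl fun i _ => ?_
  rw [evalEval_mul, h2]

/-- partial derivative of a substitution into `k[X][Y]` with respect to `x` -/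
theorem z2_dX (u : Fin 3 → k[X][Y]) (G : MvPolynomial (Fin 3) k) (a b : k) :
    dX (MvPolynomial.aeval u G) a b = ∑ i, MvPolynomial.eval (fun l => (u l).evalEval a b)
      (MvPolynomial.pderiv i G) * (derivative ((u i).eval (C b))).eval a := by
  unfold dX
  have h0 : ∀ H : MvPolynomial (Fin 3) k, (MvPolynomial.aeval u H).eval (C b) =
      MvPolynomial.aeval (fun l => (u l).eval (C b)) H := by
    intro H
    induction H using MvPolynomial.induction_on with
    | C c =>
      rw [MvPolynomial.aeval_C, MvPolynomial.aeval_C]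
      exact eval_C
    | add p q hp hq => rw [map_add, eval_add, hp, hq, map_add]
    | mul_X p j hp =>
      rw [map_mul, eval_mul, hp, map_mul, MvPolynomial.aeval_X, MvPolynomial.aeval_X]
  have h1 := z2_der (k := k) (A := k[X]) (fun p => derivative p) (fun p q => derivative_add)
    (fun p q => derivative_mul) (fun c => derivative_C) (fun l => (u l).eval (C b)) G
  have h2 : ∀ H : MvPolynomial (Fin 3) k,
      (MvPolynomial.aeval (fun l => (u l).eval (C b)) H).eval a =
        MvPolynomial.eval (fun l => (u l).evalEval a b) H := by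
    intro H
    induction H using MvPolynomial.induction_on with
    | C c =>
      rw [MvPolynomial.aeval_C, MvPolynomial.eval_C]
      exact eval_C
    | add p q hp hq => rw [map_add, eval_add, hp, hq, map_add]
    | mul_X p j hp =>
      rw [map_mul, eval_mul, hp, map_mul, MvPolynomial.aeval_X, MvPolynomial.eval_X]
  rw [h0, h1, eval_finsetSum]
  refine Finset.sum_congr rfl fun i _ => ?_
  rw [eval_mul, h2]

theorem z2_euler (hF : Quartic F) (P : Fin 3 → k) (h0 : MvPolynomial.eval P F = 0) :
    P 0 * MvPolynomial.eval P (MvPolynomial.pderiv 0 F) +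
      P 1 * MvPolynomial.eval P (MvPolynomial.pderiv 1 F) +
      P 2 * MvPolynomial.eval P (MvPolynomial.pderiv 2 F) = 0 := by
  have h1 := congrArg (MvPolynomial.eval P) hF.hom.sum_X_mul_pderiv
  rw [map_sum, Fin.sum_univ_three, map_nsmul, h0, smul_zero] at h1
  simpa using h1

/-- `dX (chart F) a b = ∂₀F(a,b,1)`, `dY = ∂₁F(a,b,1)`; Euler's relation. -/
theorem chart_sm (hF : Quartic F) : Sm (chart F) := by
  intro a b hab
  rw [chart_eval] at hab
  have e : (fun l => ((![C X, X, 1] : Fin 3 → k[X][Y]) l).evalEval a b) = ![a, b, 1] := by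
    funext l
    fin_cases l
    · exact (evalEval_C a b X).trans eval_X
    · exact evalEval_X a b
    · exact evalEval_one a b
  have h1 : dY (chart F) a b = MvPolynomial.eval ![a, b, 1] (MvPolynomial.pderiv 1 F) := by
    unfold chart
    rw [z2_dY, e, Fin.sum_univ_three]
    simp
  have h2 : dX (chart F) a b = MvPolynomial.eval ![a, b, 1] (MvPolynomial.pderiv 0 F) := by
    unfold chart
    rw [z2_dX, e, Fin.sum_univ_three]
    simp
  rw [h1, h2]
  by_contra hne
  push Not at hne
  have h3 := z2_euler hF _ hab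
  obtain ⟨i, hi⟩ := hF.smooth ![a, b, 1] (by
    intro h
    have h4 := congrFun h 2
    simp at h4) hab
  rw [hne.1, hne.2] at h3
  fin_cases i
  · exact hi hne.1
  · exact hi hne.2
  · apply hi
    simpa using h3

theorem chart_sm2 (hF : Quartic F) : Sm (flip 4 (chart F)) := by
  intro a b hab
  rw [flip_chart_eval hF.hom] at hab
  have e : (fun l => ((![1, X, C X] : Fin 3 → k[X][Y]) l).evalEval a b) = ![1, b, a] := by
    funext l
    fin_cases l
    · exact evalEval_one a b
    · exact evalEval_X a b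
    · exact (evalEval_C a b X).trans eval_X
  have h1 : dY (flip 4 (chart F)) a b =
      MvPolynomial.eval ![1, b, a] (MvPolynomial.pderiv 1 F) := by
    rw [flip_chart hF.hom, z2_dY, e, Fin.sum_univ_three]
    simp
  have h2 : dX (flip 4 (chart F)) a b =
      MvPolynomial.eval ![1, b, a] (MvPolynomial.pderiv 2 F) := by
    rw [flip_chart hF.hom, z2_dX, e, Fin.sum_univ_three]
    simp
  rw [h1, h2]
  by_contra hne
  push Not at hne
  have h3 := z2_euler hF _ hab
  obtain ⟨i, hi⟩ := hF.smooth ![1, b, a] (by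
    intro h
    have h4 := congrFun h 0
    simp at h4) hab
  have e1 : MvPolynomial.eval ![1, b, a] (MvPolynomial.pderiv 2 F) = 0 := hne.1
  have e2 : MvPolynomial.eval ![1, b, a] (MvPolynomial.pderiv 1 F) = 0 := hne.2
  rw [e1, e2] at h3
  fin_cases i
  · apply hi
    simpa using h3
  · exact hi e2
  · exact hi e1

/-! ### Z3 -/
section gen
variable {K : Type} [Field K] [Algebra k K] {x y : K}

/-- the generic point -/
theorem gen_eq (h : FF (chart F) x y) :
    MvPolynomial.eval ![x, y, 1] (MvPolynomial.map (algebraMap k K) F) = 0 := by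
  rw [← chart_aeval]
  exact h.root

/-- `SpG h v p`: `v` is centred at the point `p` of the curve -/
def SpG (h : FF (chart F) x y) (v : Place k K) (p : Pt F) : Prop :=
  Sp v (.aff x y (gen_eq h)) p

theorem spG_aff (h : FF (chart F) x y) (v : Place k K) (a b : k) (hab) :
    SpG h v (.aff a b hab) ↔ Cen v x y a b := Iff.rfl

/-- `ord x < 0` iff `x⁻¹` vanishes (`x ≠ 0`: `ff_ne_zero`) -/
theorem spG_inf (hF : Quartic F) (h : FF (chart F) x y) (v : Place k K) (b : k) (hb) :
    SpG h v (.inf b hb) ↔ Cen v x⁻¹ (y * x⁻¹) 0 b := by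
  have hx : x ≠ 0 := ff_ne_zero (chart_qt hF) h
  have e : v.ord x < 0 ↔ v.Zer (x⁻¹ - algebraMap k K 0) := by
    rw [map_zero, sub_zero, Place.Zer, Place.ord_inv]
    constructor
    · intro h1; right; omega
    · rintro (h1 | h1)
      · exact absurd h1 (inv_ne_zero hx)
      · omega
  show v.ord x < 0 ∧ v.Zer (y / x - algebraMap k K b) ↔
    v.Zer (x⁻¹ - algebraMap k K 0) ∧ v.Zer (y * x⁻¹ - algebraMap k K b)
  rw [e, div_eq_mul_inv]

theorem z3_const {v : Place k K} {z : K} {a a' : k} (h1 : v.Zer (z - algebraMap k K a))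
    (h2 : v.Zer (z - algebraMap k K a')) : a = a' := by
  by_contra hne
  have h3 := h2.sub h1
  have e : z - algebraMap k K a' - (z - algebraMap k K a) = algebraMap k K (a - a') := by
    rw [map_sub]; ring
  rw [e] at h3
  have hne' : a - a' ≠ 0 := sub_ne_zero.mpr hne
  rcases h3 with h3 | h3
  · exact hne' ((map_eq_zero _).mp h3)
  · rw [v.ord_const _ hne'] at h3
    exact lt_irrefl _ h3

theorem spG_exists [IsAlgClosed k] (hF : Quartic F) (h : FF (chart F) x y) (v : Place k K) :
    ∃ p, SpG h v p := by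
  rcases center (chart_qt hF) h v with ⟨a, b, hab, hc⟩ | ⟨b, hb, hc⟩
  · rw [chart_eval] at hab
    exact ⟨.aff a b hab, (spG_aff h v a b hab).mpr hc⟩
  · rw [flip_chart_eval hF.hom] at hb
    exact ⟨.inf b hb, (spG_inf hF h v b hb).mpr hc⟩

theorem spG_unique (hF : Quartic F) (h : FF (chart F) x y) {v : Place k K} {p q : Pt F} (h1 : SpG h v p)
    (h2 : SpG h v q) : p = q := by
  have hx : x ≠ 0 := ff_ne_zero (chart_qt hF) h
  cases p with
  | aff a b hab =>
    rw [spG_aff] at h1
    cases q with
    | aff a' b' hab' =>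
      rw [spG_aff] at h2
      have e1 := z3_const h1.1 h2.1
      have e2 := z3_const h1.2 h2.2
      subst e1; subst e2
      rfl
    | inf b' hb' =>
      rw [spG_inf hF] at h2
      exact (cen_excl hx h1 h2).elim
  | inf b hb =>
    rw [spG_inf hF] at h1
    cases q with
    | aff a' b' hab' =>
      rw [spG_aff] at h2
      exact (cen_excl hx h2 h1).elim
    | inf b' hb' =>
      rw [spG_inf hF] at h2
      have e2 := z3_const h1.2 h2.2
      subst e2
      rfl

theorem spG_inj (hF : Quartic F) (h : FF (chart F) x y) {v w : Place k K} {p : Pt F}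
    (h1 : SpG h v p) (h2 : SpG h w p) : v = w := by
  cases p with
  | aff a b hab =>
    rw [spG_aff] at h1 h2
    have hab' : (chart F).evalEval a b = 0 := by rw [chart_eval]; exact hab
    exact place_unique (chart_qt hF) h hab' (chart_sm hF a b hab') h1 h2
  | inf b hb =>
    rw [spG_inf hF] at h1 h2
    have hb' : (flip 4 (chart F)).evalEval 0 b = 0 := by rw [flip_chart_eval hF.hom]; exact hb
    exact place_unique (qt_flip (chart_qt hF)) (ff_flip (chart_qt hF) h) hb'
      (chart_sm2 hF 0 b hb') h1 h2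

theorem spG_surj (hF : Quartic F) (h : FF (chart F) x y) (p : Pt F) : ∃ v : Place k K, SpG h v p := by
  cases p with
  | aff a b hab =>
    have hab' : (chart F).evalEval a b = 0 := by rw [chart_eval]; exact hab
    obtain ⟨v, hv⟩ := place_exists (chart_qt hF) h hab' (chart_sm hF a b hab')
    exact ⟨v, (spG_aff h v a b hab).mpr hv⟩
  | inf b hb =>
    have hb' : (flip 4 (chart F)).evalEval 0 b = 0 := by rw [flip_chart_eval hF.hom]; exact hb
    obtain ⟨v, hv⟩ := place_exists (qt_flip (chart_qt hF)) (ff_flip (chart_qt hF) h) hb'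
      (chart_sm2 hF 0 b hb')
    exact ⟨v, (spG_inf hF h v b hb).mpr hv⟩

/-- `D` is the divisor of `φ` -/
def DivOf (h : FF (chart F) x y) (φ : K) (D : Pt F →₀ ℤ) : Prop :=
  ∀ v p, SpG h v p → v.ord φ = D p

/-! ### Z4 -/
/-- every function has a divisor (`ord_finite`) -/
theorem exists_divOf [IsAlgClosed k] (hF : Quartic F) (h : FF (chart F) x y) {φ : K} (hφ : φ ≠ 0) :
    ∃ D, DivOf h φ D := by
  choose pl hpl using spG_surj hF h
  have hinj : Function.Injective pl := by
    intro p q hpq
    have h1 := hpl p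
    rw [hpq] at h1
    exact spG_unique hF h h1 (hpl q)
  have hfin := ord_finite (chart_qt hF) (chart_sm hF) (chart_sm2 hF) h hφ
  have hsupp : (Function.support fun p => (pl p).ord φ).Finite := by
    have h2 := hfin.preimage hinj.injOn
    exact h2
  refine ⟨Finsupp.ofSupportFinite (fun p => (pl p).ord φ) hsupp, fun v p hp => ?_⟩
  have h3 : v = pl p := spG_inj hF h hp (hpl p)
  rw [h3]
  rfl

/-- the sum over places of `single (centre) (ord)` is `D` (injectivity of the centre) -/
theorem sum_single_eq [IsAlgClosed k] (hF : Quartic F) (h : FF (chart F) x y) {φ : K} {D : Pt F →₀ ℤ}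
    (hD : DivOf h φ D) (S : Finset (Place k K)) (p : Place k K → Pt F)
    (hS : ∀ v, v.ord φ ≠ 0 → v ∈ S) (hp : ∀ v ∈ S, SpG h v (p v)) {A : Type} (g : Pt F → A) :
    ∑ v ∈ S, Finsupp.single (g (p v)) (v.ord φ) = D.mapDomain g := by
  have h1 : D = ∑ v ∈ S, Finsupp.single (p v) (v.ord φ) := by
    ext q
    obtain ⟨v0, hv0⟩ := spG_surj hF h q
    rw [← hD v0 q hv0, Finsupp.finsetSum_apply]
    by_cases hmem : v0 ∈ S
    · rw [Finset.sum_eq_single_of_mem v0 hmem]
      · rw [spG_unique hF h (hp v0 hmem) hv0, Finsupp.single_eq_same]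
      · intro v hv hne
        rw [Finsupp.single_apply, if_neg]
        intro h2
        exact hne (spG_inj hF h (h2 ▸ hp v hv) hv0)
    · have h3 : v0.ord φ = 0 := by
        by_contra h4
        exact hmem (hS v0 h4)
      rw [h3]
      symm
      apply Finset.sum_eq_zero
      intro v hv
      rw [Finsupp.single_apply, if_neg]
      intro h2
      exact hmem ((spG_inj hF h (h2 ▸ hp v hv) hv0) ▸ hv)
  rw [h1, Finsupp.mapDomain_finsetSum]
  refine Finset.sum_congr rfl (fun v _ => ?_)
  rw [Finsupp.mapDomain_single]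

/-! ### Z5 -/
/-- the constant point -/
theorem z5_cst (K : Type) [Field K] [Algebra k K] (Q : Pt F) :
    ∃ T : Pt (MvPolynomial.map (algebraMap k K) F), ∀ v : Place k K, Sp v T Q := by
  have key : ∀ P : Fin 3 → k, MvPolynomial.eval P F = 0 →
      MvPolynomial.eval (fun i => algebraMap k K (P i)) (MvPolynomial.map (algebraMap k K) F) = 0 := by
    intro P h0
    rw [MvPolynomial.eval_map]
    show MvPolynomial.eval₂ (algebraMap k K) (algebraMap k K ∘ P) F = 0
    rw [← MvPolynomial.eval₂_comp, h0, map_zero]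
  cases Q with
  | aff a b hab =>
    refine ⟨.aff (algebraMap k K a) (algebraMap k K b) ?_, ?_⟩
    · have h1 := key _ hab
      have h3 : (fun i => algebraMap k K ((![a, b, 1] : Fin 3 → k) i))
          = ![algebraMap k K a, algebraMap k K b, 1] := by
        funext i; fin_cases i <;> simp
      rw [h3] at h1
      exact h1
    · intro v
      exact ⟨Place.val_const a, Place.val_const b⟩
  | inf b hb =>
    refine ⟨.inf (algebraMap k K b) ?_, ?_⟩
    · have h1 := key _ hb
      have h3 : (fun i => algebraMap k K ((![1, b, 0] : Fin 3 → k) i))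
          = ![1, algebraMap k K b, 0] := by
        funext i; fin_cases i <;> simp
      rw [h3] at h1
      exact h1
    · intro v
      exact Place.val_const b

/-- the support of a function and the centres -/
theorem z5_data [IsAlgClosed k] (hF : Quartic F) (h : FF (chart F) x y) {φ : K} (hφ : φ ≠ 0) :
    ∃ (S : Finset (Place k K)) (p : Place k K → Pt F),
      (∀ v, v.ord φ ≠ 0 → v ∈ S) ∧ (∀ v, SpG h v (p v)) := by
  have hfin := ord_finite (chart_qt hF) (chart_sm hF) (chart_sm2 hF) h hφ
  refine ⟨hfin.toFinset, fun v => (spG_exists hF h v).choose, ?_, ?_⟩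
  · intro v hv
    rw [Set.Finite.mem_toFinset]
    exact hv
  · intro v
    exact (spG_exists hF h v).choose_spec

/-- push-forwards of `div φ` along the diagonal and along `C × Q`, `Q × C`:
`K` itself, `s = x` (`ff_transcendental`, `ff_finite`), `T₁, T₂` = generic point or the constant
point `Q` (`Sp v (const Q) Q`), `sum_single_eq`. -/
theorem push_diag [IsAlgClosed k] (hF : Quartic F) (h : FF (chart F) x y) {φ : K} (hφ : φ ≠ 0)
    {D : Pt F →₀ ℤ} (hD : DivOf h φ D) : IsPush F (D.mapDomain fun p => (p, p)) := by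
  obtain ⟨S, p, hS, hp⟩ := z5_data hF h hφ
  refine ⟨K, inferInstance, inferInstance, x, .aff x y (gen_eq h), .aff x y (gen_eq h), φ, S, p, p,
    ff_transcendental (chart_qt hF) h, ff_finite (chart_qt hF) h, hφ, hS,
    fun v _ => ⟨hp v, hp v⟩, ?_⟩
  exact (sum_single_eq hF h hD S p hS (fun v _ => hp v) (fun q => (q, q))).symm

theorem push_left [IsAlgClosed k] (hF : Quartic F) (h : FF (chart F) x y) {φ : K} (hφ : φ ≠ 0)
    {D : Pt F →₀ ℤ} (hD : DivOf h φ D) (Q : Pt F) : IsPush F (D.mapDomain fun p => (p, Q)) := by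
  obtain ⟨S, p, hS, hp⟩ := z5_data hF h hφ
  obtain ⟨T, hT⟩ := z5_cst K Q
  refine ⟨K, inferInstance, inferInstance, x, .aff x y (gen_eq h), T, φ, S, p, fun _ => Q,
    ff_transcendental (chart_qt hF) h, ff_finite (chart_qt hF) h, hφ, hS,
    fun v _ => ⟨hp v, hT v⟩, ?_⟩
  exact (sum_single_eq hF h hD S p hS (fun v _ => hp v) (fun q => (q, Q))).symm

theorem push_right [IsAlgClosed k] (hF : Quartic F) (h : FF (chart F) x y) {φ : K} (hφ : φ ≠ 0)
    {D : Pt F →₀ ℤ} (hD : DivOf h φ D) (Q : Pt F) : IsPush F (D.mapDomain fun p => (Q, p)) := by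
  obtain ⟨S, p, hS, hp⟩ := z5_data hF h hφ
  obtain ⟨T, hT⟩ := z5_cst K Q
  refine ⟨K, inferInstance, inferInstance, x, T, .aff x y (gen_eq h), φ, S, fun _ => Q, p,
    ff_transcendental (chart_qt hF) h, ff_finite (chart_qt hF) h, hφ, hS,
    fun v _ => ⟨hT v, hp v⟩, ?_⟩
  exact (sum_single_eq hF h hD S p hS (fun v _ => hp v) (fun q => (Q, q))).symm

/-! ### Z6 -/
theorem divOf_mul (h : FF (chart F) x y) {φ ψ : K} {D E : Pt F →₀ ℤ} (h1 : φ ≠ 0) (h2 : ψ ≠ 0)
    (hD : DivOf h φ D) (hE : DivOf h ψ E) : DivOf h (φ * ψ) (D + E) := by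
  intro v p hp
  rw [v.ord_mul _ _ h1 h2, hD v p hp, hE v p hp, Finsupp.add_apply]

theorem divOf_div (h : FF (chart F) x y) {φ ψ : K} {D E : Pt F →₀ ℤ} (h1 : φ ≠ 0) (h2 : ψ ≠ 0)
    (hD : DivOf h φ D) (hE : DivOf h ψ E) : DivOf h (φ / ψ) (D - E) := by
  intro v p hp
  rw [v.ord_div _ _ h1 h2, hD v p hp, hE v p hp, Finsupp.sub_apply]

end gen

/-! ### Z7 -/
theorem eval_conj (σ : k ≃+* k) (hσ : MvPolynomial.map σ.toRingHom F = F) (P : Fin 3 → k) :
    MvPolynomial.eval (fun i => σ (P i)) F = σ (MvPolynomial.eval P F) := by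
  have h1 := MvPolynomial.map_eval σ.toRingHom P F
  rw [hσ] at h1
  exact h1.symm

/-- the action of an automorphism `σ` of `k` fixing `F` on points -/
noncomputable def ptMap (σ : k ≃+* k) (hσ : MvPolynomial.map σ.toRingHom F = F) : Pt F → Pt F
  | .aff a b h => .aff (σ a) (σ b) (by
      have h3 : (fun i => σ ((![a, b, 1] : Fin 3 → k) i)) = ![σ a, σ b, 1] := by
        funext i; fin_cases i <;> simp
      rw [← h3, eval_conj σ hσ, h, map_zero])
  | .inf b h => .inf (σ b) (by
      have h3 : (fun i => σ ((![1, b, 0] : Fin 3 → k) i)) = ![1, σ b, 0] := by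
        funext i; fin_cases i <;> simp
      rw [← h3, eval_conj σ hσ, h, map_zero])

theorem ptMap_inj (σ : k ≃+* k) (hσ : MvPolynomial.map σ.toRingHom F = F) :
    Function.Injective (ptMap σ hσ) := by
  intro p q hpq
  cases p with
  | aff a b h =>
    cases q with
    | aff a' b' h' =>
      simp only [ptMap, Pt.aff.injEq] at hpq
      obtain ⟨h1, h2⟩ := hpq
      have h1 := σ.injective h1
      have h2 := σ.injective h2
      subst h1
      subst h2
      rfl
    | inf b' h' =>
      simp [ptMap] at hpq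
  | inf b h =>
    cases q with
    | aff a' b' h' =>
      simp [ptMap] at hpq
    | inf b' h' =>
      simp only [ptMap, Pt.inf.injEq] at hpq
      have h1 := σ.injective hpq
      subst h1
      rfl

/-- the place `v' ∘ τ` -/
def z7_pull {K K' : Type} [Field K] [Algebra k K] [Field K'] [Algebra k K'] (σ : k ≃+* k)
    (τ : K ≃+* K') (hτ : ∀ c, τ (algebraMap k K c) = algebraMap k K' (σ c)) (v' : Place k K') :
    Place k K where
  ord := fun f => v'.ord (τ f)
  ord_zero := by rw [map_zero, v'.ord_zero]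
  ord_mul := by
    intro f g hf hg
    rw [map_mul]
    exact v'.ord_mul _ _ (by simpa using hf) (by simpa using hg)
  ord_add := by
    intro f g hf hg hfg
    rw [map_add]
    refine v'.ord_add _ _ (by simpa using hf) (by simpa using hg) ?_
    rw [← map_add]
    exact (map_ne_zero_iff τ τ.injective).mpr hfg
  ord_const := by
    intro c hc
    rw [hτ]
    exact v'.ord_const _ (by simpa using hc)
  exists_uniformizer := by
    obtain ⟨t, ht⟩ := v'.exists_uniformizer
    exact ⟨τ.symm t, by rw [RingEquiv.apply_symm_apply]; exact ht⟩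

theorem z7_zer {K K' : Type} [Field K] [Algebra k K] [Field K'] [Algebra k K'] (σ : k ≃+* k)
    (τ : K ≃+* K') (hτ : ∀ c, τ (algebraMap k K c) = algebraMap k K' (σ c)) (v' : Place k K')
    (f : K) (c : k) (hz : (z7_pull σ τ hτ v').Zer (f - algebraMap k K c)) :
    v'.Zer (τ f - algebraMap k K' (σ c)) := by
  rw [← hτ, ← map_sub]
  rcases hz with h0 | h0
  · left
    rw [h0, map_zero]
  · right
    exact h0

/-- Transport along a semilinear isomorphism `τ : K → K'` over `σ` with `τ x = x'`, `τ y = y'`: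
`v' ↦ v' ∘ τ` is a place of `K`, centred at `p` iff `v'` is centred at `σ p`. -/
theorem divOf_semi {K K' : Type} [Field K] [Algebra k K] [Field K'] [Algebra k K'] {x y : K} {x' y' : K'}
    [IsAlgClosed k] (hF : Quartic F) (h : FF (chart F) x y) (h' : FF (chart F) x' y') (σ : k ≃+* k)
    (hσ : MvPolynomial.map σ.toRingHom F = F) (τ : K ≃+* K')
    (hτ : ∀ c, τ (algebraMap k K c) = algebraMap k K' (σ c)) (hx : τ x = x') (hy : τ y = y')
    {φ : K} {D : Pt F →₀ ℤ} (hD : DivOf h φ D) :
    DivOf h' (τ φ) (D.mapDomain (ptMap σ hσ)) := by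
  intro v' p' hp'
  obtain ⟨p, hp⟩ := spG_exists hF h (z7_pull σ τ hτ v')
  have h1 : SpG h' v' (ptMap σ hσ p) := by
    cases p with
    | aff a b hab =>
      obtain ⟨ha, hb⟩ := hp
      refine ⟨?_, ?_⟩
      · rw [← hx]
        exact z7_zer σ τ hτ v' x a ha
      · rw [← hy]
        exact z7_zer σ τ hτ v' y b hb
    | inf b hb =>
      obtain ⟨ha, hb⟩ := hp
      refine ⟨?_, ?_⟩
      · rw [← hx]
        exact ha
      · rw [← hx, ← hy, ← map_div₀]
        exact z7_zer σ τ hτ v' (y / x) b hb
  have h2 : p' = ptMap σ hσ p := spG_unique hF h' hp' h1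
  rw [h2, Finsupp.mapDomain_apply (ptMap_inj σ hσ), ← hD _ p hp]
  rfl

/-! ### Z8 -/
theorem z8_refl (hσ : MvPolynomial.map (RingEquiv.refl k).toRingHom F = F) :
    ptMap (RingEquiv.refl k) hσ = id := by
  funext p
  cases p <;> rfl

theorem z8_irr [IsAlgClosed k] (hF : Quartic F) : Irreducible (chart F) :=
  irr_of_sm (chart_qt hF) (chart_sm hF) (chart_sm2 hF)

/-- `IsDivisor` in terms of any function field of the curve: `ff_of_adjoin` (with `irr_of_sm`), `Sp` of
the generic point, then `ff_semi` with `σ = refl` and `divOf_semi`. -/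
theorem isDivisor_iff [IsAlgClosed k] (hF : Quartic F) {K : Type} [Field K] [Algebra k K] {x y : K}
    (h : FF (chart F) x y) (D : Pt F →₀ ℤ) :
    IsDivisor F D ↔ ∃ φ : K, φ ≠ 0 ∧ DivOf h φ D := by
  constructor
  · rintro ⟨K₁, i1, i2, x₁, y₁, hxy, φ, S, p, ht, ha, hφ, hS, hp, hDe⟩
    have h0 : aevalAeval x₁ y₁ (chart F) = 0 := by
      rw [chart_aeval]
      exact hxy
    have h₁ : FF (chart F) x₁ y₁ := ff_of_adjoin (z8_irr hF) (chart_qt hF) h0 ht ha
    have hp' : ∀ v ∈ S, SpG h₁ v (p v) := hp
    obtain ⟨D', hD'⟩ := exists_divOf hF h₁ hφ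
    have h2 := sum_single_eq hF h₁ hD' S p hS hp' id
    rw [Finsupp.mapDomain_id] at h2
    have h3 : D = D' := by
      rw [hDe, ← h2]
      rfl
    subst h3
    have hσ : MvPolynomial.map (RingEquiv.refl k).toRingHom F = F := by
      have : (RingEquiv.refl k).toRingHom = RingHom.id k := rfl
      rw [this, MvPolynomial.map_id]
    have hσ2 : (chart F).map (mapRingHom (RingEquiv.refl k).toRingHom) = chart F := by
      rw [← chart_map, hσ]
    obtain ⟨τ, t1, t2, t3⟩ := ff_semi h₁ h (RingEquiv.refl k) hσ2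
    have h4 := divOf_semi hF h₁ h (RingEquiv.refl k) hσ τ t1 t2 t3 hD'
    rw [z8_refl, Finsupp.mapDomain_id] at h4
    exact ⟨τ φ, (map_ne_zero τ).2 hφ, h4⟩
  · rintro ⟨φ, hφ, hD⟩
    have hfin := ord_finite (chart_qt hF) (chart_sm hF) (chart_sm2 hF) h hφ
    have hS : ∀ v : Place k K, v.ord φ ≠ 0 → v ∈ hfin.toFinset := by
      intro v hv
      rw [Set.Finite.mem_toFinset]
      exact hv
    have hp : ∀ v ∈ hfin.toFinset, SpG h v ((spG_exists hF h v).choose) :=
      fun v _ => (spG_exists hF h v).choose_spec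
    refine ⟨K, inferInstance, inferInstance, x, y, gen_eq h, φ, hfin.toFinset,
      fun v => (spG_exists hF h v).choose, ff_transcendental (chart_qt hF) h, ff_adjoin h, hφ,
      hS, hp, ?_⟩
    have h2 := sum_single_eq hF h hD hfin.toFinset (fun v => (spG_exists hF h v).choose) hS hp id
    rw [Finsupp.mapDomain_id] at h2
    exact h2.symm

/-- principal divisors: the conjugate of a principal divisor, and differences, are principal -/
theorem isDivisor_conj [IsAlgClosed k] (hF : Quartic F) (σ : k ≃+* k)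
    (hσ : MvPolynomial.map σ.toRingHom F = F) {D : Pt F →₀ ℤ} (hD : IsDivisor F D) :
    IsDivisor F (D.mapDomain (ptMap σ hσ) - D) := by
  obtain ⟨K, i1, i2, x, y, h⟩ := exists_ff (z8_irr hF)
  obtain ⟨φ, hφ, hφD⟩ := (isDivisor_iff hF h D).1 hD
  have hσ2 : (chart F).map (mapRingHom σ.toRingHom) = chart F := by
    rw [← chart_map, hσ]
  obtain ⟨τ, t1, t2, t3⟩ := ff_semi h h σ hσ2
  have h4 := divOf_semi hF h h σ hσ τ t1 t2 t3 hφD
  have hτφ : τ φ ≠ 0 := (map_ne_zero τ).2 hφ
  exact (isDivisor_iff hF h _).2 ⟨τ φ / φ, div_ne_zero hτφ hφ, divOf_div h hτφ hφ h4 hφD⟩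

end Z

end Pool.Agent.LibQuart
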