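import Pool.Agent.LibQuart.QD

/-!
Explicit formulas for plane quartics `f` (`Qt f`): coefficients, values, partial derivatives,
restriction to lines.
-/

open scoped Classical
open Polynomial
open scoped Polynomial.Bivariate

namespace Pool.Agent.LibQuart

section poly
variable {R : Type} [CommRing R]

/-- the quartic with coefficients `q i j` at `x ^ i y ^ j` -/
noncomputable def exQ (q : ℕ → ℕ → R) : R[X][Y] :=
  Y ^ 4 + C (C (q 1 3) * X + C (q 0 3)) * Y ^ 3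
    + C (C (q 2 2) * X ^ 2 + C (q 1 2) * X + C (q 0 2)) * Y ^ 2
    + C (C (q 3 1) * X ^ 3 + C (q 2 1) * X ^ 2 + C (q 1 1) * X + C (q 0 1)) * Y
    + C (C (q 4 0) * X ^ 4 + C (q 3 0) * X ^ 3 + C (q 2 0) * X ^ 2 + C (q 1 0) * X + C (q 0 0))

/-- value -/
def exF (q : ℕ → ℕ → R) (a b : R) : R :=
  b ^ 4 + (q 1 3 * a + q 0 3) * b ^ 3 + (q 2 2 * a ^ 2 + q 1 2 * a + q 0 2) * b ^ 2
    + (q 3 1 * a ^ 3 + q 2 1 * a ^ 2 + q 1 1 * a + q 0 1) * b
    + (q 4 0 * a ^ 4 + q 3 0 * a ^ 3 + q 2 0 * a ^ 2 + q 1 0 * a + q 0 0)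

/-- partial derivative in `x` -/
def exX (q : ℕ → ℕ → R) (a b : R) : R :=
  q 1 3 * b ^ 3 + (2 * q 2 2 * a + q 1 2) * b ^ 2
    + (3 * q 3 1 * a ^ 2 + 2 * q 2 1 * a + q 1 1) * b
    + (4 * q 4 0 * a ^ 3 + 3 * q 3 0 * a ^ 2 + 2 * q 2 0 * a + q 1 0)

/-- partial derivative in `y` -/
def exY (q : ℕ → ℕ → R) (a b : R) : R :=
  4 * b ^ 3 + 3 * (q 1 3 * a + q 0 3) * b ^ 2 + 2 * (q 2 2 * a ^ 2 + q 1 2 * a + q 0 2) * b
    + (q 3 1 * a ^ 3 + q 2 1 * a ^ 2 + q 1 1 * a + q 0 1)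

/-- half of the second derivative in `x` -/
def exXX (q : ℕ → ℕ → R) (a b : R) : R :=
  q 2 2 * b ^ 2 + (3 * q 3 1 * a + q 2 1) * b + (6 * q 4 0 * a ^ 2 + 3 * q 3 0 * a + q 2 0)

/-- mixed second derivative -/
def exXY (q : ℕ → ℕ → R) (a b : R) : R :=
  3 * q 1 3 * b ^ 2 + 2 * (2 * q 2 2 * a + q 1 2) * b
    + (3 * q 3 1 * a ^ 2 + 2 * q 2 1 * a + q 1 1)

/-- half of the second derivative in `y` -/
def exYY (q : ℕ → ℕ → R) (a b : R) : R :=
  6 * b ^ 2 + 3 * (q 1 3 * a + q 0 3) * b + (q 2 2 * a ^ 2 + q 1 2 * a + q 0 2)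

/-- linear coefficient of the restriction to the line of slope `m` -/
def ex1 (q : ℕ → ℕ → R) (a b m : R) : R := exX q a b + m * exY q a b

/-- quadratic coefficient -/
def ex2 (q : ℕ → ℕ → R) (a b m : R) : R := exXX q a b + m * exXY q a b + m ^ 2 * exYY q a b

/-- cubic coefficient -/
def ex3 (q : ℕ → ℕ → R) (a b m : R) : R :=
  (q 3 1 * b + 4 * q 4 0 * a + q 3 0) + m * (2 * q 2 2 * b + 3 * q 3 1 * a + q 2 1)
    + m ^ 2 * (3 * q 1 3 * b + 2 * q 2 2 * a + q 1 2) + m ^ 3 * (4 * b + q 1 3 * a + q 0 3)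

/-- quartic coefficient -/
def ex4 (q : ℕ → ℕ → R) (m : R) : R :=
  m ^ 4 + q 1 3 * m ^ 3 + q 2 2 * m ^ 2 + q 3 1 * m + q 4 0

theorem exTD_iff (d : ℕ) (p : R[X][Y]) :
    TD d p ↔ ∀ l a, d < a + l → (p.coeff l).coeff a = 0 := by
  unfold TD
  constructor
  · intro h l a hla
    by_cases hl : p.coeff l = 0
    · rw [hl, coeff_zero]
    · have := h l hl
      apply coeff_eq_zero_of_natDegree_lt
      omega
  · intro h j hj
    by_contra hc
    push Not at hc
    have h1 := h j (p.coeff j).natDegree (by omega)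
    exact hj (leadingCoeff_eq_zero.1 h1)

theorem exC_expand (p : R[X]) (n : ℕ) (h : ∀ a, n < a → p.coeff a = 0) :
    p = ∑ i ∈ Finset.range (n + 1), C (p.coeff i) * X ^ i := by
  ext a
  rw [finsetSum_coeff]
  simp only [coeff_C_mul, coeff_X_pow, mul_ite, mul_one, mul_zero]
  rw [Finset.sum_ite_eq]
  by_cases ha : a ∈ Finset.range (n + 1)
  · rw [if_pos ha]
  · rw [if_neg ha]
    rw [Finset.mem_range] at ha
    exact h a (by omega)

theorem exQ_of_Qt {f : R[X][Y]} (hf : Qt f) : f = exQ (fun i j => (f.coeff j).coeff i) := by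
  have htd := (exTD_iff 4 f).1 hf.td
  have h1 : f = ∑ j ∈ Finset.range (4 + 1), C (f.coeff j) * X ^ j := by
    apply exC_expand
    intro a ha
    apply coeff_eq_zero_of_natDegree_lt
    rw [hf.deg]
    exact ha
  have h4 : f.coeff 4 = 1 := by
    have := hf.monic
    rw [Monic, leadingCoeff, hf.deg] at this
    exact this
  have e0 := exC_expand (f.coeff 0) 4 (fun a ha => htd 0 a (by omega))
  have e1 := exC_expand (f.coeff 1) 3 (fun a ha => htd 1 a (by omega))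
  have e2 := exC_expand (f.coeff 2) 2 (fun a ha => htd 2 a (by omega))
  have e3 := exC_expand (f.coeff 3) 1 (fun a ha => htd 3 a (by omega))
  simp only [Finset.sum_range_succ, Finset.sum_range_zero, zero_add, pow_zero, mul_one, pow_one]
    at h1 e0 e1 e2 e3
  rw [h4, map_one, one_mul] at h1
  unfold exQ
  conv_lhs => rw [h1, e0, e1, e2, e3]
  beta_reduce
  simp only [map_add, map_mul, map_pow]
  ring

theorem exQ_eval (q : ℕ → ℕ → R) (a b : R) : (exQ q).evalEval a b = exF q a b := by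
  unfold exQ exF evalEval
  simp

theorem exQ_dY (q : ℕ → ℕ → R) (a b : R) : dY (exQ q) a b = exY q a b := by
  unfold dY exQ exY evalEval
  simp only [derivative_add, derivative_mul, derivative_C, derivative_X_pow, derivative_X,
    zero_mul, zero_add, mul_one, add_zero]
  simp
  ring

theorem exQ_dX (q : ℕ → ℕ → R) (a b : R) : dX (exQ q) a b = exX q a b := by
  unfold dX exQ exX
  simp only [eval_add, eval_mul, eval_pow, eval_X, eval_C, ← C_pow]
  simp only [derivative_add, derivative_mul, derivative_C, derivative_X_pow, derivative_X,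
    zero_mul, zero_add, mul_one, add_zero, mul_zero]
  simp
  ring

theorem exQ_coeff (q : ℕ → ℕ → R) :
    (exQ q).coeff 0 = C (q 4 0) * X ^ 4 + C (q 3 0) * X ^ 3 + C (q 2 0) * X ^ 2 + C (q 1 0) * X
      + C (q 0 0) ∧
    (exQ q).coeff 1 = C (q 3 1) * X ^ 3 + C (q 2 1) * X ^ 2 + C (q 1 1) * X + C (q 0 1) ∧
    (exQ q).coeff 2 = C (q 2 2) * X ^ 2 + C (q 1 2) * X + C (q 0 2) ∧
    (exQ q).coeff 3 = C (q 1 3) * X + C (q 0 3) ∧ (exQ q).coeff 4 = 1 := by
  unfold exQ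
  refine ⟨?_, ?_, ?_, ?_, ?_⟩ <;>
    simp only [coeff_add, coeff_X_pow, coeff_C_mul, coeff_X, coeff_C] <;> norm_num

theorem exQ_Ln (q : ℕ → ℕ → R) (a b m : R) : Ln (exQ q) a b m =
    C (exF q a b) + C (ex1 q a b m) * X + C (ex2 q a b m) * X ^ 2 + C (ex3 q a b m) * X ^ 3
      + C (ex4 q m) * X ^ 4 := by
  unfold Ln exQ exF ex1 ex2 ex3 ex4 exX exY exXX exXY exYY
  simp only [map_add, map_mul, map_pow, aevalAeval_C, aevalAeval_Y, aeval_X, aeval_C, map_ofNat,
    algebraMap_eq]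
  ring

/-- the coefficients of the restriction to the line, as polynomials in the slope -/
noncomputable def exc1 (q : ℕ → ℕ → R) (a b : R) : R[X] := C (exX q a b) + X * C (exY q a b)

noncomputable def exc2 (q : ℕ → ℕ → R) (a b : R) : R[X] :=
  C (exXX q a b) + X * C (exXY q a b) + X ^ 2 * C (exYY q a b)

noncomputable def exc3 (q : ℕ → ℕ → R) (a b : R) : R[X] :=
  C (q 3 1 * b + 4 * q 4 0 * a + q 3 0) + X * C (2 * q 2 2 * b + 3 * q 3 1 * a + q 2 1)
    + X ^ 2 * C (3 * q 1 3 * b + 2 * q 2 2 * a + q 1 2) + X ^ 3 * C (4 * b + q 1 3 * a + q 0 3)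

noncomputable def exc4 (q : ℕ → ℕ → R) : R[X] :=
  X ^ 4 + C (q 1 3) * X ^ 3 + C (q 2 2) * X ^ 2 + C (q 3 1) * X + C (q 4 0)

theorem exc1_eval (q : ℕ → ℕ → R) (a b m : R) : (exc1 q a b).eval m = ex1 q a b m := by
  unfold exc1 ex1
  simp only [eval_add, eval_mul, eval_pow, eval_X, eval_C]

theorem exc2_eval (q : ℕ → ℕ → R) (a b m : R) : (exc2 q a b).eval m = ex2 q a b m := by
  unfold exc2 ex2
  simp only [eval_add, eval_mul, eval_pow, eval_X, eval_C]

theorem exc3_eval (q : ℕ → ℕ → R) (a b m : R) : (exc3 q a b).eval m = ex3 q a b m := by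
  unfold exc3 ex3
  simp only [eval_add, eval_mul, eval_pow, eval_X, eval_C]

theorem exc4_eval (q : ℕ → ℕ → R) (m : R) : (exc4 q).eval m = ex4 q m := by
  unfold exc4 ex4
  simp only [eval_add, eval_mul, eval_pow, eval_X, eval_C]

theorem exQ_LP (q : ℕ → ℕ → R) (a b : R) : LP (exQ q) a b =
    C (C (exF q a b)) + C (exc1 q a b) * X + C (exc2 q a b) * X ^ 2 + C (exc3 q a b) * X ^ 3
      + C (exc4 q) * X ^ 4 := by
  have hCC : ∀ r : R, (algebraMap R R[X][Y]) r = C (C r) := fun r => rfl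
  unfold LP exQ exF exc1 exc2 exc3 exc4 exX exY exXX exXY exYY
  simp only [map_add, map_mul, map_pow, aevalAeval_C, aevalAeval_Y, aeval_X, aeval_C, map_ofNat,
    hCC]
  ring

theorem exQ_DP (q : ℕ → ℕ → R) (a b : R) : DP (exQ q) a b =
    disc3 (exc1 q a b) (exc2 q a b) (exc3 q a b) (exc4 q) := by
  unfold DP
  rw [exQ_LP]
  congr 1 <;> simp only [coeff_add, coeff_C_mul, coeff_C, coeff_X_pow, coeff_X] <;> norm_num

theorem ex_ref1 (N n : ℕ) (r : R) (h : n ≤ N) : (C r * X ^ n).reflect N = C r * X ^ (N - n) := by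
  rw [reflect_C_mul_X_pow, revAt_le h]

theorem ex_ref2 (N : ℕ) (r : R) (h : 1 ≤ N) : (C r * X).reflect N = C r * X ^ (N - 1) := by
  have := ex_ref1 N 1 r h
  rwa [pow_one] at this

theorem ex_ref3 (N : ℕ) (r : R) : (C r).reflect N = C r * X ^ N := by
  have := ex_ref1 N 0 r (Nat.zero_le _)
  rwa [pow_zero, mul_one, Nat.sub_zero] at this

theorem ex_ref4 : (1 : R[X]).reflect 0 = 1 := by
  have := ex_ref3 0 (1 : R)
  rwa [map_one, pow_zero, mul_one] at this

theorem exQ_flip (q : ℕ → ℕ → R) : flip 4 (exQ q) = exQ (fun i j => q (4 - i - j) j) := by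
  unfold flip
  simp only [Finset.sum_range_succ, Finset.sum_range_zero, zero_add]
  obtain ⟨h0, h1, h2, h3, h4⟩ := exQ_coeff q
  rw [h0, h1, h2, h3, h4]
  unfold exQ
  norm_num only [reflect_add, ex_ref1, ex_ref2, ex_ref3, ex_ref4]
  simp only [map_add, map_mul, map_pow, map_one]
  ring

end poly

end Pool.Agent.LibQuart
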