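import Pool.Agent.LibQuart.ExA

/-!
A smooth plane quartic contains no line and is irreducible; finitely many common zeros.
-/

open scoped Classical
open Polynomial
open scoped Polynomial.Bivariate

namespace Pool.Agent.LibQuart

section line
variable {k : Type} [Field k]

theorem ex_smooth {q : ℕ → ℕ → k} (h : Sm (exQ q)) (a b : k) (h0 : exF q a b = 0)
    (hx : exX q a b = 0) (hy : exY q a b = 0) : False := by
  rcases h a b (by rw [exQ_eval]; exact h0) with h1 | h1
  · rw [exQ_dX] at h1
    exact h1 hx
  · rw [exQ_dY] at h1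
    exact h1 hy

/-- Taylor expansion along a line -/
theorem ex_taylor0 (q : ℕ → ℕ → k) (a b m s : k) : exF q (a + s) (b + m * s) =
    exF q a b + ex1 q a b m * s + ex2 q a b m * s ^ 2 + ex3 q a b m * s ^ 3
      + ex4 q m * s ^ 4 := by
  unfold exF ex1 ex2 ex3 ex4 exX exY exXX exXY exYY
  ring

theorem ex_taylor1 (q : ℕ → ℕ → k) (a b m s : k) : ex1 q (a + s) (b + m * s) m =
    ex1 q a b m + 2 * ex2 q a b m * s + 3 * ex3 q a b m * s ^ 2 + 4 * ex4 q m * s ^ 3 := by
  unfold ex1 ex2 ex3 ex4 exX exY exXX exXY exYY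
  ring

theorem ex_taylor2 (q : ℕ → ℕ → k) (a b m s : k) : ex2 q (a + s) (b + m * s) m =
    ex2 q a b m + 3 * ex3 q a b m * s + 6 * ex4 q m * s ^ 2 := by
  unfold ex2 ex3 ex4 exXX exXY exYY
  ring

theorem ex_taylor3 (q : ℕ → ℕ → k) (a b m s : k) : ex3 q (a + s) (b + m * s) m =
    ex3 q a b m + 4 * ex4 q m * s := by
  unfold ex3 ex4
  ring

theorem ex_line [IsAlgClosed k] {q : ℕ → ℕ → k} (h : Sm (exQ q)) (h' : Sm (flip 4 (exQ q)))
    (a b m : k) (h0 : exF q a b = 0) (h1 : ex1 q a b m = 0) (h2 : ex2 q a b m = 0)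
    (h3 : ex3 q a b m = 0) (h4 : ex4 q m = 0) : False := by
  set e3 : k := 4 * m ^ 3 + 3 * q 1 3 * m ^ 2 + 2 * q 2 2 * m + q 3 1 with he3
  -- the y-derivative along the line
  have hY : ∀ s, exY q (a + s) (b + m * s) = exY q a b + (exXY q a b + 2 * m * exYY q a b) * s
      + (3 * q 3 1 * a + 6 * q 1 3 * m * b + q 2 1 + 2 * (q 1 2 + 2 * q 2 2 * a) * m
        + 3 * m ^ 2 * (4 * b + q 1 3 * a + q 0 3) + 2 * q 2 2 * b) * s ^ 2 + e3 * s ^ 3 := by
    intro s
    rw [he3]
    unfold exY exXY exYY
    ring
  have hno : ∀ s, exY q (a + s) (b + m * s) ≠ 0 := by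
    intro s hs
    have hF : exF q (a + s) (b + m * s) = 0 := by
      rw [ex_taylor0, h0, h1, h2, h3, h4]
      ring
    have h1' : ex1 q (a + s) (b + m * s) m = 0 := by
      rw [ex_taylor1, h1, h2, h3, h4]
      ring
    have hX : exX q (a + s) (b + m * s) = 0 := by
      unfold ex1 at h1'
      rw [hs] at h1'
      simpa using h1'
    exact ex_smooth h _ _ hF hX hs
  have he30 : e3 = 0 := by
    by_contra hne
    set p : k[X] := C e3 * X ^ 3 + C (3 * q 3 1 * a + 6 * q 1 3 * m * b + q 2 1
        + 2 * (q 1 2 + 2 * q 2 2 * a) * m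
        + 3 * m ^ 2 * (4 * b + q 1 3 * a + q 0 3) + 2 * q 2 2 * b) * X ^ 2
        + C (exXY q a b + 2 * m * exYY q a b) * X + C (exY q a b) with hp
    have hd : p.degree = 3 := degree_cubic hne
    obtain ⟨s, hs⟩ := IsAlgClosed.exists_root p (by rw [hd]; decide)
    apply hno s
    rw [IsRoot.def, hp] at hs
    simp only [eval_add, eval_mul, eval_pow, eval_X, eval_C] at hs
    rw [hY]
    linear_combination hs
  -- singular point at infinity
  rw [exQ_flip] at h'
  refine ex_smooth h' 0 m ?_ ?_ ?_
  · unfold exF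
    unfold ex4 at h4
    norm_num
    linear_combination h4
  · unfold exX
    unfold ex3 at h3
    unfold ex4 at h4
    norm_num
    linear_combination h3 - (b - m * a) * (he3.symm.trans he30) - 4 * a * h4
  · unfold exY
    norm_num
    linear_combination he3.symm.trans he30

end line

section td
variable {R : Type} [CommRing R]

/-- `x, y ↦ x T, y T` -/
noncomputable def exTh : R[X][Y] →+* (R[X][Y])[X] :=
  eval₂RingHom (R := R[X]) (S := (R[X][Y])[X])
    (eval₂RingHom (R := R) (S := (R[X][Y])[X]) ((C : R[X][Y] →+* (R[X][Y])[X]).comp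
      ((C : R[X] →+* R[X][Y]).comp (C : R →+* R[X])))
      ((C (C (X : R[X]) : R[X][Y]) : (R[X][Y])[X]) * X))
    ((C (X : R[X][Y]) : (R[X][Y])[X]) * X)

theorem exTh_coeff (p : R[X][Y]) (n l a : ℕ) :
    (((exTh p).coeff n).coeff l).coeff a = if a + l = n then (p.coeff l).coeff a else 0 := by
  induction p using Polynomial.induction_on' with
  | add p q hp hq =>
    rw [map_add, coeff_add, coeff_add, coeff_add, hp, hq, coeff_add, coeff_add]
    split_ifs <;> simp
  | monomial l' c =>
    induction c using Polynomial.induction_on' with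
    | add c d hc hd =>
      have e0 : monomial l' (c + d) = monomial l' c + monomial l' d := map_add _ _ _
      rw [e0, map_add, coeff_add, coeff_add, coeff_add, hc, hd, coeff_add, coeff_add]
      split_ifs <;> simp
    | monomial a' r =>
      have e1 : exTh (monomial l' (monomial a' r)) =
          C (monomial l' (monomial a' r)) * X ^ (a' + l') := by
        rw [← C_mul_X_pow_eq_monomial, ← C_mul_X_pow_eq_monomial]
        unfold exTh
        rw [map_mul, map_pow, coe_eval₂RingHom, eval₂_C, eval₂_X, map_mul, map_pow,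
          coe_eval₂RingHom, eval₂_C, eval₂_X]
        simp only [RingHom.comp_apply, map_mul, map_pow]
        ring
      rw [e1, coeff_C_mul_X_pow]
      by_cases h1 : n = a' + l'
      · rw [if_pos h1]
        by_cases h2 : l' = l
        · subst h2
          rw [coeff_monomial, if_pos rfl, coeff_monomial]
          by_cases h3 : a' = a
          · subst h3
            rw [if_pos rfl, if_pos (by omega)]
          · rw [if_neg h3, if_neg (by omega)]
        · rw [coeff_monomial, if_neg h2, coeff_zero]
          split_ifs <;> rfl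
      · rw [if_neg h1, coeff_zero, coeff_zero]
        by_cases h2 : a + l = n
        · rw [if_pos h2, coeff_monomial]
          by_cases h3 : l' = l
          · rw [if_pos h3, coeff_monomial, if_neg (by omega)]
          · rw [if_neg h3, coeff_zero]
        · rw [if_neg h2]

theorem exTD_iff' (d : ℕ) (p : R[X][Y]) : TD d p ↔ (exTh p).natDegree ≤ d := by
  rw [exTD_iff, natDegree_le_iff_coeff_eq_zero]
  constructor
  · intro h n hn
    ext l a
    rw [exTh_coeff, coeff_zero, coeff_zero]
    split_ifs with h1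
    · exact h l a (by omega)
    · rfl
  · intro h l a hla
    have h1 := congrArg (fun u => (u.coeff l).coeff a) (h (a + l) hla)
    simp only [exTh_coeff, if_true, coeff_zero] at h1
    exact h1

theorem exTh_monic [Nontrivial R] {g : R[X][Y]} (hg : g.Monic) :
    g.natDegree ≤ (exTh g).natDegree := by
  apply le_natDegree_of_ne_zero
  intro h
  have h1 := exTh_coeff g g.natDegree g.natDegree 0
  rw [h, coeff_zero, coeff_zero, if_pos (by omega)] at h1
  have h2 : g.coeff g.natDegree = 1 := hg
  rw [h2, coeff_one_zero] at h1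
  exact zero_ne_one h1

theorem exTh_ne [Nontrivial R] {g : R[X][Y]} (hg : g.Monic) : exTh g ≠ 0 := by
  intro h
  have h1 := exTh_coeff g g.natDegree g.natDegree 0
  rw [h, coeff_zero, coeff_zero, coeff_zero, if_pos (by omega)] at h1
  have h2 : g.coeff g.natDegree = 1 := hg
  rw [h2, coeff_one_zero] at h1
  exact zero_ne_one h1

theorem exTD_factor [IsDomain R] {g h : R[X][Y]} (hg : g.Monic) (hh : h.Monic)
    (htd : TD (g.natDegree + h.natDegree) (g * h)) : TD g.natDegree g ∧ TD h.natDegree h := by
  rw [exTD_iff', map_mul, natDegree_mul (exTh_ne hg) (exTh_ne hh)] at htd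
  have h1 := exTh_monic hg
  have h2 := exTh_monic hh
  rw [exTD_iff', exTD_iff']
  omega

end td

end Pool.Agent.LibQuart
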