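import Pool.Agent.LibQuart.ExC

/-!
Finiteness of the exceptional points of a smooth plane quartic.
-/

open scoped Classical
open Polynomial
open scoped Polynomial.Bivariate

namespace Pool.Agent.LibQuart

section polys
variable {k : Type} [Field k]

noncomputable def exPX (q : ℕ → ℕ → k) : k[X][Y] :=
  C (C (q 1 3)) * Y ^ 3 + C (C (2 * q 2 2) * X + C (q 1 2)) * Y ^ 2
    + C (C (3 * q 3 1) * X ^ 2 + C (2 * q 2 1) * X + C (q 1 1)) * Y
    + C (C (4 * q 4 0) * X ^ 3 + C (3 * q 3 0) * X ^ 2 + C (2 * q 2 0) * X + C (q 1 0))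

noncomputable def exPY (q : ℕ → ℕ → k) : k[X][Y] :=
  C (C 4) * Y ^ 3 + C (C (3 * q 1 3) * X + C (3 * q 0 3)) * Y ^ 2
    + C (C (2 * q 2 2) * X ^ 2 + C (2 * q 1 2) * X + C (2 * q 0 2)) * Y
    + C (C (q 3 1) * X ^ 3 + C (q 2 1) * X ^ 2 + C (q 1 1) * X + C (q 0 1))

noncomputable def exPXX (q : ℕ → ℕ → k) : k[X][Y] :=
  C (C (q 2 2)) * Y ^ 2 + C (C (3 * q 3 1) * X + C (q 2 1)) * Y
    + C (C (6 * q 4 0) * X ^ 2 + C (3 * q 3 0) * X + C (q 2 0))

noncomputable def exPXY (q : ℕ → ℕ → k) : k[X][Y] :=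
  C (C (3 * q 1 3)) * Y ^ 2 + C (C (4 * q 2 2) * X + C (2 * q 1 2)) * Y
    + C (C (3 * q 3 1) * X ^ 2 + C (2 * q 2 1) * X + C (q 1 1))

noncomputable def exPYY (q : ℕ → ℕ → k) : k[X][Y] :=
  C (C 6) * Y ^ 2 + C (C (3 * q 1 3) * X + C (3 * q 0 3)) * Y
    + C (C (q 2 2) * X ^ 2 + C (q 1 2) * X + C (q 0 2))

/-- cubic coefficient on lines of slope `m`, as a polynomial -/
noncomputable def exP3 (q : ℕ → ℕ → k) (m : k) : k[X][Y] :=
  C (C (q 3 1 + m * (2 * q 2 2) + m ^ 2 * (3 * q 1 3) + m ^ 3 * 4)) * Y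
    + C (C (4 * q 4 0 + m * (3 * q 3 1) + m ^ 2 * (2 * q 2 2) + m ^ 3 * q 1 3) * X
      + C (q 3 0 + m * q 2 1 + m ^ 2 * q 1 2 + m ^ 3 * q 0 3))

/-- polar cubic of the point `(u, v)`, without the terms `u f_x + v f_y` -/
noncomputable def exP0 (q : ℕ → ℕ → k) : k[X][Y] :=
  C (C (q 0 3)) * Y ^ 3 + C (C (q 1 2) * X + C (2 * q 0 2)) * Y ^ 2
    + C (C (q 2 1) * X ^ 2 + C (2 * q 1 1) * X + C (3 * q 0 1)) * Y
    + C (C (q 3 0) * X ^ 3 + C (2 * q 2 0) * X ^ 2 + C (3 * q 1 0) * X + C (4 * q 0 0))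

theorem exPX_eval (q : ℕ → ℕ → k) (a b : k) : (exPX q).evalEval a b = exX q a b := by
  unfold exPX exX
  simp only [evalEval_add, evalEval_mul, evalEval_pow, evalEval_X, evalEval_C, eval_add, eval_mul,
    eval_pow, eval_X, eval_C]

theorem exPY_eval (q : ℕ → ℕ → k) (a b : k) : (exPY q).evalEval a b = exY q a b := by
  unfold exPY exY
  simp only [evalEval_add, evalEval_mul, evalEval_pow, evalEval_X, evalEval_C, eval_add, eval_mul,
    eval_pow, eval_X, eval_C]
  ring

theorem exPXX_eval (q : ℕ → ℕ → k) (a b : k) : (exPXX q).evalEval a b = exXX q a b := by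
  unfold exPXX exXX
  simp only [evalEval_add, evalEval_mul, evalEval_pow, evalEval_X, evalEval_C, eval_add, eval_mul,
    eval_pow, eval_X, eval_C]

theorem exPXY_eval (q : ℕ → ℕ → k) (a b : k) : (exPXY q).evalEval a b = exXY q a b := by
  unfold exPXY exXY
  simp only [evalEval_add, evalEval_mul, evalEval_pow, evalEval_X, evalEval_C, eval_add, eval_mul,
    eval_pow, eval_X, eval_C]
  ring

theorem exPYY_eval (q : ℕ → ℕ → k) (a b : k) : (exPYY q).evalEval a b = exYY q a b := by
  unfold exPYY exYY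
  simp only [evalEval_add, evalEval_mul, evalEval_pow, evalEval_X, evalEval_C, eval_add, eval_mul,
    eval_pow, eval_X, eval_C]
  ring

theorem exP3_eval (q : ℕ → ℕ → k) (m a b : k) : (exP3 q m).evalEval a b = ex3 q a b m := by
  unfold exP3 ex3
  simp only [evalEval_add, evalEval_mul, evalEval_X, evalEval_C, eval_add, eval_mul,
    eval_X, eval_C]
  ring

theorem exP0_eval (q : ℕ → ℕ → k) (a b u v : k) :
    (exP0 q + C (C u) * exPX q + C (C v) * exPY q).evalEval a b =
      exX q a b * (u - a) + exY q a b * (v - b) + 4 * exF q a b := by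
  rw [evalEval_add, evalEval_add, evalEval_mul, evalEval_mul, exPX_eval, exPY_eval]
  unfold exP0 exX exY exF
  simp only [evalEval_add, evalEval_mul, evalEval_pow, evalEval_X, evalEval_C, eval_add, eval_mul,
    eval_pow, eval_X, eval_C]
  ring

theorem exPX_deg (q : ℕ → ℕ → k) : (exPX q).natDegree ≤ 3 := by
  unfold exPX
  compute_degree

theorem exPY_deg (q : ℕ → ℕ → k) : (exPY q).natDegree ≤ 3 := by
  unfold exPY
  compute_degree

theorem exP0_deg (q : ℕ → ℕ → k) : (exP0 q).natDegree ≤ 3 := by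
  unfold exP0
  compute_degree

theorem exP3_deg (q : ℕ → ℕ → k) (m : k) : (exP3 q m).natDegree ≤ 3 := by
  unfold exP3
  refine le_trans ?_ (by norm_num : 1 ≤ 3)
  compute_degree

theorem exPY_ne [CharZero k] (q : ℕ → ℕ → k) : exPY q ≠ 0 := by
  intro h
  have h1 := congrArg (fun u => (u.coeff 3).coeff 0) h
  unfold exPY at h1
  simp only [coeff_add, coeff_C_mul, coeff_X_pow, coeff_X, coeff_C, coeff_zero] at h1
  norm_num at h1

end polys

section finite
variable {k : Type} [Field k]

/-- hypotheses: a smooth quartic over an algebraically closed field of characteristic zero -/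
structure ExH (q : ℕ → ℕ → k) : Prop where
  qt : Qt (exQ q)
  sm : Sm (exQ q)
  smi : Sm (flip 4 (exQ q))

variable {q : ℕ → ℕ → k}

theorem ex_fin_of_not_dvd [IsAlgClosed k] (H : ExH q) (g : k[X][Y]) (h : ¬ exQ q ∣ g) :
    {a : k | ∃ b, exF q a b = 0 ∧ g.evalEval a b = 0}.Finite := by
  obtain ⟨r, hr, hr'⟩ := ex_zeros H.qt.monic (ex_irr H.qt H.sm H.smi) h
  apply Set.Finite.subset (Finset.finite_toSet r.roots.toFinset)
  rintro a ⟨b, h1, h2⟩
  rw [← exQ_eval] at h1
  have := hr' a b h1 h2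
  simp [hr, this]

theorem ex_fin_of_deg [IsAlgClosed k] (H : ExH q) (g : k[X][Y]) (h0 : g ≠ 0)
    (h : g.natDegree ≤ 3) : {a : k | ∃ b, exF q a b = 0 ∧ g.evalEval a b = 0}.Finite := by
  apply ex_fin_of_not_dvd H
  intro hd
  exact h0 (eq_zero_of_dvd_of_natDegree_lt hd (by rw [H.qt.deg]; omega))

/-- finitely many points over an abscissa -/
theorem ex_fiber_fin (q : ℕ → ℕ → k) (a : k) : {b : k | exF q a b = 0}.Finite := by
  set p : k[X] := X ^ 4 + C (q 1 3 * a + q 0 3) * X ^ 3
    + C (q 2 2 * a ^ 2 + q 1 2 * a + q 0 2) * X ^ 2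
    + C (q 3 1 * a ^ 3 + q 2 1 * a ^ 2 + q 1 1 * a + q 0 1) * X
    + C (q 4 0 * a ^ 4 + q 3 0 * a ^ 3 + q 2 0 * a ^ 2 + q 1 0 * a + q 0 0) with hp
  have hp0 : p ≠ 0 := by
    intro h
    have h1 := congrArg (fun u => u.coeff 4) h
    rw [hp] at h1
    simp only [coeff_add, coeff_C_mul, coeff_X_pow, coeff_X, coeff_C, coeff_zero] at h1
    norm_num at h1
  apply Set.Finite.subset (Finset.finite_toSet p.roots.toFinset)
  intro b hb
  have h1 : p.eval b = 0 := by
    have hb' : exF q a b = 0 := hb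
    unfold exF at hb'
    rw [hp]
    simp only [eval_add, eval_mul, eval_pow, eval_X, eval_C]
    linear_combination hb'
  simp [hp0, h1]

theorem ex_fiber_ne [IsAlgClosed k] (q : ℕ → ℕ → k) (a : k) : ∃ b : k, exF q a b = 0 := by
  set p : k[X] := X ^ 4 + (C (q 1 3 * a + q 0 3) * X ^ 3
    + C (q 2 2 * a ^ 2 + q 1 2 * a + q 0 2) * X ^ 2
    + C (q 3 1 * a ^ 3 + q 2 1 * a ^ 2 + q 1 1 * a + q 0 1) * X
    + C (q 4 0 * a ^ 4 + q 3 0 * a ^ 3 + q 2 0 * a ^ 2 + q 1 0 * a + q 0 0)) with hp
  have hd : p.degree = 4 := by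
    rw [hp]
    compute_degree!
  obtain ⟨b, hb⟩ := IsAlgClosed.exists_root p (by rw [hd]; decide)
  refine ⟨b, ?_⟩
  rw [IsRoot.def, hp] at hb
  simp only [eval_add, eval_mul, eval_pow, eval_X, eval_C] at hb
  unfold exF
  linear_combination hb

/-- a cubic polynomial function which is zero has zero coefficients -/
theorem ex_cubic_zero [Infinite k] (c0 c1 c2 c3 : k)
    (h : ∀ s : k, c0 + c1 * s + c2 * s ^ 2 + c3 * s ^ 3 = 0) :
    c0 = 0 ∧ c1 = 0 ∧ c2 = 0 ∧ c3 = 0 := by
  have h1 : C c3 * X ^ 3 + C c2 * X ^ 2 + C c1 * X + C c0 = (0 : k[X]) := by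
    apply Polynomial.funext
    intro s
    simp only [eval_add, eval_mul, eval_pow, eval_X, eval_C, eval_zero]
    linear_combination h s
  refine ⟨?_, ?_, ?_, ?_⟩
  · have := congrArg (fun u => u.coeff 0) h1
    simp only [coeff_add, coeff_C_mul, coeff_X_pow, coeff_X, coeff_C, coeff_zero] at this
    norm_num at this
    exact this
  · have := congrArg (fun u => u.coeff 1) h1
    simp only [coeff_add, coeff_C_mul, coeff_X_pow, coeff_X, coeff_C, coeff_zero] at this
    norm_num at this
    exact this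
  · have := congrArg (fun u => u.coeff 2) h1
    simp only [coeff_add, coeff_C_mul, coeff_X_pow, coeff_X, coeff_C, coeff_zero] at this
    norm_num at this
    exact this
  · have := congrArg (fun u => u.coeff 3) h1
    simp only [coeff_add, coeff_C_mul, coeff_X_pow, coeff_X, coeff_C, coeff_zero] at this
    norm_num at this
    exact this

/-- S1: vertical tangents -/
theorem ex_S1 [IsAlgClosed k] [CharZero k] (H : ExH q) :
    {a : k | ∃ b, exF q a b = 0 ∧ exY q a b = 0}.Finite := by
  have := ex_fin_of_deg H (exPY q) (exPY_ne q) (exPY_deg q)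
  simpa only [exPY_eval] using this

/-- tangents with a given slope -/
theorem ex_slope [IsAlgClosed k] [CharZero k] (H : ExH q) (m : k) :
    {a : k | ∃ b, exF q a b = 0 ∧ ex1 q a b m = 0}.Finite := by
  have hev : ∀ a b, (exPX q + C (C m) * exPY q).evalEval a b = ex1 q a b m := by
    intro a b
    rw [evalEval_add, evalEval_mul, exPX_eval, exPY_eval, evalEval_C, eval_C]
    rfl
  have := ex_fin_of_deg H (exPX q + C (C m) * exPY q) ?_ ?_
  · simpa only [hev] using this
  · intro h
    obtain ⟨b, hb⟩ := ex_fiber_ne q 0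
    have h1 : ∀ s, ex1 q 0 b m + (2 * ex2 q 0 b m) * s + (3 * ex3 q 0 b m) * s ^ 2
        + (4 * ex4 q m) * s ^ 3 = 0 := by
      intro s
      rw [← ex_taylor1, ← hev, h, evalEval_zero]
    have hinf : Infinite k := IsAlgClosed.instInfinite
    obtain ⟨e1, e2, e3, e4⟩ := ex_cubic_zero _ _ _ _ h1
    exact ex_line H.sm H.smi 0 b m hb e1 (by simpa using e2) (by simpa using e3)
      (by simpa using e4)
  · refine (natDegree_add_le _ _).trans (max_le (exPX_deg q) ?_)
    exact (natDegree_C_mul_le _ _).trans (exPY_deg q)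

theorem ex4_fin (q : ℕ → ℕ → k) : {m : k | ex4 q m = 0}.Finite := by
  have h0 : exc4 q ≠ 0 := by
    intro h
    have h1 := congrArg (fun u => u.coeff 4) h
    unfold exc4 at h1
    simp only [coeff_add, coeff_C_mul, coeff_X_pow, coeff_X, coeff_C, coeff_zero] at h1
    norm_num at h1
  apply Set.Finite.subset (Finset.finite_toSet (exc4 q).roots.toFinset)
  intro m hm
  have hm' : (exc4 q).eval m = 0 := by
    rw [exc4_eval]
    exact hm
  simp [h0, hm']

/-- S3: tangents with a slope at infinity -/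
theorem ex_S3 [IsAlgClosed k] [CharZero k] (H : ExH q) :
    {a : k | ∃ b m, exF q a b = 0 ∧ ex4 q m = 0 ∧ ex1 q a b m = 0}.Finite := by
  apply Set.Finite.subset ((ex4_fin q).biUnion (fun m _ => ex_slope H m))
  rintro a ⟨b, m, h1, h2, h3⟩
  simp only [Set.mem_iUnion, Set.mem_ofPred_eq]
  exact ⟨m, h2, b, h1, h3⟩

/-- S5: asymptotes -/
theorem ex_S5 [IsAlgClosed k] [CharZero k] (H : ExH q) :
    {a : k | ∃ b m, exF q a b = 0 ∧ ex4 q m = 0 ∧ ex3 q a b m = 0}.Finite := by
  have hone : ∀ m, ex4 q m = 0 → {a : k | ∃ b, exF q a b = 0 ∧ ex3 q a b m = 0}.Finite := by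
    intro m hm
    have := ex_fin_of_deg H (exP3 q m) ?_ (exP3_deg q m)
    · simpa only [exP3_eval] using this
    · intro h
      have h3 : ∀ a b, ex3 q a b m = 0 := by
        intro a b
        rw [← exP3_eval, h, evalEval_zero]
      have a1 := h3 0 0
      have a2 := h3 1 0
      have a3 := h3 0 1
      unfold ex3 at a1 a2 a3
      have hs := H.smi
      rw [exQ_flip] at hs
      refine ex_smooth hs 0 m ?_ ?_ ?_
      · unfold exF
        unfold ex4 at hm
        norm_num
        linear_combination hm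
      · unfold exX
        norm_num
        linear_combination a1
      · unfold exY
        norm_num
        linear_combination a3 - a1
  apply Set.Finite.subset ((ex4_fin q).biUnion (fun m hm => hone m hm))
  rintro a ⟨b, m, h1, h2, h3⟩
  simp only [Set.mem_iUnion, Set.mem_ofPred_eq]
  exact ⟨m, h2, b, h1, h3⟩

/-- tangents through a given point of the curve -/
theorem ex_polar [IsAlgClosed k] [CharZero k] (H : ExH q) (u v : k) (huv : exF q u v = 0) :
    {a : k | ∃ b, exF q a b = 0 ∧ exX q a b * (u - a) + exY q a b * (v - b) = 0}.Finite := by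
  set g := exP0 q + C (C u) * exPX q + C (C v) * exPY q with hg
  have hev : ∀ a b, g.evalEval a b =
      exX q a b * (u - a) + exY q a b * (v - b) + 4 * exF q a b := fun a b => exP0_eval q a b u v
  have := ex_fin_of_deg H g ?_ ?_
  · apply this.subset
    rintro a ⟨b, h1, h2⟩
    refine ⟨b, h1, ?_⟩
    rw [hev, h1, h2]
    ring
  · intro h
    have hz : ∀ a b, exX q a b * (u - a) + exY q a b * (v - b) + 4 * exF q a b = 0 := by
      intro a b
      rw [← hev, h, evalEval_zero]
    have hinf : Infinite k := IsAlgClosed.instInfinite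
    obtain ⟨b, hb⟩ := ex_fiber_ne q (u + 1)
    set m := b - v with hm
    have h1 : ∀ s, 0 + 3 * ex1 q u v m * s + 2 * ex2 q u v m * s ^ 2
        + ex3 q u v m * s ^ 3 = 0 := by
      intro s
      have e1 := hz (u + s) (v + m * s)
      have e2 := ex_taylor0 q u v m s
      have e3 := ex_taylor1 q u v m s
      unfold ex1 at e3 ⊢
      unfold ex1 at e2
      rw [huv] at e2
      linear_combination e1 - 4 * e2 + s * e3
    obtain ⟨-, e1, e2, e3⟩ := ex_cubic_zero _ _ _ _ h1
    have e1' : ex1 q u v m = 0 := by simpa using e1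
    have e2' : ex2 q u v m = 0 := by simpa using e2
    have e4 : ex4 q m = 0 := by
      have e5 := ex_taylor0 q u v m 1
      have e6 : v + m * 1 = b := by
        rw [hm]
        ring
      rw [e6, hb, huv, e1', e2', e3] at e5
      linear_combination -e5
    exact ex_line H.sm H.smi u v m huv e1' e2' e3 e4
  · rw [hg]
    refine (natDegree_add_le _ _).trans (max_le ?_ ?_)
    · refine (natDegree_add_le _ _).trans (max_le (exP0_deg q) ?_)
      exact (natDegree_C_mul_le _ _).trans (exPX_deg q)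
    · exact (natDegree_C_mul_le _ _).trans (exPY_deg q)

/-- S4: tangents through a point with vertical tangent -/
theorem ex_S4 [IsAlgClosed k] [CharZero k] (H : ExH q) :
    {a : k | ∃ b u v, exF q a b = 0 ∧ exF q u v = 0 ∧ exY q u v = 0 ∧
      exX q a b * (u - a) + exY q a b * (v - b) = 0}.Finite := by
  apply Set.Finite.subset ((ex_S1 H).biUnion (fun u _ => (ex_fiber_fin q u).biUnion
    (t := fun v => if exF q u v = 0 then
      {a : k | ∃ b, exF q a b = 0 ∧ exX q a b * (u - a) + exY q a b * (v - b) = 0} else ∅)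
    (fun v hv => by
      have hv' : exF q u v = 0 := hv
      rw [if_pos hv']
      exact ex_polar H u v hv')))
  rintro a ⟨b, u, v, h1, h2, h3, h4⟩
  simp only [Set.mem_iUnion, Set.mem_ofPred_eq]
  refine ⟨u, ⟨v, h2, h3⟩, v, h2, ?_⟩
  rw [if_pos h2]
  exact ⟨b, h1, h4⟩

/-- points on the tangents at points with abscissa in a finite set -/
theorem ex_T [IsAlgClosed k] (H : ExH q) (B : Set k) (hB : B.Finite) :
    {x : k | ∃ b m s, exF q x b = 0 ∧ exF q (x + s) (b + m * s) = 0 ∧
      ex1 q (x + s) (b + m * s) m = 0 ∧ x + s ∈ B}.Finite := by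
  have hln : ∀ β c, exF q β c = 0 → exY q β c ≠ 0 → {s : k |
      exF q (β + s) (c + (-exX q β c / exY q β c) * s) = 0}.Finite := by
    intro β c hβ hY
    set m := -exX q β c / exY q β c with hm
    set p : k[X] := Ln (exQ q) β c m with hp
    have hp0 : p ≠ 0 := by
      intro h
      rw [hp, exQ_Ln] at h
      have c1 := congrArg (fun u => u.coeff 1) h
      have c2 := congrArg (fun u => u.coeff 2) h
      have c3 := congrArg (fun u => u.coeff 3) h
      have c4 := congrArg (fun u => u.coeff 4) h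
      simp only [coeff_add, coeff_C_mul, coeff_X_pow, coeff_X, coeff_C, coeff_zero] at c1 c2 c3 c4
      norm_num at c1 c2 c3 c4
      exact ex_line H.sm H.smi β c m hβ c1 c2 c3 c4
    apply Set.Finite.subset (Finset.finite_toSet p.roots.toFinset)
    intro s hs
    have hs' : exF q (β + s) (c + m * s) = 0 := hs
    have h1 : p.eval s = 0 := by
      rw [hp, exQ_Ln]
      simp only [eval_add, eval_mul, eval_pow, eval_X, eval_C]
      rw [← hs', ex_taylor0]
    simp [hp0, h1]
  apply Set.Finite.subset (hB.biUnion (fun β _ => (ex_fiber_fin q β).biUnion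
    (t := fun c => if exF q β c = 0 ∧ exY q β c ≠ 0 then (fun s => β + s) '' {s : k |
      exF q (β + s) (c + (-exX q β c / exY q β c) * s) = 0} else ∅)
    (fun c _ => by
      by_cases hc : exF q β c = 0 ∧ exY q β c ≠ 0
      · rw [if_pos hc]
        exact (hln β c hc.1 hc.2).image _
      · rw [if_neg hc]
        exact Set.finite_empty)))
  rintro x ⟨b, m, s, h1, h2, h3, h4⟩
  simp only [Set.mem_iUnion]
  have hY : exY q (x + s) (b + m * s) ≠ 0 := by
    intro hY
    unfold ex1 at h3
    rw [hY] at h3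
    exact ex_smooth H.sm _ _ h2 (by simpa using h3) hY
  refine ⟨x + s, h4, b + m * s, h2, ?_⟩
  rw [if_pos ⟨h2, hY⟩]
  refine ⟨-s, ?_, by ring⟩
  have hm : -exX q (x + s) (b + m * s) / exY q (x + s) (b + m * s) = m := by
    rw [div_eq_iff hY]
    unfold ex1 at h3
    linear_combination -h3
  show exF q (x + s + -s) (b + m * s + -exX q (x + s) (b + m * s) / exY q (x + s) (b + m * s)
    * -s) = 0
  rw [hm]
  have e1 : x + s + -s = x := by ring
  have e2 : b + m * s + m * -s = b := by ring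
  rw [e1, e2]
  exact h1

end finite

end Pool.Agent.LibQuart
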