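import Pool.Agent.LibQuart.ExD

/-!
Tangents through a general point of a smooth plane quartic.
-/

open scoped Classical
open Polynomial
open scoped Polynomial.Bivariate

namespace Pool.Agent.LibQuart

section disc
variable {k : Type} [Field k]

/-- a cubic with discriminant zero has a double root -/
theorem ex_double [IsAlgClosed k] (c1 c2 c3 c4 : k) (h4 : c4 ≠ 0)
    (h : disc3 c1 c2 c3 c4 = 0) :
    ∃ s t, c3 = -c4 * (2 * s + t) ∧ c2 = c4 * (s ^ 2 + 2 * s * t) ∧ c1 = -c4 * s ^ 2 * t := by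
  set p : k[X] := C c4 * X ^ 3 + C c3 * X ^ 2 + C c2 * X + C c1 with hp
  have hd : p.degree = 3 := degree_cubic h4
  obtain ⟨r1, hr1⟩ := IsAlgClosed.exists_root p (by rw [hd]; decide)
  rw [IsRoot.def, hp] at hr1
  simp only [eval_add, eval_mul, eval_pow, eval_X, eval_C] at hr1
  set p2 : k[X] := C c4 * X ^ 2 + C (c3 + c4 * r1) * X + C (c2 + c3 * r1 + c4 * r1 ^ 2) with hp2
  have hd2 : p2.degree = 2 := degree_quadratic h4
  obtain ⟨r2, hr2⟩ := IsAlgClosed.exists_root p2 (by rw [hd2]; decide)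
  rw [IsRoot.def, hp2] at hr2
  simp only [eval_add, eval_mul, eval_pow, eval_X, eval_C] at hr2
  set r3 : k := -c3 / c4 - r1 - r2 with hr3
  have e3 : c3 = -c4 * (r1 + r2 + r3) := by
    rw [hr3]
    field_simp
    ring
  have e2 : c2 = c4 * (r1 * r2 + r1 * r3 + r2 * r3) := by
    rw [e3] at hr2
    linear_combination hr2
  have e1 : c1 = -c4 * (r1 * r2 * r3) := by
    rw [e3, e2] at hr1
    linear_combination hr1
  have hdisc : disc3 c1 c2 c3 c4 = c4 ^ 4 * ((r1 - r2) * (r1 - r3) * (r2 - r3)) ^ 2 := by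
    rw [e1, e2, e3]
    unfold disc3
    ring
  rw [hdisc] at h
  have h5 : (r1 - r2) * (r1 - r3) * (r2 - r3) = 0 := by
    rcases mul_eq_zero.1 h with h6 | h6
    · exact absurd h6 (pow_ne_zero 4 h4)
    · exact pow_eq_zero_iff (two_ne_zero) |>.1 h6
  rcases mul_eq_zero.1 h5 with h6 | h6
  · rcases mul_eq_zero.1 h6 with h7 | h7
    · have : r1 = r2 := sub_eq_zero.1 h7
      refine ⟨r1, r3, ?_, ?_, ?_⟩
      · rw [e3, ← this]
        ring
      · rw [e2, ← this]
        ring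
      · rw [e1, ← this]
        ring
    · have : r1 = r3 := sub_eq_zero.1 h7
      refine ⟨r1, r2, ?_, ?_, ?_⟩
      · rw [e3, ← this]
        ring
      · rw [e2, ← this]
        ring
      · rw [e1, ← this]
        ring
  · have : r2 = r3 := sub_eq_zero.1 h6
    refine ⟨r2, r1, ?_, ?_, ?_⟩
    · rw [e3, ← this]
      ring
    · rw [e2, ← this]
      ring
    · rw [e1, ← this]
      ring

theorem ex_disc_shift {S : Type} [CommRing S] (c1 c2 c3 c4 s : S) :
    disc3 c1 c2 c3 c4 = disc3 (c1 + c2 * s + c3 * s ^ 2 + c4 * s ^ 3)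
      (c2 + 2 * c3 * s + 3 * c4 * s ^ 2) (c3 + 3 * c4 * s) c4 := by
  unfold disc3
  ring

theorem ex_factor (p : k[X]) (m : k) (h : p.eval m = 0) : ∃ u, p = (X - C m) * u := by
  exact dvd_iff_isRoot.2 h

theorem ex_factor_der (p u : k[X]) (m : k) (h : p = (X - C m) * u) :
    u.eval m = (derivative p).eval m := by
  rw [h, derivative_mul]
  simp

/-- multiplicity one -/
theorem ex_mult1 [CharZero k] (d1 d2 d3 d4 : k[X]) (m : k) (h1 : d1.eval m = 0)
    (h2 : d2.eval m = 0) (h1' : (derivative d1).eval m ≠ 0) (h3 : d3.eval m ≠ 0) :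
    (disc3 d1 d2 d3 d4).rootMultiplicity m = 1 := by
  obtain ⟨u1, hu1⟩ := ex_factor d1 m h1
  obtain ⟨u2, hu2⟩ := ex_factor d2 m h2
  have e1 := ex_factor_der d1 u1 m hu1
  set W : k[X] := (X - C m) * (u2 ^ 2 * d3 ^ 2 - 4 * (X - C m) * u2 ^ 3 * d4
    + 18 * u1 * u2 * d3 * d4 - 27 * u1 ^ 2 * d4 ^ 2) - 4 * u1 * d3 ^ 3 with hW
  have hD : disc3 d1 d2 d3 d4 = W * (X - C m) ^ 1 := by
    rw [hu1, hu2, hW]
    unfold disc3
    ring
  have hWm : W.eval m ≠ 0 := by
    rw [hW]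
    simp only [eval_sub, eval_mul, eval_pow, eval_X, eval_C, sub_self, zero_mul, zero_sub]
    rw [e1]
    have : (4 : k[X]).eval m = 4 := by
      simp
    rw [this]
    have h4 : (4 : k) ≠ 0 := by norm_num
    exact neg_ne_zero.2 (mul_ne_zero (mul_ne_zero h4 h1') (pow_ne_zero 3 h3))
  have hW0 : W ≠ 0 := by
    intro h
    rw [h, eval_zero] at hWm
    exact hWm rfl
  rw [hD, rootMultiplicity_mul_X_sub_C_pow hW0, rootMultiplicity_eq_zero hWm]

/-- multiplicity two -/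
theorem ex_mult2 [CharZero k] (d1 d2 d3 d4 : k[X]) (m : k) (h1 : d1.eval m = 0)
    (h2 : d2.eval m = 0) (h3 : d3.eval m = 0) (h1' : (derivative d1).eval m ≠ 0)
    (h4 : d4.eval m ≠ 0) : (disc3 d1 d2 d3 d4).rootMultiplicity m = 2 := by
  obtain ⟨u1, hu1⟩ := ex_factor d1 m h1
  obtain ⟨u2, hu2⟩ := ex_factor d2 m h2
  obtain ⟨u3, hu3⟩ := ex_factor d3 m h3
  have e1 := ex_factor_der d1 u1 m hu1
  set W : k[X] := (X - C m) * ((X - C m) * u2 ^ 2 * u3 ^ 2 - 4 * (X - C m) * u1 * u3 ^ 3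
    - 4 * u2 ^ 3 * d4 + 18 * u1 * u2 * u3 * d4) - 27 * u1 ^ 2 * d4 ^ 2 with hW
  have hD : disc3 d1 d2 d3 d4 = W * (X - C m) ^ 2 := by
    rw [hu1, hu2, hu3, hW]
    unfold disc3
    ring
  have hWm : W.eval m ≠ 0 := by
    rw [hW]
    simp only [eval_sub, eval_mul, eval_pow, eval_X, eval_C, sub_self, zero_mul, zero_sub]
    rw [e1]
    have : (27 : k[X]).eval m = 27 := by
      simp
    rw [this]
    have h27 : (27 : k) ≠ 0 := by norm_num
    exact neg_ne_zero.2 (mul_ne_zero (mul_ne_zero h27 (pow_ne_zero 2 h1')) (pow_ne_zero 2 h4))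
  have hW0 : W ≠ 0 := by
    intro h
    rw [h, eval_zero] at hWm
    exact hWm rfl
  rw [hD, rootMultiplicity_mul_X_sub_C_pow hW0, rootMultiplicity_eq_zero hWm]

end disc

section points
variable {k : Type} [Field k] {q : ℕ → ℕ → k}

/-- derivative in the slope of the linear Taylor coefficient at the tangent point -/
theorem ex_d1_der (q : ℕ → ℕ → k) (a b s m : k) :
    (derivative (exc1 q a b + exc2 q a b * C s + exc3 q a b * C s ^ 2 + exc4 q * C s ^ 3)).eval m =
      exY q (a + s) (b + m * s) := by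
  unfold exc1 exc2 exc3 exc4
  simp only [derivative_add, derivative_mul, derivative_C, derivative_X_pow, derivative_X,
    ← C_pow, zero_mul, zero_add, mul_one, add_zero, mul_zero, one_mul]
  simp only [eval_add, eval_mul, eval_pow, eval_X, eval_C]
  unfold exXY exYY exY
  norm_num
  ring

/-- degree bound together with the coefficient in that degree -/
def ExLd (p : k[X]) (n : ℕ) (c : k) : Prop := p.natDegree ≤ n ∧ p.coeff n = c

theorem ExLd.mul {p r : k[X]} {n m : ℕ} {c d : k} (h : ExLd p n c) (h' : ExLd r m d) :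
    ExLd (p * r) (n + m) (c * d) := by
  refine ⟨natDegree_mul_le_of_le h.1 h'.1, ?_⟩
  rw [coeff_mul_add_eq_of_natDegree_le h.1 h'.1, h.2, h'.2]

theorem ExLd.pow {p : k[X]} {n : ℕ} {c : k} (h : ExLd p n c) (e : ℕ) :
    ExLd (p ^ e) (e * n) (c ^ e) := by
  refine ⟨natDegree_pow_le_of_le e h.1, ?_⟩
  rw [coeff_pow_of_natDegree_le h.1, h.2]

theorem ExLd.add {p r : k[X]} {n : ℕ} {c d : k} (h : ExLd p n c) (h' : ExLd r n d) :
    ExLd (p + r) n (c + d) := by
  refine ⟨natDegree_add_le_of_degree_le h.1 h'.1, ?_⟩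
  rw [coeff_add, h.2, h'.2]

theorem ExLd.sub {p r : k[X]} {n : ℕ} {c d : k} (h : ExLd p n c) (h' : ExLd r n d) :
    ExLd (p - r) n (c - d) := by
  refine ⟨(natDegree_sub_le_of_le h.1 h'.1).trans (by simp), ?_⟩
  rw [coeff_sub, h.2, h'.2]

theorem ExLd.const (c : k) : ExLd (C c) 0 c := ⟨by simp, by simp⟩

theorem exDP_deg (q : ℕ → ℕ → k) (a b : k) : (DP (exQ q) a b).natDegree ≤ 10 ∧
    (DP (exQ q) a b).coeff 10 = disc3 (exY q a b) (exYY q a b) (4 * b + q 1 3 * a + q 0 3) 1 := by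
  have n1 : (exc1 q a b).natDegree ≤ 1 := by
    unfold exc1
    compute_degree
  have n2 : (exc2 q a b).natDegree ≤ 2 := by
    unfold exc2
    compute_degree
  have n3 : (exc3 q a b).natDegree ≤ 3 := by
    unfold exc3
    compute_degree
  have n4 : (exc4 q).natDegree ≤ 4 := by
    unfold exc4
    compute_degree
  have l1 : (exc1 q a b).coeff 1 = exY q a b := by
    unfold exc1
    simp only [coeff_add, coeff_X_mul, coeff_C]
    norm_num
  have l2 : (exc2 q a b).coeff 2 = exYY q a b := by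
    unfold exc2
    simp only [coeff_add, coeff_X_mul, coeff_C, coeff_X_pow_mul']
    norm_num
  have l3 : (exc3 q a b).coeff 3 = 4 * b + q 1 3 * a + q 0 3 := by
    unfold exc3
    simp only [coeff_add, coeff_X_mul, coeff_C, coeff_X_pow_mul']
    norm_num
  have l4 : (exc4 q).coeff 4 = 1 := by
    unfold exc4
    simp only [coeff_add, coeff_C_mul, coeff_X_pow, coeff_X, coeff_C]
    norm_num
  have L1 : ExLd (exc1 q a b) 1 (exY q a b) := ⟨n1, l1⟩
  have L2 : ExLd (exc2 q a b) 2 (exYY q a b) := ⟨n2, l2⟩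
  have L3 : ExLd (exc3 q a b) 3 (4 * b + q 1 3 * a + q 0 3) := ⟨n3, l3⟩
  have L4 : ExLd (exc4 q) 4 1 := ⟨n4, l4⟩
  have T1 := (L2.pow 2).mul (L3.pow 2)
  have T2 := ((ExLd.const (4 : k)).mul L1).mul (L3.pow 3)
  have T3 := ((ExLd.const (4 : k)).mul (L2.pow 3)).mul L4
  have T4 := ((((ExLd.const (18 : k)).mul L1).mul L2).mul L3).mul L4
  have T5 := ((ExLd.const (27 : k)).mul (L1.pow 2)).mul (L4.pow 2)
  norm_num only at T1 T2 T3 T4 T5
  have T := (((T1.sub T2).sub T3).add T4).sub T5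
  have e1 : DP (exQ q) a b = (exc2 q a b) ^ 2 * (exc3 q a b) ^ 2
      - C 4 * exc1 q a b * exc3 q a b ^ 3 - C 4 * exc2 q a b ^ 3 * exc4 q
      + C 18 * exc1 q a b * exc2 q a b * exc3 q a b * exc4 q
      - C 27 * exc1 q a b ^ 2 * exc4 q ^ 2 := by
    rw [exQ_DP]
    unfold disc3
    simp only [map_ofNat]
  rw [e1]
  refine ⟨T.1, T.2.trans ?_⟩
  unfold disc3
  ring

end points

end Pool.Agent.LibQuart
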