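import Pool.Agent.LibQuart.QD

/-!
Algebra of a bivariate polynomial restricted to lines.
-/

open scoped Classical
open Polynomial
open scoped Polynomial.Bivariate

namespace Pool.Agent.LibQuart

section alg
variable {R : Type} [CommRing R]

theorem bi_induct {P : R[X][Y] → Prop} (hadd : ∀ p q, P p → P q → P (p + q))
    (hmon : ∀ (c : R) (i j : ℕ), P (C (C c * X ^ i) * X ^ j)) (p : R[X][Y]) : P p := by
  induction p using Polynomial.induction_on' with
  | add p q hp hq => exact hadd p q hp hq
  | monomial j q =>
    rw [← C_mul_X_pow_eq_monomial]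
    induction q using Polynomial.induction_on' with
    | add p q hp hq => rw [C_add, add_mul]; exact hadd _ _ hp hq
    | monomial i c => rw [← C_mul_X_pow_eq_monomial]; exact hmon c i j

theorem aevalAeval_mon {A : Type} [CommRing A] [Algebra R A] (x y : A) (c : R) (i j : ℕ) :
    aevalAeval x y (C (C c * X ^ i) * X ^ j : R[X][Y]) = algebraMap R A c * x ^ i * y ^ j := by
  rw [map_mul, map_pow, aevalAeval_C, aevalAeval_Y, map_mul, map_pow, aeval_X, aeval_C]

theorem evalEval_mon (x y : R) (c : R) (i j : ℕ) :
    (C (C c * X ^ i) * X ^ j : R[X][Y]).evalEval x y = c * x ^ i * y ^ j := by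
  have := aevalAeval_mon (A := R) x y c i j
  rw [coe_aevalAeval_eq_evalEval] at this
  exact this

theorem Ln_mon (a b m : R) (c : R) (i j : ℕ) :
    Ln (C (C c * X ^ i) * X ^ j : R[X][Y]) a b m = C c * (C a + X) ^ i * (C b + C m * X) ^ j :=
  aevalAeval_mon _ _ _ _ _

theorem Ln_add (a b m : R) (p q : R[X][Y]) : Ln (p + q) a b m = Ln p a b m + Ln q a b m :=
  map_add _ _ _

theorem LP_mon (a b : R) (c : R) (i j : ℕ) :
    LP (C (C c * X ^ i) * X ^ j : R[X][Y]) a b
      = C (C c) * (C (C a) + X) ^ i * (C (C b) + C X * X) ^ j :=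
  aevalAeval_mon _ _ _ _ _

theorem LP_add (a b : R) (p q : R[X][Y]) : LP (p + q) a b = LP p a b + LP q a b :=
  map_add _ _ _

/-- value of the restriction to a line -/
theorem Ln_eval (f : R[X][Y]) (a b m s : R) :
    (Ln f a b m).eval s = f.evalEval (a + s) (b + m * s) := by
  induction f using bi_induct with
  | hadd p q hp hq => rw [Ln_add, eval_add, hp, hq, evalEval_add]
  | hmon c i j => rw [Ln_mon, evalEval_mon]; simp

theorem Ln_coeff_zero (f : R[X][Y]) (a b m : R) : (Ln f a b m).coeff 0 = f.evalEval a b := by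
  have := Ln_eval f a b m 0
  rw [mul_zero, add_zero, add_zero] at this
  rw [← this, coeff_zero_eq_eval_zero]

/-- the restriction to a line, from the pencil of lines -/
theorem LP_map (f : R[X][Y]) (a b m : R) :
    (LP f a b).map (evalRingHom m) = Ln f a b m := by
  induction f using bi_induct with
  | hadd p q hp hq => rw [LP_add, Polynomial.map_add, hp, hq, Ln_add]
  | hmon c i j => rw [LP_mon, Ln_mon]; simp

theorem LP_coeff_eval (f : R[X][Y]) (a b m : R) (i : ℕ) :
    ((LP f a b).coeff i).eval m = (Ln f a b m).coeff i := by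
  rw [← LP_map, coeff_map, coe_evalRingHom]

theorem DP_eval (f : R[X][Y]) (a b m : R) :
    (DP f a b).eval m = disc3 ((Ln f a b m).coeff 1) ((Ln f a b m).coeff 2)
      ((Ln f a b m).coeff 3) ((Ln f a b m).coeff 4) := by
  simp only [DP, disc3, ← LP_coeff_eval]
  simp only [eval_add, eval_sub, eval_mul, eval_pow, eval_ofNat]

/-- expansion in powers of the outer variable -/
theorem Ln_eq_sum (f : R[X][Y]) (hf : TD 4 f) (a b m : R) :
    Ln f a b m = ∑ j ∈ Finset.range 5, aeval (C a + X) (f.coeff j) * (C b + C m * X) ^ j := by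
  have hdeg : f.natDegree < 5 := by
    by_contra h
    push Not at h
    have h1 : f.coeff f.natDegree ≠ 0 := by
      intro h0
      have : f = 0 := leadingCoeff_eq_zero.mp h0
      rw [this] at h
      simp at h
    have := hf _ h1
    omega
  unfold Ln
  conv_lhs => rw [f.as_sum_range' 5 hdeg, map_sum]
  apply Finset.sum_congr rfl
  intro j _
  rw [← C_mul_X_pow_eq_monomial, map_mul, map_pow, aevalAeval_C, aevalAeval_Y]

theorem natDegree_aeval_le (q : R[X]) (a : R) : (aeval (C a + X) q : R[X]).natDegree ≤ q.natDegree := by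
  rcases subsingleton_or_nontrivial R with h | h
  · have : (aeval (C a + X) q : R[X]) = 0 := Subsingleton.elim _ _
    rw [this]; simp
  · rw [← comp_eq_aeval]
    refine natDegree_comp_le.trans ?_
    rw [add_comm, natDegree_X_add_C, mul_one]

theorem natDegree_lin_le (b m : R) (j : ℕ) : ((C b + C m * X : R[X]) ^ j).natDegree ≤ j := by
  refine natDegree_pow_le.trans ?_
  calc j * (C b + C m * X : R[X]).natDegree ≤ j * 1 := by
        apply Nat.mul_le_mul_left
        rw [add_comm]
        exact natDegree_linear_le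
    _ = j := mul_one j

theorem Ln_natDegree_le (f : R[X][Y]) (hf : TD 4 f) (a b m : R) : (Ln f a b m).natDegree ≤ 4 := by
  rw [Ln_eq_sum f hf]
  apply natDegree_sum_le_of_forall_le
  intro j _
  by_cases h0 : f.coeff j = 0
  · rw [h0]; simp
  · have h1 := hf j h0
    refine natDegree_mul_le.trans ?_
    have h2 := natDegree_aeval_le (f.coeff j) a
    have h3 := natDegree_lin_le b m j
    omega

theorem coeff_aeval_top (q : R[X]) (a : R) {n : ℕ} (hn : q.natDegree ≤ n) :
    (aeval (C a + X) q : R[X]).coeff n = q.coeff n := by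
  rw [← comp_eq_aeval, add_comm]
  rcases lt_or_eq_of_le hn with h | h
  · rw [coeff_eq_zero_of_natDegree_lt h, coeff_eq_zero_of_natDegree_lt]
    refine lt_of_le_of_lt ?_ h
    have := natDegree_aeval_le q a
    rwa [← comp_eq_aeval, add_comm] at this
  · subst h
    have := taylor_coeff (r := a) (f := q) q.natDegree
    change (taylor a q).coeff q.natDegree = _
    rw [← natDegree_taylor q a]
    change (taylor a q).leadingCoeff = _
    rw [leadingCoeff_taylor, natDegree_taylor]
    rfl

theorem coeff_lin_top (b m : R) (j : ℕ) : ((C b + C m * X : R[X]) ^ j).coeff j = m ^ j := by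
  have h := coeff_pow_of_natDegree_le (p := (C b + C m * X : R[X])) (m := j) (n := 1)
    (by rw [add_comm]; exact natDegree_linear_le)
  rw [mul_one] at h
  rw [h]
  simp

/-- the coefficient of degree 4 of the restriction to a line -/
theorem Ln_coeff_four (f : R[X][Y]) (hf : TD 4 f) (a b m : R) :
    (Ln f a b m).coeff 4 = (flip 4 f).evalEval 0 m := by
  rw [Ln_eq_sum f hf, finsetSum_coeff, flip, evalEval_finsetSum]
  apply Finset.sum_congr rfl
  intro j hj
  have hj4 : j ≤ 4 := by have := Finset.mem_range.mp hj; omega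
  rw [evalEval_mul, evalEval_C, evalEval_pow, evalEval_X, ← coeff_zero_eq_eval_zero, coeff_reflect,
    revAt_zero]
  by_cases h0 : f.coeff j = 0
  · rw [h0]; simp
  · have h1 := hf j h0
    have h2 : 4 = (4 - j) + j := by omega
    conv_lhs => rw [h2]
    rw [coeff_mul_add_eq_of_natDegree_le ((natDegree_aeval_le _ _).trans (by omega))
      (natDegree_lin_le b m j), coeff_aeval_top _ _ (by omega), coeff_lin_top]

end alg

end Pool.Agent.LibQuart
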