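import Pool.Agent.LibQuart.NearAlg

/-!
Roots of polynomials with close coefficients over an algebraically closed nonarchimedean field.
-/

open scoped Classical
open Polynomial Filter Topology
open scoped Polynomial.Bivariate

namespace Pool.Agent.LibQuart

section root
variable {k : Type} [NormedField k] [IsUltrametricDist k]

theorem prod_coeff_le {ρ : ℝ} (hρ : 0 < ρ) (s : Multiset k) (hs : ∀ x ∈ s, ρ ≤ ‖x‖) (r : ℕ) :
    ‖(s.map fun x => X - C x).prod.coeff r‖ * ρ ^ r ≤ ‖(s.map fun x => X - C x).prod.coeff 0‖ := by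
  induction s using Multiset.induction_on generalizing r with
  | empty =>
    simp only [Multiset.map_zero, Multiset.prod_zero, coeff_one]
    by_cases h : r = 0
    · subst h; simp
    · rw [if_neg h]; simp
  | cons x s ih =>
    have ih' := ih (fun y hy => hs y (Multiset.mem_cons_of_mem hy))
    have hx := hs x (Multiset.mem_cons_self x s)
    set Q := (s.map fun x => X - C x).prod with hQ
    rw [Multiset.map_cons, Multiset.prod_cons, ← hQ]
    have e0 : ((X - C x) * Q).coeff 0 = - (x * Q.coeff 0) := by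
      rw [sub_mul, coeff_sub, coeff_C_mul, mul_coeff_zero, coeff_X_zero, zero_mul, zero_sub]
    rw [e0, norm_neg, norm_mul]
    rcases r with _ | r
    · rw [e0, norm_neg, norm_mul, pow_zero, mul_one]
    · have e1 : ((X - C x) * Q).coeff (r + 1) = Q.coeff r - x * Q.coeff (r + 1) := by
        rw [sub_mul, coeff_sub, coeff_X_mul, coeff_C_mul]
      rw [e1]
      have h1 : ‖Q.coeff r - x * Q.coeff (r + 1)‖ ≤ max ‖Q.coeff r‖ ‖x * Q.coeff (r + 1)‖ :=
        by
          rw [sub_eq_add_neg]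
          refine (IsUltrametricDist.norm_add_le_max _ _).trans ?_
          rw [norm_neg]
      have h2 : ‖Q.coeff r‖ * ρ ^ (r + 1) ≤ ‖x‖ * ‖Q.coeff 0‖ := by
        calc ‖Q.coeff r‖ * ρ ^ (r + 1) = ρ * (‖Q.coeff r‖ * ρ ^ r) := by ring
          _ ≤ ‖x‖ * ‖Q.coeff 0‖ := mul_le_mul hx (ih' r) (by positivity) (by positivity)
      have h3 : ‖x * Q.coeff (r + 1)‖ * ρ ^ (r + 1) ≤ ‖x‖ * ‖Q.coeff 0‖ := by
        rw [norm_mul, mul_assoc]
        exact mul_le_mul_of_nonneg_left (ih' (r + 1)) (norm_nonneg _)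
      calc ‖Q.coeff r - x * Q.coeff (r + 1)‖ * ρ ^ (r + 1)
          ≤ max ‖Q.coeff r‖ ‖x * Q.coeff (r + 1)‖ * ρ ^ (r + 1) :=
            mul_le_mul_of_nonneg_right h1 (by positivity)
        _ = max (‖Q.coeff r‖ * ρ ^ (r + 1)) (‖x * Q.coeff (r + 1)‖ * ρ ^ (r + 1)) :=
            max_mul_of_nonneg _ _ (by positivity)
        _ ≤ _ := max_le h2 h3

theorem exists_small_root [IsAlgClosed k] (P : k[X]) {ρ : ℝ} (hρ : 0 < ρ) (r : ℕ)
    (h : ‖P.coeff 0‖ < ‖P.coeff r‖ * ρ ^ r) : ∃ z, P.eval z = 0 ∧ ‖z‖ < ρ := by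
  have hP : P ≠ 0 := by
    rintro rfl
    simp at h
  by_contra hcon
  push Not at hcon
  have hspl := (IsAlgClosed.splits P).eq_prod_roots
  have hs : ∀ x ∈ P.roots, ρ ≤ ‖x‖ := fun x hx => hcon x (by
    rw [mem_roots hP] at hx; exact hx)
  have h1 := prod_coeff_le hρ P.roots hs r
  have e : ∀ i, ‖P.coeff i‖ = ‖P.leadingCoeff‖ * ‖(P.roots.map fun x => X - C x).prod.coeff i‖ := by
    intro i
    conv_lhs => rw [hspl]
    rw [coeff_C_mul, norm_mul]
  rw [e 0, e r, mul_assoc] at h
  have h2 := mul_le_mul_of_nonneg_left h1 (norm_nonneg P.leadingCoeff)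
  linarith

end root

section family
variable {T : Type} [TopologicalSpace T] {k : Type} [NormedField k]

/-- a family of polynomials with continuous coefficients and bounded degree -/
def Gd (F : T → k[X]) : Prop :=
  (∀ n, Continuous fun t => (F t).coeff n) ∧ ∃ D, ∀ t, (F t).natDegree ≤ D

theorem Gd.const (P : k[X]) : Gd (fun _ : T => P) := ⟨fun _ => continuous_const, _, fun _ => le_rfl⟩

theorem Gd.C {a : T → k} (ha : Continuous a) : Gd (fun t => C (a t)) := by
  refine ⟨fun n => ?_, 0, fun t => by simp⟩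
  simp only [coeff_C]
  by_cases h : n = 0
  · simp only [h, if_true]; exact ha
  · simp only [h, if_false]; exact continuous_const

theorem Gd.add {F G : T → k[X]} (hF : Gd F) (hG : Gd G) : Gd (fun t => F t + G t) := by
  obtain ⟨h1, D1, h2⟩ := hF
  obtain ⟨h3, D2, h4⟩ := hG
  refine ⟨fun n => ?_, max D1 D2, fun t => ?_⟩
  · simp only [coeff_add]; exact (h1 n).add (h3 n)
  · exact (natDegree_add_le _ _).trans (max_le_max (h2 t) (h4 t))

theorem Gd.sub {F G : T → k[X]} (hF : Gd F) (hG : Gd G) : Gd (fun t => F t - G t) := by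
  obtain ⟨h1, D1, h2⟩ := hF
  obtain ⟨h3, D2, h4⟩ := hG
  refine ⟨fun n => ?_, max D1 D2, fun t => ?_⟩
  · simp only [coeff_sub]; exact (h1 n).sub (h3 n)
  · exact (natDegree_sub_le _ _).trans (max_le_max (h2 t) (h4 t))

theorem Gd.mul {F G : T → k[X]} (hF : Gd F) (hG : Gd G) : Gd (fun t => F t * G t) := by
  obtain ⟨h1, D1, h2⟩ := hF
  obtain ⟨h3, D2, h4⟩ := hG
  refine ⟨fun n => ?_, D1 + D2, fun t => ?_⟩
  · simp only [coeff_mul]
    exact continuous_finsetSum _ fun p _ => (h1 p.1).mul (h3 p.2)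
  · exact natDegree_mul_le.trans (add_le_add (h2 t) (h4 t))

theorem Gd.pow {F : T → k[X]} (hF : Gd F) (n : ℕ) : Gd (fun t => F t ^ n) := by
  induction n with
  | zero => simp only [pow_zero]; exact Gd.const 1
  | succ n ih => simp only [pow_succ]; exact ih.mul hF

theorem Gd.sum {ι : Type} (s : Finset ι) {F : ι → T → k[X]} (hF : ∀ i ∈ s, Gd (F i)) :
    Gd (fun t => ∑ i ∈ s, F i t) := by
  induction s using Finset.induction_on with
  | empty => simp only [Finset.sum_empty]; exact Gd.const 0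
  | insert a s ha ih =>
    simp only [Finset.sum_insert ha]
    exact (hF a (Finset.mem_insert_self _ _)).add
      (ih fun i hi => hF i (Finset.mem_insert_of_mem hi))

theorem Gd.eval {F : T → k[X]} (hF : Gd F) {a : T → k} (ha : Continuous a) :
    Continuous fun t => (F t).eval (a t) := by
  obtain ⟨h1, D, h2⟩ := hF
  have e : (fun t => (F t).eval (a t)) = fun t => ∑ i ∈ Finset.range (D + 1),
      (F t).coeff i * a t ^ i := by
    funext t
    exact eval_eq_sum_range' (by have := h2 t; omega) _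
  rw [e]
  exact continuous_finsetSum _ fun i _ => (h1 i).mul (ha.pow i)

/-- the family shifted to a point -/
theorem Gd.shift {F : T → k[X]} (hF : Gd F) (z : k) : Gd (fun t => (F t).comp (X + Polynomial.C z)) := by
  obtain ⟨h1, D, h2⟩ := hF
  have e : (fun t => (F t).comp (X + Polynomial.C z)) = fun t => ∑ i ∈ Finset.range (D + 1),
      Polynomial.C ((F t).coeff i) * (X + Polynomial.C z) ^ i := by
    funext t
    have h3 : F t = ∑ i ∈ Finset.range (D + 1), Polynomial.C ((F t).coeff i) * X ^ i := by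
      conv_lhs => rw [(F t).as_sum_range' (D + 1) (by have := h2 t; omega)]
      apply Finset.sum_congr rfl
      intro i _
      rw [C_mul_X_pow_eq_monomial]
    conv_lhs => rw [h3]
    rw [Polynomial.sum_comp]
    apply Finset.sum_congr rfl
    intro i _
    rw [mul_comp, C_comp, pow_comp, X_comp]
  rw [e]
  exact Gd.sum _ fun i _ => (Gd.C (h1 i)).mul (Gd.const _)

/-- roots move continuously -/
theorem near_root [IsUltrametricDist k] [IsAlgClosed k] {F : T → k[X]} (hF : Gd F) (t₀ : T) (z₀ : k)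
    (h0 : F t₀ ≠ 0) (hz : (F t₀).eval z₀ = 0) {ε : ℝ} (hε : 0 < ε) :
    ∀ᶠ t in 𝓝 t₀, ∃ z, (F t).eval z = 0 ∧ ‖z - z₀‖ < ε := by
  have hG := hF.shift z₀
  have hne : (F t₀).comp (X + C z₀) ≠ 0 := by
    intro h
    apply h0
    have := congrArg (fun p : k[X] => p.comp (X - C z₀)) h
    simpa [comp_assoc] using this
  obtain ⟨r, hr⟩ : ∃ r, ((F t₀).comp (X + C z₀)).coeff r ≠ 0 := by
    by_contra hcon
    push Not at hcon
    exact hne (Polynomial.ext fun n => by rw [hcon n, coeff_zero])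
  have h1 : ((F t₀).comp (X + C z₀)).coeff 0 = 0 := by
    rw [coeff_zero_eq_eval_zero, eval_comp]
    simpa using hz
  have c1 : Tendsto (fun t => ‖((F t).comp (X + C z₀)).coeff 0‖) (𝓝 t₀)
      (𝓝 ‖((F t₀).comp (X + C z₀)).coeff 0‖) := (hG.1 0).norm.continuousAt
  have c2 : Tendsto (fun t => ‖((F t).comp (X + C z₀)).coeff r‖ * ε ^ r) (𝓝 t₀)
      (𝓝 (‖((F t₀).comp (X + C z₀)).coeff r‖ * ε ^ r)) :=
    ((hG.1 r).norm.mul continuous_const).continuousAt
  have hlt : ‖((F t₀).comp (X + C z₀)).coeff 0‖ < ‖((F t₀).comp (X + C z₀)).coeff r‖ * ε ^ r := by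
    rw [h1, norm_zero]
    have := norm_pos_iff.mpr hr
    positivity
  filter_upwards [c1.eventually_lt c2 hlt] with t ht
  obtain ⟨w, hw1, hw2⟩ := exists_small_root _ hε r ht
  refine ⟨w + z₀, ?_, by simpa using hw2⟩
  rw [eval_comp] at hw1
  simpa using hw1

end family

end Pool.Agent.LibQuart
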