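import Pool.Agent.LibBH2.Place

/-!
Smooth plane quartics in affine form `f(x, y) = 0` (`f` monic of degree 4 in `y`, total degree 4),
their function fields in two charts, local rings, and reduction with respect to a
nonarchimedean absolute value.
-/

open scoped Classical
open Polynomial
open scoped Polynomial.Bivariate

namespace Pool.Agent.LibQuart

open Pool.Agent.LibBH2

section poly
variable {R : Type} [CommRing R]

/-- `p` has total degree at most `d`. -/
def TD (d : ℕ) (p : R[X][Y]) : Prop := ∀ j, p.coeff j ≠ 0 → j + (p.coeff j).natDegree ≤ d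

/-- `x ^ d * p (1 / x, y / x)`: the polynomial in the chart at infinity. -/
noncomputable def flip (d : ℕ) (p : R[X][Y]) : R[X][Y] :=
  ∑ j ∈ Finset.range (d + 1), C ((p.coeff j).reflect (d - j)) * X ^ j

/-- A plane quartic in affine form: monic of degree 4 in `y`, of total degree 4. -/
structure Qt (f : R[X][Y]) : Prop where
  monic : f.Monic
  deg : f.natDegree = 4
  td : TD 4 f

/-- partial derivative with respect to `x`, at the point `(a, b)` -/
noncomputable def dX (f : R[X][Y]) (a b : R) : R := (derivative (f.eval (C b))).eval a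

/-- partial derivative with respect to `y`, at the point `(a, b)` -/
noncomputable def dY (f : R[X][Y]) (a b : R) : R := (derivative f).evalEval a b

/-- partial derivative with respect to `x`, as a polynomial -/
noncomputable def fx (f : R[X][Y]) : R[X][Y] := Bivariate.swap (derivative (Bivariate.swap f))

/-- smoothness at all affine points -/
def Sm (f : R[X][Y]) : Prop := ∀ a b, f.evalEval a b = 0 → dX f a b ≠ 0 ∨ dY f a b ≠ 0

/-- `f` restricted to the line through `(a, b)` of slope `m`: a polynomial in the parameter `s`,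
`f (a + s, b + m s)`. -/
noncomputable def Ln (f : R[X][Y]) (a b m : R) : R[X] :=
  aevalAeval (C a + X) (C b + C m * X) f

/-- the same with the slope as a variable: outer variable `s`, inner variable the slope -/
noncomputable def LP (f : R[X][Y]) (a b : R) : R[X][Y] :=
  aevalAeval (C (C a) + X) (C (C b) + C X * X) f

/-- discriminant of the cubic `c4 s^3 + c3 s^2 + c2 s + c1` -/
def disc3 {S : Type} [CommRing S] (c1 c2 c3 c4 : S) : S :=
  c2 ^ 2 * c3 ^ 2 - 4 * c1 * c3 ^ 3 - 4 * c2 ^ 3 * c4 + 18 * c1 * c2 * c3 * c4 - 27 * c1 ^ 2 * c4 ^ 2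

/-- discriminant (in `s`) of `f (a + s, b + m s) / s`, as a polynomial in the slope `m` -/
noncomputable def DP (f : R[X][Y]) (a b : R) : R[X] :=
  disc3 ((LP f a b).coeff 1) ((LP f a b).coeff 2) ((LP f a b).coeff 3) ((LP f a b).coeff 4)

end poly

section field
variable {k : Type} [Field k] {K : Type} [Field K] [Algebra k K]

/-- `K` is the function field of `f = 0`, with generic point `(x, y)`. -/
structure FF (f : k[X][Y]) (x y : K) : Prop where
  root : aevalAeval x y f = 0
  inj : ∀ p : k[X][Y], aevalAeval x y p = 0 → f ∣ p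
  gen : ∀ φ : K, ∃ p q : k[X][Y], aevalAeval x y q ≠ 0 ∧ φ * aevalAeval x y q = aevalAeval x y p

/-- `φ` is regular at the point `(a, b)`: it is a quotient of polynomials with denominator not
vanishing at `(a, b)`. -/
def Rg (x y : K) (a b : k) (φ : K) : Prop :=
  ∃ g h : k[X][Y], h.evalEval a b ≠ 0 ∧ φ * aevalAeval x y h = aevalAeval x y g

/-- the place `v` is centred at the affine point `(a, b)` -/
def Cen (v : Place k K) (x y : K) (a b : k) : Prop :=
  v.Zer (x - algebraMap k K a) ∧ v.Zer (y - algebraMap k K b)

end field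

/-- A nonarchimedean absolute value on `k` with residue field `κ`. -/
structure Red (k κ : Type) [Field k] [Field κ] where
  /-- the absolute value -/
  N : AbsoluteValue k ℝ
  na : ∀ a b, N (a + b) ≤ max (N a) (N b)
  /-- the valuation ring -/
  O : Subring k
  mem_O : ∀ c, c ∈ O ↔ N c ≤ 1
  /-- the reduction -/
  red : O →+* κ
  surj : Function.Surjective red
  ker : ∀ c : O, red c = 0 ↔ N (c : k) < 1
  nat : ∀ j : ℕ, j ≠ 0 → (1 : ℝ) / j ≤ N (j : k)

namespace Red
variable {k κ : Type} [Field k] [Field κ] (R : Red k κ)

/-- a polynomial over the valuation ring as a polynomial over the field -/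
noncomputable def up (p : R.O[X][Y]) : k[X][Y] := p.map (mapRingHom R.O.subtype)

/-- the reduction of a polynomial -/
noncomputable def dn (p : R.O[X][Y]) : κ[X][Y] := p.map (mapRingHom R.red)

variable {K K' : Type} [Field K] [Algebra k K] [Field K'] [Algebra κ K']

/-- `φ` is integral for the Gauss valuation and reduces to `ψ` -/
def Rd (x y : K) (x' y' : K') (φ : K) (ψ : K') : Prop :=
  ∃ p q : R.O[X][Y], aevalAeval x' y' (R.dn q) ≠ 0 ∧
    φ * aevalAeval x y (R.up q) = aevalAeval x y (R.up p) ∧
    ψ * aevalAeval x' y' (R.dn q) = aevalAeval x' y' (R.dn p)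

end Red

/-- A quartic with good reduction, its function field and that of its reduction. -/
structure GR {k κ : Type} [Field k] [Field κ] (R : Red k κ) (f : R.O[X][Y])
    {K K' : Type} [Field K] [Algebra k K] [Field K'] [Algebra κ K'] (x y : K) (x' y' : K') : Prop where
  qt : Qt f
  sm : Sm (R.up f)
  sm2 : Sm (R.up (flip 4 f))
  smr : Sm (R.dn f)
  smr2 : Sm (R.dn (flip 4 f))
  ff : FF (R.up f) x y
  ffr : FF (R.dn f) x' y'

/-- Parameters of a configuration: a point `c = (x, y)` and two lines through `c`, of slopes `m`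
and `m'`; the first one is tangent at `a = (x + s, y + m s)` and meets the curve also at
`b = (x + t, y + m t)`; the second one is tangent at `a' = (x + s', y + m' s')` and meets the curve
also at `b' = (x + t', y + m' t')`. -/
structure Cf (k : Type) where
  (x y m s t m' s' t' : k)

/-- The line of slope `m` through `(x, y)` meets the quartic `f = 0` in `(x, y)`, doubly at
`(x + s, y + m s)`, and at `(x + t, y + m t)`; the points are different, and the tangents at the
last two are not vertical. -/
def Half {k : Type} [Field k] (f : k[X][Y]) (x y m s t : k) : Prop :=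
  s ≠ 0 ∧ t ≠ 0 ∧ s ≠ t ∧ (flip 4 f).evalEval 0 m ≠ 0 ∧
    Ln f x y m = C ((flip 4 f).evalEval 0 m) * X * (X - C s) ^ 2 * (X - C t) ∧
    dY f (x + s) (y + m * s) ≠ 0 ∧ dY f (x + t) (y + m * t) ≠ 0

/-- `c` is a configuration on the quartic `f = 0`. -/
structure IsCfg {k : Type} [Field k] (f : k[X][Y]) (c : Cf k) : Prop where
  pt : f.evalEval c.x c.y = 0
  dy : dY f c.x c.y ≠ 0
  h1 : Half f c.x c.y c.m c.s c.t
  h2 : Half f c.x c.y c.m' c.s' c.t'
  ne : c.m ≠ c.m'

end Pool.Agent.LibQuart
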